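import Pool.Agent.Work.MP_a2bf38_gt.Fu.TFlow
import Pool.Agent.Work.MP_a2bf38_gt.H.Defs
import Mathlib.MeasureTheory.Function.Jacobian

section

/-!
# Wirtinger derivatives of functions on `ℂ^n = ℝ^n × ℝ^n`
-/

open scoped ContDiff Topology
open Set MeasureTheory Filter Pool.Agent.ToricKRF Pool.Agent.ToricKRF.G

namespace Pool.Agent.KRFQ

variable {n : ℕ}

/-- the real direction `x_k` -/
def eR (k : Fin n) : Cn n := (Pi.single k 1, 0)

/-- the real direction `y_k` -/
def eI (k : Fin n) : Cn n := (0, Pi.single k 1)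

theorem J_eR (k : Fin n) : J (eR k) = eI k := by
  ext j <;> simp [J, eR, eI]

theorem J_eI (k : Fin n) : J (eI k) = -eR k := by
  ext j <;> simp [J, eR, eI]

/-- `∂ f / ∂ z_k` -/
noncomputable def dz (k : Fin n) (f : Cn n → ℂ) (x : Cn n) : ℂ :=
  (fderiv ℝ f x (eR k) - Complex.I * fderiv ℝ f x (eI k)) / 2

/-- `∂ f / ∂ zbar_k` -/
noncomputable def dzb (k : Fin n) (f : Cn n → ℂ) (x : Cn n) : ℂ :=
  (fderiv ℝ f x (eR k) + Complex.I * fderiv ℝ f x (eI k)) / 2

theorem dz_congr {f g : Cn n → ℂ} {x : Cn n} (h : f =ᶠ[𝓝 x] g) (k : Fin n) :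
    dz k f x = dz k g x := by
  simp only [dz, h.fderiv_eq]

theorem dzb_congr {f g : Cn n → ℂ} {x : Cn n} (h : f =ᶠ[𝓝 x] g) (k : Fin n) :
    dzb k f x = dzb k g x := by
  simp only [dzb, h.fderiv_eq]

theorem dz_congr' {f g : Cn n → ℂ} {x : Cn n} (h : f =ᶠ[𝓝 x] g) (k : Fin n) :
    dz k f =ᶠ[𝓝 x] dz k g := by
  filter_upwards [h.eventuallyEq_nhds] with y hy using dz_congr hy k

theorem dzb_congr' {f g : Cn n → ℂ} {x : Cn n} (h : f =ᶠ[𝓝 x] g) (k : Fin n) :
    dzb k f =ᶠ[𝓝 x] dzb k g := by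
  filter_upwards [h.eventuallyEq_nhds] with y hy using dzb_congr hy k

theorem dz_const (k : Fin n) (c : ℂ) (x : Cn n) : dz k (fun _ => c) x = 0 := by
  simp [dz]

theorem dzb_const (k : Fin n) (c : ℂ) (x : Cn n) : dzb k (fun _ => c) x = 0 := by
  simp [dzb]

theorem dz_add {f g : Cn n → ℂ} {x : Cn n} (hf : DifferentiableAt ℝ f x)
    (hg : DifferentiableAt ℝ g x) (k : Fin n) :
    dz k (fun y => f y + g y) x = dz k f x + dz k g x := by
  simp only [dz]
  rw [fderiv_fun_add hf hg]
  simp only [add_apply]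
  ring

theorem dzb_add {f g : Cn n → ℂ} {x : Cn n} (hf : DifferentiableAt ℝ f x)
    (hg : DifferentiableAt ℝ g x) (k : Fin n) :
    dzb k (fun y => f y + g y) x = dzb k f x + dzb k g x := by
  simp only [dzb]
  rw [fderiv_fun_add hf hg]
  simp only [add_apply]
  ring

theorem dz_sub {f g : Cn n → ℂ} {x : Cn n} (hf : DifferentiableAt ℝ f x)
    (hg : DifferentiableAt ℝ g x) (k : Fin n) :
    dz k (fun y => f y - g y) x = dz k f x - dz k g x := by
  simp only [dz]
  rw [fderiv_fun_sub hf hg]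
  simp only [sub_apply]
  ring

theorem dzb_sub {f g : Cn n → ℂ} {x : Cn n} (hf : DifferentiableAt ℝ f x)
    (hg : DifferentiableAt ℝ g x) (k : Fin n) :
    dzb k (fun y => f y - g y) x = dzb k f x - dzb k g x := by
  simp only [dzb]
  rw [fderiv_fun_sub hf hg]
  simp only [sub_apply]
  ring

theorem dz_sum {κ : Type*} (s : Finset κ) {f : κ → Cn n → ℂ} {x : Cn n}
    (hf : ∀ i ∈ s, DifferentiableAt ℝ (f i) x) (k : Fin n) :
    dz k (fun y => ∑ i ∈ s, f i y) x = ∑ i ∈ s, dz k (f i) x := by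
  simp only [dz]
  rw [fderiv_fun_sum hf]
  simp only [sum_apply]
  rw [Finset.mul_sum, ← Finset.sum_sub_distrib, Finset.sum_div]

theorem dzb_sum {κ : Type*} (s : Finset κ) {f : κ → Cn n → ℂ} {x : Cn n}
    (hf : ∀ i ∈ s, DifferentiableAt ℝ (f i) x) (k : Fin n) :
    dzb k (fun y => ∑ i ∈ s, f i y) x = ∑ i ∈ s, dzb k (f i) x := by
  simp only [dzb]
  rw [fderiv_fun_sum hf]
  simp only [sum_apply]
  rw [Finset.mul_sum, ← Finset.sum_add_distrib, Finset.sum_div]

theorem dz_mul {f g : Cn n → ℂ} {x : Cn n} (hf : DifferentiableAt ℝ f x)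
    (hg : DifferentiableAt ℝ g x) (k : Fin n) :
    dz k (fun y => f y * g y) x = dz k f x * g x + f x * dz k g x := by
  simp only [dz]
  rw [fderiv_fun_mul hf hg]
  simp only [add_apply, smul_apply, smul_eq_mul]
  ring

theorem dzb_mul {f g : Cn n → ℂ} {x : Cn n} (hf : DifferentiableAt ℝ f x)
    (hg : DifferentiableAt ℝ g x) (k : Fin n) :
    dzb k (fun y => f y * g y) x = dzb k f x * g x + f x * dzb k g x := by
  simp only [dzb]
  rw [fderiv_fun_mul hf hg]
  simp only [add_apply, smul_apply, smul_eq_mul]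
  ring

theorem fderiv_conj {f : Cn n → ℂ} {x : Cn n} (hf : DifferentiableAt ℝ f x) (u : Cn n) :
    fderiv ℝ (fun y => (starRingEnd ℂ) (f y)) x u = (starRingEnd ℂ) (fderiv ℝ f x u) := by
  have h := (Complex.conjCLE.toContinuousLinearMap.hasFDerivAt (x := f x)).comp x hf.hasFDerivAt
  have h2 : (fun y => (starRingEnd ℂ) (f y)) = (Complex.conjCLE.toContinuousLinearMap ∘ f) := by
    funext y
    simp
  rw [h2, h.fderiv]
  simp

theorem differentiableAt_conj {f : Cn n → ℂ} {x : Cn n} (hf : DifferentiableAt ℝ f x) :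
    DifferentiableAt ℝ (fun y => (starRingEnd ℂ) (f y)) x := by
  have h := (Complex.conjCLE.toContinuousLinearMap.differentiableAt (x := f x)).comp x hf
  have h2 : (fun y => (starRingEnd ℂ) (f y)) = (Complex.conjCLE.toContinuousLinearMap ∘ f) := by
    funext y
    simp
  rwa [h2]

theorem dz_conj {f : Cn n → ℂ} {x : Cn n} (hf : DifferentiableAt ℝ f x) (k : Fin n) :
    dz k (fun y => (starRingEnd ℂ) (f y)) x = (starRingEnd ℂ) (dzb k f x) := by
  simp only [dz, dzb, fderiv_conj hf, map_div₀, map_add, map_mul, Complex.conj_I, map_ofNat]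
  ring

theorem dzb_conj {f : Cn n → ℂ} {x : Cn n} (hf : DifferentiableAt ℝ f x) (k : Fin n) :
    dzb k (fun y => (starRingEnd ℂ) (f y)) x = (starRingEnd ℂ) (dz k f x) := by
  simp only [dz, dzb, fderiv_conj hf, map_div₀, map_sub, map_mul, Complex.conj_I, map_ofNat]
  ring

theorem contDiffOn_fderiv_apply {f : Cn n → ℂ} {U : Set (Cn n)} (hU : IsOpen U)
    (hf : ContDiffOn ℝ ∞ f U) (u : Cn n) : ContDiffOn ℝ ∞ (fun x => fderiv ℝ f x u) U := by
  have h1 : ContDiffOn ℝ ∞ (fderiv ℝ f) U :=
    ((contDiffOn_infty_iff_fderiv_of_isOpen hU).1 hf).2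
  exact h1.clm_apply contDiffOn_const

theorem contDiffOn_dz {f : Cn n → ℂ} {U : Set (Cn n)} (hU : IsOpen U)
    (hf : ContDiffOn ℝ ∞ f U) (k : Fin n) : ContDiffOn ℝ ∞ (dz k f) U := by
  unfold dz
  exact ((contDiffOn_fderiv_apply hU hf _).sub
    (contDiffOn_const.mul (contDiffOn_fderiv_apply hU hf _))).div_const 2

theorem contDiffOn_dzb {f : Cn n → ℂ} {U : Set (Cn n)} (hU : IsOpen U)
    (hf : ContDiffOn ℝ ∞ f U) (k : Fin n) : ContDiffOn ℝ ∞ (dzb k f) U := by
  unfold dzb
  exact ((contDiffOn_fderiv_apply hU hf _).add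
    (contDiffOn_const.mul (contDiffOn_fderiv_apply hU hf _))).div_const 2

theorem contDiff_dz {f : Cn n → ℂ} (hf : ContDiff ℝ ∞ f) (k : Fin n) : ContDiff ℝ ∞ (dz k f) := by
  rw [← contDiffOn_univ] at hf ⊢
  exact contDiffOn_dz isOpen_univ hf k

theorem contDiff_dzb {f : Cn n → ℂ} (hf : ContDiff ℝ ∞ f) (k : Fin n) :
    ContDiff ℝ ∞ (dzb k f) := by
  rw [← contDiffOn_univ] at hf ⊢
  exact contDiffOn_dzb isOpen_univ hf k

theorem fderiv_fderiv_comm {f : Cn n → ℂ} {x : Cn n} {U : Set (Cn n)} (hU : IsOpen U)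
    (hf : ContDiffOn ℝ ∞ f U) (hx : x ∈ U) (u w : Cn n) :
    fderiv ℝ (fun y => fderiv ℝ f y u) x w = fderiv ℝ (fun y => fderiv ℝ f y w) x u := by
  have hfa : ContDiffAt ℝ ∞ f x := hf.contDiffAt (hU.mem_nhds hx)
  have hs : IsSymmSndFDerivAt ℝ f x := by
    apply hfa.isSymmSndFDerivAt
    rw [minSmoothness_of_isRCLikeNormedField]
    exact WithTop.coe_le_coe.2 le_top
  have h1 : ContDiffOn ℝ ∞ (fderiv ℝ f) U :=
    ((contDiffOn_infty_iff_fderiv_of_isOpen hU).1 hf).2
  have h2 : DifferentiableAt ℝ (fderiv ℝ f) x :=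
    (h1.differentiableOn (by simp)).differentiableAt (hU.mem_nhds hx)
  have key : ∀ a b : Cn n, fderiv ℝ (fun y => fderiv ℝ f y b) x a =
      fderiv ℝ (fderiv ℝ f) x a b := by
    intro a b
    rw [fderiv_clm_apply h2 (differentiableAt_const b)]
    simp
  rw [key, key]
  exact hs w u

theorem fderiv_dz {f : Cn n → ℂ} {x : Cn n} {U : Set (Cn n)} (hU : IsOpen U)
    (hf : ContDiffOn ℝ ∞ f U) (hx : x ∈ U) (k : Fin n) (u : Cn n) :
    fderiv ℝ (dz k f) x u = (fderiv ℝ (fun y => fderiv ℝ f y u) x (eR k) -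
      Complex.I * fderiv ℝ (fun y => fderiv ℝ f y u) x (eI k)) / 2 := by
  have h1 : ∀ v, DifferentiableAt ℝ (fun y => fderiv ℝ f y v) x := fun v =>
    ((contDiffOn_fderiv_apply hU hf v).differentiableOn (by simp)).differentiableAt
      (hU.mem_nhds hx)
  have h2 : HasFDerivAt (dz k f) ((2 : ℂ)⁻¹ • (fderiv ℝ (fun y => fderiv ℝ f y (eR k)) x -
      Complex.I • fderiv ℝ (fun y => fderiv ℝ f y (eI k)) x)) x := by
    have h3 := ((h1 (eR k)).hasFDerivAt.sub ((h1 (eI k)).hasFDerivAt.const_mul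
      Complex.I)).const_mul (2 : ℂ)⁻¹
    refine h3.congr_of_eventuallyEq (Eventually.of_forall fun y => ?_)
    simp only [dz, Pi.sub_apply]
    ring
  rw [h2.fderiv]
  simp only [smul_apply, sub_apply, smul_eq_mul]
  rw [fderiv_fderiv_comm hU hf hx (eR k) u, fderiv_fderiv_comm hU hf hx (eI k) u]
  ring

theorem fderiv_dzb {f : Cn n → ℂ} {x : Cn n} {U : Set (Cn n)} (hU : IsOpen U)
    (hf : ContDiffOn ℝ ∞ f U) (hx : x ∈ U) (k : Fin n) (u : Cn n) :
    fderiv ℝ (dzb k f) x u = (fderiv ℝ (fun y => fderiv ℝ f y u) x (eR k) +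
      Complex.I * fderiv ℝ (fun y => fderiv ℝ f y u) x (eI k)) / 2 := by
  have h1 : ∀ v, DifferentiableAt ℝ (fun y => fderiv ℝ f y v) x := fun v =>
    ((contDiffOn_fderiv_apply hU hf v).differentiableOn (by simp)).differentiableAt
      (hU.mem_nhds hx)
  have h2 : HasFDerivAt (dzb k f) ((2 : ℂ)⁻¹ • (fderiv ℝ (fun y => fderiv ℝ f y (eR k)) x +
      Complex.I • fderiv ℝ (fun y => fderiv ℝ f y (eI k)) x)) x := by
    have h3 := ((h1 (eR k)).hasFDerivAt.add ((h1 (eI k)).hasFDerivAt.const_mul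
      Complex.I)).const_mul (2 : ℂ)⁻¹
    refine h3.congr_of_eventuallyEq (Eventually.of_forall fun y => ?_)
    simp only [dzb, Pi.add_apply]
    ring
  rw [h2.fderiv]
  simp only [smul_apply, add_apply, smul_eq_mul]
  rw [fderiv_fderiv_comm hU hf hx (eR k) u, fderiv_fderiv_comm hU hf hx (eI k) u]
  ring

/-- `∂_k ∂_lbar = ∂_lbar ∂_k` -/
theorem dz_dzb {f : Cn n → ℂ} {x : Cn n} {U : Set (Cn n)} (hU : IsOpen U)
    (hf : ContDiffOn ℝ ∞ f U) (hx : x ∈ U) (k l : Fin n) :
    dz k (dzb l f) x = dzb l (dz k f) x := by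
  change (fderiv ℝ (dzb l f) x (eR k) - Complex.I * fderiv ℝ (dzb l f) x (eI k)) / 2 =
    (fderiv ℝ (dz k f) x (eR l) + Complex.I * fderiv ℝ (dz k f) x (eI l)) / 2
  rw [fderiv_dzb hU hf hx l, fderiv_dzb hU hf hx l, fderiv_dz hU hf hx k, fderiv_dz hU hf hx k, fderiv_fderiv_comm hU hf hx (eI l) (eR k),
    fderiv_fderiv_comm hU hf hx (eI l) (eI k), fderiv_fderiv_comm hU hf hx (eR l) (eR k),
    fderiv_fderiv_comm hU hf hx (eR l) (eI k)]
  ring

/-- `∂_kbar ∂_lbar = ∂_lbar ∂_kbar` -/
theorem dzb_dzb {f : Cn n → ℂ} {x : Cn n} {U : Set (Cn n)} (hU : IsOpen U)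
    (hf : ContDiffOn ℝ ∞ f U) (hx : x ∈ U) (k l : Fin n) :
    dzb k (dzb l f) x = dzb l (dzb k f) x := by
  change (fderiv ℝ (dzb l f) x (eR k) + Complex.I * fderiv ℝ (dzb l f) x (eI k)) / 2 =
    (fderiv ℝ (dzb k f) x (eR l) + Complex.I * fderiv ℝ (dzb k f) x (eI l)) / 2
  rw [fderiv_dzb hU hf hx l, fderiv_dzb hU hf hx l, fderiv_dzb hU hf hx k, fderiv_dzb hU hf hx k, fderiv_fderiv_comm hU hf hx (eI l) (eR k),
    fderiv_fderiv_comm hU hf hx (eI l) (eI k), fderiv_fderiv_comm hU hf hx (eR l) (eR k),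
    fderiv_fderiv_comm hU hf hx (eR l) (eI k)]
  ring

theorem dz_dz {f : Cn n → ℂ} {x : Cn n} {U : Set (Cn n)} (hU : IsOpen U)
    (hf : ContDiffOn ℝ ∞ f U) (hx : x ∈ U) (k l : Fin n) :
    dz k (dz l f) x = dz l (dz k f) x := by
  change (fderiv ℝ (dz l f) x (eR k) - Complex.I * fderiv ℝ (dz l f) x (eI k)) / 2 =
    (fderiv ℝ (dz k f) x (eR l) - Complex.I * fderiv ℝ (dz k f) x (eI l)) / 2
  rw [fderiv_dz hU hf hx l, fderiv_dz hU hf hx l, fderiv_dz hU hf hx k, fderiv_dz hU hf hx k, fderiv_fderiv_comm hU hf hx (eI l) (eR k),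
    fderiv_fderiv_comm hU hf hx (eI l) (eI k), fderiv_fderiv_comm hU hf hx (eR l) (eR k),
    fderiv_fderiv_comm hU hf hx (eR l) (eI k)]
  ring

/-! ### Support and integrals -/

theorem dz_of_notMem {f : Cn n → ℂ} {x : Cn n} (hx : x ∉ tsupport f) (k : Fin n) :
    dz k f x = 0 := by
  rw [dz_congr (notMem_tsupport_iff_eventuallyEq.1 hx)]
  exact dz_const k 0 x

theorem dzb_of_notMem {f : Cn n → ℂ} {x : Cn n} (hx : x ∉ tsupport f) (k : Fin n) :
    dzb k f x = 0 := by
  rw [dzb_congr (notMem_tsupport_iff_eventuallyEq.1 hx)]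
  exact dzb_const k 0 x

theorem tsupport_dz_subset (k : Fin n) (f : Cn n → ℂ) : tsupport (dz k f) ⊆ tsupport f := by
  refine closure_minimal (fun x hx => ?_) (isClosed_tsupport f)
  by_contra h
  exact hx (dz_of_notMem h k)

theorem tsupport_dzb_subset (k : Fin n) (f : Cn n → ℂ) : tsupport (dzb k f) ⊆ tsupport f := by
  refine closure_minimal (fun x hx => ?_) (isClosed_tsupport f)
  by_contra h
  exact hx (dzb_of_notMem h k)

theorem haarCn : (volume : Measure (Cn n)).IsAddHaarMeasure :=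
  Measure.prod.instIsAddHaarMeasure (G := Fin n → ℝ) (H := Fin n → ℝ) volume volume

theorem integral_fderiv_eq_zero {f : Cn n → ℂ} (hf : ContDiff ℝ 1 f) (hs : HasCompactSupport f)
    (u : Cn n) : ∫ x, fderiv ℝ f x u = 0 := by
  have := haarCn (n := n)
  have h1 : Integrable (fun x => fderiv ℝ f x u) := by
    have h2 : Continuous (fun x => fderiv ℝ f x u) :=
      (hf.continuous_fderiv (by simp)).clm_apply continuous_const
    exact h2.integrable_of_hasCompactSupport (hs.fderiv_apply (𝕜 := ℝ) u)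
  have h3 : Integrable f := hf.continuous.integrable_of_hasCompactSupport hs
  have h := integral_mul_fderiv_eq_neg_fderiv_mul_of_integrable (μ := (volume : Measure (Cn n)))
    (f := fun _ : Cn n => (1 : ℂ)) (g := f) (v := u) (by simp) (by simpa using h1)
    (by simpa using h3) (fun x _ => differentiableAt_const _)
    (fun x _ => (hf.differentiable (by simp)) x)
  simpa using h

theorem integral_dz_eq_zero {f : Cn n → ℂ} (hf : ContDiff ℝ 1 f) (hs : HasCompactSupport f)
    (k : Fin n) : ∫ x, dz k f x = 0 := by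
  have h1 : ∀ u : Cn n, Integrable (fun x => fderiv ℝ f x u) := fun u => by
    have h2 : Continuous (fun x => fderiv ℝ f x u) :=
      (hf.continuous_fderiv (by simp)).clm_apply continuous_const
    exact h2.integrable_of_hasCompactSupport (hs.fderiv_apply (𝕜 := ℝ) u)
  simp only [dz]
  rw [integral_div, integral_sub (h1 _) ((h1 _).const_mul _), integral_const_mul,
    integral_fderiv_eq_zero hf hs, integral_fderiv_eq_zero hf hs]
  simp

theorem integral_dzb_eq_zero {f : Cn n → ℂ} (hf : ContDiff ℝ 1 f) (hs : HasCompactSupport f)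
    (k : Fin n) : ∫ x, dzb k f x = 0 := by
  have h1 : ∀ u : Cn n, Integrable (fun x => fderiv ℝ f x u) := fun u => by
    have h2 : Continuous (fun x => fderiv ℝ f x u) :=
      (hf.continuous_fderiv (by simp)).clm_apply continuous_const
    exact h2.integrable_of_hasCompactSupport (hs.fderiv_apply (𝕜 := ℝ) u)
  simp only [dzb]
  rw [integral_div, integral_add (h1 _) ((h1 _).const_mul _), integral_const_mul,
    integral_fderiv_eq_zero hf hs, integral_fderiv_eq_zero hf hs]
  simp

/-- A function which is smooth on `U` and has compact support in `U` is smooth. -/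
theorem contDiff_of_support {E F : Type*} [NormedAddCommGroup E] [NormedSpace ℝ E]
    [NormedAddCommGroup F] [NormedSpace ℝ F] {m : WithTop ℕ∞} {f : E → F} {U : Set E}
    (hU : IsOpen U) (hf : ContDiffOn ℝ m f U) (hs : tsupport f ⊆ U) : ContDiff ℝ m f := by
  rw [contDiff_iff_contDiffAt]
  intro x
  by_cases hx : x ∈ U
  · exact hf.contDiffAt (hU.mem_nhds hx)
  · have h1 : x ∉ tsupport f := fun h => hx (hs h)
    exact contDiffAt_const.congr_of_eventuallyEq (notMem_tsupport_iff_eventuallyEq.1 h1)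

end Pool.Agent.KRFQ

end

section

/-!
# Wirtinger derivatives and holomorphic maps
-/

open scoped ContDiff Topology
open Set MeasureTheory Filter Pool.Agent.ToricKRF Pool.Agent.ToricKRF.G Pool.Agent.KRFS

namespace Pool.Agent.KRFQ

variable {n m : ℕ}

theorem eR_eI_sum (u : Cn n) : u = (∑ k, u.1 k • eR k) + ∑ k, u.2 k • eI k := cn_eq_sum u

/-- A real linear map in the complex coordinates. -/
theorem clm_eq (A : Cn n →L[ℝ] ℂ) (u : Cn n) :
    A u = ∑ l, ((A (eR l) - Complex.I * A (eI l)) / 2 * cc u l +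
      (A (eR l) + Complex.I * A (eI l)) / 2 * (starRingEnd ℂ) (cc u l)) := by
  conv_lhs => rw [eR_eI_sum u]
  rw [map_add, map_sum, map_sum, ← Finset.sum_add_distrib]
  refine Finset.sum_congr rfl fun l _ => ?_
  rw [map_smul, map_smul]
  have h1 : cc u l = (u.1 l : ℂ) + (u.2 l : ℂ) * Complex.I := by
    apply Complex.ext <;> simp [cc]
  have h2 : (starRingEnd ℂ) (cc u l) = (u.1 l : ℂ) - (u.2 l : ℂ) * Complex.I := by
    apply Complex.ext <;> simp [cc]
  rw [h2, h1]
  simp only [Complex.real_smul]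
  have h3 : Complex.I * Complex.I = -1 := Complex.I_mul_I
  linear_combination ((u.2 l : ℂ) * A (eI l)) * h3

theorem fderiv_eq (f : Cn n → ℂ) (x u : Cn n) :
    fderiv ℝ f x u = ∑ l, (dz l f x * cc u l + dzb l f x * (starRingEnd ℂ) (cc u l)) :=
  clm_eq _ u

/-- `∂bar f (u) = ∑ ∂_lbar f ubar_l` -/
theorem dbar_apply (f : Cn n → ℂ) (x u : Cn n) :
    (fderiv ℝ f x u + Complex.I * fderiv ℝ f x (J u)) / 2 =
      ∑ l, dzb l f x * (starRingEnd ℂ) (cc u l) := by
  rw [fderiv_eq, fderiv_eq, Finset.mul_sum, ← Finset.sum_add_distrib, Finset.sum_div]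
  refine Finset.sum_congr rfl fun l _ => ?_
  rw [cc_J, map_mul, Complex.conj_I]
  have h3 : Complex.I * Complex.I = -1 := Complex.I_mul_I
  linear_combination ((dz l f x * cc u l - dzb l f x * (starRingEnd ℂ) (cc u l)) / 2) * h3

/-- the coordinate `z_l` as a real linear map -/
noncomputable def ccL (l : Fin m) : Cn m →L[ℝ] ℂ :=
  LinearMap.toContinuousLinearMap
    { toFun := fun z => cc z l
      map_add' := by
        intro x y
        apply Complex.ext <;> simp [cc]
      map_smul' := by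
        intro c x
        apply Complex.ext <;> simp [cc] }

theorem ccL_apply (l : Fin m) (z : Cn m) : ccL l z = cc z l := rfl

theorem cc_add (u v : Cn m) (l : Fin m) : cc (u + v) l = cc u l + cc v l := by
  apply Complex.ext <;> simp [cc]

theorem cc_sub (u v : Cn m) (l : Fin m) : cc (u - v) l = cc u l - cc v l := by
  apply Complex.ext <;> simp [cc]

theorem cc_smul (r : ℝ) (u : Cn m) (l : Fin m) : cc (r • u) l = r * cc u l := by
  apply Complex.ext <;> simp [cc]

theorem cc_zero (l : Fin m) : cc (0 : Cn m) l = 0 := by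
  apply Complex.ext <;> simp [cc]

theorem cc_ext {u v : Cn m} (h : ∀ l, cc u l = cc v l) : u = v := by
  refine Prod.ext ?_ ?_ <;> funext l
  · exact congrArg Complex.re (h l)
  · exact congrArg Complex.im (h l)

theorem cc_eR (k l : Fin n) : cc (eR k) l = if l = k then 1 else 0 := by
  apply Complex.ext
  · by_cases h : l = k <;> simp [cc, eR, h]
  · by_cases h : l = k <;> simp [cc, eR, h]

theorem cc_eI (k l : Fin n) : cc (eI k) l = if l = k then Complex.I else 0 := by
  rw [← J_eR, cc_J, cc_eR]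
  simp

/-- The complex Jacobian matrix. -/
noncomputable def Jm (H : Cn n → Cn m) (z : Cn n) : Matrix (Fin m) (Fin n) ℂ :=
  Matrix.of fun l k => cc (fderiv ℝ H z (eR k)) l

theorem Jm_apply (H : Cn n → Cn m) (z : Cn n) (l : Fin m) (k : Fin n) :
    Jm H z l k = cc (fderiv ℝ H z (eR k)) l := rfl

section Hol

variable {H : Cn n → Cn m} {S : Set (Cn n)}

theorem HolOn.differentiableAt (hS : IsOpen S) (hH : HolOn H S) {z : Cn n} (hz : z ∈ S) :
    DifferentiableAt ℝ H z :=
  (hH.1.differentiableOn (by simp)).differentiableAt (hS.mem_nhds hz)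

/-- The derivative of a holomorphic map in complex coordinates. -/
theorem cc_fderiv (hH : HolOn H S) {z : Cn n} (hz : z ∈ S) (u : Cn n) (l : Fin m) :
    cc (fderiv ℝ H z u) l = ∑ k, Jm H z l k * cc u k := by
  have h1 := clm_eq ((ccL l).comp (fderiv ℝ H z)) u
  simp only [ContinuousLinearMap.comp_apply, ccL_apply] at h1
  rw [h1]
  refine Finset.sum_congr rfl fun k _ => ?_
  have h2 : cc (fderiv ℝ H z (eI k)) l = Complex.I * Jm H z l k := by
    rw [← J_eR, hH.2 z hz, cc_J]
    rfl
  rw [h2, ← Jm_apply]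
  have h3 : Complex.I * Complex.I = -1 := Complex.I_mul_I
  linear_combination ((Jm H z l k * (starRingEnd ℂ) (cc u k) - Jm H z l k * cc u k) / 2) * h3

theorem fderiv_comp_apply (hS : IsOpen S) (hH : HolOn H S) {z : Cn n} (hz : z ∈ S)
    {f : Cn m → ℂ} (hf : DifferentiableAt ℝ f (H z)) (u : Cn n) :
    fderiv ℝ (fun x => f (H x)) z u = fderiv ℝ f (H z) (fderiv ℝ H z u) := by
  have h := hf.hasFDerivAt.comp z (HolOn.differentiableAt hS hH hz).hasFDerivAt
  have h2 : (fun x => f (H x)) = f ∘ H := rfl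
  rw [h2, h.fderiv]
  rfl

theorem dz_comp (hS : IsOpen S) (hH : HolOn H S) {z : Cn n} (hz : z ∈ S)
    {f : Cn m → ℂ} (hf : DifferentiableAt ℝ f (H z)) (k : Fin n) :
    dz k (fun x => f (H x)) z = ∑ l, dz l f (H z) * Jm H z l k := by
  simp only [dz]
  rw [fderiv_comp_apply hS hH hz hf, fderiv_comp_apply hS hH hz hf, ← J_eR, hH.2 z hz,
    fderiv_eq f, fderiv_eq f, Finset.mul_sum, ← Finset.sum_sub_distrib, Finset.sum_div]
  refine Finset.sum_congr rfl fun l _ => ?_
  rw [cc_J, ← Jm_apply, map_mul, Complex.conj_I]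
  have h3 : Complex.I * Complex.I = -1 := Complex.I_mul_I
  simp only [dz, dzb]
  linear_combination ((-(fderiv ℝ f (H z) (eR l) - Complex.I * fderiv ℝ f (H z) (eI l)) / 2 *
    Jm H z l k + (fderiv ℝ f (H z) (eR l) + Complex.I * fderiv ℝ f (H z) (eI l)) / 2 *
    (starRingEnd ℂ) (Jm H z l k)) / 2) * h3

theorem dzb_comp (hS : IsOpen S) (hH : HolOn H S) {z : Cn n} (hz : z ∈ S)
    {f : Cn m → ℂ} (hf : DifferentiableAt ℝ f (H z)) (k : Fin n) :
    dzb k (fun x => f (H x)) z = ∑ l, dzb l f (H z) * (starRingEnd ℂ) (Jm H z l k) := by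
  simp only [dzb]
  rw [fderiv_comp_apply hS hH hz hf, fderiv_comp_apply hS hH hz hf, ← J_eR, hH.2 z hz,
    fderiv_eq f, fderiv_eq f, Finset.mul_sum, ← Finset.sum_add_distrib, Finset.sum_div]
  refine Finset.sum_congr rfl fun l _ => ?_
  rw [cc_J, ← Jm_apply, map_mul, Complex.conj_I]
  have h3 : Complex.I * Complex.I = -1 := Complex.I_mul_I
  simp only [dz, dzb]
  linear_combination (((fderiv ℝ f (H z) (eR l) - Complex.I * fderiv ℝ f (H z) (eI l)) / 2 *
    Jm H z l k - (fderiv ℝ f (H z) (eR l) + Complex.I * fderiv ℝ f (H z) (eI l)) / 2 *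
    (starRingEnd ℂ) (Jm H z l k)) / 2) * h3

theorem contDiffOn_cc (hH : HolOn H S) (l : Fin m) : ContDiffOn ℝ ∞ (fun x => cc (H x) l) S :=
  (ccL l).contDiff.comp_contDiffOn hH.1

theorem dz_cc (hS : IsOpen S) (hH : HolOn H S) {z : Cn n} (hz : z ∈ S) (l : Fin m) (k : Fin n) :
    dz k (fun x => cc (H x) l) z = Jm H z l k := by
  have h := dz_comp hS hH hz (f := fun y => cc y l) (ccL l).differentiableAt k
  rw [h]
  have h1 : ∀ j, dz j (fun y : Cn m => cc y l) (H z) = if l = j then 1 else 0 := by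
    intro j
    simp only [dz]
    have h2 : fderiv ℝ (fun y : Cn m => cc y l) (H z) = ccL l := (ccL l).fderiv
    rw [h2, ccL_apply, ccL_apply, cc_eR, cc_eI]
    by_cases h : l = j
    · simp only [h, if_true, Complex.I_mul_I]
      ring
    · simp [h]
  simp [h1]

theorem dzb_cc (hS : IsOpen S) (hH : HolOn H S) {z : Cn n} (hz : z ∈ S) (l : Fin m) (k : Fin n) :
    dzb k (fun x => cc (H x) l) z = 0 := by
  have h := dzb_comp hS hH hz (f := fun y => cc y l) (ccL l).differentiableAt k
  rw [h]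
  have h1 : ∀ j, dzb j (fun y : Cn m => cc y l) (H z) = 0 := by
    intro j
    simp only [dzb]
    have h2 : fderiv ℝ (fun y : Cn m => cc y l) (H z) = ccL l := (ccL l).fderiv
    rw [h2, ccL_apply, ccL_apply, cc_eR, cc_eI]
    by_cases h : l = j
    · simp only [h, if_true, Complex.I_mul_I]
      ring
    · simp [h]
  simp [h1]

theorem contDiffOn_Jm (hS : IsOpen S) (hH : HolOn H S) (l : Fin m) (k : Fin n) :
    ContDiffOn ℝ ∞ (fun x => Jm H x l k) S := by
  refine (contDiffOn_dz hS (contDiffOn_cc hH l) k).congr fun x hx => ?_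
  exact (dz_cc hS hH hx l k).symm

theorem dzb_Jm (hS : IsOpen S) (hH : HolOn H S) {z : Cn n} (hz : z ∈ S) (l : Fin m)
    (k j : Fin n) : dzb j (fun x => Jm H x l k) z = 0 := by
  have h1 : (fun x => Jm H x l k) =ᶠ[𝓝 z] dz k (fun x => cc (H x) l) := by
    filter_upwards [hS.mem_nhds hz] with x hx
    exact (dz_cc hS hH hx l k).symm
  rw [dzb_congr h1, ← dz_dzb hS (contDiffOn_cc hH l) hz]
  have h2 : dzb j (fun x => cc (H x) l) =ᶠ[𝓝 z] fun _ => 0 := by
    filter_upwards [hS.mem_nhds hz] with x hx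
    exact dzb_cc hS hH hx l j
  rw [dz_congr h2, dz_const]

theorem Jm_comp {k : ℕ} {H' : Cn m → Cn k} {S' : Set (Cn m)} (hS : IsOpen S) (hH : HolOn H S)
    (hS' : IsOpen S') (hH' : HolOn H' S') {z : Cn n} (hz : z ∈ S) (hz' : H z ∈ S') :
    Jm (fun x => H' (H x)) z = Jm H' (H z) * Jm H z := by
  ext l j
  have h := (HolOn.differentiableAt hS' hH' hz').hasFDerivAt.comp z
    (HolOn.differentiableAt hS hH hz).hasFDerivAt
  have h2 : (fun x => H' (H x)) = H' ∘ H := rfl
  rw [Jm_apply, h2, h.fderiv, ContinuousLinearMap.comp_apply, cc_fderiv hH' hz', Matrix.mul_apply]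
  rfl

theorem Jm_id (z : Cn n) : Jm (fun x : Cn n => x) z = 1 := by
  ext l k
  rw [Jm_apply, fderiv_fun_id, ContinuousLinearMap.id_apply, cc_eR, Matrix.one_apply]

theorem Jm_congr {H' : Cn n → Cn m} {z : Cn n} (h : H =ᶠ[𝓝 z] H') : Jm H z = Jm H' z := by
  ext l k
  rw [Jm_apply, Jm_apply, h.fderiv_eq]

end Hol

end Pool.Agent.KRFQ

end

section

/-!
# The pointwise Bochner identity for a vector field and a density
-/

open scoped ContDiff Topology
open Set MeasureTheory Filter Pool.Agent.ToricKRF Pool.Agent.ToricKRF.G Pool.Agent.KRFS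

namespace Pool.Agent.KRFQ

variable {n : ℕ}

theorem diffAtC {E F : Type*} [NormedAddCommGroup E] [NormedSpace ℝ E]
    [NormedAddCommGroup F] [NormedSpace ℝ F] {f : E → F} {U : Set E} (hU : IsOpen U)
    (hf : ContDiffOn ℝ ∞ f U) {x : E} (hx : x ∈ U) : DifferentiableAt ℝ f x :=
  (hf.differentiableOn (by simp)).differentiableAt (hU.mem_nhds hx)

theorem contDiffOn_conj {f : Cn n → ℂ} {U : Set (Cn n)} (hf : ContDiffOn ℝ ∞ f U) :
    ContDiffOn ℝ ∞ (fun x => (starRingEnd ℂ) (f x)) U :=
  Complex.conjCLE.contDiff.comp_contDiffOn hf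

theorem contDiffOn_ofReal {f : Cn n → ℝ} {U : Set (Cn n)} (hf : ContDiffOn ℝ ∞ f U) :
    ContDiffOn ℝ ∞ (fun x => (f x : ℂ)) U :=
  Complex.ofRealCLM.contDiff.comp_contDiffOn hf

/-- The divergence, with respect to the density `w`, of the vector field `∑ X_j ∂_j`. -/
noncomputable def dv (w : Cn n → ℝ) (X : Cn n → Fin n → ℂ) (z : Cn n) : ℂ :=
  (∑ j, dz j (fun x => (w x : ℂ) * X x j) z) / w z

/-- The function `-log w` with complex values. -/
noncomputable def nlog (w : Cn n → ℝ) (x : Cn n) : ℂ := ((-Real.log (w x) : ℝ) : ℂ)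

/-- The complex Hessian `∂_j ∂_kbar f` of a real function. -/
noncomputable def Hm (f : Cn n → ℝ) (z : Cn n) : Matrix (Fin n) (Fin n) ℂ :=
  Matrix.of fun j k => dz j (dzb k (fun x => (f x : ℂ))) z

section

variable {w : Cn n → ℝ} {U : Set (Cn n)}

theorem contDiffOn_nlog (hw : ContDiffOn ℝ ∞ w U) (hpos : ∀ z ∈ U, 0 < w z) :
    ContDiffOn ℝ ∞ (nlog w) U :=
  contDiffOn_ofReal ((hw.log fun z hz => (hpos z hz).ne').neg)

theorem dz_w (hU : IsOpen U) (hw : ContDiffOn ℝ ∞ w U) (hpos : ∀ z ∈ U, 0 < w z) {z : Cn n}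
    (hz : z ∈ U) (j : Fin n) :
    dz j (fun x => (w x : ℂ)) z = -(w z : ℂ) * dz j (nlog w) z := by
  have h0 : ∀ u, fderiv ℝ (fun x => (w x : ℂ)) z u = ((fderiv ℝ w z u : ℝ) : ℂ) := by
    intro u
    have h := Complex.ofRealCLM.hasFDerivAt.comp z (diffAtC hU hw hz).hasFDerivAt
    have h2 : (fun x => (w x : ℂ)) = Complex.ofRealCLM ∘ w := rfl
    rw [h2, h.fderiv]
    rfl
  have h1 : ∀ u, fderiv ℝ (nlog w) z u = ((-(w z)⁻¹ * fderiv ℝ w z u : ℝ) : ℂ) := by
    intro u
    have h := Complex.ofRealCLM.hasFDerivAt.comp z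
      ((diffAtC hU hw hz).hasFDerivAt.log (hpos z hz).ne').neg
    have h2 : nlog w = Complex.ofRealCLM ∘ (-fun x => Real.log (w x)) := rfl
    rw [h2, h.fderiv]
    simp
  have hw0 : (w z : ℂ) ≠ 0 := by exact_mod_cast (hpos z hz).ne'
  simp only [dz, h0, h1]
  push_cast
  field_simp
  ring

theorem dv_eq (hU : IsOpen U) (hw : ContDiffOn ℝ ∞ w U) (hpos : ∀ z ∈ U, 0 < w z)
    {X : Cn n → Fin n → ℂ} (hX : ∀ j, ContDiffOn ℝ ∞ (fun x => X x j) U) {z : Cn n} (hz : z ∈ U) :
    dv w X z = ∑ j, (dz j (fun x => X x j) z - dz j (nlog w) z * X z j) := by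
  have hw0 : (w z : ℂ) ≠ 0 := by exact_mod_cast (hpos z hz).ne'
  rw [dv, div_eq_iff hw0, Finset.sum_mul]
  refine Finset.sum_congr rfl fun j _ => ?_
  rw [dz_mul (diffAtC hU (contDiffOn_ofReal hw) hz) (diffAtC hU (hX j) hz), dz_w hU hw hpos hz]
  ring

theorem contDiffOn_dv (hU : IsOpen U) (hw : ContDiffOn ℝ ∞ w U) (hpos : ∀ z ∈ U, 0 < w z)
    {X : Cn n → Fin n → ℂ} (hX : ∀ j, ContDiffOn ℝ ∞ (fun x => X x j) U) :
    ContDiffOn ℝ ∞ (dv w X) U := by
  unfold dv
  simp only [div_eq_mul_inv]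
  refine (ContDiffOn.sum fun j _ => contDiffOn_dz hU ((contDiffOn_ofReal hw).mul (hX j)) j).mul
    ((contDiffOn_ofReal hw).inv fun z hz => ?_)
  exact_mod_cast (hpos z hz).ne'

theorem dv_congr {X Y : Cn n → Fin n → ℂ} {z : Cn n} (h : X =ᶠ[𝓝 z] Y) : dv w X z = dv w Y z := by
  simp only [dv]
  congr 1
  refine Finset.sum_congr rfl fun j _ => dz_congr ?_ j
  filter_upwards [h] with x hx
  rw [hx]

theorem Hm_conj (hU : IsOpen U) {f : Cn n → ℝ} (hf : ContDiffOn ℝ ∞ f U) {z : Cn n} (hz : z ∈ U)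
    (j k : Fin n) : (starRingEnd ℂ) (Hm f z j k) = Hm f z k j := by
  have hf' := contDiffOn_ofReal hf
  have hr : ∀ x, (starRingEnd ℂ) ((f x : ℂ)) = (f x : ℂ) := fun x => Complex.conj_ofReal _
  change (starRingEnd ℂ) (dz j (dzb k (fun x => (f x : ℂ))) z) =
    dz k (dzb j (fun x => (f x : ℂ))) z
  rw [← dzb_conj (diffAtC hU (contDiffOn_dzb hU hf' k) hz), dz_dzb hU hf' hz k j]
  refine dzb_congr ?_ j
  filter_upwards [hU.mem_nhds hz] with x hx
  rw [← dz_conj (diffAtC hU hf' hx)]
  simp only [hr]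

/-- **Pointwise Bochner identity** for a vector field `W` and a density `w`. -/
theorem bochner_point (hU : IsOpen U) (hw : ContDiffOn ℝ ∞ w U) (hpos : ∀ z ∈ U, 0 < w z)
    {W : Cn n → Fin n → ℂ} (hW : ∀ j, ContDiffOn ℝ ∞ (fun x => W x j) U) {z : Cn n}
    (hz : z ∈ U) :
    dv w W z * (starRingEnd ℂ) (dv w W z) =
      (∑ j, ∑ k, Hm (fun x => -Real.log (w x)) z j k * W z j * (starRingEnd ℂ) (W z k)) +
      (∑ j, ∑ k, dzb k (fun x => W x j) z * (starRingEnd ℂ) (dzb j (fun x => W x k) z)) +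
      dv w (fun x j => W x j * (starRingEnd ℂ) (dv w W x)) z -
      (starRingEnd ℂ) (dv w (fun x k => ∑ j, (starRingEnd ℂ) (W x j) *
        dzb j (fun y => W y k) x) z) := by
  have hφ := contDiffOn_nlog hw hpos
  have hD := contDiffOn_dv hU hw hpos hW
  have hY : ∀ j, ContDiffOn ℝ ∞ (fun x => W x j * (starRingEnd ℂ) (dv w W x)) U := fun j =>
    (hW j).mul (contDiffOn_conj hD)
  have hN : ∀ k, ContDiffOn ℝ ∞ (fun x => ∑ j, (starRingEnd ℂ) (W x j) *
      dzb j (fun y => W y k) x) U := fun k =>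
    ContDiffOn.sum fun j _ => (contDiffOn_conj (hW j)).mul (contDiffOn_dzb hU (hW k) j)
  -- the derivative of the divergence
  have e1 : ∀ j, dzb j (dv w W) z = ∑ k, (dzb j (dz k (fun x => W x k)) z -
      (dzb j (dz k (nlog w)) z * W z k + dz k (nlog w) z * dzb j (fun x => W x k) z)) := by
    intro j
    have h1 : dv w W =ᶠ[𝓝 z] fun x => ∑ k, (dz k (fun y => W y k) x -
        dz k (nlog w) x * W x k) := by
      filter_upwards [hU.mem_nhds hz] with x hx
      exact dv_eq hU hw hpos hW hx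
    rw [dzb_congr h1, dzb_sum]
    · refine Finset.sum_congr rfl fun k _ => ?_
      rw [dzb_sub (diffAtC hU (contDiffOn_dz hU (hW k) k) hz)
        (diffAtC hU ((contDiffOn_dz hU hφ k).mul (hW k)) hz),
        dzb_mul (diffAtC hU (contDiffOn_dz hU hφ k) hz) (diffAtC hU (hW k) hz)]
    · intro k _
      exact diffAtC hU ((contDiffOn_dz hU (hW k) k).sub ((contDiffOn_dz hU hφ k).mul (hW k))) hz
  have e2 : ∀ j, dz j (fun x => W x j * (starRingEnd ℂ) (dv w W x)) z =
      dz j (fun x => W x j) z * (starRingEnd ℂ) (dv w W z) +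
        W z j * (starRingEnd ℂ) (dzb j (dv w W) z) := by
    intro j
    rw [dz_mul (diffAtC hU (hW j) hz) (diffAtC hU (contDiffOn_conj hD) hz),
      dz_conj (diffAtC hU hD hz)]
  have e3 : ∀ k, dz k (fun x => ∑ j, (starRingEnd ℂ) (W x j) * dzb j (fun y => W y k) x) z =
      ∑ j, ((starRingEnd ℂ) (dzb k (fun x => W x j) z) * dzb j (fun x => W x k) z +
        (starRingEnd ℂ) (W z j) * dz k (dzb j (fun x => W x k)) z) := by
    intro k
    rw [dz_sum]
    · refine Finset.sum_congr rfl fun j _ => ?_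
      rw [dz_mul (diffAtC hU (contDiffOn_conj (hW j)) hz)
        (diffAtC hU (contDiffOn_dzb hU (hW k) j) hz), dz_conj (diffAtC hU (hW j) hz)]
    · intro j _
      exact diffAtC hU ((contDiffOn_conj (hW j)).mul (contDiffOn_dzb hU (hW k) j)) hz
  have e4 : ∀ j k, (starRingEnd ℂ) (dzb j (dz k (nlog w)) z) =
      Hm (fun x => -Real.log (w x)) z j k := by
    intro j k
    rw [← dz_dzb hU hφ hz]
    exact Hm_conj hU ((hw.log fun z hz => (hpos z hz).ne').neg) hz k j
  rw [dv_eq hU hw hpos hY hz, dv_eq hU hw hpos hN hz]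
  simp only [e2, e3, e1]
  have e5 : ∀ j k, dz k (dzb j (fun x => W x k)) z = dzb j (dz k (fun x => W x k)) z := fun j k =>
    dz_dzb hU (hW k) hz k j
  simp only [e5, map_sum, map_sub, map_add, map_mul, e4, Complex.conj_conj]
  have e6 : (∑ j, (dz j (fun x => W x j) z * (starRingEnd ℂ) (dv w W z) +
      W z j * ∑ k, ((starRingEnd ℂ) (dzb j (dz k (fun x => W x k)) z) -
        (Hm (fun x => -Real.log (w x)) z j k * (starRingEnd ℂ) (W z k) +
          (starRingEnd ℂ) (dz k (nlog w) z) * (starRingEnd ℂ) (dzb j (fun x => W x k) z))) -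
      dz j (nlog w) z * (W z j * (starRingEnd ℂ) (dv w W z)))) =
      dv w W z * (starRingEnd ℂ) (dv w W z) +
      ∑ j, ∑ k, W z j * ((starRingEnd ℂ) (dzb j (dz k (fun x => W x k)) z) -
        (Hm (fun x => -Real.log (w x)) z j k * (starRingEnd ℂ) (W z k) +
          (starRingEnd ℂ) (dz k (nlog w) z) * (starRingEnd ℂ) (dzb j (fun x => W x k) z))) := by
    conv_rhs => rw [show dv w W z * (starRingEnd ℂ) (dv w W z) =
      (∑ j, (dz j (fun x => W x j) z - dz j (nlog w) z * W z j)) * (starRingEnd ℂ) (dv w W z) by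
        rw [← dv_eq hU hw hpos hW hz]]
    rw [Finset.sum_mul, ← Finset.sum_add_distrib]
    refine Finset.sum_congr rfl fun j _ => ?_
    rw [← Finset.mul_sum]
    ring
  rw [e6]
  have e7 : (∑ k, (∑ j, (dzb k (fun x => W x j) z * (starRingEnd ℂ) (dzb j (fun x => W x k) z) +
      W z j * (starRingEnd ℂ) (dzb j (dz k (fun x => W x k)) z)) -
      (starRingEnd ℂ) (dz k (nlog w) z) * ∑ j, W z j *
        (starRingEnd ℂ) (dzb j (fun x => W x k) z))) =
      ∑ j, ∑ k, ((dzb k (fun x => W x j) z * (starRingEnd ℂ) (dzb j (fun x => W x k) z) +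
      W z j * (starRingEnd ℂ) (dzb j (dz k (fun x => W x k)) z)) -
      (starRingEnd ℂ) (dz k (nlog w) z) * (W z j *
        (starRingEnd ℂ) (dzb j (fun x => W x k) z))) := by
    rw [Finset.sum_comm]
    refine Finset.sum_congr rfl fun k _ => ?_
    rw [Finset.mul_sum, ← Finset.sum_sub_distrib]
  rw [e7]
  rw [show ∀ a b c d e : ℂ, a = b + c + (a + d) - e ↔ b + c + d - e = 0 from fun a b c d e => by
    constructor <;> intro h <;> linear_combination (-1 : ℂ) * h]
  rw [← Finset.sum_add_distrib, ← Finset.sum_add_distrib, ← Finset.sum_sub_distrib]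
  refine Finset.sum_eq_zero fun j _ => ?_
  rw [← Finset.sum_add_distrib, ← Finset.sum_add_distrib, ← Finset.sum_sub_distrib]
  refine Finset.sum_eq_zero fun k _ => ?_
  ring

end

end Pool.Agent.KRFQ

end

section

/-!
# The gradient for a Kähler metric with a local potential: symmetry and positivity
-/

open scoped ContDiff Topology ComplexOrder Matrix MatrixOrder
open Set MeasureTheory Filter Pool.Agent.ToricKRF Pool.Agent.ToricKRF.G Pool.Agent.KRFS

namespace Pool.Agent.KRFQ

variable {n : ℕ}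

/-! ### The Levi form and the complex Hessian -/

theorem fderiv_fderiv_self {h : Cn n → ℂ} {U : Set (Cn n)} (hU : IsOpen U)
    (hh : ContDiffOn ℝ ∞ h U) {z : Cn n} (hz : z ∈ U) (u : Cn n) :
    fderiv ℝ (fun y => fderiv ℝ h y u) z u = ∑ l, ∑ k,
      (dz k (dz l h) z * cc u k * cc u l + dzb k (dz l h) z * (starRingEnd ℂ) (cc u k) * cc u l +
      dz k (dzb l h) z * cc u k * (starRingEnd ℂ) (cc u l) +
      dzb k (dzb l h) z * (starRingEnd ℂ) (cc u k) * (starRingEnd ℂ) (cc u l)) := by
  have h1 : (fun y => fderiv ℝ h y u) =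
      fun y => ∑ l, (dz l h y * cc u l + dzb l h y * (starRingEnd ℂ) (cc u l)) := by
    funext y
    exact fderiv_eq h y u
  have d1 : ∀ l, DifferentiableAt ℝ (dz l h) z := fun l => diffAtC hU (contDiffOn_dz hU hh l) hz
  have d2 : ∀ l, DifferentiableAt ℝ (dzb l h) z := fun l => diffAtC hU (contDiffOn_dzb hU hh l) hz
  have h2 : HasFDerivAt (fun y => ∑ l, (dz l h y * cc u l + dzb l h y *
      (starRingEnd ℂ) (cc u l))) (∑ l, (cc u l • fderiv ℝ (dz l h) z +
        (starRingEnd ℂ) (cc u l) • fderiv ℝ (dzb l h) z)) z := by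
    refine HasFDerivAt.fun_sum fun l _ => ?_
    exact ((d1 l).hasFDerivAt.mul_const (cc u l)).add
      ((d2 l).hasFDerivAt.mul_const ((starRingEnd ℂ) (cc u l)))
  rw [h1, h2.fderiv, sum_apply]
  refine Finset.sum_congr rfl fun l _ => ?_
  simp only [add_apply, smul_apply, smul_eq_mul]
  rw [fderiv_eq, fderiv_eq, Finset.mul_sum, Finset.mul_sum, ← Finset.sum_add_distrib]
  refine Finset.sum_congr rfl fun k _ => ?_
  ring

theorem levz_eq {f : Cn n → ℝ} {U : Set (Cn n)} (hU : IsOpen U) (hf : ContDiffOn ℝ ∞ f U)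
    {z : Cn n} (hz : z ∈ U) (u : Cn n) :
    ((levz f u z : ℝ) : ℂ) = ∑ j, ∑ k, Hm f z j k * cc u j * (starRingEnd ℂ) (cc u k) := by
  have hf' := contDiffOn_ofReal hf
  set h : Cn n → ℂ := fun x => (f x : ℂ) with hh
  have h1 : ∀ x ∈ U, ∀ v, fderiv ℝ h x v = ((fderiv ℝ f x v : ℝ) : ℂ) := by
    intro x hx v
    have h3 := Complex.ofRealCLM.hasFDerivAt.comp x (diffAtC hU hf hx).hasFDerivAt
    have h2 : h = Complex.ofRealCLM ∘ f := rfl
    rw [h2, h3.fderiv]
    rfl
  have h4 : ∀ v, ((D v (D v f) z : ℝ) : ℂ) = fderiv ℝ (fun y => fderiv ℝ h y v) z v := by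
    intro v
    have h5 : (fun y => fderiv ℝ h y v) =ᶠ[𝓝 z] fun y => ((D v f y : ℝ) : ℂ) := by
      filter_upwards [hU.mem_nhds hz] with y hy
      exact h1 y hy v
    rw [h5.fderiv_eq]
    have h6 : DifferentiableAt ℝ (D v f) z :=
      diffAt_of_contDiffOn hU (contDiffOn_D hU hf v) hz
    have h3 := Complex.ofRealCLM.hasFDerivAt.comp z h6.hasFDerivAt
    have h2 : (fun y => ((D v f y : ℝ) : ℂ)) = Complex.ofRealCLM ∘ D v f := rfl
    rw [h2, h3.fderiv]
    rfl
  simp only [levz]
  push_cast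
  rw [h4, h4, fderiv_fderiv_self hU hf' hz, fderiv_fderiv_self hU hf' hz]
  simp only [cc_J, map_mul, Complex.conj_I]
  have h7 : ∀ k l, dzb k (dz l h) z = dz l (dzb k h) z := fun k l => (dz_dzb hU hf' hz l k).symm
  have h8 : ∑ l, ∑ k, dz l (dzb k h) z * (starRingEnd ℂ) (cc u k) * cc u l =
      ∑ l, ∑ k, dz k (dzb l h) z * cc u k * (starRingEnd ℂ) (cc u l) := by
    rw [Finset.sum_comm]
    exact Finset.sum_congr rfl fun k _ => Finset.sum_congr rfl fun l _ => by ring
  have h9 : ∑ j, ∑ k, Hm f z j k * cc u j * (starRingEnd ℂ) (cc u k) =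
      ∑ l, ∑ k, dz l (dzb k h) z * (starRingEnd ℂ) (cc u k) * cc u l := by
    refine Finset.sum_congr rfl fun k _ => Finset.sum_congr rfl fun l _ => ?_
    simp only [Hm, Matrix.of_apply]
    ring
  have h10 : (∑ l, ∑ k, (dz k (dz l h) z * cc u k * cc u l +
      dzb k (dz l h) z * (starRingEnd ℂ) (cc u k) * cc u l +
      dz k (dzb l h) z * cc u k * (starRingEnd ℂ) (cc u l) +
      dzb k (dzb l h) z * (starRingEnd ℂ) (cc u k) * (starRingEnd ℂ) (cc u l)) +
      ∑ l, ∑ k, (dz k (dz l h) z * (Complex.I * cc u k) * (Complex.I * cc u l) +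
      dzb k (dz l h) z * (-Complex.I * (starRingEnd ℂ) (cc u k)) * (Complex.I * cc u l) +
      dz k (dzb l h) z * (Complex.I * cc u k) * (-Complex.I * (starRingEnd ℂ) (cc u l)) +
      dzb k (dzb l h) z * (-Complex.I * (starRingEnd ℂ) (cc u k)) *
        (-Complex.I * (starRingEnd ℂ) (cc u l)))) =
      2 * (∑ l, ∑ k, dz l (dzb k h) z * (starRingEnd ℂ) (cc u k) * cc u l) +
      2 * ∑ l, ∑ k, dz k (dzb l h) z * cc u k * (starRingEnd ℂ) (cc u l) := by
    rw [Finset.mul_sum, Finset.mul_sum, ← Finset.sum_add_distrib, ← Finset.sum_add_distrib]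
    refine Finset.sum_congr rfl fun l _ => ?_
    rw [Finset.mul_sum, Finset.mul_sum, ← Finset.sum_add_distrib, ← Finset.sum_add_distrib]
    refine Finset.sum_congr rfl fun k _ => ?_
    rw [h7]
    have h3 : Complex.I * Complex.I = -1 := Complex.I_mul_I
    linear_combination (dz k (dz l h) z * cc u k * cc u l -
      dz l (dzb k h) z * (starRingEnd ℂ) (cc u k) * cc u l -
      dz k (dzb l h) z * cc u k * (starRingEnd ℂ) (cc u l) +
      dzb k (dzb l h) z * (starRingEnd ℂ) (cc u k) * (starRingEnd ℂ) (cc u l)) * h3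
  rw [h10, h9, ← h8]
  ring

theorem Hm_posDef {f : Cn n → ℝ} {U : Set (Cn n)} (hU : IsOpen U) (hf : ContDiffOn ℝ ∞ f U)
    {z : Cn n} (hz : z ∈ U) (hpos : ∀ u ≠ 0, 0 < levz f u z) : (Hm f z).PosDef := by
  refine Matrix.PosDef.of_dotProduct_mulVec_pos ?_ ?_
  · ext j k
    rw [Matrix.conjTranspose_apply, RCLike.star_def]
    exact Hm_conj hU hf hz k j
  · intro x hx
    set u : Cn n := (fun k => (x k).re, fun k => -(x k).im) with hu
    have hcc : ∀ k, cc u k = (starRingEnd ℂ) (x k) := by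
      intro k
      apply Complex.ext <;> simp [cc, hu]
    have hu0 : u ≠ 0 := by
      intro h
      apply hx
      ext k
      have h1 : cc u k = 0 := by
        rw [h]
        exact cc_zero k
      rw [hcc, map_eq_zero] at h1
      simpa using h1
    have h1 : star x ⬝ᵥ (Hm f z).mulVec x = ((levz f u z : ℝ) : ℂ) := by
      rw [levz_eq hU hf hz]
      simp only [dotProduct, Matrix.mulVec, Finset.mul_sum, Pi.star_apply, hcc]
      refine Finset.sum_congr rfl fun k _ => Finset.sum_congr rfl fun l _ => ?_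
      simp only [RCLike.star_def, Complex.conj_conj]
      ring
    rw [h1]
    exact_mod_cast hpos u hu0

/-! ### Smoothness of the inverse matrix -/

theorem contDiffOn_det {ι : Type*} [Fintype ι] [DecidableEq ι] {A : Cn n → Matrix ι ι ℂ}
    {U : Set (Cn n)} (hA : ∀ i j, ContDiffOn ℝ ∞ (fun x => A x i j) U) :
    ContDiffOn ℝ ∞ (fun x => (A x).det) U := by
  simp only [Matrix.det_apply]
  refine ContDiffOn.sum fun σ _ => ?_
  exact (contDiffOn_prod fun i _ => hA _ _).const_smul _

theorem contDiffOn_inv {ι : Type*} [Fintype ι] [DecidableEq ι] {A : Cn n → Matrix ι ι ℂ}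
    {U : Set (Cn n)} (hA : ∀ i j, ContDiffOn ℝ ∞ (fun x => A x i j) U)
    (hd : ∀ x ∈ U, (A x).det ≠ 0) (i j : ι) : ContDiffOn ℝ ∞ (fun x => (A x)⁻¹ i j) U := by
  have h1 : ContDiffOn ℝ ∞ (fun x => (A x).det⁻¹ * (A x).adjugate i j) U := by
    refine ((contDiffOn_det hA).inv hd).mul ?_
    simp only [Matrix.adjugate_apply]
    refine contDiffOn_det fun k l => ?_
    by_cases h : k = j
    · subst h
      simp only [Matrix.updateRow_self]
      exact contDiffOn_const
    · simp only [Matrix.updateRow_ne h]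
      exact hA k l
  refine h1.congr fun x hx => ?_
  rw [Matrix.inv_def, Matrix.smul_apply, Ring.inverse_eq_inv', smul_eq_mul]

/-- The gradient `W` of `f` for the metric with the potential `g`:
`∑ j, g_{j kbar} W_j = ∂_kbar f`. -/
noncomputable def gradv (g : Cn n → ℝ) (f : Cn n → ℂ) (z : Cn n) (j : Fin n) : ℂ :=
  ∑ k, ((Hm g z)ᵀ)⁻¹ j k * dzb k f z

section

variable {g : Cn n → ℝ} {f : Cn n → ℂ} {U : Set (Cn n)}

theorem contDiffOn_Hm (hU : IsOpen U) (hg : ContDiffOn ℝ ∞ g U) (j k : Fin n) :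
    ContDiffOn ℝ ∞ (fun x => Hm g x j k) U :=
  contDiffOn_dz hU (contDiffOn_dzb hU (contDiffOn_ofReal hg) k) j

theorem contDiffOn_gradv (hU : IsOpen U) (hg : ContDiffOn ℝ ∞ g U)
    (hd : ∀ x ∈ U, (Hm g x).det ≠ 0) (hf : ContDiffOn ℝ ∞ f U) (j : Fin n) :
    ContDiffOn ℝ ∞ (fun x => gradv g f x j) U := by
  unfold gradv
  refine ContDiffOn.sum fun k _ => ContDiffOn.mul ?_ (contDiffOn_dzb hU hf k)
  refine contDiffOn_inv (fun i l => ?_) (fun x hx => ?_) j k
  · exact contDiffOn_Hm hU hg l i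
  · rw [Matrix.det_transpose]
    exact hd x hx

theorem gradv_spec {z : Cn n} (hd : (Hm g z).det ≠ 0) (k : Fin n) :
    ∑ j, Hm g z j k * gradv g f z j = dzb k f z := by
  have h1 : IsUnit ((Hm g z)ᵀ).det := by
    rw [Matrix.det_transpose]
    exact hd.isUnit
  have h2 : gradv g f z = ((Hm g z)ᵀ)⁻¹.mulVec (fun k => dzb k f z) := by
    funext j
    rfl
  have h3 : (Hm g z)ᵀ.mulVec (gradv g f z) = fun k => dzb k f z := by
    rw [h2, Matrix.mulVec_mulVec, Matrix.mul_nonsing_inv _ h1, Matrix.one_mulVec]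
  exact congrFun h3 k

theorem gradv_unique {z : Cn n} (hd : (Hm g z).det ≠ 0) {W : Fin n → ℂ}
    (hW : ∀ k, ∑ j, Hm g z j k * W j = dzb k f z) : gradv g f z = W := by
  have h1 : IsUnit ((Hm g z)ᵀ).det := by
    rw [Matrix.det_transpose]
    exact hd.isUnit
  have h2 : gradv g f z = ((Hm g z)ᵀ)⁻¹.mulVec (fun k => dzb k f z) := by
    funext j
    rfl
  have h3 : (Hm g z)ᵀ.mulVec W = fun k => dzb k f z := funext hW
  rw [h2, ← h3, Matrix.mulVec_mulVec, Matrix.nonsing_inv_mul _ h1, Matrix.one_mulVec]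

/-- The matrix `g_{j kbar} ∂_lbar W_j` is symmetric. -/
theorem grad_symm (hU : IsOpen U) (hg : ContDiffOn ℝ ∞ g U)
    (hd : ∀ x ∈ U, (Hm g x).det ≠ 0) (hf : ContDiffOn ℝ ∞ f U) {z : Cn n} (hz : z ∈ U)
    (k l : Fin n) :
    ∑ j, Hm g z j k * dzb l (fun x => gradv g f x j) z =
      ∑ j, Hm g z j l * dzb k (fun x => gradv g f x j) z := by
  have key : ∀ k l, ∑ j, Hm g z j k * dzb l (fun x => gradv g f x j) z =
      dzb l (dzb k f) z - ∑ j, dzb l (fun x => Hm g x j k) z * gradv g f z j := by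
    intro k l
    have h1 : (fun x => ∑ j, Hm g x j k * gradv g f x j) =ᶠ[𝓝 z] dzb k f := by
      filter_upwards [hU.mem_nhds hz] with x hx
      exact gradv_spec (hd x hx) k
    rw [← dzb_congr h1, dzb_sum]
    · rw [← Finset.sum_sub_distrib]
      refine Finset.sum_congr rfl fun j _ => ?_
      rw [dzb_mul (diffAtC hU (contDiffOn_Hm hU hg j k) hz)
        (diffAtC hU (contDiffOn_gradv hU hg hd hf j) hz)]
      ring
    · intro j _
      exact diffAtC hU ((contDiffOn_Hm hU hg j k).mul (contDiffOn_gradv hU hg hd hf j)) hz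
  rw [key, key, dzb_dzb hU hf hz k l]
  congr 1
  refine Finset.sum_congr rfl fun j _ => ?_
  congr 1
  have hg' := contDiffOn_ofReal hg
  have h2 : ∀ k l, dzb l (fun x => Hm g x j k) z =
      dz j (dzb l (dzb k (fun x => (g x : ℂ)))) z := by
    intro k l
    exact (dz_dzb hU (contDiffOn_dzb hU hg' k) hz j l).symm
  rw [h2, h2]
  refine dz_congr ?_ j
  filter_upwards [hU.mem_nhds hz] with x hx
  exact dzb_dzb hU hg' hx l k

/-- Positivity of `tr (X Xbar)` if `H X` is symmetric. -/
theorem trace_nonneg_of_symm {H X : Matrix (Fin n) (Fin n) ℂ} (hH : H.PosDef)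
    (hs : (H * X)ᵀ = H * X) : 0 ≤ ∑ j, ∑ k, X j k * (starRingEnd ℂ) (X k j) := by
  have h0 : IsUnit H.det := hH.det_pos.ne'.isUnit
  have hP : (H⁻¹).PosDef := hH.inv
  set S := H * X with hS
  have hX : X = H⁻¹ * S := by
    rw [hS, ← Matrix.mul_assoc, Matrix.nonsing_inv_mul _ h0, Matrix.one_mul]
  have h1 : ∑ j, ∑ k, X j k * (starRingEnd ℂ) (X k j) = (X * (Xᴴ)ᵀ).trace := by
    simp only [Matrix.trace, Matrix.diag_apply, Matrix.mul_apply, Matrix.transpose_apply,
      Matrix.conjTranspose_apply, RCLike.star_def]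
  have h2 : (Xᴴ)ᵀ = (H⁻¹)ᵀ * Sᴴ := by
    have h3 : (Sᴴ)ᵀ = Sᴴ := by
      ext i j
      rw [Matrix.transpose_apply, Matrix.conjTranspose_apply, Matrix.conjTranspose_apply,
        ← Matrix.transpose_apply S i j, hs]
    conv_lhs => rw [hX]
    rw [Matrix.conjTranspose_mul, Matrix.transpose_mul, h3, hP.isHermitian.eq]
  obtain ⟨B, hB⟩ := CStarAlgebra.nonneg_iff_eq_star_mul_self.mp hP.posSemidef.nonneg
  have hQ : (S * (H⁻¹)ᵀ * Sᴴ).PosSemidef :=
    hP.transpose.posSemidef.mul_mul_conjTranspose_same S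
  have h4 : X * (Xᴴ)ᵀ = star B * (B * (S * (H⁻¹)ᵀ * Sᴴ)) := by
    rw [h2]
    conv_lhs => rw [hX]
    rw [← Matrix.mul_assoc (star B) B, ← hB]
    simp only [Matrix.mul_assoc]
  rw [h1, h4, Matrix.trace_mul_comm, Matrix.star_eq_conjTranspose]
  exact (hQ.mul_mul_conjTranspose_same B).trace_nonneg

/-- `∑ ∂_kbar W_j conj (∂_jbar W_k) ≥ 0` for gradients. -/
theorem grad_trace_nonneg (hU : IsOpen U) (hg : ContDiffOn ℝ ∞ g U)
    (hpos : ∀ x ∈ U, (Hm g x).PosDef) (hf : ContDiffOn ℝ ∞ f U) {z : Cn n} (hz : z ∈ U) :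
    0 ≤ ∑ j, ∑ k, dzb k (fun x => gradv g f x j) z *
      (starRingEnd ℂ) (dzb j (fun x => gradv g f x k) z) := by
  have hd : ∀ x ∈ U, (Hm g x).det ≠ 0 := fun x hx => (hpos x hx).det_pos.ne'
  have h1 : ((Hm g z)ᵀ).PosDef := (hpos z hz).transpose
  refine trace_nonneg_of_symm (H := (Hm g z)ᵀ)
    (X := Matrix.of fun j k => dzb k (fun x => gradv g f x j) z) h1 ?_
  ext l k
  simp only [Matrix.transpose_apply, Matrix.mul_apply, Matrix.of_apply]
  exact grad_symm hU hg hd hf hz k l

end

end Pool.Agent.KRFQ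

end

section

/-!
# An open set of a complex manifold with a density and a Kähler metric: changes of charts
-/

open scoped ContDiff Topology ComplexOrder Matrix
open Set MeasureTheory Filter Pool.Agent.ToricKRF Pool.Agent.ToricKRF.G Pool.Agent.KRFS

namespace Pool.Agent.KRFQ

section

variable {M : Type} [TopologicalSpace M] {n : ℕ} {κ : Type}
  (e : κ → OpenPartialHomeomorph M (Cn n))

/-- Charts `e c` of the open set `V`, densities `w c` of a volume form and local potentials `g c` of
a Kähler metric. -/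
structure L2D (V : Set M) (w g : κ → Cn n → ℝ) : Prop where
  sub : ∀ c, (e c).source ⊆ V
  cover : ∀ p ∈ V, ∃ c, p ∈ (e c).source
  holo : ∀ c c', HolOn (tr e c c') (dom e c c')
  w_smooth : ∀ c, ContDiffOn ℝ ∞ (w c) (e c).target
  w_pos : ∀ c, ∀ z ∈ (e c).target, 0 < w c z
  w_compat : ∀ c c', ∀ z ∈ dom e c c',
    w c z = |(fderiv ℝ (tr e c c') z).det| * w c' (tr e c c' z)
  w_lev : ∀ c c', ∀ z ∈ dom e c c', ∀ u, levz (fun x => -Real.log (w c x)) u z =
    levz (fun x => -Real.log (w c' x)) (fderiv ℝ (tr e c c') z u) (tr e c c' z)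
  g_smooth : ∀ c, ContDiffOn ℝ ∞ (g c) (e c).target
  g_pos : ∀ c, ∀ z ∈ (e c).target, ∀ u, u ≠ 0 → 0 < levz (g c) u z
  g_compat : ∀ c c', ∀ z ∈ dom e c c', ∀ u, levz (g c) u z =
    levz (g c') (fderiv ℝ (tr e c c') z u) (tr e c c' z)

/-- The function `f` in the chart `c`. -/
def pb {A : Type*} (c : κ) (f : M → A) (z : Cn n) : A := f ((e c).symm z)

/-- The function `f` is smooth in all charts. -/
def Sm (f : M → ℂ) : Prop := ∀ c, ContDiffOn ℝ ∞ (pb e c f) (e c).target

end

section

variable {M : Type} [TopologicalSpace M] {n : ℕ} {κ : Type}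
  {e : κ → OpenPartialHomeomorph M (Cn n)}

theorem isOpen_dom (c c' : κ) : IsOpen (dom e c c') :=
  (e c).symm.isOpen_inter_preimage (e c').open_source

theorem dom_sub (c c' : κ) : dom e c c' ⊆ (e c).target := fun _ hz => hz.1

theorem mem_dom {c c' : κ} {p : M} (hp : p ∈ (e c).source) (hp' : p ∈ (e c').source) :
    e c p ∈ dom e c c' :=
  ⟨(e c).map_source hp, by rwa [(e c).left_inv hp]⟩

theorem tr_apply {c c' : κ} {p : M} (hp : p ∈ (e c).source) : tr e c c' (e c p) = e c' p := by
  simp only [tr, (e c).left_inv hp]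

theorem symm_tr {c c' : κ} {z : Cn n} (hz : z ∈ dom e c c') :
    (e c').symm (tr e c c' z) = (e c).symm z := (e c').left_inv hz.2

theorem tr_mem_target {c c' : κ} {z : Cn n} (hz : z ∈ dom e c c') :
    tr e c c' z ∈ (e c').target := (e c').map_source hz.2

theorem tr_mem_dom {c c' : κ} {z : Cn n} (hz : z ∈ dom e c c') : tr e c c' z ∈ dom e c' c := by
  refine ⟨tr_mem_target hz, ?_⟩
  rw [symm_tr hz]
  exact (e c).map_target hz.1

theorem tr_tr {c c' : κ} {z : Cn n} (hz : z ∈ dom e c c') : tr e c' c (tr e c c' z) = z := by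
  change e c ((e c').symm (tr e c c' z)) = z
  rw [symm_tr hz, (e c).right_inv hz.1]

theorem pb_tr {A : Type*} {c c' : κ} (f : M → A) {z : Cn n} (hz : z ∈ dom e c c') :
    pb e c' f (tr e c c' z) = pb e c f z := by
  simp only [pb, symm_tr hz]

theorem pb_eventuallyEq {A : Type*} {c c' : κ} (f : M → A) {z : Cn n} (hz : z ∈ dom e c c') :
    pb e c f =ᶠ[𝓝 z] fun x => pb e c' f (tr e c c' x) := by
  filter_upwards [(isOpen_dom c c').mem_nhds hz] with x hx
  exact (pb_tr f hx).symm

end

section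

variable {M : Type} [TopologicalSpace M] {n : ℕ} {κ : Type}
  {e : κ → OpenPartialHomeomorph M (Cn n)} (he : ∀ c c', HolOn (tr e c c') (dom e c c'))

include he

theorem Jm_tr_mul {c c' : κ} {z : Cn n} (hz : z ∈ dom e c c') :
    Jm (tr e c' c) (tr e c c' z) * Jm (tr e c c') z = 1 := by
  rw [← Jm_comp (isOpen_dom c c') (he c c') (isOpen_dom c' c) (he c' c) hz (tr_mem_dom hz),
    ← Jm_id z]
  refine Jm_congr ?_
  filter_upwards [(isOpen_dom c c').mem_nhds hz] with x hx
  exact tr_tr hx

theorem Jm_tr_mul' {c c' : κ} {z : Cn n} (hz : z ∈ dom e c c') :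
    Jm (tr e c c') z * Jm (tr e c' c) (tr e c c' z) = 1 :=
  mul_eq_one_comm.1 (Jm_tr_mul he hz)

theorem dz_pb {c c' : κ} {f : M → ℂ} (hf : Sm e f) {z : Cn n} (hz : z ∈ dom e c c')
    (k : Fin n) :
    dz k (pb e c f) z = ∑ l, dz l (pb e c' f) (tr e c c' z) * Jm (tr e c c') z l k := by
  rw [dz_congr (pb_eventuallyEq f hz)]
  exact dz_comp (isOpen_dom c c') (he c c') hz
    (diffAtC (e c').open_target (hf c') (tr_mem_target hz)) k

theorem dzb_pb {c c' : κ} {f : M → ℂ} (hf : Sm e f) {z : Cn n} (hz : z ∈ dom e c c')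
    (k : Fin n) :
    dzb k (pb e c f) z = ∑ l, dzb l (pb e c' f) (tr e c c' z) *
      (starRingEnd ℂ) (Jm (tr e c c') z l k) := by
  rw [dzb_congr (pb_eventuallyEq f hz)]
  exact dzb_comp (isOpen_dom c c') (he c c') hz
    (diffAtC (e c').open_target (hf c') (tr_mem_target hz)) k

omit he in
/-- A hermitian form is determined by its values on the diagonal. -/
theorem form_ext {A B : Matrix (Fin n) (Fin n) ℂ}
    (h : ∀ u : Cn n, ∑ j, ∑ k, A j k * cc u j * (starRingEnd ℂ) (cc u k) =
      ∑ j, ∑ k, B j k * cc u j * (starRingEnd ℂ) (cc u k)) : A = B := by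
  set S : Cn n → Cn n → ℂ := fun u v =>
    ∑ j, ∑ k, (A j k - B j k) * cc u j * (starRingEnd ℂ) (cc v k) with hS
  have h0 : ∀ u, S u u = 0 := by
    intro u
    have h1 : S u u = ∑ j, ∑ k, A j k * cc u j * (starRingEnd ℂ) (cc u k) -
        ∑ j, ∑ k, B j k * cc u j * (starRingEnd ℂ) (cc u k) := by
      rw [hS, ← Finset.sum_sub_distrib]
      refine Finset.sum_congr rfl fun j _ => ?_
      rw [← Finset.sum_sub_distrib]
      exact Finset.sum_congr rfl fun k _ => by ring
    rw [h1, h u, sub_self]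
  have hadd : ∀ u v, S (u + v) (u + v) = S u u + S u v + S v u + S v v := by
    intro u v
    simp only [hS, cc_add, map_add]
    rw [← Finset.sum_add_distrib, ← Finset.sum_add_distrib, ← Finset.sum_add_distrib]
    refine Finset.sum_congr rfl fun j _ => ?_
    rw [← Finset.sum_add_distrib, ← Finset.sum_add_distrib, ← Finset.sum_add_distrib]
    exact Finset.sum_congr rfl fun k _ => by ring
  have h1 : ∀ u v, S u v + S v u = 0 := by
    intro u v
    have := hadd u v
    rw [h0, h0, h0] at this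
    linear_combination -this
  have h2 : ∀ u v, S u (J v) = -Complex.I * S u v := by
    intro u v
    simp only [hS, cc_J, map_mul, Complex.conj_I]
    rw [Finset.mul_sum]
    refine Finset.sum_congr rfl fun j _ => ?_
    rw [Finset.mul_sum]
    exact Finset.sum_congr rfl fun k _ => by ring
  have h3 : ∀ u v, S (J v) u = Complex.I * S v u := by
    intro u v
    simp only [hS, cc_J]
    rw [Finset.mul_sum]
    refine Finset.sum_congr rfl fun j _ => ?_
    rw [Finset.mul_sum]
    exact Finset.sum_congr rfl fun k _ => by ring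
  have h4 : ∀ u v, S u v = 0 := by
    intro u v
    have e1 := h1 u v
    have e2 := h1 u (J v)
    rw [h2, h3] at e2
    have e3 : Complex.I * (S v u - S u v) = 0 := by linear_combination e2
    have e4 : S v u - S u v = 0 := by
      rcases mul_eq_zero.1 e3 with h | h
      · exact absurd h Complex.I_ne_zero
      · exact h
    linear_combination (1 / 2 : ℂ) * e1 - (1 / 2 : ℂ) * e4
  ext j k
  have h5 := h4 (eR j) (eR k)
  simp only [hS, cc_eR] at h5
  simpa [sub_eq_zero] using h5

/-- Complex Hessians under changes of charts. -/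
theorem Hm_tr {h : κ → Cn n → ℝ} (hh : ∀ c, ContDiffOn ℝ ∞ (h c) (e c).target) {c c' : κ}
    {z : Cn n} (hz : z ∈ dom e c c')
    (hc : ∀ u, levz (h c) u z = levz (h c') (fderiv ℝ (tr e c c') z u) (tr e c c' z)) :
    Hm (h c) z = (Jm (tr e c c') z)ᵀ * Hm (h c') (tr e c c' z) *
      (Jm (tr e c c') z).map (starRingEnd ℂ) := by
  refine form_ext fun u => ?_
  rw [← levz_eq (e c).open_target (hh c) hz.1, hc u,
    levz_eq (e c').open_target (hh c') (tr_mem_target hz)]
  simp only [cc_fderiv (he c c') hz, Matrix.mul_apply, Matrix.transpose_apply, Matrix.map_apply,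
    map_sum, map_mul, Finset.sum_mul, Finset.mul_sum]
  have h1 : ∀ (F : Fin n → Fin n → Fin n → Fin n → ℂ),
      ∑ l, ∑ m, ∑ k, ∑ j, F l m j k = ∑ j, ∑ k, ∑ m, ∑ l, F l m j k := by
    intro F
    calc ∑ l, ∑ m, ∑ k, ∑ j, F l m j k = ∑ l, ∑ m, ∑ j, ∑ k, F l m j k :=
          Finset.sum_congr rfl fun l _ => Finset.sum_congr rfl fun m _ => Finset.sum_comm
      _ = ∑ l, ∑ j, ∑ m, ∑ k, F l m j k := Finset.sum_congr rfl fun l _ => Finset.sum_comm
      _ = ∑ j, ∑ l, ∑ m, ∑ k, F l m j k := Finset.sum_comm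
      _ = ∑ j, ∑ l, ∑ k, ∑ m, F l m j k :=
          Finset.sum_congr rfl fun j _ => Finset.sum_congr rfl fun l _ => Finset.sum_comm
      _ = ∑ j, ∑ k, ∑ l, ∑ m, F l m j k := Finset.sum_congr rfl fun j _ => Finset.sum_comm
      _ = ∑ j, ∑ k, ∑ m, ∑ l, F l m j k :=
          Finset.sum_congr rfl fun j _ => Finset.sum_congr rfl fun k _ => Finset.sum_comm
  rw [h1]
  refine Finset.sum_congr rfl fun j _ => Finset.sum_congr rfl fun k _ =>
    Finset.sum_congr rfl fun m _ => Finset.sum_congr rfl fun l _ => ?_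
  ring

end

section

variable {M : Type} [TopologicalSpace M] {n : ℕ} {κ : Type}
  {e : κ → OpenPartialHomeomorph M (Cn n)} {V : Set M} {w g : κ → Cn n → ℝ}
  (h : L2D e V w g)

include h

theorem L2D.posDef (c : κ) {z : Cn n} (hz : z ∈ (e c).target) : (Hm (g c) z).PosDef :=
  Hm_posDef (e c).open_target (h.g_smooth c) hz fun u hu => h.g_pos c z hz u hu

theorem L2D.det_ne (c : κ) {z : Cn n} (hz : z ∈ (e c).target) : (Hm (g c) z).det ≠ 0 :=
  (h.posDef c hz).det_pos.ne'

/-- The gradient under changes of charts. -/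
theorem L2D.grad_tr {c c' : κ} {f : M → ℂ} (hf : Sm e f) {z : Cn n} (hz : z ∈ dom e c c')
    (l : Fin n) : gradv (g c') (pb e c' f) (tr e c c' z) l =
      ∑ k, Jm (tr e c c') z l k * gradv (g c) (pb e c f) z k := by
  refine congrFun (gradv_unique (W := fun l => ∑ k, Jm (tr e c c') z l k *
    gradv (g c) (pb e c f) z k) (h.det_ne c' (tr_mem_target hz)) fun m => ?_) l
  -- the equation in the chart `c`
  have h1 : ∀ k, ∑ j, Hm (g c) z j k * gradv (g c) (pb e c f) z j = dzb k (pb e c f) z :=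
    gradv_spec (h.det_ne c hz.1)
  have h2 := Hm_tr h.holo h.g_smooth hz (h.g_compat c c' z hz)
  set A := Jm (tr e c c') z with hA
  set B := Jm (tr e c' c) (tr e c c' z) with hB
  set G' := Hm (g c') (tr e c c' z) with hG'
  have hAB : A * B = 1 := Jm_tr_mul' h.holo hz
  set W := gradv (g c) (pb e c f) z with hW
  set α' : Fin n → ℂ := fun l => dzb l (pb e c' f) (tr e c c' z) with hα'
  -- in matrix form
  have h3 : (Hm (g c) z)ᵀ.mulVec W = (A.map (starRingEnd ℂ))ᵀ.mulVec α' := by
    funext k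
    rw [show (Hm (g c) z)ᵀ.mulVec W k = ∑ j, Hm (g c) z j k * W j from rfl, h1 k,
      dzb_pb h.holo hf hz k]
    simp only [Matrix.mulVec, dotProduct, Matrix.transpose_apply, Matrix.map_apply, hα']
    exact Finset.sum_congr rfl fun l _ => mul_comm _ _
  have h4 : (Hm (g c) z)ᵀ = (A.map (starRingEnd ℂ))ᵀ * (G'ᵀ * A) := by
    rw [h2, Matrix.transpose_mul, Matrix.transpose_mul, Matrix.transpose_transpose]
  have h5 : ((B.map (starRingEnd ℂ))ᵀ) * ((A.map (starRingEnd ℂ))ᵀ) = 1 := by
    rw [← Matrix.transpose_mul, ← Matrix.map_mul, hAB]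
    simp
  have h6 : G'ᵀ.mulVec (A.mulVec W) = α' := by
    have h7 := congrArg (fun v => ((B.map (starRingEnd ℂ))ᵀ).mulVec v) h3
    simp only [Matrix.mulVec_mulVec] at h7
    rw [h5, h4, ← Matrix.mul_assoc, h5, Matrix.one_mul, Matrix.one_mulVec] at h7
    rw [Matrix.mulVec_mulVec, h7]
  exact congrFun h6 m

/-- The vector field `∑ conj (W_j) ∂_jbar W_k` under changes of charts. -/
theorem L2D.N_tr {c c' : κ} {f : M → ℂ} (hf : Sm e f) {z : Cn n} (hz : z ∈ dom e c c')
    (i : Fin n) :
    ∑ l, (starRingEnd ℂ) (gradv (g c') (pb e c' f) (tr e c c' z) l) *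
      dzb l (fun x => gradv (g c') (pb e c' f) x i) (tr e c c' z) =
    ∑ k, Jm (tr e c c') z i k * ∑ j, (starRingEnd ℂ) (gradv (g c) (pb e c f) z j) *
      dzb j (fun x => gradv (g c) (pb e c f) x k) z := by
  have s1 : ∀ k, DifferentiableAt ℝ (fun x => gradv (g c) (pb e c f) x k) z := fun k =>
    diffAtC (e c).open_target (contDiffOn_gradv (e c).open_target (h.g_smooth c)
      (fun x hx => h.det_ne c hx) (hf c) k) hz.1
  have s2 : DifferentiableAt ℝ (fun x => gradv (g c') (pb e c' f) x i) (tr e c c' z) :=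
    diffAtC (e c').open_target (contDiffOn_gradv (e c').open_target (h.g_smooth c')
      (fun x hx => h.det_ne c' hx) (hf c') i) (tr_mem_target hz)
  have s3 : ∀ k, DifferentiableAt ℝ (fun x => Jm (tr e c c') x i k) z := fun k =>
    diffAtC (isOpen_dom c c') (contDiffOn_Jm (isOpen_dom c c') (h.holo c c') i k) hz
  have h1 : ∀ j, ∑ l, dzb l (fun x => gradv (g c') (pb e c' f) x i) (tr e c c' z) *
      (starRingEnd ℂ) (Jm (tr e c c') z l j) =
      ∑ k, Jm (tr e c c') z i k * dzb j (fun x => gradv (g c) (pb e c f) x k) z := by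
    intro j
    rw [← dzb_comp (isOpen_dom c c') (h.holo c c') hz s2 j]
    have h2 : (fun x => gradv (g c') (pb e c' f) (tr e c c' x) i) =ᶠ[𝓝 z]
        fun x => ∑ k, Jm (tr e c c') x i k * gradv (g c) (pb e c f) x k := by
      filter_upwards [(isOpen_dom c c').mem_nhds hz] with x hx
      exact h.grad_tr hf hx i
    rw [dzb_congr h2, dzb_sum _ fun k _ => (s3 k).fun_mul (s1 k)]
    refine Finset.sum_congr rfl fun k _ => ?_
    rw [dzb_mul (s3 k) (s1 k), dzb_Jm (isOpen_dom c c') (h.holo c c') hz, zero_mul, zero_add]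
  have h3 : ∀ l, (starRingEnd ℂ) (gradv (g c') (pb e c' f) (tr e c c' z) l) =
      ∑ j, (starRingEnd ℂ) (Jm (tr e c c') z l j) *
        (starRingEnd ℂ) (gradv (g c) (pb e c f) z j) := by
    intro l
    rw [h.grad_tr hf hz l, map_sum]
    exact Finset.sum_congr rfl fun j _ => map_mul _ _ _
  calc ∑ l, (starRingEnd ℂ) (gradv (g c') (pb e c' f) (tr e c c' z) l) *
      dzb l (fun x => gradv (g c') (pb e c' f) x i) (tr e c c' z)
      = ∑ j, (starRingEnd ℂ) (gradv (g c) (pb e c f) z j) *
        ∑ l, dzb l (fun x => gradv (g c') (pb e c' f) x i) (tr e c c' z) *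
          (starRingEnd ℂ) (Jm (tr e c c') z l j) := by
        simp only [h3, Finset.sum_mul, Finset.mul_sum]
        rw [Finset.sum_comm]
        exact Finset.sum_congr rfl fun j _ => Finset.sum_congr rfl fun l _ => by ring
    _ = _ := by
        simp only [h1, Finset.mul_sum]
        rw [Finset.sum_comm]
        exact Finset.sum_congr rfl fun k _ => Finset.sum_congr rfl fun j _ => by ring

end

end Pool.Agent.KRFQ

end

section

/-!
# Integration by parts and the invariance of the divergence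
-/

open scoped ContDiff Topology ComplexOrder Matrix
open Set MeasureTheory Filter Pool.Agent.ToricKRF Pool.Agent.ToricKRF.G Pool.Agent.KRFS

namespace Pool.Agent.KRFQ

variable {n : ℕ}

theorem dz_smooth_mul {f g : Cn n → ℂ} {U : Set (Cn n)} (hU : IsOpen U)
    (hf : ContDiff ℝ ∞ f) (hfs : tsupport f ⊆ U) (hg : ContDiffOn ℝ ∞ g U) :
    ContDiff ℝ ∞ (fun x => f x * g x) := by
  refine contDiff_of_support hU (hf.contDiffOn.mul hg) ?_
  exact (tsupport_mul_subset_left (f := f) (g := g)).trans hfs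

/-- Integration by parts in a chart. -/
theorem ibp {U : Set (Cn n)} (hU : IsOpen U) {Y : Cn n → Fin n → ℂ}
    (hY : ∀ j, ContDiffOn ℝ ∞ (fun x => Y x j) U) {η : Cn n → ℂ} (hη : ContDiff ℝ ∞ η)
    (hc : HasCompactSupport η) (hs : tsupport η ⊆ U) :
    ∫ z, η z * ∑ j, dz j (fun x => Y x j) z = -∫ z, ∑ j, Y z j * dz j η z := by
  have hF : ∀ j, ContDiff ℝ ∞ (fun x => η x * Y x j) := fun j =>
    dz_smooth_mul hU hη hs (hY j)
  have hFc : ∀ j, HasCompactSupport (fun x => η x * Y x j) := fun j => hc.mul_right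
  have h1 : ∀ z, η z * ∑ j, dz j (fun x => Y x j) z + ∑ j, Y z j * dz j η z =
      ∑ j, dz j (fun x => η x * Y x j) z := by
    intro z
    by_cases hz : z ∈ tsupport η
    · rw [Finset.mul_sum, ← Finset.sum_add_distrib]
      refine Finset.sum_congr rfl fun j _ => ?_
      rw [dz_mul ((hη.differentiable (by simp)) z) (diffAtC hU (hY j) (hs hz))]
      ring
    · have h2 : η z = 0 := image_eq_zero_of_notMem_tsupport hz
      have h3 : ∀ j, dz j (fun x => η x * Y x j) z = 0 := by
        intro j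
        have h4 : (fun x => η x * Y x j) =ᶠ[𝓝 z] fun _ => 0 := by
          filter_upwards [notMem_tsupport_iff_eventuallyEq.1 hz] with x hx
          rw [hx]
          simp
        rw [dz_congr h4, dz_const]
      rw [h2, zero_mul, zero_add]
      refine Finset.sum_congr rfl fun j _ => ?_
      rw [h3, dz_of_notMem hz, mul_zero]
  have i1 : ∀ j, Integrable (fun z => Y z j * dz j η z) := by
    intro j
    have h2 : ContDiff ℝ ∞ (fun x => dz j η x * Y x j) :=
      dz_smooth_mul hU (contDiff_dz hη j) ((tsupport_dz_subset j η).trans hs) (hY j)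
    have h3 : HasCompactSupport (fun x => dz j η x * Y x j) :=
      (hc.mono' ((subset_tsupport _).trans (tsupport_dz_subset j η))).mul_right
    refine (h2.continuous.integrable_of_hasCompactSupport h3).congr
      (Eventually.of_forall fun z => mul_comm _ _)
  have i2 : ∀ j, Integrable (fun z => dz j (fun x => η x * Y x j) z) := by
    intro j
    refine (contDiff_dz (hF j) j).continuous.integrable_of_hasCompactSupport ?_
    exact (hFc j).mono' ((subset_tsupport _).trans (tsupport_dz_subset j _))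
  have h5 : ∫ z, ∑ j, dz j (fun x => η x * Y x j) z = 0 := by
    rw [integral_finsetSum _ fun j _ => i2 j]
    exact Finset.sum_eq_zero fun j _ => integral_dz_eq_zero ((hF j).of_le (by simp)) (hFc j) j
  have h6 : ∀ z, η z * ∑ j, dz j (fun x => Y x j) z =
      ∑ j, dz j (fun x => η x * Y x j) z - ∑ j, Y z j * dz j η z := by
    intro z
    rw [← h1 z]
    ring
  simp only [h6]
  rw [integral_sub (integrable_finsetSum _ fun j _ => i2 j)
    (integrable_finsetSum _ fun j _ => i1 j), h5, zero_sub]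

section

variable {M : Type} [TopologicalSpace M] {κ : Type}
  {e : κ → OpenPartialHomeomorph M (Cn n)} {V : Set M} {w g : κ → Cn n → ℝ}

/-- A smooth vector field of type `(1,0)`. -/
structure Fld (e : κ → OpenPartialHomeomorph M (Cn n)) (X : κ → Cn n → Fin n → ℂ) : Prop where
  smooth : ∀ c j, ContDiffOn ℝ ∞ (fun z => X c z j) (e c).target
  tr : ∀ c c', ∀ z ∈ dom e c c', ∀ l,
    X c' (tr e c c' z) l = ∑ k, Jm (tr e c c') z l k * X c z k

theorem image_tr_dom (c c' : κ) : tr e c c' '' dom e c c' = dom e c' c := by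
  ext z
  constructor
  · rintro ⟨x, hx, rfl⟩
    exact tr_mem_dom hx
  · intro hz
    exact ⟨tr e c' c z, tr_mem_dom hz, tr_tr hz⟩

theorem injOn_tr (c c' : κ) : InjOn (tr e c c') (dom e c c') := by
  intro x hx y hy hxy
  have h1 := congrArg (tr e c' c) hxy
  rwa [tr_tr hx, tr_tr hy] at h1

/-- Change of variables. -/
theorem integral_tr (he : ∀ c c', HolOn (tr e c c') (dom e c c')) (c c' : κ) (F : Cn n → ℂ) :
    ∫ z in dom e c' c, F z =
      ∫ z in dom e c c', |(fderiv ℝ (tr e c c') z).det| • F (tr e c c' z) := by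
  have := haarCn (n := n)
  rw [← image_tr_dom c c']
  exact integral_image_eq_integral_abs_det_fderiv_smul volume (isOpen_dom c c').measurableSet
    (fun z hz => (HolOn.differentiableAt (isOpen_dom c c') (he c c') hz).hasFDerivAt.hasFDerivWithinAt)
    (injOn_tr c c') F

include V w g in
/-- The divergence does not depend on the chart. -/
theorem L2D.dv_tr (h : L2D e V w g) {X : κ → Cn n → Fin n → ℂ} (hX : Fld e X) {c c' : κ}
    {z : Cn n} (hz : z ∈ dom e c c') :
    dv (w c') (X c') (tr e c c' z) = dv (w c) (X c) z := by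
  have hd := isOpen_dom (e := e) c c'
  have hd' := isOpen_dom (e := e) c' c
  -- smoothness of the divergences
  have s1 : ContDiffOn ℝ ∞ (dv (w c) (X c)) (e c).target :=
    contDiffOn_dv (e c).open_target (h.w_smooth c) (h.w_pos c) (hX.smooth c)
  have s2 : ContDiffOn ℝ ∞ (dv (w c') (X c')) (e c').target :=
    contDiffOn_dv (e c').open_target (h.w_smooth c') (h.w_pos c') (hX.smooth c')
  have s3 : ContDiffOn ℝ ∞ (fun x => dv (w c') (X c') (tr e c c' x)) (dom e c c') :=
    s2.comp (h.holo c c').1 fun x hx => tr_mem_target hx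
  set δ : Cn n → ℂ := fun x => (w c x : ℂ) * (dv (w c) (X c) x -
    dv (w c') (X c') (tr e c c' x)) with hδ
  have hδs : ContDiffOn ℝ ∞ δ (dom e c c') :=
    (contDiffOn_ofReal ((h.w_smooth c).mono (dom_sub c c'))).mul
      ((s1.mono (dom_sub c c')).sub s3)
  have key : ∀ η : Cn n → ℝ, ContDiff ℝ ∞ η → HasCompactSupport η → tsupport η ⊆ dom e c c' →
      ∫ x, η x • δ x = 0 := by
    intro η hη hηc hηs
    set ηc : Cn n → ℂ := fun x => (η x : ℂ) with hηcdef
    have hηc1 : ContDiff ℝ ∞ ηc := Complex.ofRealCLM.contDiff.comp hη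
    have hηc2 : tsupport ηc ⊆ tsupport η := by
      refine closure_mono fun x hx => ?_
      intro h0
      exact hx (by simp [hηcdef, h0])
    have hηc3 : HasCompactSupport ηc := hηc.of_isClosed_subset (isClosed_tsupport _) hηc2
    have hηcs : tsupport ηc ⊆ dom e c c' := hηc2.trans hηs
    -- the function in the other chart
    classical
    set η' : Cn n → ℂ := fun y => if y ∈ dom e c' c then ηc (tr e c' c y) else 0 with hη'
    have hη'0 : ∀ y ∉ tr e c c' '' tsupport ηc, η' y = 0 := by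
      intro y hy
      by_cases hyd : y ∈ dom e c' c
      · simp only [hη', hyd, if_true]
        refine image_eq_zero_of_notMem_tsupport fun hm => hy ⟨_, hm, tr_tr hyd⟩
      · simp only [hη', hyd, if_false]
    have hKc : IsCompact (tr e c c' '' tsupport ηc) :=
      hηc3.isCompact.image_of_continuousOn ((h.holo c c').1.continuousOn.mono hηcs)
    have hη's : tsupport η' ⊆ tr e c c' '' tsupport ηc := by
      refine closure_minimal (fun y hy => ?_) hKc.isClosed
      by_contra hy'
      exact hy (hη'0 y hy')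
    have hη'd : tsupport η' ⊆ dom e c' c := by
      refine hη's.trans ?_
      rintro y ⟨x, hx, rfl⟩
      exact tr_mem_dom (hηcs hx)
    have hη'c : HasCompactSupport η' := hKc.of_isClosed_subset (isClosed_tsupport _) hη's
    have hη'sm : ContDiff ℝ ∞ η' := by
      refine contDiff_of_support hd' ?_ hη'd
      refine (hηc1.comp_contDiffOn (h.holo c' c).1).congr fun y hy => ?_
      simp only [hη', hy, if_true, Function.comp_apply]
    have hη'tr : ∀ x ∈ dom e c c', η' (tr e c c' x) = ηc x := by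
      intro x hx
      simp only [hη', tr_mem_dom hx, if_true, tr_tr hx]
    -- the vector fields times the densities
    have hY : ∀ j, ContDiffOn ℝ ∞ (fun x => (w c x : ℂ) * X c x j) (dom e c c') := fun j =>
      ((contDiffOn_ofReal (h.w_smooth c)).mul (hX.smooth c j)).mono (dom_sub c c')
    have hY' : ∀ j, ContDiffOn ℝ ∞ (fun x => (w c' x : ℂ) * X c' x j) (dom e c' c) := fun j =>
      ((contDiffOn_ofReal (h.w_smooth c')).mul (hX.smooth c' j)).mono (dom_sub c' c)
    have a1 := ibp hd hY hηc1 hηc3 hηcs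
    have a2 := ibp hd' hY' hη'sm hη'c hη'd
    -- the divergence times the density
    have d1 : ∀ x ∈ (e c).target, (w c x : ℂ) * dv (w c) (X c) x =
        ∑ j, dz j (fun x => (w c x : ℂ) * X c x j) x := by
      intro x hx
      have hw0 : (w c x : ℂ) ≠ 0 := by exact_mod_cast (h.w_pos c x hx).ne'
      rw [dv, mul_div_cancel₀ _ hw0]
    have d2 : ∀ x ∈ (e c').target, (w c' x : ℂ) * dv (w c') (X c') x =
        ∑ j, dz j (fun x => (w c' x : ℂ) * X c' x j) x := by
      intro x hx
      have hw0 : (w c' x : ℂ) ≠ 0 := by exact_mod_cast (h.w_pos c' x hx).ne'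
      rw [dv, mul_div_cancel₀ _ hw0]
    have b1 : ∫ x, ηc x * ((w c x : ℂ) * dv (w c) (X c) x) =
        -∫ z, ∑ j, (w c z : ℂ) * X c z j * dz j ηc z := by
      rw [← a1]
      refine integral_congr_ae (Eventually.of_forall fun x => ?_)
      by_cases hx : x ∈ dom e c c'
      · simp only [d1 x hx.1]
      · have h2 : ηc x = 0 := image_eq_zero_of_notMem_tsupport fun hm => hx (hηcs hm)
        simp only [h2, zero_mul]
    have b2 : ∫ x, ηc x * ((w c x : ℂ) * dv (w c') (X c') (tr e c c' x)) =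
        ∫ y, η' y * ((w c' y : ℂ) * dv (w c') (X c') y) := by
      have e1 : ∫ y, η' y * ((w c' y : ℂ) * dv (w c') (X c') y) =
          ∫ y in dom e c' c, η' y * ((w c' y : ℂ) * dv (w c') (X c') y) := by
        refine (setIntegral_eq_integral_of_forall_compl_eq_zero fun y hy => ?_).symm
        have h2 : η' y = 0 := image_eq_zero_of_notMem_tsupport fun hm => hy (hη'd hm)
        simp only [h2, zero_mul]
      have e2 : ∫ x, ηc x * ((w c x : ℂ) * dv (w c') (X c') (tr e c c' x)) =
          ∫ x in dom e c c', ηc x * ((w c x : ℂ) * dv (w c') (X c') (tr e c c' x)) := by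
        refine (setIntegral_eq_integral_of_forall_compl_eq_zero fun y hy => ?_).symm
        have h2 : ηc y = 0 := image_eq_zero_of_notMem_tsupport fun hm => hy (hηcs hm)
        simp only [h2, zero_mul]
      rw [e1, e2, integral_tr h.holo c c']
      refine setIntegral_congr_fun hd.measurableSet fun x hx => ?_
      rw [hη'tr x hx, h.w_compat c c' x hx, Complex.real_smul]
      push_cast
      ring
    have b3 : ∫ y, η' y * ((w c' y : ℂ) * dv (w c') (X c') y) =
        -∫ z, ∑ j, (w c' z : ℂ) * X c' z j * dz j η' z := by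
      rw [← a2]
      refine integral_congr_ae (Eventually.of_forall fun x => ?_)
      by_cases hx : x ∈ dom e c' c
      · simp only [d2 x hx.1]
      · have h2 : η' x = 0 := image_eq_zero_of_notMem_tsupport fun hm => hx (hη'd hm)
        simp only [h2, zero_mul]
    have b4 : ∫ z, ∑ j, (w c' z : ℂ) * X c' z j * dz j η' z =
        ∫ z, ∑ j, (w c z : ℂ) * X c z j * dz j ηc z := by
      have e1 : ∫ z, ∑ j, (w c' z : ℂ) * X c' z j * dz j η' z =
          ∫ z in dom e c' c, ∑ j, (w c' z : ℂ) * X c' z j * dz j η' z := by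
        refine (setIntegral_eq_integral_of_forall_compl_eq_zero fun y hy => ?_).symm
        refine Finset.sum_eq_zero fun j _ => ?_
        rw [dz_of_notMem (fun hm => hy (hη'd hm)), mul_zero]
      have e2 : ∫ z, ∑ j, (w c z : ℂ) * X c z j * dz j ηc z =
          ∫ z in dom e c c', ∑ j, (w c z : ℂ) * X c z j * dz j ηc z := by
        refine (setIntegral_eq_integral_of_forall_compl_eq_zero fun y hy => ?_).symm
        refine Finset.sum_eq_zero fun j _ => ?_
        rw [dz_of_notMem (fun hm => hy (hηcs hm)), mul_zero]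
      rw [e1, e2, integral_tr h.holo c c']
      refine setIntegral_congr_fun hd.measurableSet fun x hx => ?_
      have h3 : ∀ k, dz k ηc x = ∑ l, dz l η' (tr e c c' x) * Jm (tr e c c') x l k := by
        intro k
        have h4 : ηc =ᶠ[𝓝 x] fun y => η' (tr e c c' y) := by
          filter_upwards [hd.mem_nhds hx] with y hy
          exact (hη'tr y hy).symm
        rw [dz_congr h4]
        exact dz_comp hd (h.holo c c') hx ((hη'sm.differentiable (by simp)) _) k
      simp only [h3, hX.tr c c' x hx]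
      rw [Finset.smul_sum]
      have h5 : ∀ l, |(fderiv ℝ (tr e c c') x).det| • ((w c' (tr e c c' x) : ℂ) *
          (∑ k, Jm (tr e c c') x l k * X c x k) * dz l η' (tr e c c' x)) =
          ∑ k, (w c x : ℂ) * X c x k * (dz l η' (tr e c c' x) * Jm (tr e c c') x l k) := by
        intro l
        rw [h.w_compat c c' x hx, Complex.real_smul, Finset.mul_sum, Finset.sum_mul,
          Finset.mul_sum]
        refine Finset.sum_congr rfl fun k _ => ?_
        push_cast
        ring
      simp only [h5]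
      rw [Finset.sum_comm]
      exact Finset.sum_congr rfl fun k _ => by rw [Finset.mul_sum]
    have i1 : Integrable (fun x => ηc x * ((w c x : ℂ) * dv (w c) (X c) x)) := by
      refine Continuous.integrable_of_hasCompactSupport ?_ hηc3.mul_right
      exact (dz_smooth_mul hd hηc1 hηcs (((contDiffOn_ofReal (h.w_smooth c)).mul s1).mono
        (dom_sub c c'))).continuous
    have i2 : Integrable (fun x => ηc x * ((w c x : ℂ) * dv (w c') (X c') (tr e c c' x))) := by
      refine Continuous.integrable_of_hasCompactSupport ?_ hηc3.mul_right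
      exact (dz_smooth_mul hd hηc1 hηcs (((contDiffOn_ofReal (h.w_smooth c)).mono
        (dom_sub c c')).mul s3)).continuous
    have e9 : ∀ x, η x • δ x = ηc x * ((w c x : ℂ) * dv (w c) (X c) x) -
        ηc x * ((w c x : ℂ) * dv (w c') (X c') (tr e c c' x)) := by
      intro x
      simp only [hδ, hηcdef, Complex.real_smul]
      ring
    simp only [e9]
    rw [integral_sub i1 i2, b1, b2, b3, b4, sub_self]
  have hae := hd.ae_eq_zero_of_integral_contDiff_smul_eq_zero (μ := volume)
    (hδs.continuousOn.locallyIntegrableOn hd.measurableSet) key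
  have h0 : δ z = 0 := by
    have := haarCn (n := n)
    have h1 : δ =ᵐ[volume.restrict (dom e c c')] fun _ => (0 : ℂ) :=
      (ae_restrict_iff' hd.measurableSet).2 hae
    exact Measure.eqOn_open_of_ae_eq h1 hd hδs.continuousOn continuousOn_const hz
  have hw0 : (w c z : ℂ) ≠ 0 := by exact_mod_cast (h.w_pos c z hz.1).ne'
  rcases mul_eq_zero.1 h0 with h1 | h1
  · exact absurd h1 hw0
  · exact (sub_eq_zero.1 h1).symm

end

end Pool.Agent.KRFQ

end

section

/-!
# Smooth functions with compact support in a chart, partitions of unity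
-/

open scoped ContDiff Topology ComplexOrder Matrix
open Set MeasureTheory Filter Pool.Agent.ToricKRF Pool.Agent.ToricKRF.G Pool.Agent.KRFS

namespace Pool.Agent.KRFQ

section

variable {M : Type} [TopologicalSpace M] {n : ℕ} {κ : Type}
  {e : κ → OpenPartialHomeomorph M (Cn n)}

/-- A function which is smooth in the chart `c` and vanishes off a compact set of this chart is
smooth. -/
theorem smooth_of_chart {E : Type*} [NormedAddCommGroup E] [NormedSpace ℝ E] [T2Space M]
    (he : ∀ c c', HolOn (tr e c c') (dom e c c')) {c : κ} {f : M → E} {K : Set M}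
    (hK : IsCompact K) (hKs : K ⊆ (e c).source) (hf : ContDiffOn ℝ ∞ (pb e c f) (e c).target)
    (h0 : ∀ q ∉ K, f q = 0) (c' : κ) : ContDiffOn ℝ ∞ (pb e c' f) (e c').target := by
  intro z hz
  refine ContDiffAt.contDiffWithinAt ?_
  by_cases hq : (e c').symm z ∈ K
  · have hd : z ∈ dom e c' c := ⟨hz, hKs hq⟩
    have h1 : ContDiffAt ℝ ∞ (fun x => pb e c f (tr e c' c x)) z :=
      (hf.contDiffAt ((e c).open_target.mem_nhds (tr_mem_target hd))).comp z
        ((he c' c).1.contDiffAt ((isOpen_dom c' c).mem_nhds hd))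
    exact h1.congr_of_eventuallyEq (pb_eventuallyEq f hd)
  · have h1 : ∀ᶠ x in 𝓝 z, (e c').symm x ∈ Kᶜ :=
      ((e c').symm.continuousAt hz).eventually (hK.isClosed.isOpen_compl.mem_nhds hq)
    refine (contDiffAt_const (c := (0 : E))).congr_of_eventuallyEq ?_
    filter_upwards [h1] with x hx
    exact h0 _ hx

theorem Sm.conj {f : M → ℂ} (hf : Sm e f) : Sm e (fun p => (starRingEnd ℂ) (f p)) := fun c =>
  contDiffOn_conj (hf c)

theorem Sm.add {f g : M → ℂ} (hf : Sm e f) (hg : Sm e g) : Sm e (fun p => f p + g p) := fun c =>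
  (hf c).add (hg c)

theorem Sm.mul {f g : M → ℂ} (hf : Sm e f) (hg : Sm e g) : Sm e (fun p => f p * g p) := fun c =>
  (hf c).mul (hg c)

theorem Sm.sub {f g : M → ℂ} (hf : Sm e f) (hg : Sm e g) : Sm e (fun p => f p - g p) := fun c =>
  (hf c).sub (hg c)

theorem Sm.sum {ι : Type*} {s : Finset ι} {f : ι → M → ℂ} (hf : ∀ i ∈ s, Sm e (f i)) :
    Sm e (fun p => ∑ i ∈ s, f i p) := fun c =>
  ContDiffOn.sum fun i hi => hf i hi c

theorem Sm.const (a : ℂ) : Sm e (fun _ => a) := fun _ => contDiffOn_const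

theorem Sm.continuousAt {f : M → ℂ} (hf : Sm e f) {c : κ} {p : M} (hp : p ∈ (e c).source) :
    ContinuousAt f p := by
  have h1 : ContinuousAt (fun q => pb e c f (e c q)) p := by
    refine ContinuousAt.comp (g := pb e c f) ?_ ((e c).continuousAt hp)
    exact (hf c).continuousOn.continuousAt ((e c).open_target.mem_nhds ((e c).map_source hp))
  refine h1.congr ?_
  filter_upwards [(e c).open_source.mem_nhds hp] with q hq
  simp only [pb, (e c).left_inv hq]

theorem Sm.continuous {f : M → ℂ} {V : Set M} (hc : ∀ p ∈ V, ∃ c, p ∈ (e c).source)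
    (hf : Sm e f) (hs : tsupport f ⊆ V) : Continuous f := by
  rw [continuous_iff_continuousAt]
  intro p
  by_cases hp : p ∈ tsupport f
  · obtain ⟨c, hcp⟩ := hc p (hs hp)
    exact hf.continuousAt hcp
  · exact (continuousAt_const (y := (0 : ℂ))).congr (notMem_tsupport_iff_eventuallyEq.1 hp).symm

/-- A bump function in a chart. -/
theorem exists_bump [T2Space M] (he : ∀ c c', HolOn (tr e c c') (dom e c c')) {c : κ} {p : M}
    (hp : p ∈ (e c).source) : ∃ (b : M → ℝ) (K : Set M), IsCompact K ∧ K ⊆ (e c).source ∧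
      (∀ q ∉ K, b q = 0) ∧ (∀ q, 0 ≤ b q) ∧ 0 < b p ∧ Continuous b ∧
      ∀ c', ContDiffOn ℝ ∞ (pb e c' b) (e c').target := by
  classical
  obtain ⟨r, hr, hb⟩ := Metric.isOpen_iff.1 (e c).open_target (e c p) ((e c).map_source hp)
  let f : ContDiffBump (e c p) := ⟨r / 3, r / 2, by positivity, by linarith⟩
  have hball : Metric.closedBall (e c p) (r / 2) ⊆ (e c).target :=
    (Metric.closedBall_subset_ball (by linarith)).trans hb
  set K : Set M := (e c).symm '' Metric.closedBall (e c p) (r / 2) with hK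
  have hKc : IsCompact K :=
    (isCompact_closedBall _ _).image_of_continuousOn ((e c).symm.continuousOn.mono hball)
  have hKs : K ⊆ (e c).source := by
    rintro q ⟨z, hz, rfl⟩
    exact (e c).map_target (hball hz)
  set b : M → ℝ := fun q => if q ∈ (e c).source then f (e c q) else 0 with hbdef
  have h0 : ∀ q ∉ K, b q = 0 := by
    intro q hq
    by_cases hs : q ∈ (e c).source
    · simp only [hbdef, hs, if_true]
      refine f.zero_of_le_dist ?_
      by_contra hlt
      push Not at hlt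
      exact hq ⟨e c q, hlt.le, (e c).left_inv hs⟩
    · simp only [hbdef, hs, if_false]
  have hsm : ContDiffOn ℝ ∞ (pb e c b) (e c).target := by
    have h1 : ContDiffOn ℝ ∞ (fun z => f z) (e c).target := f.contDiff.contDiffOn
    refine h1.congr fun z hz => ?_
    simp only [pb, hbdef, (e c).map_target hz, if_true, (e c).right_inv hz]
  refine ⟨b, K, hKc, hKs, h0, ?_, ?_, ?_, fun c' => smooth_of_chart he hKc hKs hsm h0 c'⟩
  · intro q
    simp only [hbdef]
    split_ifs
    · exact f.nonneg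
    · exact le_rfl
  · simp only [hbdef, hp, if_true]
    exact f.pos_of_mem_ball (Metric.mem_ball_self (by positivity))
  · rw [continuous_iff_continuousAt]
    intro q
    by_cases hq : q ∈ K
    · have hqs := hKs hq
      have h1 : ContinuousAt (fun q => f (e c q)) q :=
        f.continuous.continuousAt.comp ((e c).continuousAt hqs)
      refine h1.congr ?_
      filter_upwards [(e c).open_source.mem_nhds hqs] with x hx
      simp only [hbdef, hx, if_true]
    · refine (continuousAt_const (y := (0 : ℝ))).congr ?_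
      filter_upwards [hKc.isClosed.isOpen_compl.mem_nhds hq] with x hx
      exact (h0 x hx).symm

/-- A smooth function which is `0` for `s ≤ m / 2` and `1 / s` for `s ≥ m`. -/
theorem exists_recip {m : ℝ} (hm : 0 < m) : ∃ η : ℝ → ℝ, ContDiff ℝ ∞ η ∧
    (∀ s, m ≤ s → s * η s = 1) ∧ ∀ s, 0 ≤ η s ∨ s < 0 := by
  refine ⟨fun s => Real.smoothTransition (2 * s / m - 1) * s⁻¹, ?_, ?_, ?_⟩
  · rw [contDiff_iff_contDiffAt]
    intro s
    by_cases hs : s < m / 2
    · refine (contDiffAt_const (c := (0 : ℝ))).congr_of_eventuallyEq ?_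
      filter_upwards [(isOpen_Iio (a := m / 2)).mem_nhds hs] with x hx
      have h1 : 2 * x / m - 1 ≤ 0 := by
        have hx' : x < m / 2 := hx
        rw [sub_nonpos, div_le_one hm]
        linarith
      rw [Real.smoothTransition.zero_of_nonpos h1, zero_mul]
    · push Not at hs
      have hs0 : s ≠ 0 := by
        have : 0 < m / 2 := by positivity
        exact (this.trans_le hs).ne'
      refine ContDiffAt.mul ?_ (contDiffAt_inv ℝ hs0)
      exact Real.smoothTransition.contDiffAt.comp s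
        (((contDiffAt_const.mul contDiffAt_id).div_const _).sub contDiffAt_const)
  · intro s hs
    have hs0 : s ≠ 0 := (hm.trans_le hs).ne'
    have h1 : 1 ≤ 2 * s / m - 1 := by
      rw [le_sub_iff_add_le, le_div_iff₀ hm]
      linarith
    simp only [Real.smoothTransition.one_of_one_le h1, one_mul, mul_inv_cancel₀ hs0]
  · intro s
    by_cases hs : s < 0
    · exact Or.inr hs
    · push Not at hs
      exact Or.inl (mul_nonneg (Real.smoothTransition.nonneg _) (inv_nonneg.2 hs))

/-- A partition of unity near a compact set. -/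
theorem exists_partition [T2Space M] (he : ∀ c c', HolOn (tr e c c') (dom e c c'))
    {K : Set M} (hK : IsCompact K) (hKV : ∀ p ∈ K, ∃ c, p ∈ (e c).source) :
    ∃ (s : Finset K) (c : K → κ) (ζ : K → M → ℝ) (O : Set M), IsOpen O ∧ K ⊆ O ∧
      (∀ i, (∀ c', ContDiffOn ℝ ∞ (pb e c' (ζ i)) (e c').target) ∧ (∀ p, 0 ≤ ζ i p) ∧
        ∃ K' : Set M, IsCompact K' ∧ K' ⊆ (e (c i)).source ∧ ∀ q ∉ K', ζ i q = 0) ∧
      ∀ p ∈ O, ∑ i ∈ s, ζ i p = 1 := by
  classical
  have hb : ∀ p : K, ∃ (c : κ) (b : M → ℝ) (K' : Set M), (p : M) ∈ (e c).source ∧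
      IsCompact K' ∧ K' ⊆ (e c).source ∧ (∀ q ∉ K', b q = 0) ∧ (∀ q, 0 ≤ b q) ∧ 0 < b p ∧
      Continuous b ∧ ∀ c', ContDiffOn ℝ ∞ (pb e c' b) (e c').target := by
    intro p
    obtain ⟨c, hc⟩ := hKV p p.2
    obtain ⟨b, K', h⟩ := exists_bump he hc
    exact ⟨c, b, K', hc, h⟩
  choose c b K' hc hK' hK's h0 hnn hpos hcont hsm using hb
  obtain ⟨s, hs⟩ := hK.elim_nhds_subcover' (fun p hp => {q | 0 < b ⟨p, hp⟩ q})
    (fun p hp => (isOpen_lt continuous_const (hcont ⟨p, hp⟩)).mem_nhds (hpos ⟨p, hp⟩))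
  set S : M → ℝ := fun p => ∑ i ∈ s, b i p with hS
  have hScont : Continuous S := continuous_finsetSum _ fun i _ => hcont i
  have hSnn : ∀ p, 0 ≤ S p := fun p => Finset.sum_nonneg fun i _ => hnn i p
  have hSpos : ∀ p ∈ K, 0 < S p := by
    intro p hp
    have h1 := hs hp
    simp only [mem_iUnion, mem_ofPred_eq] at h1
    obtain ⟨i, hi, hlt⟩ := h1
    exact Finset.sum_pos' (fun i _ => hnn i p) ⟨i, hi, hlt⟩
  obtain ⟨m, hm, hmK⟩ : ∃ m : ℝ, 0 < m ∧ ∀ p ∈ K, m < S p := by
    by_cases hne : K.Nonempty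
    · obtain ⟨p, hp, hmin⟩ := hK.exists_isMinOn hne hScont.continuousOn
      refine ⟨S p / 2, half_pos (hSpos p hp), fun q hq => ?_⟩
      have h1 : S p ≤ S q := hmin hq
      have h2 := hSpos p hp
      linarith
    · exact ⟨1, one_pos, fun p hp => absurd ⟨p, hp⟩ hne⟩
  obtain ⟨η, hη, hη1, hη2⟩ := exists_recip hm
  refine ⟨s, c, fun i p => b i p * η (S p), {p | m < S p}, isOpen_lt continuous_const hScont,
    hmK, fun i => ⟨fun c' => ?_, fun p => ?_, K' i, hK' i, hK's i, fun q hq => ?_⟩,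
    fun p hp => ?_⟩
  · refine (hsm i c').mul (hη.comp_contDiffOn ?_)
    exact ContDiffOn.sum fun j _ => hsm j c'
  · refine mul_nonneg (hnn i p) ?_
    rcases hη2 (S p) with h | h
    · exact h
    · exact absurd h (not_lt.2 (hSnn p))
  · change b i q * η (S q) = 0
    rw [h0 i q hq, zero_mul]
  · change ∑ i ∈ s, b i p * η (S p) = 1
    rw [← Finset.sum_mul]
    exact hη1 _ (le_of_lt hp)

end

end Pool.Agent.KRFQ

end

section

/-!
# The measure with the densities `w c`; the integral of a divergence is zero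
-/

open scoped ContDiff Topology ComplexOrder Matrix
open Set MeasureTheory Filter Pool.Agent.ToricKRF Pool.Agent.ToricKRF.G Pool.Agent.KRFS

namespace Pool.Agent.KRFQ

section

variable {M : Type} [TopologicalSpace M] {n : ℕ} {κ : Type}

/-- `μ` is the measure with the densities `w c`. -/
structure IsDens [MeasurableSpace M] (e : κ → OpenPartialHomeomorph M (Cn n))
    (w : κ → Cn n → ℝ) (μ : Measure M) : Prop where
  eq : ∀ c, μ.restrict (e c).source = Measure.map (e c).symm
    ((volume.restrict (e c).target).withDensity fun z => ENNReal.ofReal (w c z))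

open Classical in
/-- The function on `M` with the values `F c z` in the charts. -/
noncomputable def glob (e : κ → OpenPartialHomeomorph M (Cn n)) (F : κ → Cn n → ℂ) (p : M) : ℂ :=
  if h : ∃ c, p ∈ (e c).source then F h.choose (e h.choose p) else 0

variable {e : κ → OpenPartialHomeomorph M (Cn n)} {V : Set M} {w g : κ → Cn n → ℝ}

theorem glob_eq {F : κ → Cn n → ℂ}
    (hF : ∀ c c', ∀ z ∈ dom e c c', F c' (tr e c c' z) = F c z) {c : κ} {p : M}
    (hp : p ∈ (e c).source) : glob e F p = F c (e c p) := by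
  have h : ∃ c, p ∈ (e c).source := ⟨c, hp⟩
  rw [glob, dif_pos h]
  have h1 := hF c h.choose (e c p) (mem_dom hp h.choose_spec)
  rw [tr_apply hp] at h1
  exact h1

theorem pb_glob {F : κ → Cn n → ℂ}
    (hF : ∀ c c', ∀ z ∈ dom e c c', F c' (tr e c c' z) = F c z) {c : κ} {z : Cn n}
    (hz : z ∈ (e c).target) : pb e c (glob e F) z = F c z := by
  rw [pb, glob_eq hF ((e c).map_target hz), (e c).right_inv hz]

theorem Sm_glob {F : κ → Cn n → ℂ}
    (hF : ∀ c c', ∀ z ∈ dom e c c', F c' (tr e c c' z) = F c z)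
    (hs : ∀ c, ContDiffOn ℝ ∞ (F c) (e c).target) : Sm e (glob e F) := fun c =>
  (hs c).congr fun _ hz => pb_glob hF hz

section

variable [MeasurableSpace M] [BorelSpace M] {μ : Measure M}

theorem aemeasurable_symm (c : κ) (f : Cn n → ENNReal) :
    AEMeasurable (e c).symm ((volume.restrict (e c).target).withDensity f) := by
  refine AEMeasurable.mono_ac ?_ (withDensity_absolutelyContinuous _ _)
  exact (e c).symm.continuousOn.aemeasurable (e c).open_target.measurableSet

theorem IsDens.integral_chart (hμ : IsDens e w μ) (h : L2D e V w g) {c : κ} {F : M → ℂ}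
    (hF : AEStronglyMeasurable F (μ.restrict (e c).source)) :
    ∫ p in (e c).source, F p ∂μ = ∫ z in (e c).target, (w c z : ℂ) * pb e c F z := by
  have hm : AEMeasurable (fun z => ENNReal.ofReal (w c z)) (volume.restrict (e c).target) :=
    ((h.w_smooth c).continuousOn.aemeasurable (e c).open_target.measurableSet).ennreal_ofReal
  rw [hμ.eq c] at hF ⊢
  rw [integral_map (aemeasurable_symm c _) hF, integral_withDensity_eq_integral_toReal_smul₀ hm
    (Eventually.of_forall fun z => ENNReal.ofReal_lt_top)]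
  refine setIntegral_congr_fun (e c).open_target.measurableSet fun z hz => ?_
  simp only [ENNReal.toReal_ofReal (h.w_pos c z hz).le, Complex.real_smul, pb]

theorem IsDens.integrableOn_chart (hμ : IsDens e w μ) (h : L2D e V w g) {c : κ} {F : M → ℂ}
    (hF : AEStronglyMeasurable F (μ.restrict (e c).source)) :
    IntegrableOn F (e c).source μ ↔
      IntegrableOn (fun z => (w c z : ℂ) * pb e c F z) (e c).target := by
  have hm : AEMeasurable (fun z => ENNReal.ofReal (w c z)) (volume.restrict (e c).target) :=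
    ((h.w_smooth c).continuousOn.aemeasurable (e c).open_target.measurableSet).ennreal_ofReal
  have h1 : IntegrableOn (fun z => (w c z : ℂ) * pb e c F z) (e c).target ↔
      IntegrableOn (fun z => (ENNReal.ofReal (w c z)).toReal • F ((e c).symm z)) (e c).target := by
    refine integrableOn_congr_fun (fun z hz => ?_) (e c).open_target.measurableSet
    simp only [ENNReal.toReal_ofReal (h.w_pos c z hz).le, Complex.real_smul, pb]
  rw [h1, IntegrableOn, IntegrableOn]
  rw [hμ.eq c] at hF ⊢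
  rw [integrable_map_measure hF (aemeasurable_symm c _),
    integrable_withDensity_iff_integrable_smul₀' hm
      (Eventually.of_forall fun z => ENNReal.ofReal_lt_top)]
  rfl

theorem IsDens.measure_lt_top (hμ : IsDens e w μ) (h : L2D e V w g) {K : Set M}
    (hK : IsCompact K) (hKV : K ⊆ V) : μ K < ⊤ := by
  refine hK.measure_lt_top_of_nhdsWithin fun p hp => ?_
  obtain ⟨c, hc⟩ := h.cover p (hKV hp)
  obtain ⟨r, hr, hb⟩ := Metric.isOpen_iff.1 (e c).open_target (e c p) ((e c).map_source hc)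
  have hball : Metric.closedBall (e c p) (r / 2) ⊆ (e c).target :=
    (Metric.closedBall_subset_ball (by linarith)).trans hb
  have hN : (e c).source ∩ e c ⁻¹' Metric.ball (e c p) (r / 2) ∈ 𝓝 p :=
    ((e c).isOpen_inter_preimage Metric.isOpen_ball).mem_nhds
      ⟨hc, Metric.mem_ball_self (by positivity)⟩
  refine ⟨_, mem_nhdsWithin_of_mem_nhds hN, ?_⟩
  have ho := (e c).isOpen_inter_preimage (Metric.isOpen_ball (x := e c p) (ε := r / 2))
  have h1 : μ ((e c).source ∩ e c ⁻¹' Metric.ball (e c p) (r / 2)) =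
      μ.restrict (e c).source ((e c).source ∩ e c ⁻¹' Metric.ball (e c p) (r / 2)) := by
    rw [Measure.restrict_apply ho.measurableSet]
    congr 1
    ext q
    simp only [mem_inter_iff]
    tauto
  rw [h1, hμ.eq c, Measure.map_apply_of_aemeasurable (aemeasurable_symm c _) ho.measurableSet]
  set ν : Measure (Cn n) := (volume.restrict (e c).target).withDensity
    fun z => ENNReal.ofReal (w c z) with hν
  have hsub : (e c).symm ⁻¹' ((e c).source ∩ e c ⁻¹' Metric.ball (e c p) (r / 2)) ⊆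
      Metric.closedBall (e c p) (r / 2) ∪ ((e c).target)ᶜ := by
    intro z hz
    by_cases hzt : z ∈ (e c).target
    · left
      have h2 : e c ((e c).symm z) ∈ Metric.ball (e c p) (r / 2) := hz.2
      rw [(e c).right_inv hzt] at h2
      exact Metric.ball_subset_closedBall h2
    · exact Or.inr hzt
  have h3 : ν ((e c).target)ᶜ = 0 := by
    refine withDensity_absolutelyContinuous _ _ ?_
    rw [Measure.restrict_apply (e c).open_target.measurableSet.compl]
    simp
  have hBc : IsCompact (Metric.closedBall (e c p) (r / 2)) := isCompact_closedBall _ _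
  obtain ⟨C, hC⟩ := hBc.exists_bound_of_continuousOn ((h.w_smooth c).continuousOn.mono hball)
  have h4 : ν (Metric.closedBall (e c p) (r / 2)) < ⊤ := by
    rw [hν, withDensity_apply _ hBc.isClosed.measurableSet]
    have h5 : ∀ᵐ z ∂((volume.restrict (e c).target).restrict (Metric.closedBall (e c p) (r / 2))),
        ENNReal.ofReal (w c z) ≤ ENNReal.ofReal C := by
      refine (ae_restrict_iff' hBc.isClosed.measurableSet).2 (Eventually.of_forall fun z hz => ?_)
      exact ENNReal.ofReal_le_ofReal ((le_abs_self _).trans (hC z hz))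
    refine (lintegral_mono_ae h5).trans_lt ?_
    rw [lintegral_const]
    refine ENNReal.mul_lt_top ENNReal.ofReal_lt_top ?_
    rw [Measure.restrict_apply MeasurableSet.univ, univ_inter]
    refine (Measure.restrict_apply_le _ _).trans_lt ?_
    exact hBc.measure_lt_top
  calc ν ((e c).symm ⁻¹' ((e c).source ∩ e c ⁻¹' Metric.ball (e c p) (r / 2)))
      ≤ ν (Metric.closedBall (e c p) (r / 2)) + ν ((e c).target)ᶜ :=
        (measure_mono hsub).trans (measure_union_le _ _)
    _ < ⊤ := by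
        rw [h3, add_zero]
        exact h4

theorem IsDens.integrable [T2Space M] (hμ : IsDens e w μ) (h : L2D e V w g) {F : M → ℂ} {K : Set M}
    (hK : IsCompact K) (hKV : K ⊆ V) (hF : Continuous F) (h0 : ∀ p ∉ K, F p = 0) :
    Integrable F μ := by
  obtain ⟨C, hC⟩ := hK.exists_bound_of_continuousOn hF.continuousOn
  have h1 : IntegrableOn F K μ := by
    refine Measure.integrableOn_of_bounded (M := C) (hμ.measure_lt_top h hK hKV).ne
      hF.aestronglyMeasurable ?_
    exact ae_restrict_of_forall_mem hK.isClosed.measurableSet hC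
  exact (integrableOn_iff_integrable_of_support_subset fun p hp => by
    by_contra hpK
    exact hp (h0 p hpK)).1 h1

/-- The integral of a function which vanishes off a compact set of the chart `c`. -/
theorem IsDens.integral_eq (hμ : IsDens e w μ) (h : L2D e V w g) {c : κ} {F : M → ℂ}
    (hF : Continuous F) (h0 : ∀ p ∉ (e c).source, F p = 0) :
    ∫ p, F p ∂μ = ∫ z in (e c).target, (w c z : ℂ) * pb e c F z := by
  rw [← hμ.integral_chart h hF.aestronglyMeasurable]
  exact (setIntegral_eq_integral_of_forall_compl_eq_zero h0).symm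

/-- The divergence of a field, as a function on `M`. -/
noncomputable def divg (e : κ → OpenPartialHomeomorph M (Cn n)) (w : κ → Cn n → ℝ)
    (X : κ → Cn n → Fin n → ℂ) : M → ℂ := glob e fun c => dv (w c) (X c)

/-- The derivative `X ζ` of a function, as a function on `M`. -/
noncomputable def act (e : κ → OpenPartialHomeomorph M (Cn n)) (X : κ → Cn n → Fin n → ℂ)
    (ζ : M → ℂ) : M → ℂ := glob e fun c z => ∑ j, X c z j * dz j (pb e c ζ) z

omit [MeasurableSpace M] [BorelSpace M] in
theorem L2D.act_tr (h : L2D e V w g) {X : κ → Cn n → Fin n → ℂ} (hX : Fld e X) {ζ : M → ℂ}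
    (hζ : Sm e ζ) (c c' : κ) : ∀ z ∈ dom e c c',
    ∑ j, X c' (tr e c c' z) j * dz j (pb e c' ζ) (tr e c c' z) =
      ∑ j, X c z j * dz j (pb e c ζ) z := by
  intro z hz
  simp only [dz_pb h.holo hζ hz, hX.tr c c' z hz, Finset.sum_mul, Finset.mul_sum]
  rw [Finset.sum_comm]
  exact Finset.sum_congr rfl fun j _ => Finset.sum_congr rfl fun l _ => by ring

omit [MeasurableSpace M] [BorelSpace M] in
theorem L2D.pb_divg (h : L2D e V w g) {X : κ → Cn n → Fin n → ℂ} (hX : Fld e X) {c : κ}
    {z : Cn n} (hz : z ∈ (e c).target) : pb e c (divg e w X) z = dv (w c) (X c) z :=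
  pb_glob (fun _ _ _ hz => h.dv_tr hX hz) hz

omit [MeasurableSpace M] [BorelSpace M] in
theorem L2D.pb_act (h : L2D e V w g) {X : κ → Cn n → Fin n → ℂ} (hX : Fld e X) {ζ : M → ℂ}
    (hζ : Sm e ζ) {c : κ} {z : Cn n} (hz : z ∈ (e c).target) :
    pb e c (act e X ζ) z = ∑ j, X c z j * dz j (pb e c ζ) z :=
  pb_glob (fun c c' => h.act_tr hX hζ c c') hz

omit [MeasurableSpace M] [BorelSpace M] in
theorem L2D.Sm_divg (h : L2D e V w g) {X : κ → Cn n → Fin n → ℂ} (hX : Fld e X) :
    Sm e (divg e w X) :=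
  Sm_glob (fun _ _ _ hz => h.dv_tr hX hz) fun c =>
    contDiffOn_dv (e c).open_target (h.w_smooth c) (h.w_pos c) (hX.smooth c)

omit [MeasurableSpace M] [BorelSpace M] in
theorem L2D.Sm_act (h : L2D e V w g) {X : κ → Cn n → Fin n → ℂ} (hX : Fld e X) {ζ : M → ℂ}
    (hζ : Sm e ζ) : Sm e (act e X ζ) :=
  Sm_glob (fun c c' => h.act_tr hX hζ c c') fun c =>
    ContDiffOn.sum fun j _ => (hX.smooth c j).mul (contDiffOn_dz (e c).open_target (hζ c) j)

omit [MeasurableSpace M] [BorelSpace M] in
theorem tsupport_sub_of_compact [T2Space M] {F : M → ℂ} {K : Set M} (hK : IsCompact K)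
    (h0 : ∀ p ∉ K, F p = 0) : tsupport F ⊆ K :=
  closure_minimal (fun p hp => by
    by_contra hpK
    exact hp (h0 p hpK)) hK.isClosed

omit [MeasurableSpace M] [BorelSpace M] in
/-- A smooth function with compact support in a chart, as a function on `ℂ^n`. -/
theorem exists_ext [T2Space M] {ζ : M → ℂ} (hζ : Sm e ζ) {c : κ} {K : Set M}
    (hK : IsCompact K) (hKs : K ⊆ (e c).source) (h0 : ∀ p ∉ K, ζ p = 0) :
    ∃ η : Cn n → ℂ, ContDiff ℝ ∞ η ∧ HasCompactSupport η ∧ tsupport η ⊆ (e c).target ∧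
      tsupport η ⊆ e c '' K ∧
      (∀ z ∈ (e c).target, η z = pb e c ζ z) ∧ ∀ z ∉ (e c).target, η z = 0 := by
  classical
  set η : Cn n → ℂ := fun z => if z ∈ (e c).target then pb e c ζ z else 0 with hη
  have hKc : IsCompact (e c '' K) := hK.image_of_continuousOn ((e c).continuousOn.mono hKs)
  have hKt : e c '' K ⊆ (e c).target := by
    rintro z ⟨p, hp, rfl⟩
    exact (e c).map_source (hKs hp)
  have hs : tsupport η ⊆ e c '' K := by
    refine closure_minimal (fun z hz => ?_) hKc.isClosed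
    by_contra hzK
    apply hz
    by_cases hzt : z ∈ (e c).target
    · simp only [hη, hzt, if_true]
      refine h0 _ fun hm => hzK ⟨_, hm, (e c).right_inv hzt⟩
    · simp only [hη, hzt, if_false]
  refine ⟨η, ?_, hKc.of_isClosed_subset (isClosed_tsupport _) hs, hs.trans hKt, hs,
    fun z hz => ?_, fun z hz => ?_⟩
  · refine contDiff_of_support (e c).open_target ?_ (hs.trans hKt)
    refine (hζ c).congr fun z hz => ?_
    simp only [hη, hz, if_true]
  · simp only [hη, hz, if_true]
  · simp only [hη, hz, if_false]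

/-- Integration by parts for a function with compact support in the chart `c`. -/
theorem IsDens.ibp_chart [T2Space M] (hμ : IsDens e w μ) (h : L2D e V w g)
    {X : κ → Cn n → Fin n → ℂ} (hX : Fld e X) {ζ : M → ℂ} (hζ : Sm e ζ) {c : κ} {K : Set M}
    (hK : IsCompact K) (hKs : K ⊆ (e c).source) (h0 : ∀ p ∉ K, ζ p = 0) :
    ∫ p, ζ p * divg e w X p ∂μ = -∫ p, act e X ζ p ∂μ := by
  obtain ⟨η, hη, hηc, hηt, -, hη1, hη2⟩ := exists_ext hζ hK hKs h0
  have hKV : K ⊆ V := hKs.trans (h.sub c)
  have hact0 : ∀ p ∉ K, act e X ζ p = 0 := by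
    intro p hp
    by_cases hc : ∃ c', p ∈ (e c').source
    · obtain ⟨c', hc'⟩ := hc
      have h1 := h.pb_act hX hζ ((e c').map_source hc')
      rw [pb, (e c').left_inv hc'] at h1
      rw [h1]
      refine Finset.sum_eq_zero fun j _ => ?_
      have h2 : pb e c' ζ =ᶠ[𝓝 (e c' p)] fun _ => 0 := by
        have h3 : ∀ᶠ x in 𝓝 (e c' p), (e c').symm x ∈ Kᶜ := by
          refine ((e c').symm.continuousAt ((e c').map_source hc')).eventually ?_
          rw [(e c').left_inv hc']
          exact hK.isClosed.isOpen_compl.mem_nhds hp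
        filter_upwards [h3] with x hx
        exact h0 _ hx
      rw [dz_congr h2, dz_const, mul_zero]
    · rw [act, glob, dif_neg hc]
  have hF1 : Continuous fun p => ζ p * divg e w X p := by
    refine Sm.continuous (V := V) h.cover (hζ.mul (h.Sm_divg hX)) ?_
    refine (tsupport_sub_of_compact hK fun p hp => ?_).trans hKV
    rw [h0 p hp, zero_mul]
  have hF2 : Continuous (act e X ζ) :=
    Sm.continuous (V := V) h.cover (h.Sm_act hX hζ)
      ((tsupport_sub_of_compact hK hact0).trans hKV)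
  rw [hμ.integral_eq h hF1 fun p hp => by rw [h0 p fun hm => hp (hKs hm), zero_mul],
    hμ.integral_eq h hF2 fun p hp => hact0 p fun hm => hp (hKs hm)]
  have hY : ∀ j, ContDiffOn ℝ ∞ (fun x => (w c x : ℂ) * X c x j) (e c).target := fun j =>
    (contDiffOn_ofReal (h.w_smooth c)).mul (hX.smooth c j)
  have h1 := KRFQ.ibp (e c).open_target hY hη hηc hηt
  have e1 : ∫ z in (e c).target, (w c z : ℂ) * pb e c (fun p => ζ p * divg e w X p) z =
      ∫ z, η z * ∑ j, dz j (fun x => (w c x : ℂ) * X c x j) z := by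
    rw [← setIntegral_eq_integral_of_forall_compl_eq_zero (s := (e c).target)
      (f := fun z => η z * ∑ j, dz j (fun x => (w c x : ℂ) * X c x j) z)
      (fun z hz => by rw [hη2 z hz, zero_mul])]
    refine setIntegral_congr_fun (e c).open_target.measurableSet fun z hz => ?_
    have hw0 : (w c z : ℂ) ≠ 0 := by exact_mod_cast (h.w_pos c z hz).ne'
    have h2 : pb e c (fun p => ζ p * divg e w X p) z = pb e c ζ z * pb e c (divg e w X) z := rfl
    rw [h2, h.pb_divg hX hz, hη1 z hz, dv]
    field_simp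
  have e2 : ∫ z in (e c).target, (w c z : ℂ) * pb e c (act e X ζ) z =
      ∫ z, ∑ j, (w c z : ℂ) * X c z j * dz j η z := by
    rw [← setIntegral_eq_integral_of_forall_compl_eq_zero (s := (e c).target)
      (f := fun z => ∑ j, (w c z : ℂ) * X c z j * dz j η z) (fun z hz => by
        refine Finset.sum_eq_zero fun j _ => ?_
        rw [dz_of_notMem (fun hm => hz (hηt hm)), mul_zero])]
    refine setIntegral_congr_fun (e c).open_target.measurableSet fun z hz => ?_
    have h3 : ∀ j, dz j η z = dz j (pb e c ζ) z := by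
      intro j
      refine dz_congr ?_ j
      filter_upwards [(e c).open_target.mem_nhds hz] with x hx using hη1 x hx
    simp only [h3]
    rw [h.pb_act hX hζ hz, Finset.mul_sum]
    exact Finset.sum_congr rfl fun j _ => by ring
  rw [e1, e2, h1]

/-- The integral of the divergence of a field with compact support is zero. -/
theorem IsDens.integral_divg [T2Space M] (hμ : IsDens e w μ) (h : L2D e V w g)
    {X : κ → Cn n → Fin n → ℂ} (hX : Fld e X) {K : Set M} (hK : IsCompact K) (hKV : K ⊆ V)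
    (h0 : ∀ c, ∀ z ∈ (e c).target, (e c).symm z ∉ K → X c z = 0) :
    ∫ p, divg e w X p ∂μ = 0 := by
  obtain ⟨s, c, ζ, O, hO, hKO, hζ, hsum⟩ := exists_partition h.holo hK
    (fun p hp => h.cover p (hKV hp))
  set Z : K → M → ℂ := fun i p => (ζ i p : ℂ) with hZ
  have hZs : ∀ i, Sm e (Z i) := fun i c' => contDiffOn_ofReal ((hζ i).1 c')
  have hS : Sm e (divg e w X) := h.Sm_divg hX
  -- the divergence vanishes off `K`
  have hX0 : ∀ c, ∀ z ∈ (e c).target, (e c).symm z ∉ K → dv (w c) (X c) z = 0 := by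
    intro c z hz hzK
    have h3 : ∀ᶠ x in 𝓝 z, (e c).symm x ∈ Kᶜ :=
      ((e c).symm.continuousAt hz).eventually (hK.isClosed.isOpen_compl.mem_nhds hzK)
    have h2 : X c =ᶠ[𝓝 z] fun _ => 0 := by
      filter_upwards [h3, (e c).open_target.mem_nhds hz] with x hx hxt
      exact h0 c x hxt hx
    rw [dv_congr h2]
    simp [dv, dz_const]
  have hd0 : ∀ p ∉ K, divg e w X p = 0 := by
    intro p hp
    by_cases hc : ∃ c', p ∈ (e c').source
    · obtain ⟨c', hc'⟩ := hc
      have h1 := h.pb_divg hX ((e c').map_source hc')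
      rw [pb, (e c').left_inv hc'] at h1
      rw [h1]
      exact hX0 c' _ ((e c').map_source hc') (by rwa [(e c').left_inv hc'])
    · rw [divg, glob, dif_neg hc]
  have hcont : ∀ i, Continuous fun p => Z i p * divg e w X p := by
    intro i
    refine Sm.continuous (V := V) h.cover ((hZs i).mul hS) ?_
    refine (tsupport_sub_of_compact hK fun p hp => ?_).trans hKV
    rw [hd0 p hp, mul_zero]
  have hint : ∀ i, Integrable (fun p => Z i p * divg e w X p) μ := fun i =>
    hμ.integrable h hK hKV (hcont i) fun p hp => by rw [hd0 p hp, mul_zero]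
  have hact0 : ∀ i, ∀ p ∉ K, act e X (Z i) p = 0 := by
    intro i p hp
    by_cases hc : ∃ c', p ∈ (e c').source
    · obtain ⟨c', hc'⟩ := hc
      have h1 := h.pb_act hX (hZs i) ((e c').map_source hc')
      rw [pb, (e c').left_inv hc'] at h1
      rw [h1]
      have h2 := h0 c' _ ((e c').map_source hc') (by rwa [(e c').left_inv hc'])
      simp [h2]
    · rw [act, glob, dif_neg hc]
  have hcont2 : ∀ i, Continuous (act e X (Z i)) := fun i =>
    Sm.continuous (V := V) h.cover (h.Sm_act hX (hZs i))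
      ((tsupport_sub_of_compact hK (hact0 i)).trans hKV)
  have hint2 : ∀ i, Integrable (act e X (Z i)) μ := fun i =>
    hμ.integrable h hK hKV (hcont2 i) (hact0 i)
  have e1 : ∫ p, divg e w X p ∂μ = ∑ i ∈ s, ∫ p, Z i p * divg e w X p ∂μ := by
    rw [← integral_finsetSum _ fun i _ => hint i]
    refine integral_congr_ae (Eventually.of_forall fun p => ?_)
    simp only
    rw [← Finset.sum_mul]
    by_cases hp : p ∈ K
    · have h1 : ∑ i ∈ s, Z i p = 1 := by
        simp only [hZ]
        rw [← Complex.ofReal_sum, hsum p (hKO hp), Complex.ofReal_one]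
      rw [h1, one_mul]
    · rw [hd0 p hp, mul_zero]
  have e2 : ∀ i, ∫ p, Z i p * divg e w X p ∂μ = -∫ p, act e X (Z i) p ∂μ := by
    intro i
    obtain ⟨K', hK', hK's, hz⟩ := (hζ i).2.2
    exact hμ.ibp_chart h hX (hZs i) hK' hK's fun q hq => by simp only [hZ, hz q hq,
      Complex.ofReal_zero]
  rw [e1]
  simp only [e2]
  rw [Finset.sum_neg_distrib, ← integral_finsetSum _ fun i _ => hint2 i]
  have e3 : ∀ p, ∑ i ∈ s, act e X (Z i) p = 0 := by
    intro p
    by_cases hp : p ∈ K
    · obtain ⟨c', hc'⟩ := h.cover p (hKV hp)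
      have hzt := (e c').map_source hc'
      have h1 : ∀ i, act e X (Z i) p =
          ∑ j, X c' (e c' p) j * dz j (pb e c' (Z i)) (e c' p) := by
        intro i
        have h1 := h.pb_act hX (hZs i) hzt
        rwa [pb, (e c').left_inv hc'] at h1
      simp only [h1]
      rw [Finset.sum_comm]
      refine Finset.sum_eq_zero fun j _ => ?_
      rw [← Finset.mul_sum, ← dz_sum _ fun i _ => diffAtC (e c').open_target (hZs i c') hzt]
      have h2 : (fun y => ∑ i ∈ s, pb e c' (Z i) y) =ᶠ[𝓝 (e c' p)] fun _ => 1 := by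
        have h3 : ∀ᶠ x in 𝓝 (e c' p), (e c').symm x ∈ O := by
          refine ((e c').symm.continuousAt hzt).eventually ?_
          rw [(e c').left_inv hc']
          exact hO.mem_nhds (hKO hp)
        filter_upwards [h3] with x hx
        simp only [pb, hZ]
        rw [← Complex.ofReal_sum, hsum _ hx, Complex.ofReal_one]
      rw [dz_congr h2, dz_const, mul_zero]
    · exact Finset.sum_eq_zero fun i _ => hact0 i p hp
  simp only [e3]
  simp

end

end

end Pool.Agent.KRFQ

end

section

/-!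
# The measure of a volume form on an open set covered by countably many charts
-/

open scoped ContDiff Topology ENNReal
open Set MeasureTheory Filter Pool.Agent.ToricKRF Pool.Agent.ToricKRF.G Pool.Agent.KRFS

namespace Pool.Agent.KRFQ

section

variable {M : Type} [TopologicalSpace M] [MeasurableSpace M] [BorelSpace M] {n : ℕ} {κ : Type}
  {e : κ → OpenPartialHomeomorph M (Cn n)}

theorem measurableSet_symm_preimage (c : κ) {A : Set M} (hA : MeasurableSet A) :
    MeasurableSet ((e c).symm ⁻¹' A ∩ (e c).target) := by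
  have h1 : Continuous ((e c).target.domRestrict (e c).symm) :=
    continuousOn_iff_continuous_domRestrict.1 (e c).continuousOn_symm
  have h2 : MeasurableSet (((↑) : (e c).target → Cn n) ''
      ((e c).target.domRestrict (e c).symm ⁻¹' A)) :=
    (e c).open_target.measurableSet.subtype_image (h1.measurable hA)
  have h3 : ((↑) : (e c).target → Cn n) '' ((e c).target.domRestrict (e c).symm ⁻¹' A) =
      (e c).symm ⁻¹' A ∩ (e c).target := by
    ext z
    simp only [mem_image, mem_preimage, Subtype.exists, mem_inter_iff]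
    constructor
    · rintro ⟨x, hx, h, rfl⟩
      exact ⟨h, hx⟩
    · rintro ⟨h, hz⟩
      exact ⟨z, hz, h, rfl⟩
  rwa [h3] at h2

/-- The measure with density `w c` in the chart `c`. -/
noncomputable def nu (e : κ → OpenPartialHomeomorph M (Cn n)) (w : κ → Cn n → ℝ) (c : κ) :
    Measure M :=
  Measure.map (e c).symm ((volume.restrict (e c).target).withDensity
    (fun z => ENNReal.ofReal (w c z)))

theorem nu_apply (w : κ → Cn n → ℝ) (c : κ) {A : Set M} (hA : MeasurableSet A) :
    nu e w c A = ∫⁻ z in (e c).symm ⁻¹' A ∩ (e c).target, ENNReal.ofReal (w c z) := by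
  have h1 : AEMeasurable (e c).symm ((volume.restrict (e c).target).withDensity
      (fun z => ENNReal.ofReal (w c z))) :=
    ((e c).continuousOn_symm.aemeasurable (e c).open_target.measurableSet).mono_ac
      (withDensity_absolutelyContinuous _ _)
  rw [nu, Measure.map_apply_of_aemeasurable h1 hA, withDensity_apply',
    Measure.restrict_restrict' (e c).open_target.measurableSet]

theorem nu_congr {w : κ → Cn n → ℝ} (holo : ∀ c c', HolOn (tr e c c') (dom e c c'))
    (hw : ∀ c c', ∀ z ∈ dom e c c', w c z = |(fderiv ℝ (tr e c c') z).det| * w c' (tr e c c' z))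
    (c c' : κ) {A : Set M} (hA : MeasurableSet A) (h : A ⊆ (e c).source)
    (h' : A ⊆ (e c').source) : nu e w c A = nu e w c' A := by
  set S : Set (Cn n) := (e c).symm ⁻¹' A ∩ (e c).target with hS
  have hSd : S ⊆ dom e c c' := fun z hz => ⟨hz.2, h' hz.1⟩
  have himg : tr e c c' '' S = (e c').symm ⁻¹' A ∩ (e c').target := by
    ext z
    constructor
    · rintro ⟨x, hx, rfl⟩
      refine ⟨?_, tr_mem_target (hSd hx)⟩
      rw [mem_preimage, symm_tr (hSd hx)]
      exact hx.1
    · rintro ⟨hz, hz'⟩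
      have hd : z ∈ dom e c' c := ⟨hz', h hz⟩
      refine ⟨tr e c' c z, ⟨?_, tr_mem_target hd⟩, tr_tr hd⟩
      rw [mem_preimage, symm_tr hd]
      exact hz
  have hinj : InjOn (tr e c c') S := fun x hx y hy hxy => by
    rw [← tr_tr (hSd hx), hxy, tr_tr (hSd hy)]
  have hder : ∀ z ∈ S, HasFDerivWithinAt (tr e c c') (fderiv ℝ (tr e c c') z) S z := fun z hz =>
    (((holo c c').1.differentiableOn (by simp)).differentiableAt
      ((isOpen_dom c c').mem_nhds (hSd hz))).hasFDerivAt.hasFDerivWithinAt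
  have hSm : MeasurableSet S := measurableSet_symm_preimage c hA
  have hHaar : (volume : Measure (Cn n)).IsAddHaarMeasure :=
    Measure.prod.instIsAddHaarMeasure (G := Fin n → ℝ) (H := Fin n → ℝ) volume volume
  rw [nu_apply w c hA, nu_apply w c' hA, ← himg,
    lintegral_image_eq_lintegral_abs_det_fderiv_mul volume hSm hder hinj]
  refine setLIntegral_congr_fun hSm fun z hz => ?_
  rw [hw c c' z (hSd hz), ENNReal.ofReal_mul (abs_nonneg _)]

theorem nu_source (w : κ → Cn n → ℝ) (c : κ) {A : Set M} (hA : MeasurableSet A) :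
    nu e w c (A ∩ (e c).source) = nu e w c A := by
  rw [nu_apply w c (hA.inter (e c).open_source.measurableSet), nu_apply w c hA]
  congr 2
  ext z
  simp only [mem_inter_iff, mem_preimage]
  constructor
  · rintro ⟨⟨h1, -⟩, h2⟩
    exact ⟨h1, h2⟩
  · rintro ⟨h1, h2⟩
    exact ⟨⟨h1, (e c).map_target h2⟩, h2⟩

theorem exists_measure (s : ℕ → κ) {V : Set M} (hV : V = ⋃ i, (e (s i)).source)
    (hsub : ∀ c, (e c).source ⊆ V) (holo : ∀ c c', HolOn (tr e c c') (dom e c c'))
    {w : κ → Cn n → ℝ} (hw : ∀ c c', ∀ z ∈ dom e c c',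
      w c z = |(fderiv ℝ (tr e c c') z).det| * w c' (tr e c c' z)) :
    ∃ μ : Measure M, μ Vᶜ = 0 ∧ ∀ c, μ.restrict (e c).source =
      Measure.map (e c).symm ((volume.restrict (e c).target).withDensity
        (fun z => ENNReal.ofReal (w c z))) := by
  set D : ℕ → Set M := disjointed fun i => (e (s i)).source with hD
  have hDm : ∀ i, MeasurableSet (D i) := fun i =>
    MeasurableSet.disjointed (fun i => (e (s i)).open_source.measurableSet) i
  have hDs : ∀ i, D i ⊆ (e (s i)).source := fun i => disjointed_subset _ i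
  have hDd : Pairwise (Function.onFun Disjoint D) := disjoint_disjointed _
  have hDu : ⋃ i, D i = V := by rw [hV, hD, iUnion_disjointed]
  have hVm : MeasurableSet V := by
    rw [hV]
    exact MeasurableSet.iUnion fun i => (e (s i)).open_source.measurableSet
  refine ⟨Measure.sum fun i => (nu e w (s i)).restrict (D i), ?_, fun c => ?_⟩
  · rw [Measure.sum_apply _ hVm.compl]
    refine ENNReal.tsum_eq_zero.2 fun i => ?_
    rw [Measure.restrict_apply hVm.compl]
    have : Vᶜ ∩ D i = ∅ := by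
      ext x
      simp only [mem_inter_iff, mem_compl_iff, mem_empty_iff_false, iff_false, not_and]
      intro hx hxD
      exact hx (hDu ▸ mem_iUnion.2 ⟨i, hxD⟩)
    rw [this, measure_empty]
  · change _ = nu e w c
    refine Measure.ext fun A hA => ?_
    have hsm := (e c).open_source.measurableSet
    rw [Measure.restrict_apply hA, Measure.sum_apply _ (hA.inter hsm)]
    have h1 : ∀ i, (nu e w (s i)).restrict (D i) (A ∩ (e c).source) =
        nu e w c (A ∩ (e c).source ∩ D i) := by
      intro i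
      rw [Measure.restrict_apply (hA.inter hsm)]
      exact nu_congr holo hw (s i) c ((hA.inter hsm).inter (hDm i))
        (inter_subset_right.trans (hDs i)) (inter_subset_left.trans inter_subset_right)
    simp only [h1]
    rw [← measure_iUnion, ← inter_iUnion, hDu, inter_eq_left.2 (inter_subset_right.trans (hsub c)),
      nu_source w c hA]
    · exact fun i j hij => (hDd hij).mono inter_subset_right inter_subset_right
    · exact fun i => (hA.inter hsm).inter (hDm i)

/-- the measure of the volume form of `L2D` -/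
theorem L2D.exists_measure {V : Set M} {w g : κ → Cn n → ℝ} (h : L2D e V w g) (s : ℕ → κ)
    (hs : V ⊆ ⋃ i, (e (s i)).source) :
    ∃ μ : Measure M, μ Vᶜ = 0 ∧ ∀ c, μ.restrict (e c).source =
      Measure.map (e c).symm ((volume.restrict (e c).target).withDensity
        (fun z => ENNReal.ofReal (w c z))) :=
  KRFQ.exists_measure s (hs.antisymm (iUnion_subset fun i => h.sub (s i))) h.sub h.holo h.w_compat

end

end Pool.Agent.KRFQ

end
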