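import Pool.Agent.Work.MP_a2bf38_gt.Fu.Q.Wirt
import Mathlib

section

/-!
# The global Bochner inequality
-/

open scoped ContDiff Topology ComplexOrder Matrix
open Set MeasureTheory Filter Pool.Agent.ToricKRF Pool.Agent.ToricKRF.G Pool.Agent.KRFS

namespace Pool.Agent.KRFQ

/-- The point of `ℂ^n` with the complex coordinates `W`. -/
def ofv {n : ℕ} (W : Fin n → ℂ) : Cn n := (fun j => (W j).re, fun j => (W j).im)

theorem cc_ofv {n : ℕ} (W : Fin n → ℂ) (j : Fin n) : cc (ofv W) j = W j := by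
  apply Complex.ext <;> simp [cc, ofv]

section

variable {M : Type} [TopologicalSpace M] {n : ℕ} {κ : Type}

/-- The gradient of `f` in the charts. -/
noncomputable def grd (e : κ → OpenPartialHomeomorph M (Cn n)) (g : κ → Cn n → ℝ) (f : M → ℂ) :
    κ → Cn n → Fin n → ℂ := fun c z => gradv (g c) (pb e c f) z

/-- The operator `f ↦ - div grad f`. -/
noncomputable def Lap (e : κ → OpenPartialHomeomorph M (Cn n)) (w g : κ → Cn n → ℝ) (f : M → ℂ)
    (p : M) : ℂ := -divg e w (grd e g f) p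

/-- `Φ(grad f, grad f)`, `Φ` the complex Hessian of `-log w`. -/
noncomputable def Phi (e : κ → OpenPartialHomeomorph M (Cn n)) (w g : κ → Cn n → ℝ) (f : M → ℂ) :
    M → ℂ := glob e fun c z =>
  ((levz (fun x => -Real.log (w c x)) (ofv (grd e g f c z)) z : ℝ) : ℂ)

variable {e : κ → OpenPartialHomeomorph M (Cn n)} {V : Set M} {w g : κ → Cn n → ℝ}

theorem L2D.Fld_grd (h : L2D e V w g) {f : M → ℂ} (hf : Sm e f) : Fld e (grd e g f) where
  smooth c j := contDiffOn_gradv (e c).open_target (h.g_smooth c) (fun _ hx => h.det_ne c hx)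
    (hf c) j
  tr _ _ _ hz l := h.grad_tr hf hz l

theorem L2D.nlog_smooth (h : L2D e V w g) (c : κ) :
    ContDiffOn ℝ ∞ (fun x => -Real.log (w c x)) (e c).target :=
  ((h.w_smooth c).log fun z hz => (h.w_pos c z hz).ne').neg

theorem L2D.fderiv_ofv (h : L2D e V w g) {f : M → ℂ} (hf : Sm e f) {c c' : κ} {z : Cn n}
    (hz : z ∈ dom e c c') :
    fderiv ℝ (tr e c c') z (ofv (grd e g f c z)) = ofv (grd e g f c' (tr e c c' z)) := by
  refine cc_ext fun l => ?_
  rw [cc_fderiv (h.holo c c') hz, cc_ofv, grd, grd, h.grad_tr hf hz l]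
  exact Finset.sum_congr rfl fun k _ => by rw [cc_ofv]

theorem L2D.Phi_tr (h : L2D e V w g) {f : M → ℂ} (hf : Sm e f) (c c' : κ) :
    ∀ z ∈ dom e c c', ((levz (fun x => -Real.log (w c' x)) (ofv (grd e g f c' (tr e c c' z)))
      (tr e c c' z) : ℝ) : ℂ) =
      ((levz (fun x => -Real.log (w c x)) (ofv (grd e g f c z)) z : ℝ) : ℂ) := by
  intro z hz
  rw [h.w_lev c c' z hz, h.fderiv_ofv hf hz]

theorem L2D.pb_Phi (h : L2D e V w g) {f : M → ℂ} (hf : Sm e f) {c : κ} {z : Cn n}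
    (hz : z ∈ (e c).target) : pb e c (Phi e w g f) z =
      ((levz (fun x => -Real.log (w c x)) (ofv (grd e g f c z)) z : ℝ) : ℂ) :=
  pb_glob (fun c c' => h.Phi_tr hf c c') hz

theorem L2D.Phi_eq (h : L2D e V w g) {f : M → ℂ} (hf : Sm e f) {c : κ} {z : Cn n}
    (hz : z ∈ (e c).target) : pb e c (Phi e w g f) z =
      ∑ j, ∑ k, Hm (fun x => -Real.log (w c x)) z j k * grd e g f c z j *
        (starRingEnd ℂ) (grd e g f c z k) := by
  rw [h.pb_Phi hf hz, levz_eq (e c).open_target (h.nlog_smooth c) hz]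
  simp only [cc_ofv]

theorem L2D.Sm_Phi (h : L2D e V w g) {f : M → ℂ} (hf : Sm e f) : Sm e (Phi e w g f) := by
  intro c
  have h1 : ∀ j, ContDiffOn ℝ ∞ (fun z => grd e g f c z j) (e c).target :=
    (h.Fld_grd hf).smooth c
  refine ContDiffOn.congr ?_ fun z hz => h.Phi_eq hf hz
  refine ContDiffOn.sum fun j _ => ContDiffOn.sum fun k _ => ?_
  exact ((contDiffOn_Hm (e c).open_target (h.nlog_smooth c) j k).mul (h1 j)).mul
    (contDiffOn_conj (h1 k))

theorem L2D.Sm_Lap (h : L2D e V w g) {f : M → ℂ} (hf : Sm e f) : Sm e (Lap e w g f) := fun c =>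
  (h.Sm_divg (h.Fld_grd hf) c).neg

/-- The field `W conj (div W)`. -/
theorem L2D.Fld_Y (h : L2D e V w g) {f : M → ℂ} (hf : Sm e f) :
    Fld e (fun c z j => grd e g f c z j * (starRingEnd ℂ) (dv (w c) (grd e g f c) z)) where
  smooth c j := ((h.Fld_grd hf).smooth c j).mul (contDiffOn_conj
    (contDiffOn_dv (e c).open_target (h.w_smooth c) (h.w_pos c) ((h.Fld_grd hf).smooth c)))
  tr c c' z hz l := by
    rw [h.dv_tr (h.Fld_grd hf) hz, (h.Fld_grd hf).tr c c' z hz l, Finset.sum_mul]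
    exact Finset.sum_congr rfl fun k _ => by ring

/-- The field `∑ conj (W_j) ∂_jbar W_k`. -/
theorem L2D.Fld_N (h : L2D e V w g) {f : M → ℂ} (hf : Sm e f) :
    Fld e (fun c z k => ∑ j, (starRingEnd ℂ) (grd e g f c z j) *
      dzb j (fun y => grd e g f c y k) z) where
  smooth c k := ContDiffOn.sum fun j _ => (contDiffOn_conj ((h.Fld_grd hf).smooth c j)).mul
    (contDiffOn_dzb (e c).open_target ((h.Fld_grd hf).smooth c k) j)
  tr _ _ _ hz l := h.N_tr hf hz l

theorem grd_zero [T2Space M] {f : M → ℂ} {K : Set M} (hK : IsCompact K)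
    (h0 : ∀ p ∉ K, f p = 0) (c : κ) : ∀ z ∈ (e c).target, (e c).symm z ∉ K →
      grd e g f c =ᶠ[𝓝 z] fun _ => 0 := by
  intro z hz hzK
  have h3 : ∀ᶠ x in 𝓝 z, (e c).symm x ∈ Kᶜ :=
    ((e c).symm.continuousAt hz).eventually (hK.isClosed.isOpen_compl.mem_nhds hzK)
  have h2 : pb e c f =ᶠ[𝓝 z] fun _ => 0 := by
    filter_upwards [h3] with x hx
    exact h0 _ hx
  filter_upwards [h2.eventuallyEq_nhds] with x hx
  funext j
  simp only [grd, gradv]
  exact Finset.sum_eq_zero fun k _ => by rw [dzb_congr hx, dzb_const, mul_zero]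

theorem L2D.divg_zero [T2Space M] (h : L2D e V w g) {X : κ → Cn n → Fin n → ℂ} (hX : Fld e X)
    {K : Set M}
    (h0 : ∀ c, ∀ z ∈ (e c).target, (e c).symm z ∉ K → X c =ᶠ[𝓝 z] fun _ => 0) :
    ∀ p ∉ K, divg e w X p = 0 := by
  intro p hp
  by_cases hc : ∃ c', p ∈ (e c').source
  · obtain ⟨c', hc'⟩ := hc
    have h1 := h.pb_divg hX ((e c').map_source hc')
    rw [pb, (e c').left_inv hc'] at h1
    rw [h1, dv_congr (h0 c' _ ((e c').map_source hc') (by rwa [(e c').left_inv hc']))]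
    simp [dv, dz_const]
  · rw [divg, glob, dif_neg hc]

theorem L2D.Phi_zero [T2Space M] (h : L2D e V w g) {f : M → ℂ} (hf : Sm e f) {K : Set M}
    (hK : IsCompact K) (h0 : ∀ p ∉ K, f p = 0) : ∀ p ∉ K, Phi e w g f p = 0 := by
  intro p hp
  by_cases hc : ∃ c', p ∈ (e c').source
  · obtain ⟨c', hc'⟩ := hc
    have hz := (e c').map_source hc'
    have h1 := h.Phi_eq hf hz
    rw [pb, (e c').left_inv hc'] at h1
    rw [h1]
    have h2 : grd e g f c' (e c' p) = 0 :=
      (grd_zero (g := g) hK h0 c' _ hz (by rwa [(e c').left_inv hc'])).self_of_nhds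
    simp [h2]
  · rw [Phi, glob, dif_neg hc]

/-- **The global Bochner inequality.** -/
theorem IsDens.bochner [MeasurableSpace M] [BorelSpace M] [T2Space M] {μ : Measure M}
    (hμ : IsDens e w μ) (h : L2D e V w g) {f : M → ℂ} (hf : Sm e f) {K : Set M}
    (hK : IsCompact K) (hKV : K ⊆ V) (h0 : ∀ p ∉ K, f p = 0) :
    ∫ p, (Phi e w g f p).re ∂μ ≤ ∫ p, ‖Lap e w g f p‖ ^ 2 ∂μ := by
  set W := grd e g f with hW
  have hWF := h.Fld_grd hf
  have hY := h.Fld_Y hf
  have hN := h.Fld_N hf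
  set Y : κ → Cn n → Fin n → ℂ := fun c z j =>
    grd e g f c z j * (starRingEnd ℂ) (dv (w c) (grd e g f c) z) with hYdef
  set N : κ → Cn n → Fin n → ℂ := fun c z k => ∑ j, (starRingEnd ℂ) (grd e g f c z j) *
      dzb j (fun y => grd e g f c y k) z with hNdef
  have hW0 : ∀ c, ∀ z ∈ (e c).target, (e c).symm z ∉ K → W c =ᶠ[𝓝 z] fun _ => 0 := fun c =>
    grd_zero (g := g) hK h0 c
  have hY0 : ∀ c, ∀ z ∈ (e c).target, (e c).symm z ∉ K → Y c =ᶠ[𝓝 z] fun _ => 0 := by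
    intro c z hz hzK
    filter_upwards [hW0 c z hz hzK] with x hx
    funext j
    have h1 : grd e g f c x j = 0 := congrFun hx j
    simp only [hYdef, h1, zero_mul, Pi.zero_apply]
  have hN0 : ∀ c, ∀ z ∈ (e c).target, (e c).symm z ∉ K → N c =ᶠ[𝓝 z] fun _ => 0 := by
    intro c z hz hzK
    filter_upwards [hW0 c z hz hzK] with x hx
    funext k
    simp only [hNdef]
    refine Finset.sum_eq_zero fun j _ => ?_
    have h1 : grd e g f c x j = 0 := congrFun hx j
    rw [h1, map_zero, zero_mul]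
  have iY : ∫ p, divg e w Y p ∂μ = 0 := hμ.integral_divg h hY hK hKV fun c z hz hzK =>
    (hY0 c z hz hzK).self_of_nhds
  have iN : ∫ p, divg e w N p ∂μ = 0 := hμ.integral_divg h hN hK hKV fun c z hz hzK =>
    (hN0 c z hz hzK).self_of_nhds
  -- the functions
  have int : ∀ F : M → ℂ, Sm e F → (∀ p ∉ K, F p = 0) → Integrable F μ := fun F hF hF0 =>
    hμ.integrable h hK hKV (Sm.continuous (V := V) h.cover hF
      ((tsupport_sub_of_compact hK hF0).trans hKV)) hF0
  have sD := h.Sm_divg hWF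
  have zD := h.divg_zero hWF hW0
  have zY := h.divg_zero hY hY0
  have zN := h.divg_zero hN hN0
  have zP := h.Phi_zero hf hK h0
  have i1 : Integrable (fun p => divg e w W p * (starRingEnd ℂ) (divg e w W p)) μ :=
    int _ (sD.mul sD.conj) fun p hp => by rw [zD p hp, zero_mul]
  have i2 : Integrable (Phi e w g f) μ := int _ (h.Sm_Phi hf) zP
  have i3 : Integrable (divg e w Y) μ := int _ (h.Sm_divg hY) zY
  have i4 : Integrable (divg e w N) μ := int _ (h.Sm_divg hN) zN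
  have i5 : Integrable (fun p => (starRingEnd ℂ) (divg e w N p)) μ :=
    int _ (h.Sm_divg hN).conj fun p hp => by rw [zN p hp, map_zero]
  have iN' : ∫ p, (starRingEnd ℂ) (divg e w N p) ∂μ = 0 := by
    rw [integral_conj, iN, map_zero]
  have key : ∀ p, 0 ≤ (divg e w W p * (starRingEnd ℂ) (divg e w W p) - Phi e w g f p -
      divg e w Y p + (starRingEnd ℂ) (divg e w N p)).re := by
    intro p
    by_cases hp : p ∈ K
    · obtain ⟨c, hc⟩ := h.cover p (hKV hp)
      have hz := (e c).map_source hc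
      have e1 := h.pb_divg hWF hz
      have e2 := h.Phi_eq hf hz
      have e3 := h.pb_divg hY hz
      have e4 := h.pb_divg hN hz
      rw [pb, (e c).left_inv hc] at e1 e2 e3 e4
      have e5 := bochner_point (e c).open_target (h.w_smooth c) (h.w_pos c) (hWF.smooth c) hz
      have e6 := grad_trace_nonneg (e c).open_target (h.g_smooth c)
        (fun x hx => h.posDef c hx) (hf c) hz
      rw [e1, e2, e3, e4]
      have e7 : dv (w c) (W c) (e c p) * (starRingEnd ℂ) (dv (w c) (W c) (e c p)) -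
          (∑ j, ∑ k, Hm (fun x => -Real.log (w c x)) (e c p) j k * grd e g f c (e c p) j *
            (starRingEnd ℂ) (grd e g f c (e c p) k)) - dv (w c) (Y c) (e c p) +
          (starRingEnd ℂ) (dv (w c) (N c) (e c p)) =
          ∑ j, ∑ k, dzb k (fun x => gradv (g c) (pb e c f) x j) (e c p) *
            (starRingEnd ℂ) (dzb j (fun x => gradv (g c) (pb e c f) x k) (e c p)) := by
        rw [e5]
        simp only [hYdef, hNdef, grd]
        ring
      rw [e7]
      exact (Complex.nonneg_iff.1 e6).1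
    · rw [zD p hp, zP p hp, zY p hp, zN p hp]
      simp
  have h1 : 0 ≤ ∫ p, (divg e w W p * (starRingEnd ℂ) (divg e w W p) - Phi e w g f p -
      divg e w Y p + (starRingEnd ℂ) (divg e w N p)).re ∂μ := integral_nonneg key
  have h2 : ∫ p, (divg e w W p * (starRingEnd ℂ) (divg e w W p) - Phi e w g f p -
      divg e w Y p + (starRingEnd ℂ) (divg e w N p)).re ∂μ =
      ∫ p, ‖Lap e w g f p‖ ^ 2 ∂μ - ∫ p, (Phi e w g f p).re ∂μ := by
    have e1 : ∀ p, (divg e w W p * (starRingEnd ℂ) (divg e w W p) - Phi e w g f p -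
        divg e w Y p + (starRingEnd ℂ) (divg e w N p)).re =
        ‖Lap e w g f p‖ ^ 2 - (Phi e w g f p).re - (divg e w Y p).re + (divg e w N p).re := by
      intro p
      have e2 : divg e w W p * (starRingEnd ℂ) (divg e w W p) =
          ((‖Lap e w g f p‖ ^ 2 : ℝ) : ℂ) := by
        rw [Complex.mul_conj, Lap, norm_neg, Complex.normSq_eq_norm_sq]
      rw [e2]
      simp only [Complex.add_re, Complex.sub_re, Complex.conj_re, Complex.ofReal_re]
    have j1 : Integrable (fun p => ‖Lap e w g f p‖ ^ 2) μ := by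
      refine i1.re.congr (Eventually.of_forall fun p => ?_)
      have e2 : divg e w W p * (starRingEnd ℂ) (divg e w W p) =
          ((‖Lap e w g f p‖ ^ 2 : ℝ) : ℂ) := by
        rw [Complex.mul_conj, Lap, norm_neg, Complex.normSq_eq_norm_sq]
      simp only [e2]
      exact Complex.ofReal_re _
    simp only [e1]
    have r3 : ∫ p, (divg e w Y p).re ∂μ = 0 := by
      have := integral_re i3
      simp only [RCLike.re_to_complex] at this
      rw [this, iY, Complex.zero_re]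
    have r4 : ∫ p, (divg e w N p).re ∂μ = 0 := by
      have := integral_re i4
      simp only [RCLike.re_to_complex] at this
      rw [this, iN, Complex.zero_re]
    have k2 : Integrable (fun p => (Phi e w g f p).re) μ := i2.re
    have k3 : Integrable (fun p => (divg e w Y p).re) μ := i3.re
    have k4 : Integrable (fun p => (divg e w N p).re) μ := i4.re
    have k5 : Integrable (fun p => ‖Lap e w g f p‖ ^ 2 - (Phi e w g f p).re) μ := j1.sub k2
    have k6 : Integrable (fun p => ‖Lap e w g f p‖ ^ 2 - (Phi e w g f p).re -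
      (divg e w Y p).re) μ := k5.sub k3
    rw [integral_add k6 k4, integral_sub k5 k3, integral_sub j1 k2, r3, r4]
    ring
  linarith

end

end Pool.Agent.KRFQ

end

section

/-!
# Green's formula
-/

open scoped ContDiff Topology ComplexOrder Matrix
open Set MeasureTheory Filter Pool.Agent.ToricKRF Pool.Agent.ToricKRF.G Pool.Agent.KRFS

namespace Pool.Agent.KRFQ

variable {M : Type} [TopologicalSpace M] {n : ℕ} {κ : Type}
  {e : κ → OpenPartialHomeomorph M (Cn n)} {V : Set M} {w g : κ → Cn n → ℝ}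

/-- A function times a field. -/
theorem Fld.smul {X : κ → Cn n → Fin n → ℂ} (hX : Fld e X) {ζ : M → ℂ} (hζ : Sm e ζ) :
    Fld e (fun c z j => pb e c ζ z * X c z j) where
  smooth c j := (hζ c).mul (hX.smooth c j)
  tr c c' z hz l := by
    rw [pb_tr ζ hz, hX.tr c c' z hz l, Finset.mul_sum]
    exact Finset.sum_congr rfl fun k _ => by ring

/-- `div (ζ X) = ζ div X + X ζ` -/
theorem L2D.divg_smul (h : L2D e V w g) {X : κ → Cn n → Fin n → ℂ} (hX : Fld e X) {ζ : M → ℂ}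
    (hζ : Sm e ζ) {p : M} (hp : p ∈ V) :
    divg e w (fun c z j => pb e c ζ z * X c z j) p = ζ p * divg e w X p + act e X ζ p := by
  obtain ⟨c, hc⟩ := h.cover p hp
  have hz := (e c).map_source hc
  have e1 := h.pb_divg (hX.smul hζ) hz
  have e2 := h.pb_divg hX hz
  have e3 := h.pb_act hX hζ hz
  rw [pb, (e c).left_inv hc] at e1 e2 e3
  rw [e1, e2, e3, dv_eq (e c).open_target (h.w_smooth c) (h.w_pos c)
    (fun j => (hX.smul hζ).smooth c j) hz, dv_eq (e c).open_target (h.w_smooth c) (h.w_pos c)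
    (hX.smooth c) hz, Finset.mul_sum, ← Finset.sum_add_distrib]
  refine Finset.sum_congr rfl fun j _ => ?_
  rw [dz_mul (diffAtC (e c).open_target (hζ c) hz) (diffAtC (e c).open_target (hX.smooth c j) hz)]
  simp only [pb, (e c).left_inv hc]
  ring

section

variable [MeasurableSpace M] [BorelSpace M] [T2Space M] {μ : Measure M}

omit [MeasurableSpace M] [BorelSpace M] [T2Space M] in
theorem L2D.notMem (h : L2D e V w g) {p : M} (hp : p ∉ V) (F : κ → Cn n → ℂ) :
    glob e F p = 0 := by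
  rw [glob, dif_neg]
  rintro ⟨c, hc⟩
  exact hp (h.sub c hc)

omit [MeasurableSpace M] [BorelSpace M] in
theorem L2D.act_zero (h : L2D e V w g) {X : κ → Cn n → Fin n → ℂ} (hX : Fld e X) {ζ : M → ℂ}
    (hζ : Sm e ζ) {K : Set M} (hK : IsCompact K)
    (h0 : (∀ p ∉ K, ζ p = 0) ∨
      ∀ c, ∀ z ∈ (e c).target, (e c).symm z ∉ K → X c =ᶠ[𝓝 z] fun _ => 0) :
    ∀ p ∉ K, act e X ζ p = 0 := by
  intro p hp
  by_cases hpV : p ∈ V
  · obtain ⟨c, hc⟩ := h.cover p hpV
    have hz := (e c).map_source hc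
    have e3 := h.pb_act hX hζ hz
    rw [pb, (e c).left_inv hc] at e3
    rw [e3]
    have hpc : (e c).symm (e c p) ∉ K := by rwa [(e c).left_inv hc]
    refine Finset.sum_eq_zero fun j _ => ?_
    rcases h0 with h1 | h1
    · have h2 : pb e c ζ =ᶠ[𝓝 (e c p)] fun _ => 0 := by
        have h3 : ∀ᶠ x in 𝓝 (e c p), (e c).symm x ∈ Kᶜ :=
          ((e c).symm.continuousAt hz).eventually (hK.isClosed.isOpen_compl.mem_nhds hpc)
        filter_upwards [h3] with x hx
        exact h1 _ hx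
      rw [dz_congr h2, dz_const, mul_zero]
    · have h2 : X c (e c p) = 0 := (h1 c _ hz hpc).self_of_nhds
      rw [h2, Pi.zero_apply, zero_mul]
  · exact h.notMem hpV _

/-- Integration by parts on `M`. -/
theorem IsDens.ibp (hμ : IsDens e w μ) (h : L2D e V w g)
    {X : κ → Cn n → Fin n → ℂ} (hX : Fld e X) {ζ : M → ℂ} (hζ : Sm e ζ) {K : Set M}
    (hK : IsCompact K) (hKV : K ⊆ V)
    (h0 : (∀ p ∉ K, ζ p = 0) ∨
      ∀ c, ∀ z ∈ (e c).target, (e c).symm z ∉ K → X c =ᶠ[𝓝 z] fun _ => 0) :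
    ∫ p, ζ p * divg e w X p ∂μ = -∫ p, act e X ζ p ∂μ := by
  have h1 : ∫ p, divg e w (fun c z j => pb e c ζ z * X c z j) p ∂μ = 0 := by
    refine hμ.integral_divg h (hX.smul hζ) hK hKV fun c z hz hzK => ?_
    funext j
    rcases h0 with h1 | h1
    · have h2 : pb e c ζ z = 0 := h1 _ hzK
      rw [h2, zero_mul, Pi.zero_apply]
    · have h2 : X c z = 0 := (h1 c _ hz hzK).self_of_nhds
      rw [h2, Pi.zero_apply, mul_zero]
  have h2 : ∀ p, divg e w (fun c z j => pb e c ζ z * X c z j) p =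
      ζ p * divg e w X p + act e X ζ p := by
    intro p
    by_cases hp : p ∈ V
    · exact h.divg_smul hX hζ hp
    · rw [divg, act, divg, h.notMem hp, h.notMem hp, h.notMem hp, mul_zero, add_zero]
  have z1 := h.act_zero hX hζ hK h0
  have z2 : ∀ p ∉ K, ζ p * divg e w X p = 0 := by
    intro p hp
    rcases h0 with h3 | h3
    · rw [h3 p hp, zero_mul]
    · rw [h.divg_zero hX h3 p hp, mul_zero]
  have int : ∀ F : M → ℂ, Sm e F → (∀ p ∉ K, F p = 0) → Integrable F μ := fun F hF hF0 =>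
    hμ.integrable h hK hKV (Sm.continuous (V := V) h.cover hF
      ((tsupport_sub_of_compact hK hF0).trans hKV)) hF0
  have i1 := int _ (hζ.mul (h.Sm_divg hX)) z2
  have i2 := int _ (h.Sm_act hX hζ) z1
  simp only [h2] at h1
  rw [integral_add i1 i2] at h1
  exact eq_neg_of_add_eq_zero_left h1

end

end Pool.Agent.KRFQ

end

section

/-!
# The gradient form and the Laplacian in a chart (helper86)
-/

open scoped ContDiff Topology ComplexOrder Matrix MatrixOrder
open Set MeasureTheory Filter Pool.Agent.ToricKRF Pool.Agent.ToricKRF.G Pool.Agent.KRFS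

namespace Pool.Agent.KRFQ

variable {n : ℕ}

/-! ### Rules for the gradient -/

theorem gradv_congr {g : Cn n → ℝ} {f f' : Cn n → ℂ} {z : Cn n} (h : f =ᶠ[𝓝 z] f') (j : Fin n) :
    gradv g f z j = gradv g f' z j := by
  unfold gradv
  exact Finset.sum_congr rfl fun k _ => by rw [dzb_congr h]

theorem gradv_add (g : Cn n → ℝ) {f f' : Cn n → ℂ} {z : Cn n} (hf : DifferentiableAt ℝ f z)
    (hf' : DifferentiableAt ℝ f' z) (j : Fin n) :
    gradv g (fun x => f x + f' x) z j = gradv g f z j + gradv g f' z j := by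
  unfold gradv
  rw [← Finset.sum_add_distrib]
  exact Finset.sum_congr rfl fun k _ => by rw [dzb_add hf hf']; ring

theorem gradv_sub (g : Cn n → ℝ) {f f' : Cn n → ℂ} {z : Cn n} (hf : DifferentiableAt ℝ f z)
    (hf' : DifferentiableAt ℝ f' z) (j : Fin n) :
    gradv g (fun x => f x - f' x) z j = gradv g f z j - gradv g f' z j := by
  unfold gradv
  rw [← Finset.sum_sub_distrib]
  exact Finset.sum_congr rfl fun k _ => by rw [dzb_sub hf hf']; ring

theorem gradv_const (g : Cn n → ℝ) (c : ℂ) (z : Cn n) (j : Fin n) :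
    gradv g (fun _ => c) z j = 0 := by
  unfold gradv
  exact Finset.sum_eq_zero fun k _ => by rw [dzb_const, mul_zero]

theorem gradv_mul (g : Cn n → ℝ) {f f' : Cn n → ℂ} {z : Cn n} (hf : DifferentiableAt ℝ f z)
    (hf' : DifferentiableAt ℝ f' z) (j : Fin n) :
    gradv g (fun x => f x * f' x) z j = f z * gradv g f' z j + f' z * gradv g f z j := by
  unfold gradv
  rw [Finset.mul_sum, Finset.mul_sum, ← Finset.sum_add_distrib]
  exact Finset.sum_congr rfl fun k _ => by rw [dzb_mul hf hf']; ring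

/-! ### The gradient form and the Laplacian -/

/-- the gradient form -/
noncomputable def gamc (g : Cn n → ℝ) (f f' : Cn n → ℂ) (z : Cn n) : ℂ :=
  ∑ j, gradv g f z j * (starRingEnd ℂ) (dzb j f' z)

/-- the Laplacian -/
noncomputable def lapc (w g : Cn n → ℝ) (f : Cn n → ℂ) (z : Cn n) : ℂ := dv w (gradv g f) z

theorem dv_smul {w : Cn n → ℝ} {U : Set (Cn n)} (hU : IsOpen U) (hw : ContDiffOn ℝ ∞ w U)
    (hpos : ∀ z ∈ U, 0 < w z) {X : Cn n → Fin n → ℂ}
    (hX : ∀ j, ContDiffOn ℝ ∞ (fun x => X x j) U) {χ : Cn n → ℂ} (hχ : ContDiffOn ℝ ∞ χ U)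
    {z : Cn n} (hz : z ∈ U) :
    dv w (fun x j => χ x * X x j) z = χ z * dv w X z + ∑ j, dz j χ z * X z j := by
  rw [dv_eq hU hw hpos (fun j => hχ.mul (hX j)) hz, dv_eq hU hw hpos hX hz, Finset.mul_sum,
    ← Finset.sum_add_distrib]
  refine Finset.sum_congr rfl fun j _ => ?_
  rw [dz_mul (diffAtC hU hχ hz) (diffAtC hU (hX j) hz)]
  ring

theorem dv_add {w : Cn n → ℝ} {U : Set (Cn n)} (hU : IsOpen U) (hw : ContDiffOn ℝ ∞ w U)
    (hpos : ∀ z ∈ U, 0 < w z) {X Y : Cn n → Fin n → ℂ}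
    (hX : ∀ j, ContDiffOn ℝ ∞ (fun x => X x j) U) (hY : ∀ j, ContDiffOn ℝ ∞ (fun x => Y x j) U)
    {z : Cn n} (hz : z ∈ U) :
    dv w (fun x j => X x j + Y x j) z = dv w X z + dv w Y z := by
  rw [dv_eq hU hw hpos (fun j => (hX j).add (hY j)) hz, dv_eq hU hw hpos hX hz,
    dv_eq hU hw hpos hY hz, ← Finset.sum_add_distrib]
  refine Finset.sum_congr rfl fun j _ => ?_
  rw [dz_add (diffAtC hU (hX j) hz) (diffAtC hU (hY j) hz)]
  ring

theorem lapc_mul {w g : Cn n → ℝ} {U : Set (Cn n)} (hU : IsOpen U) (hw : ContDiffOn ℝ ∞ w U)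
    (hpos : ∀ z ∈ U, 0 < w z) (hg : ContDiffOn ℝ ∞ g U) (hd : ∀ x ∈ U, (Hm g x).det ≠ 0)
    {χ f : Cn n → ℂ} (hχ : ContDiffOn ℝ ∞ χ U) (hf : ContDiffOn ℝ ∞ f U) {z : Cn n}
    (hz : z ∈ U) :
    lapc w g (fun x => χ x * f x) z = χ z * lapc w g f z + f z * lapc w g χ z +
      ((∑ j, dz j χ z * gradv g f z j) + ∑ j, dz j f z * gradv g χ z j) := by
  have h1 : gradv g (fun x => χ x * f x) =ᶠ[𝓝 z]
      fun x j => χ x * gradv g f x j + f x * gradv g χ x j := by
    filter_upwards [hU.mem_nhds hz] with x hx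
    funext j
    exact gradv_mul g (diffAtC hU hχ hx) (diffAtC hU hf hx) j
  have s1 : ∀ j, ContDiffOn ℝ ∞ (fun x => gradv g f x j) U := contDiffOn_gradv hU hg hd hf
  have s2 : ∀ j, ContDiffOn ℝ ∞ (fun x => gradv g χ x j) U := contDiffOn_gradv hU hg hd hχ
  unfold lapc
  rw [dv_congr h1, dv_add hU hw hpos (X := fun x j => χ x * gradv g f x j)
    (Y := fun x j => f x * gradv g χ x j) (fun j => hχ.mul (s1 j)) (fun j => hf.mul (s2 j)) hz,
    dv_smul hU hw hpos s1 hχ hz, dv_smul hU hw hpos s2 hf hz]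
  ring

theorem gamc_conj_right {g : Cn n → ℝ} {f χ : Cn n → ℂ} {z : Cn n}
    (hχ : DifferentiableAt ℝ χ z) :
    gamc g f (fun x => (starRingEnd ℂ) (χ x)) z = ∑ j, dz j χ z * gradv g f z j := by
  unfold gamc
  refine Finset.sum_congr rfl fun j _ => ?_
  rw [dzb_conj hχ, Complex.conj_conj]
  ring

theorem gamc_mul_left (g : Cn n → ℝ) {χ f f' : Cn n → ℂ} {z : Cn n}
    (hχ : DifferentiableAt ℝ χ z) (hf : DifferentiableAt ℝ f z) :
    gamc g (fun x => χ x * f x) f' z = χ z * gamc g f f' z + f z * gamc g χ f' z := by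
  unfold gamc
  rw [Finset.mul_sum, Finset.mul_sum, ← Finset.sum_add_distrib]
  refine Finset.sum_congr rfl fun j _ => ?_
  rw [gradv_mul g hχ hf]
  ring

theorem gamc_mul_right (g : Cn n → ℝ) {χ f f' : Cn n → ℂ} {z : Cn n}
    (hχ : DifferentiableAt ℝ χ z) (hf' : DifferentiableAt ℝ f' z) :
    gamc g f (fun x => χ x * f' x) z = (starRingEnd ℂ) (χ z) * gamc g f f' z +
      (starRingEnd ℂ) (f' z) * gamc g f χ z := by
  unfold gamc
  rw [Finset.mul_sum, Finset.mul_sum, ← Finset.sum_add_distrib]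
  refine Finset.sum_congr rfl fun j _ => ?_
  rw [dzb_mul hχ hf', map_add, map_mul, map_mul]
  ring

theorem gamc_add_left (g : Cn n → ℝ) {f₁ f₂ f' : Cn n → ℂ} {z : Cn n}
    (h1 : DifferentiableAt ℝ f₁ z) (h2 : DifferentiableAt ℝ f₂ z) :
    gamc g (fun x => f₁ x + f₂ x) f' z = gamc g f₁ f' z + gamc g f₂ f' z := by
  unfold gamc
  rw [← Finset.sum_add_distrib]
  refine Finset.sum_congr rfl fun j _ => ?_
  rw [gradv_add g h1 h2]
  ring

theorem gamc_add_right (g : Cn n → ℝ) {f f₁ f₂ : Cn n → ℂ} {z : Cn n}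
    (h1 : DifferentiableAt ℝ f₁ z) (h2 : DifferentiableAt ℝ f₂ z) :
    gamc g f (fun x => f₁ x + f₂ x) z = gamc g f f₁ z + gamc g f f₂ z := by
  unfold gamc
  rw [← Finset.sum_add_distrib]
  refine Finset.sum_congr rfl fun j _ => ?_
  rw [dzb_add h1 h2, map_add]
  ring

theorem gamc_congr {g : Cn n → ℝ} {f₁ f₂ f₁' f₂' : Cn n → ℂ} {z : Cn n} (h1 : f₁ =ᶠ[𝓝 z] f₂)
    (h2 : f₁' =ᶠ[𝓝 z] f₂') : gamc g f₁ f₁' z = gamc g f₂ f₂' z := by
  unfold gamc
  refine Finset.sum_congr rfl fun j _ => ?_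
  rw [gradv_congr h1, dzb_congr h2]

theorem lapc_congr {w g : Cn n → ℝ} {f f' : Cn n → ℂ} {z : Cn n} (h : f =ᶠ[𝓝 z] f') :
    lapc w g f z = lapc w g f' z := by
  unfold lapc
  refine dv_congr ?_
  filter_upwards [h.eventuallyEq_nhds] with x hx
  funext j
  exact gradv_congr hx j

/-! ### The form is positive -/

section

variable {g : Cn n → ℝ} {z : Cn n} (hP : (Hm g z).PosDef)

include hP

/-- the square root of the inverse matrix -/
theorem exists_sqrt : ∃ Q : Matrix (Fin n) (Fin n) ℂ, ((Hm g z)ᵀ)⁻¹ = Qᴴ * Q := by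
  have h1 : (((Hm g z)ᵀ)⁻¹).PosSemidef := (hP.transpose.inv).posSemidef
  obtain ⟨B, hB⟩ := CStarAlgebra.nonneg_iff_eq_star_mul_self.mp h1.nonneg
  exact ⟨B, by rw [hB, Matrix.star_eq_conjTranspose]⟩

omit hP in
theorem gamc_eq (f f' : Cn n → ℂ) {Q : Matrix (Fin n) (Fin n) ℂ}
    (hQ : ((Hm g z)ᵀ)⁻¹ = Qᴴ * Q) :
    gamc g f f' z = ∑ i, Q.mulVec (fun k => dzb k f z) i *
      (starRingEnd ℂ) (Q.mulVec (fun k => dzb k f' z) i) := by
  unfold gamc gradv
  rw [hQ]
  simp only [Matrix.mul_apply, Matrix.conjTranspose_apply, Matrix.mulVec, dotProduct, map_sum,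
    map_mul, Finset.sum_mul, Finset.mul_sum, RCLike.star_def]
  rw [Finset.sum_comm]
  have h1 : ∀ (F : Fin n → Fin n → Fin n → ℂ),
      ∑ k, ∑ j, ∑ i, F i j k = ∑ i, ∑ j, ∑ k, F i j k := by
    intro F
    calc ∑ k, ∑ j, ∑ i, F i j k = ∑ k, ∑ i, ∑ j, F i j k :=
          Finset.sum_congr rfl fun k _ => Finset.sum_comm
      _ = ∑ i, ∑ k, ∑ j, F i j k := Finset.sum_comm
      _ = _ := Finset.sum_congr rfl fun i _ => Finset.sum_comm
  rw [h1 fun i j k => (starRingEnd ℂ) (Q i j) * Q i k * dzb k f z *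
    (starRingEnd ℂ) (dzb j f' z)]
  exact Finset.sum_congr rfl fun i _ => Finset.sum_congr rfl fun j _ =>
    Finset.sum_congr rfl fun k _ => by ring

theorem gamc_conj (f f' : Cn n → ℂ) :
    (starRingEnd ℂ) (gamc g f f' z) = gamc g f' f z := by
  obtain ⟨Q, hQ⟩ := exists_sqrt hP
  rw [gamc_eq f f' hQ, gamc_eq f' f hQ, map_sum]
  refine Finset.sum_congr rfl fun i _ => ?_
  rw [map_mul, Complex.conj_conj]
  ring

theorem gamc_self (f : Cn n → ℂ) : gamc g f f z = ((gamc g f f z).re : ℂ) := by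
  have h := gamc_conj hP f f
  exact (Complex.conj_eq_iff_re.1 h).symm

theorem gamc_self_nonneg (f : Cn n → ℂ) : 0 ≤ (gamc g f f z).re := by
  obtain ⟨Q, hQ⟩ := exists_sqrt hP
  rw [gamc_eq f f hQ, Complex.re_sum]
  refine Finset.sum_nonneg fun i _ => ?_
  rw [Complex.mul_conj, Complex.ofReal_re]
  exact Complex.normSq_nonneg _

theorem norm_gamc_sq_le (f f' : Cn n → ℂ) :
    ‖gamc g f f' z‖ ^ 2 ≤ (gamc g f f z).re * (gamc g f' f' z).re := by
  obtain ⟨Q, hQ⟩ := exists_sqrt hP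
  set a := Q.mulVec (fun k => dzb k f z) with ha
  set b := Q.mulVec (fun k => dzb k f' z) with hb
  have e1 : (gamc g f f z).re = ∑ i, ‖a i‖ ^ 2 := by
    rw [gamc_eq f f hQ, Complex.re_sum]
    refine Finset.sum_congr rfl fun i _ => ?_
    rw [Complex.mul_conj, Complex.ofReal_re, Complex.normSq_eq_norm_sq]
  have e2 : (gamc g f' f' z).re = ∑ i, ‖b i‖ ^ 2 := by
    rw [gamc_eq f' f' hQ, Complex.re_sum]
    refine Finset.sum_congr rfl fun i _ => ?_
    rw [Complex.mul_conj, Complex.ofReal_re, Complex.normSq_eq_norm_sq]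
  rw [e1, e2, gamc_eq f f' hQ]
  have h1 : ‖∑ i, a i * (starRingEnd ℂ) (b i)‖ ≤ ∑ i, ‖a i‖ * ‖b i‖ := by
    refine (norm_sum_le _ _).trans (Finset.sum_le_sum fun i _ => ?_)
    rw [norm_mul, RCLike.norm_conj]
  calc ‖∑ i, a i * (starRingEnd ℂ) (b i)‖ ^ 2 ≤ (∑ i, ‖a i‖ * ‖b i‖) ^ 2 :=
        pow_le_pow_left₀ (norm_nonneg _) h1 2
    _ ≤ _ := Finset.sum_mul_sq_le_sq_mul_sq _ _ _

/-- the Euclidean length is bounded by the trace of the metric -/
theorem sum_dzb_le (f : Cn n → ℂ) :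
    ∑ k, ‖dzb k f z‖ ^ 2 ≤ (∑ k, (Hm g z k k).re) * (gamc g f f z).re := by
  obtain ⟨Q, hQ⟩ := exists_sqrt hP
  have hu : IsUnit ((Hm g z)ᵀ).det := by
    rw [Matrix.det_transpose]
    exact hP.det_pos.ne'.isUnit
  set a := Q.mulVec (fun k => dzb k f z) with ha
  have e1 : (gamc g f f z).re = ∑ i, ‖a i‖ ^ 2 := by
    rw [gamc_eq f f hQ, Complex.re_sum]
    refine Finset.sum_congr rfl fun i _ => ?_
    rw [Complex.mul_conj, Complex.ofReal_re, Complex.normSq_eq_norm_sq]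
  -- `R = Gᵀ Qᴴ` is a left inverse of `Q`
  set R : Matrix (Fin n) (Fin n) ℂ := (Hm g z)ᵀ * Qᴴ with hR
  have hRQ : R * Q = 1 := by
    rw [hR, Matrix.mul_assoc, ← hQ]
    exact Matrix.mul_nonsing_inv _ hu
  have hQR : Q * R = 1 := mul_eq_one_comm.1 hRQ
  have hRR : R * Rᴴ = (Hm g z)ᵀ := by
    have h1 : Rᴴ = Q * (Hm g z)ᵀ := by
      rw [hR, Matrix.conjTranspose_mul, Matrix.conjTranspose_conjTranspose]
      have h2 : ((Hm g z)ᵀ)ᴴ = (Hm g z)ᵀ := hP.transpose.isHermitian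
      rw [h2]
    rw [h1, ← Matrix.mul_assoc, hRQ, Matrix.one_mul]
  have h2 : ∀ k, dzb k f z = ∑ i, R k i * a i := by
    intro k
    have h3 : R.mulVec a = fun k => dzb k f z := by
      rw [ha, Matrix.mulVec_mulVec, hRQ, Matrix.one_mulVec]
    exact (congrFun h3 k).symm
  have h3 : ∀ k, ‖dzb k f z‖ ^ 2 ≤ (Hm g z k k).re * ∑ i, ‖a i‖ ^ 2 := by
    intro k
    have h4 : (Hm g z k k).re = ∑ i, ‖R k i‖ ^ 2 := by
      have h5 : Hm g z k k = (R * Rᴴ) k k := by rw [hRR, Matrix.transpose_apply]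
      rw [h5, Matrix.mul_apply, Complex.re_sum]
      refine Finset.sum_congr rfl fun i _ => ?_
      rw [Matrix.conjTranspose_apply, RCLike.star_def, Complex.mul_conj, Complex.ofReal_re,
        Complex.normSq_eq_norm_sq]
    rw [h4, h2 k]
    have h5 : ‖∑ i, R k i * a i‖ ≤ ∑ i, ‖R k i‖ * ‖a i‖ :=
      (norm_sum_le _ _).trans (Finset.sum_le_sum fun i _ => (norm_mul _ _).le)
    calc ‖∑ i, R k i * a i‖ ^ 2 ≤ (∑ i, ‖R k i‖ * ‖a i‖) ^ 2 :=
          pow_le_pow_left₀ (norm_nonneg _) h5 2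
      _ ≤ _ := Finset.sum_mul_sq_le_sq_mul_sq _ _ _
  rw [e1, Finset.sum_mul]
  exact Finset.sum_le_sum fun k _ => h3 k

end

/-! ### `∂` and `∂bar` have the same size -/

theorem integral_norm_dz_sq {F : Cn n → ℂ} (hF : ContDiff ℝ ∞ F) (hc : HasCompactSupport F)
    (k : Fin n) : ∫ x, ‖dz k F x‖ ^ 2 = ∫ x, ‖dzb k F x‖ ^ 2 := by
  have hcj : ContDiff ℝ ∞ (fun x => (starRingEnd ℂ) (F x)) :=
    Complex.conjCLE.toContinuousLinearMap.contDiff.comp hF
  have hd : ∀ {H : Cn n → ℂ}, ContDiff ℝ ∞ H → ∀ x, DifferentiableAt ℝ H x := fun hH x =>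
    (hH.differentiable (by simp)) x
  -- the two total derivatives
  have i1 : ∫ x, dz k (fun y => (starRingEnd ℂ) (F y) * dzb k F y) x = 0 := by
    refine integral_dz_eq_zero ((hcj.mul (contDiff_dzb hF k)).of_le (by simp)) ?_ k
    exact (hc.mono' ((subset_tsupport _).trans (tsupport_dzb_subset k F))).mul_left
  have i2 : ∫ x, dzb k (fun y => (starRingEnd ℂ) (F y) * dz k F y) x = 0 := by
    refine integral_dzb_eq_zero ((hcj.mul (contDiff_dz hF k)).of_le (by simp)) ?_ k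
    exact (hc.mono' ((subset_tsupport _).trans (tsupport_dz_subset k F))).mul_left
  have e1 : ∀ x, dz k (fun y => (starRingEnd ℂ) (F y) * dzb k F y) x =
      ((‖dzb k F x‖ ^ 2 : ℝ) : ℂ) + (starRingEnd ℂ) (F x) * dz k (dzb k F) x := by
    intro x
    rw [dz_mul (hd hcj x) (hd (contDiff_dzb hF k) x), dz_conj (hd hF x),
      ← Complex.normSq_eq_norm_sq, ← Complex.mul_conj]
    ring
  have e2 : ∀ x, dzb k (fun y => (starRingEnd ℂ) (F y) * dz k F y) x =
      ((‖dz k F x‖ ^ 2 : ℝ) : ℂ) + (starRingEnd ℂ) (F x) * dz k (dzb k F) x := by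
    intro x
    rw [dzb_mul (hd hcj x) (hd (contDiff_dz hF k) x), dzb_conj (hd hF x),
      ← Complex.normSq_eq_norm_sq, ← Complex.mul_conj,
      dz_dzb isOpen_univ hF.contDiffOn (mem_univ x) k k]
    ring
  have c1 : Integrable (fun x => ((‖dzb k F x‖ ^ 2 : ℝ) : ℂ)) := by
    have h1 : Continuous (fun x => ((‖dzb k F x‖ ^ 2 : ℝ) : ℂ)) :=
      Complex.continuous_ofReal.comp ((contDiff_dzb hF k).continuous.norm.pow 2)
    refine h1.integrable_of_hasCompactSupport ?_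
    refine (hc.mono' ((subset_tsupport _).trans (tsupport_dzb_subset k F))).comp_left
      (g := fun y : ℂ => ((‖y‖ ^ 2 : ℝ) : ℂ)) (by simp)
  have c2 : Integrable (fun x => ((‖dz k F x‖ ^ 2 : ℝ) : ℂ)) := by
    have h1 : Continuous (fun x => ((‖dz k F x‖ ^ 2 : ℝ) : ℂ)) :=
      Complex.continuous_ofReal.comp ((contDiff_dz hF k).continuous.norm.pow 2)
    refine h1.integrable_of_hasCompactSupport ?_
    refine (hc.mono' ((subset_tsupport _).trans (tsupport_dz_subset k F))).comp_left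
      (g := fun y : ℂ => ((‖y‖ ^ 2 : ℝ) : ℂ)) (by simp)
  have c3 : Integrable (fun x => (starRingEnd ℂ) (F x) * dz k (dzb k F) x) := by
    refine (hcj.continuous.mul (contDiff_dz (contDiff_dzb hF k) k).continuous
      ).integrable_of_hasCompactSupport ?_
    exact (hc.comp_left (g := (starRingEnd ℂ)) (by simp)).mul_right
  simp only [e1] at i1
  simp only [e2] at i2
  rw [integral_add c1 c3] at i1
  rw [integral_add c2 c3] at i2
  have h := i2.trans i1.symm
  have h2 := add_right_cancel h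
  have h3 : ((∫ x, ‖dz k F x‖ ^ 2 : ℝ) : ℂ) = ((∫ x, ‖dzb k F x‖ ^ 2 : ℝ) : ℂ) := by
    rw [← integral_complex_ofReal, ← integral_complex_ofReal]
    exact h2
  exact_mod_cast h3

end Pool.Agent.KRFQ

end

section

/-!
# The gradient form on the manifold (helper86)
-/

open scoped ContDiff Topology ComplexOrder Matrix
open Set MeasureTheory Filter Pool.Agent.ToricKRF Pool.Agent.ToricKRF.G Pool.Agent.KRFS

namespace Pool.Agent.KRFQ

variable {M : Type} [TopologicalSpace M] {n : ℕ} {κ : Type}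
  {e : κ → OpenPartialHomeomorph M (Cn n)} {V : Set M} {w g : κ → Cn n → ℝ}

/-- The gradient form `⟨∂bar f, ∂bar f'⟩`. -/
noncomputable def gam (e : κ → OpenPartialHomeomorph M (Cn n)) (g : κ → Cn n → ℝ)
    (f f' : M → ℂ) : M → ℂ :=
  act e (grd e g f) fun p => (starRingEnd ℂ) (f' p)

theorem L2D.pb_gam (h : L2D e V w g) {f f' : M → ℂ} (hf : Sm e f) (hf' : Sm e f') {c : κ}
    {z : Cn n} (hz : z ∈ (e c).target) :
    pb e c (gam e g f f') z = gamc (g c) (pb e c f) (pb e c f') z := by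
  rw [gam, h.pb_act (h.Fld_grd hf) hf'.conj hz]
  unfold gamc grd
  refine Finset.sum_congr rfl fun j _ => ?_
  congr 1
  exact dz_conj (diffAtC (e c).open_target (hf' c) hz) j

theorem L2D.gam_point (h : L2D e V w g) {f f' : M → ℂ} (hf : Sm e f) (hf' : Sm e f') {c : κ}
    {p : M} (hp : p ∈ (e c).source) :
    gam e g f f' p = gamc (g c) (pb e c f) (pb e c f') (e c p) := by
  have h1 := h.pb_gam hf hf' ((e c).map_source hp)
  rwa [pb, (e c).left_inv hp] at h1

theorem L2D.gam_notMem (h : L2D e V w g) (f f' : M → ℂ) {p : M} (hp : p ∉ V) :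
    gam e g f f' p = 0 := by
  rw [gam, act]
  exact h.notMem hp _

theorem L2D.Lap_point (h : L2D e V w g) {f : M → ℂ} (hf : Sm e f) {c : κ}
    {p : M} (hp : p ∈ (e c).source) :
    Lap e w g f p = -lapc (w c) (g c) (pb e c f) (e c p) := by
  have h1 := h.pb_divg (h.Fld_grd hf) ((e c).map_source hp)
  rw [pb, (e c).left_inv hp] at h1
  rw [Lap, h1]
  rfl

theorem L2D.pb_Lap (h : L2D e V w g) {f : M → ℂ} (hf : Sm e f) {c : κ}
    {z : Cn n} (hz : z ∈ (e c).target) :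
    pb e c (Lap e w g f) z = -lapc (w c) (g c) (pb e c f) z := by
  have h1 := h.Lap_point hf ((e c).map_target hz)
  rwa [(e c).right_inv hz] at h1

theorem L2D.Lap_notMem (h : L2D e V w g) (f : M → ℂ) {p : M} (hp : p ∉ V) :
    Lap e w g f p = 0 := by
  rw [Lap, divg, h.notMem hp, neg_zero]

theorem L2D.Sm_gam (h : L2D e V w g) {f f' : M → ℂ} (hf : Sm e f) (hf' : Sm e f') :
    Sm e (gam e g f f') := h.Sm_act (h.Fld_grd hf) hf'.conj

/-! ### Algebra -/

theorem Sm.diffAt {f : M → ℂ} (hf : Sm e f) {c : κ} {p : M} (hp : p ∈ (e c).source) :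
    DifferentiableAt ℝ (pb e c f) (e c p) :=
  diffAtC (e c).open_target (hf c) ((e c).map_source hp)

theorem L2D.gam_conj (h : L2D e V w g) {f f' : M → ℂ} (hf : Sm e f) (hf' : Sm e f') (p : M) :
    (starRingEnd ℂ) (gam e g f f' p) = gam e g f' f p := by
  by_cases hp : p ∈ V
  · obtain ⟨c, hc⟩ := h.cover p hp
    rw [h.gam_point hf hf' hc, h.gam_point hf' hf hc]
    exact KRFQ.gamc_conj (h.posDef c ((e c).map_source hc)) _ _
  · rw [h.gam_notMem f f' hp, h.gam_notMem f' f hp, map_zero]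

theorem L2D.gam_self (h : L2D e V w g) {f : M → ℂ} (hf : Sm e f) (p : M) :
    gam e g f f p = ((gam e g f f p).re : ℂ) :=
  (Complex.conj_eq_iff_re.1 (h.gam_conj hf hf p)).symm

theorem L2D.gam_nonneg (h : L2D e V w g) {f : M → ℂ} (hf : Sm e f) (p : M) :
    0 ≤ (gam e g f f p).re := by
  by_cases hp : p ∈ V
  · obtain ⟨c, hc⟩ := h.cover p hp
    rw [h.gam_point hf hf hc]
    exact gamc_self_nonneg (h.posDef c ((e c).map_source hc)) _
  · rw [h.gam_notMem f f hp, Complex.zero_re]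

theorem L2D.norm_gam_sq_le (h : L2D e V w g) {f f' : M → ℂ} (hf : Sm e f) (hf' : Sm e f')
    (p : M) : ‖gam e g f f' p‖ ^ 2 ≤ (gam e g f f p).re * (gam e g f' f' p).re := by
  by_cases hp : p ∈ V
  · obtain ⟨c, hc⟩ := h.cover p hp
    rw [h.gam_point hf hf' hc, h.gam_point hf hf hc, h.gam_point hf' hf' hc]
    exact KRFQ.norm_gamc_sq_le (h.posDef c ((e c).map_source hc)) _ _
  · rw [h.gam_notMem f f' hp, h.gam_notMem f f hp]
    simp

theorem L2D.norm_gam_le (h : L2D e V w g) {f f' : M → ℂ} (hf : Sm e f) (hf' : Sm e f')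
    (p : M) : ‖gam e g f f' p‖ ≤ √(gam e g f f p).re * √(gam e g f' f' p).re := by
  rw [← Real.sqrt_mul (h.gam_nonneg hf p)]
  exact Real.le_sqrt_of_sq_le (h.norm_gam_sq_le hf hf' p)

theorem L2D.gam_mul_left (h : L2D e V w g) {χ f f' : M → ℂ} (hχ : Sm e χ) (hf : Sm e f)
    (hf' : Sm e f') (p : M) : gam e g (fun q => χ q * f q) f' p =
      χ p * gam e g f f' p + f p * gam e g χ f' p := by
  by_cases hp : p ∈ V
  · obtain ⟨c, hc⟩ := h.cover p hp
    rw [h.gam_point (hχ.mul hf) hf' hc, h.gam_point hf hf' hc, h.gam_point hχ hf' hc]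
    have h1 := gamc_mul_left (g c) (f' := pb e c f') (hχ.diffAt hc) (hf.diffAt hc)
    simp only [pb, (e c).left_inv hc] at h1 ⊢
    exact h1
  · simp only [h.gam_notMem _ _ hp, mul_zero, add_zero]

theorem L2D.gam_mul_right (h : L2D e V w g) {χ f f' : M → ℂ} (hχ : Sm e χ) (hf : Sm e f)
    (hf' : Sm e f') (p : M) : gam e g f (fun q => χ q * f' q) p =
      (starRingEnd ℂ) (χ p) * gam e g f f' p + (starRingEnd ℂ) (f' p) * gam e g f χ p := by
  by_cases hp : p ∈ V
  · obtain ⟨c, hc⟩ := h.cover p hp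
    rw [h.gam_point hf (hχ.mul hf') hc, h.gam_point hf hf' hc, h.gam_point hf hχ hc]
    have h1 := gamc_mul_right (g c) (f := pb e c f) (hχ.diffAt hc) (hf'.diffAt hc)
    simp only [pb, (e c).left_inv hc] at h1 ⊢
    exact h1
  · simp only [h.gam_notMem _ _ hp, mul_zero, add_zero]

theorem L2D.gam_add_left (h : L2D e V w g) {f₁ f₂ f' : M → ℂ} (h1 : Sm e f₁) (h2 : Sm e f₂)
    (hf' : Sm e f') (p : M) :
    gam e g (fun q => f₁ q + f₂ q) f' p = gam e g f₁ f' p + gam e g f₂ f' p := by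
  by_cases hp : p ∈ V
  · obtain ⟨c, hc⟩ := h.cover p hp
    rw [h.gam_point (h1.add h2) hf' hc, h.gam_point h1 hf' hc, h.gam_point h2 hf' hc]
    exact gamc_add_left (g c) (h1.diffAt hc) (h2.diffAt hc)
  · simp only [h.gam_notMem _ _ hp, add_zero]

theorem L2D.gam_add_right (h : L2D e V w g) {f f₁ f₂ : M → ℂ} (hf : Sm e f) (h1 : Sm e f₁)
    (h2 : Sm e f₂) (p : M) :
    gam e g f (fun q => f₁ q + f₂ q) p = gam e g f f₁ p + gam e g f f₂ p := by
  by_cases hp : p ∈ V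
  · obtain ⟨c, hc⟩ := h.cover p hp
    rw [h.gam_point hf (h1.add h2) hc, h.gam_point hf h1 hc, h.gam_point hf h2 hc]
    exact gamc_add_right (g c) (h1.diffAt hc) (h2.diffAt hc)
  · simp only [h.gam_notMem _ _ hp, add_zero]

theorem L2D.gam_congr (h : L2D e V w g) {f₁ f₂ f₁' f₂' : M → ℂ} (h1 : Sm e f₁) (h2 : Sm e f₂)
    (h1' : Sm e f₁') (h2' : Sm e f₂') {p : M} (hf : f₁ =ᶠ[𝓝 p] f₂) (hf' : f₁' =ᶠ[𝓝 p] f₂') :
    gam e g f₁ f₁' p = gam e g f₂ f₂' p := by
  by_cases hp : p ∈ V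
  · obtain ⟨c, hc⟩ := h.cover p hp
    rw [h.gam_point h1 h1' hc, h.gam_point h2 h2' hc]
    have hcont : Tendsto (e c).symm (𝓝 (e c p)) (𝓝 p) := by
      have := ((e c).symm.continuousAt ((e c).map_source hc))
      rwa [ContinuousAt, (e c).left_inv hc] at this
    exact KRFQ.gamc_congr (hcont.eventually hf) (hcont.eventually hf')
  · rw [h.gam_notMem _ _ hp, h.gam_notMem _ _ hp]

theorem L2D.Lap_congr (h : L2D e V w g) {f₁ f₂ : M → ℂ} (h1 : Sm e f₁) (h2 : Sm e f₂) {p : M}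
    (hf : f₁ =ᶠ[𝓝 p] f₂) : Lap e w g f₁ p = Lap e w g f₂ p := by
  by_cases hp : p ∈ V
  · obtain ⟨c, hc⟩ := h.cover p hp
    rw [h.Lap_point h1 hc, h.Lap_point h2 hc]
    have hcont : Tendsto (e c).symm (𝓝 (e c p)) (𝓝 p) := by
      have := ((e c).symm.continuousAt ((e c).map_source hc))
      rwa [ContinuousAt, (e c).left_inv hc] at this
    have h3 : lapc (w c) (g c) (pb e c f₁) (e c p) = lapc (w c) (g c) (pb e c f₂) (e c p) :=
      KRFQ.lapc_congr (hcont.eventually hf)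
    rw [h3]
  · rw [h.Lap_notMem _ hp, h.Lap_notMem _ hp]

theorem L2D.Lap_mul (h : L2D e V w g) {χ f : M → ℂ} (hχ : Sm e χ) (hf : Sm e f) (p : M) :
    Lap e w g (fun q => χ q * f q) p = χ p * Lap e w g f p + f p * Lap e w g χ p -
      gam e g f (fun q => (starRingEnd ℂ) (χ q)) p -
      gam e g χ (fun q => (starRingEnd ℂ) (f q)) p := by
  by_cases hp : p ∈ V
  · obtain ⟨c, hc⟩ := h.cover p hp
    have hz := (e c).map_source hc
    rw [h.Lap_point (hχ.mul hf) hc, h.Lap_point hf hc, h.Lap_point hχ hc,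
      h.gam_point hf hχ.conj hc, h.gam_point hχ hf.conj hc]
    have h1 := lapc_mul (e c).open_target (h.w_smooth c) (h.w_pos c) (h.g_smooth c)
      (fun x hx => h.det_ne c hx) (hχ c) (hf c) hz
    have h2 := gamc_conj_right (g := g c) (f := pb e c f) (hχ.diffAt hc)
    have h3 := gamc_conj_right (g := g c) (f := pb e c χ) (hf.diffAt hc)
    rw [← h2, ← h3] at h1
    have e1 : ∀ f : M → ℂ, pb e c f (e c p) = f p := fun f => by rw [pb, (e c).left_inv hc]
    rw [e1, e1] at h1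
    have h4 : lapc (w c) (g c) (pb e c fun q => χ q * f q) (e c p) =
      χ p * lapc (w c) (g c) (pb e c f) (e c p) + f p * lapc (w c) (g c) (pb e c χ) (e c p) +
      (gamc (g c) (pb e c f) (pb e c fun q => (starRingEnd ℂ) (χ q)) (e c p) +
        gamc (g c) (pb e c χ) (pb e c fun q => (starRingEnd ℂ) (f q)) (e c p)) := h1
    rw [h4]
    ring
  · simp only [h.gam_notMem _ _ hp, h.Lap_notMem _ hp, mul_zero, add_zero, sub_zero]

theorem L2D.gam_zero (h : L2D e V w g) {f f' : M → ℂ} (hf : Sm e f) (hf' : Sm e f') {K : Set M}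
    [T2Space M] (hK : IsCompact K) (h0 : (∀ p ∉ K, f p = 0) ∨ ∀ p ∉ K, f' p = 0) :
    ∀ p ∉ K, gam e g f f' p = 0 := by
  intro p hp
  have h1 : ∀ᶠ q in 𝓝 p, q ∉ K := hK.isClosed.isOpen_compl.mem_nhds hp
  have hc0 : Sm e (fun _ : M => (0 : ℂ)) := Sm.const 0
  have z1 : ∀ f : M → ℂ, Sm e f → gam e g (fun _ => 0) f p = 0 := by
    intro f hf
    have := h.gam_mul_left hc0 hc0 hf p
    simpa using this
  rcases h0 with h0 | h0
  · rw [h.gam_congr hf hc0 hf' hf' (h1.mono fun q hq => h0 q hq) EventuallyEq.rfl]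
    exact z1 f' hf'
  · rw [h.gam_congr hf hf hf' hc0 EventuallyEq.rfl (h1.mono fun q hq => h0 q hq),
      ← h.gam_conj hc0 hf, z1 f hf, map_zero]

theorem L2D.Lap_zero (h : L2D e V w g) {f : M → ℂ} (hf : Sm e f) {K : Set M}
    [T2Space M] (hK : IsCompact K) (h0 : ∀ p ∉ K, f p = 0) :
    ∀ p ∉ K, Lap e w g f p = 0 := by
  intro p hp
  have h1 : ∀ᶠ q in 𝓝 p, q ∉ K := hK.isClosed.isOpen_compl.mem_nhds hp
  have hc0 : Sm e (fun _ : M => (0 : ℂ)) := Sm.const 0
  rw [h.Lap_congr hf hc0 (h1.mono fun q hq => h0 q hq)]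
  have h2 := h.Lap_mul hc0 hc0 p
  have h3 := h.gam_mul_left hc0 hc0 (f' := fun _ : M => (0 : ℂ)) hc0 p
  simp only [mul_zero, zero_mul, add_zero, map_zero] at h2 h3
  rw [h2, h3]
  simp

section

variable [MeasurableSpace M] [BorelSpace M] {μ : Measure M}

/-- **Green's formula** -/
theorem IsDens.green [T2Space M] (hμ : IsDens e w μ) (h : L2D e V w g) {f f' : M → ℂ}
    (hf : Sm e f) (hf' : Sm e f') {K : Set M} (hK : IsCompact K) (hKV : K ⊆ V)
    (h0 : (∀ p ∉ K, f p = 0) ∨ ∀ p ∉ K, f' p = 0) :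
    ∫ p, f p * (starRingEnd ℂ) (Lap e w g f' p) ∂μ = ∫ p, gam e g f f' p ∂μ := by
  have h1 := hμ.ibp h (h.Fld_grd hf') hf.conj hK hKV (h0.imp
    (fun h0 p hp => by rw [h0 p hp, map_zero]) fun h0 => grd_zero hK h0)
  have h2 : ∫ p, gam e g f f' p ∂μ =
      (starRingEnd ℂ) (∫ p, act e (grd e g f') (fun p => (starRingEnd ℂ) (f p)) p ∂μ) := by
    rw [← integral_conj]
    exact integral_congr_ae (Eventually.of_forall fun p => (h.gam_conj hf' hf p).symm)
  have h3 : ∫ p, f p * (starRingEnd ℂ) (Lap e w g f' p) ∂μ =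
      -(starRingEnd ℂ) (∫ p, (starRingEnd ℂ) (f p) * divg e w (grd e g f') p ∂μ) := by
    rw [← integral_conj, ← integral_neg]
    refine integral_congr_ae (Eventually.of_forall fun p => ?_)
    simp only [Lap, map_neg, map_mul, Complex.conj_conj]
    ring
  rw [h3, h1, h2, map_neg, neg_neg]

end

end Pool.Agent.KRFQ

end

section

/-!
# The Hilbert space step: an element which is bounded on a subspace is close to its orthogonal
complement
-/

open scoped Topology
open Filter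

namespace Pool.Agent.KRFQ

/-- If `⟪x, s⟫` is bounded by `c ‖s‖` on the subspace `S`, then `x` is at distance at most `c` of the
orthogonal complement of `S`; the difference is in the closure of `S`. -/
theorem exists_mem_orthogonal {E : Type*} [NormedAddCommGroup E] [InnerProductSpace ℂ E]
    [CompleteSpace E] (S : Submodule ℂ E) (x : E) {c : ℝ}
    (hc : 0 ≤ c) (h : ∀ s ∈ S, ‖inner ℂ x s‖ ≤ c * ‖s‖) :
    ∃ a ∈ Sᗮ, x - a ∈ S.topologicalClosure ∧ ‖x - a‖ ≤ c := by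
  have hK : ∀ s ∈ S.topologicalClosure, ‖inner ℂ x s‖ ≤ c * ‖s‖ := by
    intro s hs
    have hcl : IsClosed {s : E | ‖inner ℂ x s‖ ≤ c * ‖s‖} :=
      isClosed_le (by fun_prop) (by fun_prop)
    exact closure_minimal (fun s hs => h s hs) hcl hs
  have hcomp : CompleteSpace S.topologicalClosure :=
    S.isClosed_topologicalClosure.completeSpace_coe
  set p : E := S.topologicalClosure.starProjection x with hp
  have hpm : p ∈ S.topologicalClosure := Submodule.starProjection_apply_mem _ x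
  have ho : x - p ∈ (S.topologicalClosure)ᗮ := Submodule.sub_starProjection_mem_orthogonal x
  have hx : x - (x - p) = p := by abel
  refine ⟨x - p, ?_, ?_, ?_⟩
  · rwa [Submodule.orthogonal_closure] at ho
  · rwa [hx]
  · rw [hx]
    have h1 : inner ℂ x p = inner ℂ p p := by
      have h2 : inner ℂ (x - p) p = 0 := (Submodule.mem_orthogonal' _ _).1 ho p hpm
      rw [inner_sub_left, sub_eq_zero] at h2
      exact h2
    have h3 := hK p hpm
    rw [h1, inner_self_eq_norm_sq_to_K] at h3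
    have h4 : ‖(((‖p‖ : ℝ) : ℂ)) ^ 2‖ = ‖p‖ * ‖p‖ := by
      rw [norm_pow, Complex.norm_real, norm_norm, sq]
    have h5 : ‖p‖ * ‖p‖ ≤ c * ‖p‖ := by
      rw [← h4]
      exact h3
    rcases (norm_nonneg p).eq_or_lt with h6 | h6
    · rwa [← h6]
    · exact le_of_mul_le_mul_right h5 h6

end Pool.Agent.KRFQ

end

section

/-!
# Test functions; the pairing of a smooth function with the Laplacians of test functions
-/

open scoped ContDiff Topology ComplexOrder Matrix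
open Set MeasureTheory Filter Pool.Agent.ToricKRF Pool.Agent.ToricKRF.G Pool.Agent.KRFS

namespace Pool.Agent.KRFQ

variable {M : Type} [TopologicalSpace M] {n : ℕ} {κ : Type}
  {e : κ → OpenPartialHomeomorph M (Cn n)} {V : Set M} {w g : κ → Cn n → ℝ}

/-- Smooth functions with compact support in `V`. -/
def Test (e : κ → OpenPartialHomeomorph M (Cn n)) (V : Set M) (f : M → ℂ) : Prop :=
  Sm e f ∧ ∃ K : Set M, IsCompact K ∧ K ⊆ V ∧ ∀ p ∉ K, f p = 0

theorem Test.zero : Test e V fun _ => 0 :=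
  ⟨Sm.const 0, ∅, isCompact_empty, empty_subset _, fun _ _ => rfl⟩

theorem Test.add {f₁ f₂ : M → ℂ} (h₁ : Test e V f₁) (h₂ : Test e V f₂) :
    Test e V fun p => f₁ p + f₂ p := by
  obtain ⟨s₁, K₁, hK₁, hV₁, z₁⟩ := h₁
  obtain ⟨s₂, K₂, hK₂, hV₂, z₂⟩ := h₂
  refine ⟨s₁.add s₂, K₁ ∪ K₂, hK₁.union hK₂, union_subset hV₁ hV₂, fun p hp => ?_⟩
  change f₁ p + f₂ p = 0
  rw [z₁ p fun hm => hp (Or.inl hm), z₂ p fun hm => hp (Or.inr hm), add_zero]

theorem Test.smul {f : M → ℂ} (h : Test e V f) (a : ℂ) : Test e V fun p => a * f p := by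
  obtain ⟨s, K, hK, hV, z⟩ := h
  refine ⟨(Sm.const a).mul s, K, hK, hV, fun p hp => ?_⟩
  change a * f p = 0
  rw [z p hp, mul_zero]

theorem gradv_add' {G : Cn n → ℝ} {f₁ f₂ : Cn n → ℂ} {z : Cn n} (h₁ : DifferentiableAt ℝ f₁ z)
    (h₂ : DifferentiableAt ℝ f₂ z) (j : Fin n) :
    gradv G (fun x => f₁ x + f₂ x) z j = gradv G f₁ z j + gradv G f₂ z j := by
  simp only [gradv, dzb_add h₁ h₂, mul_add, Finset.sum_add_distrib]

theorem gradv_smul {G : Cn n → ℝ} {f : Cn n → ℂ} {z : Cn n} (hf : DifferentiableAt ℝ f z)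
    (a : ℂ) (j : Fin n) : gradv G (fun x => a * f x) z j = a * gradv G f z j := by
  simp only [gradv]
  rw [Finset.mul_sum]
  refine Finset.sum_congr rfl fun k _ => ?_
  rw [dzb_mul (differentiableAt_const a) hf, dzb_const]
  ring

theorem L2D.Lap_of_notMem (h : L2D e V w g) {f : M → ℂ} {p : M} (hp : p ∉ V) :
    Lap e w g f p = 0 := by
  rw [Lap, divg, h.notMem hp, neg_zero]

theorem L2D.Lap_eq (h : L2D e V w g) {f : M → ℂ} (hf : Sm e f) {p : M} {c : κ}
    (hc : p ∈ (e c).source) : Lap e w g f p = -∑ j, (dz j (fun x => grd e g f c x j) (e c p) -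
      dz j (nlog (w c)) (e c p) * grd e g f c (e c p) j) := by
  have hz := (e c).map_source hc
  have e1 := h.pb_divg (h.Fld_grd hf) hz
  rw [pb, (e c).left_inv hc] at e1
  rw [Lap, e1, dv_eq (e c).open_target (h.w_smooth c) (h.w_pos c) ((h.Fld_grd hf).smooth c) hz]

theorem L2D.Lap_add (h : L2D e V w g) {f₁ f₂ : M → ℂ} (h₁ : Sm e f₁) (h₂ : Sm e f₂) (p : M) :
    Lap e w g (fun p => f₁ p + f₂ p) p = Lap e w g f₁ p + Lap e w g f₂ p := by
  by_cases hp : p ∈ V
  · obtain ⟨c, hc⟩ := h.cover p hp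
    have hz := (e c).map_source hc
    have hU := (e c).open_target
    have e1 : ∀ j, ∀ x ∈ (e c).target, grd e g (fun p => f₁ p + f₂ p) c x j =
        grd e g f₁ c x j + grd e g f₂ c x j := fun j x hx =>
      gradv_add' (diffAtC hU (h₁ c) hx) (diffAtC hU (h₂ c) hx) j
    rw [h.Lap_eq (h₁.add h₂) hc, h.Lap_eq h₁ hc, h.Lap_eq h₂ hc, ← neg_add,
      ← Finset.sum_add_distrib]
    congr 1
    refine Finset.sum_congr rfl fun j _ => ?_
    have e2 : (fun x => grd e g (fun p => f₁ p + f₂ p) c x j) =ᶠ[𝓝 (e c p)]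
        fun x => grd e g f₁ c x j + grd e g f₂ c x j := by
      filter_upwards [hU.mem_nhds hz] with x hx using e1 j x hx
    rw [dz_congr e2, dz_add (diffAtC hU ((h.Fld_grd h₁).smooth c j) hz)
      (diffAtC hU ((h.Fld_grd h₂).smooth c j) hz), e1 j _ hz]
    ring
  · rw [h.Lap_of_notMem hp, h.Lap_of_notMem hp, h.Lap_of_notMem hp, add_zero]

theorem L2D.Lap_smul (h : L2D e V w g) {f : M → ℂ} (hf : Sm e f) (a : ℂ) (p : M) :
    Lap e w g (fun p => a * f p) p = a * Lap e w g f p := by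
  by_cases hp : p ∈ V
  · obtain ⟨c, hc⟩ := h.cover p hp
    have hz := (e c).map_source hc
    have hU := (e c).open_target
    have e1 : ∀ j, ∀ x ∈ (e c).target, grd e g (fun p => a * f p) c x j =
        a * grd e g f c x j := fun j x hx => gradv_smul (diffAtC hU (hf c) hx) a j
    rw [h.Lap_eq ((Sm.const a).mul hf) hc, h.Lap_eq hf hc, mul_neg, Finset.mul_sum]
    congr 1
    refine Finset.sum_congr rfl fun j _ => ?_
    have e2 : (fun x => grd e g (fun p => a * f p) c x j) =ᶠ[𝓝 (e c p)]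
        fun x => a * grd e g f c x j := by
      filter_upwards [hU.mem_nhds hz] with x hx using e1 j x hx
    rw [dz_congr e2, dz_mul (differentiableAt_const a)
      (diffAtC hU ((h.Fld_grd hf).smooth c j) hz), e1 j _ hz, dz_const]
    ring
  · rw [h.Lap_of_notMem hp, h.Lap_of_notMem hp, mul_zero]

section

variable [MeasurableSpace M] [BorelSpace M] [T2Space M] {μ : Measure M}

omit [MeasurableSpace M] [BorelSpace M] in
theorem L2D.Lap_zero' (h : L2D e V w g) {f : M → ℂ} (hf : Sm e f) {K : Set M}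
    (hK : IsCompact K) (h0 : ∀ p ∉ K, f p = 0) : ∀ p ∉ K, Lap e w g f p = 0 := by
  intro p hp
  rw [Lap, h.divg_zero (h.Fld_grd hf) (grd_zero (g := g) hK h0) p hp, neg_zero]

theorem IsDens.memLp_test (hμ : IsDens e w μ) (h : L2D e V w g) {F : M → ℂ} (hF : Test e V F) :
    MemLp F 2 μ := by
  obtain ⟨s, K, hK, hKV, z⟩ := hF
  have hc : Continuous F := Sm.continuous (V := V) h.cover s
    ((tsupport_sub_of_compact hK z).trans hKV)
  rw [memLp_two_iff_integrable_sq_norm hc.aestronglyMeasurable]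
  have h1 : Integrable (fun p => F p * (starRingEnd ℂ) (F p)) μ := by
    refine hμ.integrable h hK hKV ?_ fun p hp => by rw [z p hp, zero_mul]
    exact hc.mul (Complex.continuous_conj.comp hc)
  refine h1.re.congr (Eventually.of_forall fun p => ?_)
  simp only [RCLike.re_to_complex]
  rw [Complex.mul_conj, Complex.ofReal_re, Complex.normSq_eq_norm_sq]

omit [MeasurableSpace M] [BorelSpace M] in
theorem L2D.Test_Lap (h : L2D e V w g) {f : M → ℂ} (hf : Test e V f) :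
    Test e V (Lap e w g f) := by
  obtain ⟨s, K, hK, hKV, z⟩ := hf
  exact ⟨h.Sm_Lap s, K, hK, hKV, h.Lap_zero' s hK z⟩

/-- The pairing of `χ` with `Lap f`. -/
theorem IsDens.pair_le (hμ : IsDens e w μ) (h : L2D e V w g)
    (hpos : ∀ c, ∀ z ∈ (e c).target, ∀ u, 0 ≤ levz (fun x => -Real.log (w c x)) u z)
    {χ : M → ℂ} (hχ : Sm e χ) {B : M → ℝ} (hB0 : ∀ p, 0 ≤ B p) (hBi : Integrable B μ)
    (hB : ∀ c, ∀ z ∈ (e c).target, ∀ u : Cn n,
      ‖∑ j, dzb j (pb e c χ) z * (starRingEnd ℂ) (cc u j)‖ ^ 2 ≤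
        B ((e c).symm z) * levz (fun x => -Real.log (w c x)) u z)
    {f : M → ℂ} (hf : Test e V f) :
    ‖∫ p, (starRingEnd ℂ) (χ p) * Lap e w g f p ∂μ‖ ≤
      √(∫ p, B p ∂μ) * √(∫ p, ‖Lap e w g f p‖ ^ 2 ∂μ) := by
  obtain ⟨s, K, hK, hKV, z⟩ := hf
  have hW := h.Fld_grd s
  have hX0 : ∀ c, ∀ z ∈ (e c).target, (e c).symm z ∉ K → grd e g f c =ᶠ[𝓝 z] fun _ => 0 :=
    fun c => grd_zero (g := g) hK z c
  have e1 : ∫ p, (starRingEnd ℂ) (χ p) * Lap e w g f p ∂μ =
      ∫ p, act e (grd e g f) (fun p => (starRingEnd ℂ) (χ p)) p ∂μ := by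
    have h1 := hμ.ibp h hW hχ.conj hK hKV (Or.inr hX0)
    have h2 : ∀ p, (starRingEnd ℂ) (χ p) * Lap e w g f p =
        -((starRingEnd ℂ) (χ p) * divg e w (grd e g f) p) := by
      intro p
      rw [Lap]
      ring
    simp only [h2]
    rw [integral_neg, h1, neg_neg]
  have key : ∀ p, ‖act e (grd e g f) (fun p => (starRingEnd ℂ) (χ p)) p‖ ^ 2 ≤
      B p * (Phi e w g f p).re ∧ 0 ≤ (Phi e w g f p).re := by
    intro p
    by_cases hp : p ∈ V
    · obtain ⟨c, hc⟩ := h.cover p hp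
      have hz := (e c).map_source hc
      have e2 := h.pb_act hW hχ.conj hz
      have e3 := h.pb_Phi s hz
      rw [pb, (e c).left_inv hc] at e2 e3
      rw [e2, e3, Complex.ofReal_re]
      refine ⟨?_, hpos c _ hz _⟩
      have h3 := hB c _ hz (ofv (grd e g f c (e c p)))
      rw [(e c).left_inv hc] at h3
      refine le_trans (le_of_eq ?_) h3
      congr 1
      rw [← RCLike.norm_conj, map_sum]
      congr 1
      refine Finset.sum_congr rfl fun j _ => ?_
      have h4 : pb e c (fun p => (starRingEnd ℂ) (χ p)) =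
          fun x => (starRingEnd ℂ) (pb e c χ x) := rfl
      rw [cc_ofv, map_mul, h4, dz_conj (diffAtC (e c).open_target (hχ c) hz),
        Complex.conj_conj]
      ring
    · rw [act, h.notMem hp, Phi, h.notMem hp]
      simp
  have zP := h.Phi_zero s hK z
  have iP : Integrable (Phi e w g f) μ := hμ.integrable h hK hKV (Sm.continuous (V := V)
    h.cover (h.Sm_Phi s) ((tsupport_sub_of_compact hK zP).trans hKV)) zP
  have iP' : Integrable (fun p => (Phi e w g f p).re) μ := iP.re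
  have m1 : MemLp (fun p => √(B p)) 2 μ := by
    rw [memLp_two_iff_integrable_sq
      (Real.continuous_sqrt.comp_aestronglyMeasurable hBi.aestronglyMeasurable)]
    exact hBi.congr (Eventually.of_forall fun p => (Real.sq_sqrt (hB0 p)).symm)
  have m2 : MemLp (fun p => √(Phi e w g f p).re) 2 μ := by
    rw [memLp_two_iff_integrable_sq
      (Real.continuous_sqrt.comp_aestronglyMeasurable iP'.aestronglyMeasurable)]
    exact iP'.congr (Eventually.of_forall fun p => (Real.sq_sqrt (key p).2).symm)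
  have h5 : ∫ p, √(B p) * √(Phi e w g f p).re ∂μ ≤
      √(∫ p, B p ∂μ) * √(∫ p, (Phi e w g f p).re ∂μ) := by
    have h6 := integral_mul_le_Lp_mul_Lq_of_nonneg (μ := μ) (p := 2) (q := 2)
      Real.HolderConjugate.two_two (Eventually.of_forall fun p => Real.sqrt_nonneg (B p))
      (Eventually.of_forall fun p => Real.sqrt_nonneg (Phi e w g f p).re)
      (by simpa using m1) (by simpa using m2)
    have e7 : ∀ p, √(B p) ^ (2 : ℝ) = B p := fun p => by
      rw [Real.rpow_two, Real.sq_sqrt (hB0 p)]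
    have e8 : ∀ p, √(Phi e w g f p).re ^ (2 : ℝ) = (Phi e w g f p).re := fun p => by
      rw [Real.rpow_two, Real.sq_sqrt (key p).2]
    simp only [e7, e8] at h6
    rwa [← Real.sqrt_eq_rpow, ← Real.sqrt_eq_rpow] at h6
  have h6 : ∫ p, ‖act e (grd e g f) (fun p => (starRingEnd ℂ) (χ p)) p‖ ∂μ ≤
      ∫ p, √(B p) * √(Phi e w g f p).re ∂μ := by
    refine integral_mono_of_nonneg (Eventually.of_forall fun p => norm_nonneg _)
      (m1.integrable_mul m2) (Eventually.of_forall fun p => ?_)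
    change ‖act e (grd e g f) (fun p => (starRingEnd ℂ) (χ p)) p‖ ≤
      √(B p) * √(Phi e w g f p).re
    rw [← Real.sqrt_mul (hB0 p)]
    exact Real.le_sqrt_of_sq_le (key p).1
  rw [e1]
  calc ‖∫ p, act e (grd e g f) (fun p => (starRingEnd ℂ) (χ p)) p ∂μ‖
      ≤ ∫ p, ‖act e (grd e g f) (fun p => (starRingEnd ℂ) (χ p)) p‖ ∂μ :=
        norm_integral_le_integral_norm _
    _ ≤ √(∫ p, B p ∂μ) * √(∫ p, (Phi e w g f p).re ∂μ) := h6.trans h5
    _ ≤ √(∫ p, B p ∂μ) * √(∫ p, ‖Lap e w g f p‖ ^ 2 ∂μ) :=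
        mul_le_mul_of_nonneg_left (Real.sqrt_le_sqrt (hμ.bochner h s hK hKV z))
          (Real.sqrt_nonneg _)

end

end Pool.Agent.KRFQ

end

section

/-!
# Theorem G: Hörmander's theorem, from the regularity of the weakly harmonic functions
-/

open scoped ContDiff Topology ComplexOrder Matrix
open Set MeasureTheory Filter Pool.Agent.ToricKRF Pool.Agent.ToricKRF.G Pool.Agent.KRFS

namespace Pool.Agent.KRFQ

variable {M : Type} [TopologicalSpace M] {n : ℕ} {κ : Type}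
  {e : κ → OpenPartialHomeomorph M (Cn n)} {V : Set M} {w g : κ → Cn n → ℝ}
  [MeasurableSpace M] [BorelSpace M] [T2Space M] {μ : Measure M}

omit [TopologicalSpace M] [BorelSpace M] [T2Space M] in
theorem Lp_norm_sq (F : Lp ℂ 2 μ) : ‖F‖ ^ 2 = ∫ p, ‖F p‖ ^ 2 ∂μ := by
  have h1 : inner ℂ F F = ((‖F‖ : ℝ) : ℂ) ^ 2 := inner_self_eq_norm_sq_to_K F
  rw [L2.inner_def] at h1
  have h2 : ∀ p, inner ℂ (F p) (F p) = ((‖F p‖ ^ 2 : ℝ) : ℂ) := by
    intro p
    rw [inner_self_eq_norm_sq_to_K (𝕜 := ℂ)]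
    push_cast
    rfl
  simp only [h2] at h1
  rw [integral_complex_ofReal] at h1
  exact_mod_cast h1.symm

/-- The space of the Laplacians of the test functions in `L^2`. -/
noncomputable def lapSub (h : L2D e V w g) (μ : Measure M) : Submodule ℂ (Lp ℂ 2 μ) where
  carrier := {F | ∃ f, Test e V f ∧ F =ᵐ[μ] Lap e w g f}
  add_mem' := by
    rintro F₁ F₂ ⟨f₁, h₁, e₁⟩ ⟨f₂, h₂, e₂⟩
    refine ⟨_, h₁.add h₂, ?_⟩
    filter_upwards [Lp.coeFn_add F₁ F₂, e₁, e₂] with p hp hp₁ hp₂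
    rw [hp, Pi.add_apply, hp₁, hp₂, h.Lap_add h₁.1 h₂.1]
  zero_mem' := by
    refine ⟨_, Test.zero, ?_⟩
    filter_upwards [Lp.coeFn_zero ℂ 2 μ] with p hp
    rw [hp]
    have h1 := h.Lap_smul (f := fun _ => (0 : ℂ)) (Sm.const 0) 0 p
    simp only [zero_mul] at h1
    rw [h1]
    rfl
  smul_mem' := by
    rintro a F ⟨f, h₁, e₁⟩
    refine ⟨_, h₁.smul a, ?_⟩
    filter_upwards [Lp.coeFn_smul a F, e₁] with p hp hp₁
    rw [hp, Pi.smul_apply, hp₁, h.Lap_smul h₁.1, smul_eq_mul]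

/-- **The Hilbert space step of Theorem G.** -/
theorem IsDens.exists_orth (hμ : IsDens e w μ) (h : L2D e V w g)
    (hpos : ∀ c, ∀ z ∈ (e c).target, ∀ u, 0 ≤ levz (fun x => -Real.log (w c x)) u z)
    {χ : M → ℂ} (hχ : Sm e χ) (hχ2 : MemLp χ 2 μ) {B : M → ℝ} (hB0 : ∀ p, 0 ≤ B p)
    (hBi : Integrable B μ)
    (hB : ∀ c, ∀ z ∈ (e c).target, ∀ u : Cn n,
      ‖∑ j, dzb j (pb e c χ) z * (starRingEnd ℂ) (cc u j)‖ ^ 2 ≤
        B ((e c).symm z) * levz (fun x => -Real.log (w c x)) u z) :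
    ∃ a : M → ℂ, StronglyMeasurable a ∧ MemLp a 2 μ ∧
      (∀ f, Test e V f → ∫ p, a p * (starRingEnd ℂ) (Lap e w g f p) ∂μ = 0) ∧
      ∫ p, ‖χ p - a p‖ ^ 2 ∂μ ≤ ∫ p, B p ∂μ := by
  set X : Lp ℂ 2 μ := hχ2.toLp χ with hX
  have hXe : X =ᵐ[μ] χ := hχ2.coeFn_toLp
  obtain ⟨a, ha, -, hle⟩ := exists_mem_orthogonal (lapSub h μ) X
    (c := √(∫ p, B p ∂μ)) (Real.sqrt_nonneg _) (by
      rintro F ⟨f, hf, he⟩
      have h1 : inner ℂ X F = ∫ p, (starRingEnd ℂ) (χ p) * Lap e w g f p ∂μ := by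
        rw [L2.inner_def]
        refine integral_congr_ae ?_
        filter_upwards [hXe, he] with p hp hp'
        rw [hp, hp', RCLike.inner_apply]
        ring
      have h2 : ‖F‖ = √(∫ p, ‖Lap e w g f p‖ ^ 2 ∂μ) := by
        rw [← Real.sqrt_sq (norm_nonneg F), Lp_norm_sq]
        congr 1
        refine integral_congr_ae ?_
        filter_upwards [he] with p hp
        rw [hp]
      rw [h1, h2]
      exact hμ.pair_le h hpos hχ hB0 hBi hB hf)
  refine ⟨a, Lp.stronglyMeasurable a, Lp.memLp a, fun f hf => ?_, ?_⟩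
  · have hm : MemLp (Lap e w g f) 2 μ := hμ.memLp_test h (h.Test_Lap hf)
    have h1 : hm.toLp (Lap e w g f) ∈ lapSub h μ := ⟨f, hf, hm.coeFn_toLp⟩
    have h2 := (Submodule.mem_orthogonal _ _).1 ha _ h1
    rw [L2.inner_def] at h2
    rw [← h2]
    refine integral_congr_ae ?_
    filter_upwards [hm.coeFn_toLp] with p hp
    rw [hp, RCLike.inner_apply]
  · have h1 : ∫ p, ‖χ p - a p‖ ^ 2 ∂μ = ‖X - a‖ ^ 2 := by
      rw [Lp_norm_sq]
      refine integral_congr_ae ?_
      filter_upwards [hXe, Lp.coeFn_sub X a] with p hp hp'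
      rw [hp', Pi.sub_apply, hp]
    have h2 : 0 ≤ ∫ p, B p ∂μ := integral_nonneg hB0
    rw [h1, ← Real.sq_sqrt h2]
    exact pow_le_pow_left₀ (norm_nonneg _) hle 2

/-- **Theorem G**, from the regularity theorem `hwk` and the holomorphic representatives `hrep`. -/
theorem IsDens.hormander_of (hμ : IsDens e w μ) (h : L2D e V w g)
    (hwk : ∀ u : M → ℂ, MemLp u 2 μ →
      (∀ f, Test e V f → ∫ p, u p * (starRingEnd ℂ) (Lap e w g f p) ∂μ = 0) →
      ∀ c k, ∀ φ : Cn n → ℂ, ContDiff ℝ ∞ φ → HasCompactSupport φ → tsupport φ ⊆ (e c).target →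
        ∫ z in (e c).target, pb e c u z * dzb k φ z = 0)
    (hrep : ∀ a : M → ℂ, StronglyMeasurable a → MemLp a 2 μ →
      (∀ c k, ∀ φ : Cn n → ℂ, ContDiff ℝ ∞ φ → HasCompactSupport φ → tsupport φ ⊆ (e c).target →
        ∫ z in (e c).target, pb e c a z * dzb k φ z = 0) →
      ∃ b : M → ℂ, (∀ c, ContDiffOn ℝ ∞ (pb e c b) (e c).target ∧
        ∀ k, ∀ z ∈ (e c).target, dzb k (pb e c b) z = 0) ∧ a =ᵐ[μ] b)
    {k : κ → Cn n → ℝ} {c₀ : ℝ} (hc₀ : 0 < c₀)
    (hk0 : ∀ c, ∀ z ∈ (e c).target, ∀ u, 0 ≤ levz (k c) u z)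
    (curv : ∀ c, ∀ z ∈ (e c).target, ∀ u,
      c₀ * levz (k c) u z ≤ levz (fun x => -Real.log (w c x)) u z)
    {χ : M → ℂ} (hχ : Sm e χ) (hχ2 : MemLp χ 2 μ) {B : M → ℝ} (hB0 : ∀ p, 0 ≤ B p)
    (hBi : Integrable B μ)
    (hB : ∀ c, ∀ z ∈ (e c).target, ∀ u : Cn n,
      ‖∑ j, dzb j (pb e c χ) z * (starRingEnd ℂ) (cc u j)‖ ^ 2 ≤
        B ((e c).symm z) * levz (k c) u z) :
    ∃ b : M → ℂ, (∀ c, ContDiffOn ℝ ∞ (pb e c b) (e c).target ∧
        ∀ k, ∀ z ∈ (e c).target, dzb k (pb e c b) z = 0) ∧ MemLp b 2 μ ∧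
      ∫ p, ‖χ p - b p‖ ^ 2 ∂μ ≤ c₀⁻¹ * ∫ p, B p ∂μ := by
  have hpos : ∀ c, ∀ z ∈ (e c).target, ∀ u, 0 ≤ levz (fun x => -Real.log (w c x)) u z :=
    fun c z hz u => (mul_nonneg hc₀.le (hk0 c z hz u)).trans (curv c z hz u)
  obtain ⟨a, ham, ha2, horth, hle⟩ := hμ.exists_orth h hpos hχ hχ2 (B := fun p => c₀⁻¹ * B p)
    (fun p => mul_nonneg (inv_nonneg.2 hc₀.le) (hB0 p)) (hBi.const_mul _) (by
      intro c z hz u
      refine (hB c z hz u).trans ?_
      rw [mul_assoc, mul_left_comm]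
      refine mul_le_mul_of_nonneg_left ?_ (hB0 _)
      rw [le_inv_mul_iff₀ hc₀]
      exact curv c z hz u)
  obtain ⟨b, hb, hab⟩ := hrep a ham ha2 (hwk a ha2 horth)
  refine ⟨b, hb, ha2.ae_eq hab, ?_⟩
  rw [← integral_const_mul]
  refine le_trans (le_of_eq ?_) hle
  refine integral_congr_ae ?_
  filter_upwards [hab] with p hp
  rw [hp]

end Pool.Agent.KRFQ

end
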