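import Pool.Agent.Work.MP_a2bf38_gt.Fu.Q.Wirt

section

/-!
# Mollification on `ℂ^n`
-/

open scoped ContDiff Topology ENNReal Convolution
open Set MeasureTheory Filter Pool.Agent.ToricKRF Pool.Agent.ToricKRF.G

namespace Pool.Agent.KRFQ

variable {n : ℕ}

/-- A mollifier on `ℂ^n`. -/
structure IsMoll (j : Cn n → ℝ) : Prop where
  smooth : ContDiff ℝ ∞ j
  nonneg : ∀ x, 0 ≤ j x
  supp : ∀ x, 1 ≤ ‖x‖ → j x = 0
  int : ∫ x, j x = 1
  even : ∀ x, j (-x) = j x

/-- The scaled mollifier. -/
noncomputable def scl (j : Cn n → ℝ) (ε : ℝ) (x : Cn n) : ℝ := (ε ^ (2 * n))⁻¹ * j (ε⁻¹ • x)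

/-- The mollification of `u`. -/
noncomputable def mol (j : Cn n → ℝ) (ε : ℝ) (u : Cn n → ℂ) (x : Cn n) : ℂ :=
  ∫ y, (scl j ε (x - y) : ℂ) * u y

theorem haar_vol (n : ℕ) : (volume : Measure (Cn n)).IsAddHaarMeasure :=
  Measure.prod.instIsAddHaarMeasure _ _

theorem reg_vol (n : ℕ) : (volume : Measure (Cn n)).Regular := by
  have := haar_vol n
  exact Measure.Regular.of_sigmaCompactSpace_of_isLocallyFiniteMeasure _

theorem neg_vol (n : ℕ) : (volume : Measure (Cn n)).IsNegInvariant := by
  have := haar_vol n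
  have := reg_vol n
  exact Measure.IsAddHaarMeasure.isNegInvariant_of_regular _

theorem finrank_Cn (n : ℕ) : Module.finrank ℝ (Cn n) = 2 * n := by
  rw [show Module.finrank ℝ (Cn n) = Module.finrank ℝ ((Fin n → ℝ) × (Fin n → ℝ)) from rfl,
    Module.finrank_prod]
  simp
  ring

theorem exists_moll (n : ℕ) : ∃ j : Cn n → ℝ, IsMoll j := by
  have := haar_vol n
  let f : ContDiffBump (0 : Cn n) := ⟨1 / 2, 1, by norm_num, by norm_num⟩
  refine ⟨f.normed volume, f.contDiff_normed, fun x => f.nonneg_normed x, fun x hx => ?_,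
    f.integral_normed, fun x => ?_⟩
  · have h : f x = 0 := f.zero_of_le_dist (by simpa [dist_zero_right] using hx)
    simp [ContDiffBump.normed, h]
  · exact f.normed_neg x

theorem IsMoll.compact {j : Cn n → ℝ} (hj : IsMoll j) : HasCompactSupport j := by
  refine HasCompactSupport.intro (isCompact_closedBall (0 : Cn n) 1) fun x hx => hj.supp x ?_
  simp only [Metric.mem_closedBall, dist_zero_right, not_le] at hx
  exact hx.le

theorem scl_smooth {j : Cn n → ℝ} (hj : IsMoll j) (ε : ℝ) : ContDiff ℝ ∞ (scl j ε) :=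
  contDiff_const.mul (hj.smooth.comp (contDiff_const_smul ε⁻¹))

theorem scl_nonneg {j : Cn n → ℝ} (hj : IsMoll j) {ε : ℝ} (hε : 0 < ε) (x : Cn n) :
    0 ≤ scl j ε x := mul_nonneg (by positivity) (hj.nonneg _)

theorem scl_supp {j : Cn n → ℝ} (hj : IsMoll j) {ε : ℝ} (hε : 0 < ε) {x : Cn n} (hx : ε ≤ ‖x‖) :
    scl j ε x = 0 := by
  rw [scl, hj.supp, mul_zero]
  rw [norm_smul, norm_inv, Real.norm_eq_abs, abs_of_pos hε, inv_mul_eq_div]
  exact (one_le_div hε).2 hx

theorem scl_compact {j : Cn n → ℝ} (hj : IsMoll j) {ε : ℝ} (hε : 0 < ε) :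
    HasCompactSupport (scl j ε) := by
  refine HasCompactSupport.intro (isCompact_closedBall (0 : Cn n) ε) fun x hx =>
    scl_supp hj hε ?_
  simp only [Metric.mem_closedBall, dist_zero_right, not_le] at hx
  exact hx.le

theorem scl_even {j : Cn n → ℝ} (hj : IsMoll j) (ε : ℝ) (x : Cn n) : scl j ε (-x) = scl j ε x := by
  rw [scl, scl, smul_neg, hj.even]

theorem scl_int {j : Cn n → ℝ} (hj : IsMoll j) {ε : ℝ} (hε : 0 < ε) : ∫ x, scl j ε x = 1 := by
  have := haar_vol n
  simp only [scl]
  rw [integral_const_mul, Measure.integral_comp_smul volume j ε⁻¹, finrank_Cn, hj.int]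
  have h : (0 : ℝ) < ε ^ (2 * n) := by positivity
  rw [inv_pow, inv_inv, abs_of_pos h, smul_eq_mul, mul_one, inv_mul_cancel₀ h.ne']

/-- mollification is a convolution -/
theorem mol_eq_conv (j : Cn n → ℝ) (ε : ℝ) (u : Cn n → ℂ) :
    mol j ε u = convolution u (scl j ε) (ContinuousLinearMap.lsmul ℝ ℝ : ℝ →L[ℝ] ℂ →L[ℝ] ℂ).flip
      volume := by
  funext x
  simp only [mol, convolution_def, ContinuousLinearMap.flip_apply, ContinuousLinearMap.lsmul_apply,
    Complex.real_smul]

theorem mol_contDiff {j : Cn n → ℝ} (hj : IsMoll j) {ε : ℝ} (hε : 0 < ε) {u : Cn n → ℂ}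
    (hu : LocallyIntegrable u volume) : ContDiff ℝ ∞ (mol j ε u) := by
  have := haar_vol n
  rw [mol_eq_conv]
  exact (scl_compact hj hε).contDiff_convolution_right _ hu (scl_smooth hj ε)

theorem mol_eq_zero {j : Cn n → ℝ} (hj : IsMoll j) {ε : ℝ} (hε : 0 < ε) {u : Cn n → ℂ}
    {x : Cn n} (hu : ∀ y ∈ Metric.ball x ε, u y = 0) : mol j ε u x = 0 := by
  rw [mol]
  refine integral_eq_zero_of_ae (Eventually.of_forall fun y => ?_)
  by_cases hy : y ∈ Metric.ball x ε
  · simp [hu y hy]
  · have h : ε ≤ ‖x - y‖ := by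
      rw [Metric.mem_ball, not_lt, dist_comm, dist_eq_norm] at hy
      exact hy
    simp [scl_supp hj hε h]

theorem mol_congr {j : Cn n → ℝ} (hj : IsMoll j) {ε : ℝ} (hε : 0 < ε) {u v : Cn n → ℂ}
    {x : Cn n} (h : ∀ y ∈ Metric.ball x ε, u y = v y) : mol j ε u x = mol j ε v x := by
  rw [mol, mol]
  refine integral_congr_ae (Eventually.of_forall fun y => ?_)
  by_cases hy : y ∈ Metric.ball x ε
  · simp [h y hy]
  · have h : ε ≤ ‖x - y‖ := by
      rw [Metric.mem_ball, not_lt, dist_comm, dist_eq_norm] at hy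
      exact hy
    simp [scl_supp hj hε h]

theorem mol_compact {j : Cn n → ℝ} (hj : IsMoll j) {ε : ℝ} (hε : 0 < ε) {u : Cn n → ℂ}
    (hu : HasCompactSupport u) : HasCompactSupport (mol j ε u) := by
  rw [mol_eq_conv]
  exact HasCompactSupport.convolution _ hu (scl_compact hj hε)

/-- integrability of the kernel times a locally integrable function -/
theorem scl_mul_integrable {j : Cn n → ℝ} (hj : IsMoll j) {ε : ℝ} (hε : 0 < ε) {u : Cn n → ℂ}
    (hu : LocallyIntegrable u volume) (x : Cn n) :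
    Integrable (fun y => (scl j ε (x - y) : ℂ) * u y) volume := by
  have := haar_vol n
  have h := ((scl_compact hj hε).convolutionExists_right
    (ContinuousLinearMap.lsmul ℝ ℝ : ℝ →L[ℝ] ℂ →L[ℝ] ℂ).flip hu
    (scl_smooth hj ε).continuous) x
  simpa only [ConvolutionExistsAt, ContinuousLinearMap.flip_apply,
    ContinuousLinearMap.lsmul_apply, Complex.real_smul] using h

theorem mol_add {j : Cn n → ℝ} (hj : IsMoll j) {ε : ℝ} (hε : 0 < ε) {u v : Cn n → ℂ}
    (hu : LocallyIntegrable u volume) (hv : LocallyIntegrable v volume) (x : Cn n) :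
    mol j ε (fun y => u y + v y) x = mol j ε u x + mol j ε v x := by
  rw [mol, mol, mol, ← integral_add (scl_mul_integrable hj hε hu x)
    (scl_mul_integrable hj hε hv x)]
  exact integral_congr_ae (Eventually.of_forall fun y => by simp only; ring)

theorem mol_sub {j : Cn n → ℝ} (hj : IsMoll j) {ε : ℝ} (hε : 0 < ε) {u v : Cn n → ℂ}
    (hu : LocallyIntegrable u volume) (hv : LocallyIntegrable v volume) (x : Cn n) :
    mol j ε (fun y => u y - v y) x = mol j ε u x - mol j ε v x := by
  rw [mol, mol, mol, ← integral_sub (scl_mul_integrable hj hε hu x)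
    (scl_mul_integrable hj hε hv x)]
  exact integral_congr_ae (Eventually.of_forall fun y => by simp only; ring)

/-- the derivative of a mollification falls on the kernel -/
theorem fderiv_mol {j : Cn n → ℝ} (hj : IsMoll j) {ε : ℝ} (hε : 0 < ε) {u : Cn n → ℂ}
    (hu : LocallyIntegrable u volume) (x v : Cn n) :
    fderiv ℝ (mol j ε u) x v = ∫ y, (fderiv ℝ (scl j ε) (x - y) v : ℂ) * u y := by
  have := haar_vol n
  have h := (scl_compact hj hε).hasFDerivAt_convolution_right
    (ContinuousLinearMap.lsmul ℝ ℝ : ℝ →L[ℝ] ℂ →L[ℝ] ℂ).flip hu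
    ((scl_smooth hj ε).of_le (by norm_cast)) x
  rw [mol_eq_conv, h.fderiv]
  have hc : ConvolutionExistsAt u (fderiv ℝ (scl j ε)) x
      ((ContinuousLinearMap.lsmul ℝ ℝ : ℝ →L[ℝ] ℂ →L[ℝ] ℂ).flip.precompR (Cn n)) volume :=
    ((scl_compact hj hε).fderiv (𝕜 := ℝ)).convolutionExists_right _ hu
      ((scl_smooth hj ε).continuous_fderiv (by simp)) x
  rw [convolution_def, ContinuousLinearMap.integral_apply hc]
  refine integral_congr_ae (Eventually.of_forall fun y => ?_)
  simp [ContinuousLinearMap.precompR_apply]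

/-- the derivative of a mollification falls on the function -/
theorem fderiv_mol' {j : Cn n → ℝ} (hj : IsMoll j) {ε : ℝ} (hε : 0 < ε) {f : Cn n → ℂ}
    (hf : ContDiff ℝ 1 f) (hc : HasCompactSupport f) (x v : Cn n) :
    fderiv ℝ (mol j ε f) x v = mol j ε (fun y => fderiv ℝ f y v) x := by
  have := haar_vol n
  have := neg_vol n
  have hs : LocallyIntegrable (scl j ε) (volume : Measure (Cn n)) :=
    (scl_smooth hj ε).continuous.locallyIntegrable
  have h := hc.hasFDerivAt_convolution_left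
    (ContinuousLinearMap.lsmul ℝ ℝ : ℝ →L[ℝ] ℂ →L[ℝ] ℂ).flip hf hs x
  rw [mol_eq_conv, h.fderiv, mol_eq_conv]
  have hx : ConvolutionExistsAt (fderiv ℝ f) (scl j ε) x
      ((ContinuousLinearMap.lsmul ℝ ℝ : ℝ →L[ℝ] ℂ →L[ℝ] ℂ).flip.precompL (Cn n)) volume :=
    (hc.fderiv (𝕜 := ℝ)).convolutionExists_left _ (hf.continuous_fderiv (by simp)) hs x
  rw [convolution_def, ContinuousLinearMap.integral_apply hx, convolution_def]
  refine integral_congr_ae (Eventually.of_forall fun y => ?_)
  simp [ContinuousLinearMap.precompL_apply]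

theorem dz_mol {j : Cn n → ℝ} (hj : IsMoll j) {ε : ℝ} (hε : 0 < ε) {f : Cn n → ℂ}
    (hf : ContDiff ℝ 1 f) (hc : HasCompactSupport f) (k : Fin n) (x : Cn n) :
    dz k (mol j ε f) x = mol j ε (dz k f) x := by
  have hl : ∀ v : Cn n, LocallyIntegrable (fun y => fderiv ℝ f y v) volume := fun v =>
    ((hf.continuous_fderiv (by simp)).clm_apply continuous_const).locallyIntegrable
  rw [dz, fderiv_mol' hj hε hf hc, fderiv_mol' hj hε hf hc, mol, mol, mol, ← integral_const_mul,
    ← integral_sub (scl_mul_integrable hj hε (hl _) x)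
      ((scl_mul_integrable hj hε (hl _) x).const_mul _), ← integral_div]
  refine integral_congr_ae (Eventually.of_forall fun y => ?_)
  simp only [dz]
  ring

theorem dzb_mol {j : Cn n → ℝ} (hj : IsMoll j) {ε : ℝ} (hε : 0 < ε) {f : Cn n → ℂ}
    (hf : ContDiff ℝ 1 f) (hc : HasCompactSupport f) (k : Fin n) (x : Cn n) :
    dzb k (mol j ε f) x = mol j ε (dzb k f) x := by
  have hl : ∀ v : Cn n, LocallyIntegrable (fun y => fderiv ℝ f y v) volume := fun v =>
    ((hf.continuous_fderiv (by simp)).clm_apply continuous_const).locallyIntegrable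
  rw [dzb, fderiv_mol' hj hε hf hc, fderiv_mol' hj hε hf hc, mol, mol, mol, ← integral_const_mul,
    ← integral_add (scl_mul_integrable hj hε (hl _) x)
      ((scl_mul_integrable hj hε (hl _) x).const_mul _), ← integral_div]
  refine integral_congr_ae (Eventually.of_forall fun y => ?_)
  simp only [dzb]
  ring

end Pool.Agent.KRFQ

end

section

/-!
# Young's inequality, convergence of mollifications in `L²`, and the Friedrichs lemma
-/

open scoped ContDiff Topology ENNReal Convolution
open Set MeasureTheory Filter Pool.Agent.ToricKRF Pool.Agent.ToricKRF.G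

namespace Pool.Agent.KRFQ

variable {n : ℕ}

/-- Young's inequality `L¹ * L² → L²`. -/
theorem young {k u : Cn n → ℝ≥0∞} (hk : Measurable k) (hu : AEMeasurable u volume) :
    ∫⁻ x, (∫⁻ y, k (x - y) * u y) ^ 2 ≤ (∫⁻ x, k x) ^ 2 * ∫⁻ x, u x ^ 2 := by
  have := haar_vol n
  have := neg_vol n
  have h1 : ∀ x : Cn n, (∫⁻ y, k (x - y) * u y) ^ 2 ≤
      (∫⁻ y, k y) * ∫⁻ y, k (x - y) * u y ^ 2 := by
    intro x
    have hkx : AEMeasurable (fun y => k (x - y)) volume :=
      (hk.comp (measurable_const.sub measurable_id)).aemeasurable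
    have h := ENNReal.lintegral_mul_norm_pow_le (μ := (volume : Measure (Cn n))) hkx
      (hkx.mul (hu.pow_const 2)) (p := 1 / 2) (q := 1 / 2) (by norm_num) (by norm_num)
      (by norm_num)
    have e1 : ∀ y, k (x - y) ^ (1 / 2 : ℝ) * (k (x - y) * u y ^ 2) ^ (1 / 2 : ℝ) =
        k (x - y) * u y := by
      intro y
      rw [ENNReal.mul_rpow_of_nonneg _ _ (by norm_num : (0 : ℝ) ≤ 1 / 2), ← mul_assoc,
        ← ENNReal.rpow_add_of_nonneg _ _ (by norm_num) (by norm_num),
        ← ENNReal.rpow_natCast (u y) 2, ← ENNReal.rpow_mul]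
      norm_num
    simp only [Pi.mul_apply, e1] at h
    have e2 : (∫⁻ y, k (x - y)) = ∫⁻ y, k y := lintegral_sub_left_eq_self _ _
    calc (∫⁻ y, k (x - y) * u y) ^ 2
        ≤ ((∫⁻ y, k (x - y)) ^ (1 / 2 : ℝ) * (∫⁻ y, k (x - y) * u y ^ 2) ^ (1 / 2 : ℝ)) ^ 2 :=
          pow_le_pow_left' h 2
      _ = _ := by
          rw [mul_pow, ← ENNReal.rpow_natCast, ← ENNReal.rpow_natCast, ← ENNReal.rpow_mul,
            ← ENNReal.rpow_mul, e2]
          norm_num
  have hm : AEMeasurable (Function.uncurry fun x y : Cn n => k (x - y) * u y ^ 2)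
      (volume.prod volume) := by
    refine AEMeasurable.mul ?_ ?_
    · exact (hk.comp (measurable_fst.sub measurable_snd)).aemeasurable
    · exact (hu.pow_const 2).comp_snd
  calc ∫⁻ x, (∫⁻ y, k (x - y) * u y) ^ 2
      ≤ ∫⁻ x, (∫⁻ y, k y) * ∫⁻ y, k (x - y) * u y ^ 2 := lintegral_mono h1
    _ = (∫⁻ y, k y) * ∫⁻ x, ∫⁻ y, k (x - y) * u y ^ 2 := by
        have hm' : AEMeasurable (fun x : Cn n => ∫⁻ y, k (x - y) * u y ^ 2) volume :=
          hm.lintegral_prod_right'
        exact lintegral_const_mul'' _ hm'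
    _ = (∫⁻ y, k y) * ∫⁻ y, ∫⁻ x, k (x - y) * u y ^ 2 := by
        rw [lintegral_lintegral_swap hm]
    _ = (∫⁻ y, k y) * ∫⁻ y, (∫⁻ x, k x) * u y ^ 2 := by
        congr 1
        refine lintegral_congr fun y => ?_
        have hky : Measurable fun x : Cn n => k (x - y) :=
          hk.comp (measurable_id.sub measurable_const)
        rw [lintegral_mul_const _ hky, lintegral_sub_right_eq_self]
    _ = (∫⁻ x, k x) ^ 2 * ∫⁻ x, u x ^ 2 := by
        rw [lintegral_const_mul'' _ (hu.pow_const 2)]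
        ring

/-- `L²` norms as lower integrals -/
theorem eLpNorm_two (f : Cn n → ℂ) :
    eLpNorm f 2 volume = (∫⁻ x, ‖f x‖ₑ ^ 2) ^ (1 / 2 : ℝ) := by
  rw [eLpNorm_eq_lintegral_rpow_enorm_toReal (by norm_num) (by norm_num)]
  norm_num

/-- integral operators with a difference kernel -/
theorem young_op {k : Cn n → ℝ} (hk : Continuous k) {K : Cn n → Cn n → ℂ}
    (hK : ∀ x y, ‖K x y‖ ≤ k (x - y)) {u : Cn n → ℂ} (hu : AEStronglyMeasurable u volume) :
    eLpNorm (fun x => ∫ y, K x y * u y) 2 volume ≤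
      (∫⁻ x, ENNReal.ofReal (k x)) * eLpNorm u 2 volume := by
  rw [eLpNorm_two, eLpNorm_two]
  have h0 : Measurable fun x => ENNReal.ofReal (k x) := by fun_prop
  have h1 := young h0 hu.enorm
  have h2 : ∀ x, ‖∫ y, K x y * u y‖ₑ ≤ ∫⁻ y, ENNReal.ofReal (k (x - y)) * ‖u y‖ₑ := by
    intro x
    refine (enorm_integral_le_lintegral_enorm _).trans (lintegral_mono fun y => ?_)
    rw [enorm_mul]
    gcongr
    rw [← ofReal_norm]
    exact ENNReal.ofReal_le_ofReal (hK x y)
  calc (∫⁻ x, ‖∫ y, K x y * u y‖ₑ ^ 2) ^ (1 / 2 : ℝ)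
      ≤ ((∫⁻ x, ENNReal.ofReal (k x)) ^ 2 * ∫⁻ x, ‖u x‖ₑ ^ 2) ^ (1 / 2 : ℝ) := by
        refine ENNReal.rpow_le_rpow (le_trans (lintegral_mono fun x => ?_) h1) (by norm_num)
        exact pow_le_pow_left' (h2 x) 2
    _ = _ := by
        rw [ENNReal.mul_rpow_of_nonneg _ _ (by norm_num : (0 : ℝ) ≤ 1 / 2),
          ← ENNReal.rpow_natCast, ← ENNReal.rpow_mul]
        norm_num

theorem lintegral_scl {j : Cn n → ℝ} (hj : IsMoll j) {ε : ℝ} (hε : 0 < ε) :
    ∫⁻ x, ENNReal.ofReal (scl j ε x) = 1 := by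
  have := haar_vol n
  rw [← ofReal_integral_eq_lintegral_ofReal
    ((scl_smooth hj ε).continuous.integrable_of_hasCompactSupport (scl_compact hj hε))
    (Eventually.of_forall fun x => scl_nonneg hj hε x), scl_int hj hε, ENNReal.ofReal_one]

/-- mollifications are bounded on `L²` -/
theorem eLpNorm_mol_le {j : Cn n → ℝ} (hj : IsMoll j) {ε : ℝ} (hε : 0 < ε) {u : Cn n → ℂ}
    (hu : AEStronglyMeasurable u volume) :
    eLpNorm (mol j ε u) 2 volume ≤ eLpNorm u 2 volume := by
  have h := young_op (K := fun x y => (scl j ε (x - y) : ℂ)) (scl_smooth hj ε).continuous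
    (fun x y => by
      rw [Complex.norm_real, Real.norm_eq_abs, abs_of_nonneg (scl_nonneg hj hε _)]) hu
  rw [lintegral_scl hj hε, one_mul] at h
  exact h

/-- mollifications of continuous functions with compact support converge uniformly -/
theorem mol_unif {j : Cn n → ℝ} (hj : IsMoll j) {g : Cn n → ℂ} (hg : Continuous g)
    (hc : HasCompactSupport g) {δ : ℝ} (hδ : 0 < δ) :
    ∃ ε₀ > 0, ∀ ε, 0 < ε → ε < ε₀ → ∀ x, ‖mol j ε g x - g x‖ ≤ δ := by
  have := haar_vol n
  have hU : UniformContinuous g := hc.uniformContinuous_of_continuous hg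
  obtain ⟨ε₀, h0, h1⟩ := Metric.uniformContinuous_iff.1 hU δ hδ
  refine ⟨ε₀, h0, fun ε hε hε₀ x => ?_⟩
  have hs : Integrable (fun y => (scl j ε (x - y) : ℂ)) volume := by
    have h2 : Integrable (fun y => scl j ε (x - y)) volume := by
      have := neg_vol n
      exact ((scl_smooth hj ε).continuous.integrable_of_hasCompactSupport
        (scl_compact hj hε)).comp_sub_left x
    exact h2.ofReal
  have h2 : ∫ y, (scl j ε (x - y) : ℂ) = 1 := by
    have := neg_vol n
    rw [integral_complex_ofReal, integral_sub_left_eq_self (fun y => scl j ε y) volume x,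
      scl_int hj hε, Complex.ofReal_one]
  have h3 : mol j ε g x - g x = ∫ y, (scl j ε (x - y) : ℂ) * (g y - g x) := by
    have h4 : g x = ∫ y, (scl j ε (x - y) : ℂ) * g x := by
      rw [integral_mul_const, h2, one_mul]
    conv_lhs => rw [h4]
    rw [mol, ← integral_sub (scl_mul_integrable hj hε hg.locallyIntegrable x)
      (hs.mul_const _)]
    exact integral_congr_ae (Eventually.of_forall fun y => by simp only; ring)
  rw [h3]
  have h5 : ∀ y, ‖(scl j ε (x - y) : ℂ) * (g y - g x)‖ ≤ scl j ε (x - y) * δ := by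
    intro y
    rw [norm_mul, Complex.norm_real, Real.norm_eq_abs, abs_of_nonneg (scl_nonneg hj hε _)]
    by_cases hy : ε ≤ ‖x - y‖
    · rw [scl_supp hj hε hy]
      simp
    · refine mul_le_mul_of_nonneg_left ?_ (scl_nonneg hj hε _)
      have h6 : dist y x < ε₀ := by
        rw [dist_comm, dist_eq_norm]
        exact (not_le.1 hy).trans hε₀
      have h7 := h1 h6
      rw [dist_eq_norm] at h7
      exact h7.le
  refine (norm_integral_le_of_norm_le ?_ (Eventually.of_forall h5)).trans ?_
  · have := neg_vol n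
    exact (((scl_smooth hj ε).continuous.integrable_of_hasCompactSupport
      (scl_compact hj hε)).comp_sub_left x).mul_const _
  · have := neg_vol n
    rw [integral_mul_const, integral_sub_left_eq_self (fun y => scl j ε y) volume x,
      scl_int hj hε, one_mul]

/-- a bound for the `L²` norm -/
theorem eLpNorm_le_of_bound {f : Cn n → ℂ} {K : Set (Cn n)} (hK : IsCompact K) {δ : ℝ}
    (hf : ∀ x, ‖f x‖ ≤ δ) (h0 : ∀ x ∉ K, f x = 0) :
    eLpNorm f 2 volume ≤ ENNReal.ofReal δ * volume K ^ (1 / 2 : ℝ) := by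
  have := haar_vol n
  rw [eLpNorm_two]
  have h1 : ∀ x, ‖f x‖ₑ ^ 2 ≤ K.indicator (fun _ => ENNReal.ofReal δ ^ 2) x := by
    intro x
    by_cases hx : x ∈ K
    · rw [indicator_of_mem hx, ← ofReal_norm]
      exact pow_le_pow_left' (ENNReal.ofReal_le_ofReal (hf x)) 2
    · rw [indicator_of_notMem hx, h0 x hx]
      simp
  calc (∫⁻ x, ‖f x‖ₑ ^ 2) ^ (1 / 2 : ℝ)
      ≤ (∫⁻ x, K.indicator (fun _ => ENNReal.ofReal δ ^ 2) x) ^ (1 / 2 : ℝ) :=
        ENNReal.rpow_le_rpow (lintegral_mono h1) (by norm_num)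
    _ = _ := by
        rw [lintegral_indicator hK.measurableSet, lintegral_const, Measure.restrict_apply_univ,
          ENNReal.mul_rpow_of_nonneg _ _ (by norm_num : (0 : ℝ) ≤ 1 / 2),
          ← ENNReal.rpow_natCast, ← ENNReal.rpow_mul]
        norm_num

/-- operators which are uniformly bounded on `L²` and converge on smooth functions -/
theorem tendsto_of_dense {T : ℝ → (Cn n → ℂ) → Cn n → ℂ} {C : ℝ}
    (hT : ∀ ε, 0 < ε → ∀ u, MemLp u 2 volume →
      eLpNorm (T ε u) 2 volume ≤ ENNReal.ofReal C * eLpNorm u 2 volume)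
    (hsub : ∀ ε, 0 < ε → ∀ u v, MemLp u 2 volume → MemLp v 2 volume → ∀ x,
      T ε u x = T ε (fun y => u y - v y) x + T ε v x)
    (hm : ∀ ε, 0 < ε → ∀ u, MemLp u 2 volume → AEStronglyMeasurable (T ε u) volume)
    (hs : ∀ g, ContDiff ℝ ∞ g → HasCompactSupport g →
      Tendsto (fun ε => eLpNorm (T ε g) 2 volume) (𝓝[>] 0) (𝓝 0))
    {u : Cn n → ℂ} (hu : MemLp u 2 volume) :
    Tendsto (fun ε => eLpNorm (T ε u) 2 volume) (𝓝[>] 0) (𝓝 0) := by
  have := haar_vol n
  rw [ENNReal.tendsto_nhds_zero]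
  intro δ hδ
  rcases eq_or_ne δ ⊤ with rfl | hδt
  · exact Eventually.of_forall fun _ => le_top
  have hδr : 0 < δ.toReal := ENNReal.toReal_pos hδ.ne' hδt
  set η : ℝ := δ.toReal / (2 * (|C| + 1)) with hη
  have hηp : 0 < η := by positivity
  obtain ⟨g, hgc, hgs, hg⟩ := hu.exist_eLpNorm_sub_le (by norm_num) (by norm_num) hηp
  have hgm : MemLp g 2 volume := hgs.continuous.memLp_of_hasCompactSupport hgc
  have h1 := (ENNReal.tendsto_nhds_zero.1 (hs g hgs hgc)) (δ / 2)
    (ENNReal.div_pos hδ.ne' (by norm_num))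
  filter_upwards [h1, self_mem_nhdsWithin] with ε h2 h3
  have h4 : T ε u = T ε (fun y => u y - g y) + T ε g := by
    funext x
    exact hsub ε h3 u g hu hgm x
  have h5 : eLpNorm (T ε (fun y => u y - g y)) 2 volume ≤ δ / 2 := by
    refine (hT ε h3 _ (hu.sub hgm)).trans ?_
    have h6 : ENNReal.ofReal C * eLpNorm (fun y => u y - g y) 2 volume ≤
        ENNReal.ofReal (|C| + 1) * ENNReal.ofReal η := by
      refine mul_le_mul' (ENNReal.ofReal_le_ofReal ?_) hg
      linarith [le_abs_self C]
    refine h6.trans ?_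
    rw [← ENNReal.ofReal_mul (by positivity)]
    have h7 : (|C| + 1) * η = δ.toReal / 2 := by
      rw [hη]
      field_simp
    rw [h7, ENNReal.ofReal_div_of_pos (by norm_num), ENNReal.ofReal_toReal hδt]
    norm_num
  rw [h4]
  calc eLpNorm (T ε (fun y => u y - g y) + T ε g) 2 volume
      ≤ eLpNorm (T ε (fun y => u y - g y)) 2 volume + eLpNorm (T ε g) 2 volume :=
        eLpNorm_add_le (hm ε h3 _ (hu.sub hgm)) (hm ε h3 _ hgm) (by norm_num)
    _ ≤ δ / 2 + δ / 2 := add_le_add h5 h2
    _ = δ := ENNReal.add_halves δ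

theorem loc_of_memLp {u : Cn n → ℂ} (hu : MemLp u 2 volume) : LocallyIntegrable u volume := by
  have := haar_vol n
  exact hu.locallyIntegrable (by norm_num)

theorem mol_zero_far {j : Cn n → ℝ} (hj : IsMoll j) {ε : ℝ} (hε : 0 < ε) (hε1 : ε ≤ 1)
    {g : Cn n → ℂ} {x : Cn n} (hx : x ∉ Metric.cthickening 1 (tsupport g)) :
    mol j ε g x = 0 := by
  refine mol_eq_zero hj hε fun y hy => ?_
  by_contra h
  refine hx (Metric.mem_cthickening_of_dist_le x y 1 _ (subset_tsupport g h) ?_)
  rw [dist_comm]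
  exact (Metric.mem_ball.1 hy).le.trans hε1

/-- mollifications converge in `L²` -/
theorem tendsto_mol {j : Cn n → ℝ} (hj : IsMoll j) {u : Cn n → ℂ} (hu : MemLp u 2 volume) :
    Tendsto (fun ε => eLpNorm (fun x => mol j ε u x - u x) 2 volume) (𝓝[>] 0) (𝓝 0) := by
  have := haar_vol n
  refine tendsto_of_dense (T := fun ε u x => mol j ε u x - u x) (C := 2) ?_ ?_ ?_ ?_ hu
  · intro ε hε u hu
    calc eLpNorm (fun x => mol j ε u x - u x) 2 volume
        ≤ eLpNorm (mol j ε u) 2 volume + eLpNorm u 2 volume :=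
          eLpNorm_sub_le (mol_contDiff hj hε (loc_of_memLp hu)).continuous.aestronglyMeasurable
            hu.1 (by norm_num)
      _ ≤ eLpNorm u 2 volume + eLpNorm u 2 volume := by
          gcongr
          exact eLpNorm_mol_le hj hε hu.1
      _ = _ := by
          rw [ENNReal.ofReal_ofNat, two_mul]
  · intro ε hε u v hu hv x
    simp only
    rw [mol_sub hj hε (loc_of_memLp hu) (loc_of_memLp hv)]
    ring
  · intro ε hε u hu
    exact (mol_contDiff hj hε (loc_of_memLp hu)).continuous.aestronglyMeasurable.sub hu.1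
  · intro g hg hc
    rw [ENNReal.tendsto_nhds_zero]
    intro δ hδ
    set K := Metric.cthickening 1 (tsupport g) with hK
    have hKc : IsCompact K := hc.isCompact.cthickening
    have hV : volume K ^ (1 / 2 : ℝ) ≠ ⊤ :=
      ENNReal.rpow_ne_top_of_nonneg (by norm_num) hKc.measure_lt_top.ne
    obtain ⟨η, hη, hη2⟩ : ∃ η : ℝ, 0 < η ∧ ENNReal.ofReal η * volume K ^ (1 / 2 : ℝ) ≤ δ := by
      rcases eq_or_ne δ ⊤ with rfl | hδt
      · exact ⟨1, one_pos, le_top⟩
      refine ⟨δ.toReal / ((volume K ^ (1 / 2 : ℝ)).toReal + 1), ?_, ?_⟩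
      · have := ENNReal.toReal_pos hδ.ne' hδt
        positivity
      · rw [← ENNReal.ofReal_toReal hV, ← ENNReal.ofReal_mul (by positivity),
          ENNReal.toReal_ofReal (by positivity)]
        refine (ENNReal.ofReal_le_ofReal ?_).trans ENNReal.ofReal_toReal_le
        rw [div_mul_eq_mul_div, div_le_iff₀ (by positivity)]
        have := ENNReal.toReal_nonneg (a := δ)
        nlinarith
    obtain ⟨ε₀, h0, h1⟩ := mol_unif hj hg.continuous hc hη
    filter_upwards [Ioo_mem_nhdsGT (lt_min h0 one_pos)] with ε hε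
    refine (eLpNorm_le_of_bound hKc (h1 ε hε.1 (hε.2.trans_le (min_le_left _ _))) ?_).trans hη2
    intro x hx
    rw [mol_zero_far hj hε.1 (hε.2.le.trans (min_le_right _ _)) hx,
      image_eq_zero_of_notMem_tsupport fun h => hx (Metric.self_subset_cthickening _ h), sub_zero]

/-- the commutator of the mollification and the multiplication by `a` -/
noncomputable def cm (j : Cn n → ℝ) (a u : Cn n → ℂ) (ε : ℝ) (x : Cn n) : ℂ :=
  a x * mol j ε u x - mol j ε (fun y => a y * u y) x

theorem memLp_mul {a u : Cn n → ℂ} (ha : Continuous a) (hc : HasCompactSupport a)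
    (hu : MemLp u 2 volume) : MemLp (fun y => a y * u y) 2 volume := by
  have := haar_vol n
  obtain ⟨C, hC⟩ := ha.bounded_above_of_compact_support hc
  refine MemLp.of_le_mul (c := C) hu (ha.aestronglyMeasurable.mul hu.1)
    (Eventually.of_forall fun x => ?_)
  rw [norm_mul]
  gcongr
  exact hC x

theorem tendsto_cm {j : Cn n → ℝ} (hj : IsMoll j) {a u : Cn n → ℂ} (ha : Continuous a)
    (hc : HasCompactSupport a) (hu : MemLp u 2 volume) :
    Tendsto (fun ε => eLpNorm (cm j a u ε) 2 volume) (𝓝[>] 0) (𝓝 0) := by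
  have := haar_vol n
  obtain ⟨C, hC⟩ := ha.bounded_above_of_compact_support hc
  have hau := memLp_mul ha hc hu
  have h1 := tendsto_mol hj hu
  have h2 := tendsto_mol hj hau
  have h3 : Tendsto (fun ε => ENNReal.ofReal C *
      eLpNorm (fun x => mol j ε u x - u x) 2 volume +
      eLpNorm (fun x => mol j ε (fun y => a y * u y) x - a x * u x) 2 volume) (𝓝[>] 0)
      (𝓝 (ENNReal.ofReal C * 0 + 0)) :=
    (ENNReal.Tendsto.const_mul h1 (Or.inr ENNReal.ofReal_ne_top)).add h2
  rw [mul_zero, add_zero] at h3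
  refine tendsto_of_tendsto_of_tendsto_of_le_of_le' tendsto_const_nhds h3
    (Eventually.of_forall fun _ => zero_le) ?_
  filter_upwards [self_mem_nhdsWithin] with ε hε
  have m1 : AEStronglyMeasurable (fun x => mol j ε u x - u x) volume :=
    (mol_contDiff hj hε (loc_of_memLp hu)).continuous.aestronglyMeasurable.sub hu.1
  have m2 : AEStronglyMeasurable (fun x => mol j ε (fun y => a y * u y) x - a x * u x) volume :=
    (mol_contDiff hj hε (loc_of_memLp hau)).continuous.aestronglyMeasurable.sub hau.1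
  have e1 : cm j a u ε = (fun x => a x * (mol j ε u x - u x)) -
      fun x => mol j ε (fun y => a y * u y) x - a x * u x := by
    funext x
    simp only [cm, Pi.sub_apply]
    ring
  rw [e1]
  refine (eLpNorm_sub_le (ha.aestronglyMeasurable.mul m1) m2 (by norm_num)).trans ?_
  gcongr
  refine eLpNorm_le_mul_eLpNorm_of_ae_le_mul (Eventually.of_forall fun x => ?_) 2
  rw [Pi.mul_apply, norm_mul]
  gcongr
  exact hC x

theorem scl_fderiv {j : Cn n → ℝ} (hj : IsMoll j) {ε : ℝ} (x v : Cn n) :
    fderiv ℝ (scl j ε) x v = (ε ^ (2 * n))⁻¹ * (ε⁻¹ * fderiv ℝ j (ε⁻¹ • x) v) := by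
  have h1 : HasFDerivAt j (fderiv ℝ j (ε⁻¹ • x)) (ε⁻¹ • x) :=
    (hj.smooth.differentiable (by simp) _).hasFDerivAt
  have h2 : HasFDerivAt (fun y : Cn n => ε⁻¹ • y)
      (ε⁻¹ • ContinuousLinearMap.id ℝ (Cn n)) x := (hasFDerivAt_id x).const_smul ε⁻¹
  have h3 := (h1.comp x h2).const_mul (ε ^ (2 * n))⁻¹
  have h4 : scl j ε = fun y => (ε ^ (2 * n))⁻¹ * (j ∘ fun y : Cn n => ε⁻¹ • y) y := by
    funext y
    simp [scl]
  rw [h4, h3.fderiv]
  simp

theorem fderiv_j_compact {j : Cn n → ℝ} (hj : IsMoll j) (v : Cn n) :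
    HasCompactSupport fun x => |fderiv ℝ j x v| :=
  ((hj.compact.fderiv (𝕜 := ℝ)).comp_left (g := fun A : Cn n →L[ℝ] ℝ => |A v|) (by simp))

theorem fderiv_j_cont {j : Cn n → ℝ} (hj : IsMoll j) (v : Cn n) :
    Continuous fun x => |fderiv ℝ j x v| :=
  ((hj.smooth.continuous_fderiv (by simp)).clm_apply continuous_const).abs

theorem lintegral_fderiv_scl {j : Cn n → ℝ} (hj : IsMoll j) {ε : ℝ} (hε : 0 < ε) (v : Cn n)
    (L : ℝ) (hL : 0 ≤ L) :
    ∫⁻ x, ENNReal.ofReal (L * ε * |fderiv ℝ (scl j ε) x v|) =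
      ENNReal.ofReal (L * ∫ x, |fderiv ℝ j x v|) := by
  have := haar_vol n
  have hs : ∀ x, L * ε * |fderiv ℝ (scl j ε) x v| =
      L * ((ε ^ (2 * n))⁻¹ * |fderiv ℝ j (ε⁻¹ • x) v|) := by
    intro x
    rw [scl_fderiv hj, abs_mul, abs_mul, abs_of_pos (show (0 : ℝ) < (ε ^ (2 * n))⁻¹ by positivity),
      abs_of_pos (inv_pos.2 hε)]
    field_simp
  have hc : HasCompactSupport fun x => L * ((ε ^ (2 * n))⁻¹ * |fderiv ℝ j (ε⁻¹ • x) v|) := by
    have h1 : HasCompactSupport fun x : Cn n => |fderiv ℝ j (ε⁻¹ • x) v| :=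
      (fderiv_j_compact hj v).comp_smul (inv_pos.2 hε).ne'
    exact (h1.mul_left).mul_left
  have hcont : Continuous fun x => L * ((ε ^ (2 * n))⁻¹ * |fderiv ℝ j (ε⁻¹ • x) v|) :=
    continuous_const.mul (continuous_const.mul ((fderiv_j_cont hj v).comp
      (continuous_const_smul _)))
  simp only [hs]
  rw [← ofReal_integral_eq_lintegral_ofReal (hcont.integrable_of_hasCompactSupport hc)
    (Eventually.of_forall fun x => by positivity), integral_const_mul, integral_const_mul,
    Measure.integral_comp_smul volume (fun x => |fderiv ℝ j x v|) ε⁻¹, finrank_Cn]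
  have h : (0 : ℝ) < ε ^ (2 * n) := by positivity
  rw [inv_pow, inv_inv, abs_of_pos h, smul_eq_mul, inv_mul_cancel_left₀ h.ne']

/-- the derivative of the commutator -/
theorem fderiv_cm {j : Cn n → ℝ} (hj : IsMoll j) {ε : ℝ} (hε : 0 < ε) {a u : Cn n → ℂ}
    (ha : ContDiff ℝ 1 a) (hc : HasCompactSupport a) (hu : MemLp u 2 volume) (x v : Cn n) :
    fderiv ℝ (cm j a u ε) x v = fderiv ℝ a x v * mol j ε u x +
      ∫ y, ((fderiv ℝ (scl j ε) (x - y) v : ℂ) * (a x - a y)) * u y := by
  have := haar_vol n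
  have := neg_vol n
  have hau := memLp_mul ha.continuous hc hu
  have d1 : DifferentiableAt ℝ (mol j ε u) x :=
    (mol_contDiff hj hε (loc_of_memLp hu)).differentiable (by simp) x
  have d2 : DifferentiableAt ℝ (mol j ε fun y => a y * u y) x :=
    (mol_contDiff hj hε (loc_of_memLp hau)).differentiable (by simp) x
  have da : DifferentiableAt ℝ a x := ha.differentiable (by simp) x
  have e1 : fderiv ℝ (cm j a u ε) x v = fderiv ℝ a x v * mol j ε u x +
      a x * fderiv ℝ (mol j ε u) x v - fderiv ℝ (mol j ε fun y => a y * u y) x v := by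
    have h1 : cm j a u ε = fun x => a x * mol j ε u x - mol j ε (fun y => a y * u y) x := rfl
    rw [h1, fderiv_fun_sub (da.fun_mul d1) d2, fderiv_fun_mul da d1]
    simp only [sub_apply, add_apply, smul_apply, smul_eq_mul]
    ring
  have hint : ∀ w : Cn n → ℂ, LocallyIntegrable w volume →
      Integrable (fun y => (fderiv ℝ (scl j ε) (x - y) v : ℂ) * w y) volume := by
    intro w hw
    have hk : HasCompactSupport fun z => fderiv ℝ (scl j ε) z v :=
      ((scl_compact hj hε).fderiv (𝕜 := ℝ)).comp_left (g := fun A : Cn n →L[ℝ] ℝ => A v)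
        (by simp)
    have h := (hk.convolutionExists_right
      (ContinuousLinearMap.lsmul ℝ ℝ : ℝ →L[ℝ] ℂ →L[ℝ] ℂ).flip hw
      (((scl_smooth hj ε).continuous_fderiv (by simp)).clm_apply continuous_const)) x
    simpa only [ConvolutionExistsAt, ContinuousLinearMap.flip_apply,
      ContinuousLinearMap.lsmul_apply, Complex.real_smul] using h
  rw [e1, fderiv_mol hj hε (loc_of_memLp hu), fderiv_mol hj hε (loc_of_memLp hau),
    ← integral_const_mul, add_sub_assoc, ← integral_sub
      ((hint u (loc_of_memLp hu)).const_mul _) (hint _ (loc_of_memLp hau))]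
  congr 1
  exact integral_congr_ae (Eventually.of_forall fun y => by simp only; ring)

/-- THE FRIEDRICHS LEMMA -/
theorem fried {j : Cn n → ℝ} (hj : IsMoll j) {a u : Cn n → ℂ} (ha : ContDiff ℝ ∞ a)
    (hc : HasCompactSupport a) (hu : MemLp u 2 volume) (v : Cn n) :
    Tendsto (fun ε => eLpNorm (fun x => fderiv ℝ (cm j a u ε) x v) 2 volume) (𝓝[>] 0)
      (𝓝 0) := by
  have := haar_vol n
  have := neg_vol n
  have ha1 : ContDiff ℝ 1 a := ha.of_le (by norm_cast)
  obtain ⟨A, hA⟩ := (ha1.continuous_fderiv (by simp)).bounded_above_of_compact_support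
    (hc.fderiv (𝕜 := ℝ))
  have hA0 : 0 ≤ A := (norm_nonneg _).trans (hA 0)
  have hlip : ∀ x y, ‖a x - a y‖ ≤ A * ‖x - y‖ := by
    intro x y
    exact Convex.norm_image_sub_le_of_norm_fderiv_le (s := univ)
      (fun z _ => ha1.differentiable (by simp) z) (fun z _ => hA z) convex_univ
      (mem_univ y) (mem_univ x)
  refine tendsto_of_dense (T := fun ε u x => fderiv ℝ (cm j a u ε) x v)
    (C := A * ‖v‖ + A * ∫ x, |fderiv ℝ j x v|) ?_ ?_ ?_ ?_ hu
  · intro ε hε u hu
    have e1 : (fun x => fderiv ℝ (cm j a u ε) x v) = (fun x => fderiv ℝ a x v * mol j ε u x) +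
        fun x => ∫ y, ((fderiv ℝ (scl j ε) (x - y) v : ℂ) * (a x - a y)) * u y := by
      funext x
      exact fderiv_cm hj hε ha1 hc hu x v
    have hcm : ContDiff ℝ ∞ (cm j a u ε) :=
      (ha.mul (mol_contDiff hj hε (loc_of_memLp hu))).sub
        (mol_contDiff hj hε (loc_of_memLp (memLp_mul ha.continuous hc hu)))
    have m1 : AEStronglyMeasurable (fun x => fderiv ℝ a x v * mol j ε u x) volume :=
      (((ha1.continuous_fderiv (by simp)).clm_apply continuous_const).mul
        (mol_contDiff hj hε (loc_of_memLp hu)).continuous).aestronglyMeasurable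
    have m0 : AEStronglyMeasurable (fun x => fderiv ℝ (cm j a u ε) x v) volume :=
      ((hcm.continuous_fderiv (by simp)).clm_apply continuous_const).aestronglyMeasurable
    have m2 : AEStronglyMeasurable
        (fun x => ∫ y, ((fderiv ℝ (scl j ε) (x - y) v : ℂ) * (a x - a y)) * u y) volume := by
      have h := m0.sub m1
      rw [e1] at h
      simpa using h
    rw [e1]
    refine (eLpNorm_add_le m1 m2 (by norm_num)).trans ?_
    rw [ENNReal.ofReal_add (by positivity) (by positivity), add_mul]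
    refine add_le_add ?_ ?_
    · refine (eLpNorm_le_mul_eLpNorm_of_ae_le_mul (c := A * ‖v‖) (g := mol j ε u)
        (Eventually.of_forall fun x => ?_) 2).trans ?_
      · rw [norm_mul]
        gcongr
        exact ((fderiv ℝ a x).le_opNorm v).trans (by gcongr; exact hA x)
      · gcongr
        exact eLpNorm_mol_le hj hε hu.1
    · have h := young_op (k := fun z => A * ε * |fderiv ℝ (scl j ε) z v|)
        (K := fun x y => (fderiv ℝ (scl j ε) (x - y) v : ℂ) * (a x - a y))
        (continuous_const.mul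
          (((scl_smooth hj ε).continuous_fderiv (by simp)).clm_apply continuous_const).abs)
        (fun x y => ?_) hu.1
      · rwa [lintegral_fderiv_scl hj hε v A hA0] at h
      · rw [norm_mul, Complex.norm_real, Real.norm_eq_abs]
        by_cases hxy : ε < ‖x - y‖
        · have h0 : fderiv ℝ (scl j ε) (x - y) = 0 := by
            have h1 : scl j ε =ᶠ[𝓝 (x - y)] fun _ => 0 := by
              filter_upwards [(isOpen_lt continuous_const continuous_norm).mem_nhds hxy]
                with z hz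
              exact scl_supp hj hε (le_of_lt hz)
            rw [h1.fderiv_eq]
            simp
          rw [h0]
          simp
        · rw [mul_comm]
          gcongr
          exact (hlip x y).trans (by gcongr; exact not_lt.1 hxy)
  · intro ε hε u w hu hw x
    have hsub : MemLp (fun y => u y - w y) 2 volume := hu.sub hw
    have e1 : cm j a u ε = fun x => cm j a (fun y => u y - w y) ε x + cm j a w ε x := by
      funext x
      simp only [cm]
      rw [mol_sub hj hε (loc_of_memLp hu) (loc_of_memLp hw)]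
      have h2 : (fun y => a y * (u y - w y)) = fun y => a y * u y - a y * w y := by
        funext y
        ring
      rw [h2, mol_sub hj hε (loc_of_memLp (memLp_mul ha.continuous hc hu))
        (loc_of_memLp (memLp_mul ha.continuous hc hw))]
      ring
    have hd : ∀ {q : Cn n → ℂ}, MemLp q 2 volume → DifferentiableAt ℝ (cm j a q ε) x := by
      intro q hq
      exact ((ha.mul (mol_contDiff hj hε (loc_of_memLp hq))).sub
        (mol_contDiff hj hε (loc_of_memLp (memLp_mul ha.continuous hc hq)))).differentiable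
          (by simp) x
    conv_lhs => rw [e1]
    rw [fderiv_fun_add (hd hsub) (hd hw)]
    simp
  · intro ε hε u hu
    have hcm : ContDiff ℝ ∞ (cm j a u ε) :=
      (ha.mul (mol_contDiff hj hε (loc_of_memLp hu))).sub
        (mol_contDiff hj hε (loc_of_memLp (memLp_mul ha.continuous hc hu)))
    exact ((hcm.continuous_fderiv (by simp)).clm_apply continuous_const).aestronglyMeasurable
  · intro g hg hgc
    have hg1 : ContDiff ℝ 1 g := hg.of_le (by norm_cast)
    have hgm : MemLp g 2 volume := hg.continuous.memLp_of_hasCompactSupport hgc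
    -- the three functions
    have c1 : Continuous fun y => fderiv ℝ g y v :=
      (hg1.continuous_fderiv (by simp)).clm_apply continuous_const
    have k1 : HasCompactSupport fun y => fderiv ℝ g y v :=
      (hgc.fderiv (𝕜 := ℝ)).comp_left (g := fun A : Cn n →L[ℝ] ℂ => A v) (by simp)
    have hag1 : ContDiff ℝ 1 fun y => a y * g y := ha1.mul hg1
    have hagc : HasCompactSupport fun y => a y * g y := hc.mul_right
    have c2 : Continuous fun y => fderiv ℝ (fun y => a y * g y) y v :=
      (hag1.continuous_fderiv (by simp)).clm_apply continuous_const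
    have k2 : HasCompactSupport fun y => fderiv ℝ (fun y => a y * g y) y v :=
      (hagc.fderiv (𝕜 := ℝ)).comp_left (g := fun A : Cn n →L[ℝ] ℂ => A v) (by simp)
    obtain ⟨B, hB⟩ := ha.continuous.bounded_above_of_compact_support hc
    have hB0 : 0 ≤ B := (norm_nonneg _).trans (hB 0)
    rw [ENNReal.tendsto_nhds_zero]
    intro δ hδ
    set K := Metric.cthickening 1 (tsupport a) with hK
    have hKc : IsCompact K := hc.isCompact.cthickening
    have hV : volume K ^ (1 / 2 : ℝ) ≠ ⊤ :=
      ENNReal.rpow_ne_top_of_nonneg (by norm_num) hKc.measure_lt_top.ne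
    obtain ⟨η, hη, hη2⟩ : ∃ η : ℝ, 0 < η ∧
        ENNReal.ofReal ((A * ‖v‖ + B + 1) * η) * volume K ^ (1 / 2 : ℝ) ≤ δ := by
      rcases eq_or_ne δ ⊤ with rfl | hδt
      · exact ⟨1, one_pos, le_top⟩
      refine ⟨δ.toReal / ((A * ‖v‖ + B + 1) * ((volume K ^ (1 / 2 : ℝ)).toReal + 1)), ?_, ?_⟩
      · have := ENNReal.toReal_pos hδ.ne' hδt
        positivity
      · rw [← ENNReal.ofReal_toReal hV, ← ENNReal.ofReal_mul (by positivity),
          ENNReal.toReal_ofReal (by positivity)]
        refine (ENNReal.ofReal_le_ofReal ?_).trans ENNReal.ofReal_toReal_le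
        have h1 : (A * ‖v‖ + B + 1) * (δ.toReal / ((A * ‖v‖ + B + 1) *
            ((volume K ^ (1 / 2 : ℝ)).toReal + 1))) * (volume K ^ (1 / 2 : ℝ)).toReal =
            δ.toReal * (volume K ^ (1 / 2 : ℝ)).toReal /
              ((volume K ^ (1 / 2 : ℝ)).toReal + 1) := by
          field_simp
        rw [h1, div_le_iff₀ (by positivity)]
        have := ENNReal.toReal_nonneg (a := δ)
        nlinarith
    obtain ⟨ε₁, p1, q1⟩ := mol_unif hj hg.continuous hgc hη
    obtain ⟨ε₂, p2, q2⟩ := mol_unif hj c1 k1 hη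
    obtain ⟨ε₃, p3, q3⟩ := mol_unif hj c2 k2 hη
    filter_upwards [Ioo_mem_nhdsGT (lt_min (lt_min p1 p2) (lt_min p3 one_pos))] with ε hε
    have l1 : ε < ε₁ := hε.2.trans_le ((min_le_left _ _).trans (min_le_left _ _))
    have l2 : ε < ε₂ := hε.2.trans_le ((min_le_left _ _).trans (min_le_right _ _))
    have l3 : ε < ε₃ := hε.2.trans_le ((min_le_right _ _).trans (min_le_left _ _))
    have l4 : ε ≤ 1 := hε.2.le.trans ((min_le_right _ _).trans (min_le_right _ _))
    have e1 : ∀ x, fderiv ℝ (cm j a g ε) x v = fderiv ℝ a x v * (mol j ε g x - g x) +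
        a x * (mol j ε (fun y => fderiv ℝ g y v) x - fderiv ℝ g x v) -
        (mol j ε (fun y => fderiv ℝ (fun y => a y * g y) y v) x -
          fderiv ℝ (fun y => a y * g y) x v) := by
      intro x
      have da : DifferentiableAt ℝ a x := ha1.differentiable (by simp) x
      have dg : DifferentiableAt ℝ g x := hg1.differentiable (by simp) x
      have d1 : DifferentiableAt ℝ (mol j ε g) x :=
        (mol_contDiff hj hε.1 (loc_of_memLp hgm)).differentiable (by simp) x
      have d2 : DifferentiableAt ℝ (mol j ε fun y => a y * g y) x :=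
        (mol_contDiff hj hε.1 (loc_of_memLp (memLp_mul ha.continuous hc hgm))).differentiable
          (by simp) x
      have h1 : cm j a g ε = fun x => a x * mol j ε g x - mol j ε (fun y => a y * g y) x := rfl
      rw [h1, fderiv_fun_sub (da.fun_mul d1) d2, fderiv_fun_mul da d1]
      simp only [sub_apply, add_apply, smul_apply, smul_eq_mul]
      rw [fderiv_mol' hj hε.1 hg1 hgc, fderiv_mol' hj hε.1 hag1 hagc]
      have h2 : fderiv ℝ (fun y => a y * g y) x v = a x * fderiv ℝ g x v +
          g x * fderiv ℝ a x v := by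
        rw [fderiv_fun_mul da dg]
        simp only [add_apply, smul_apply, smul_eq_mul]
      rw [h2]
      ring
    refine (eLpNorm_le_of_bound hKc (δ := (A * ‖v‖ + B + 1) * η) ?_ ?_).trans hη2
    · intro x
      rw [e1]
      have n1 : ‖fderiv ℝ a x v * (mol j ε g x - g x)‖ ≤ A * ‖v‖ * η := by
        rw [norm_mul]
        exact mul_le_mul (((fderiv ℝ a x).le_opNorm v).trans (by gcongr; exact hA x))
          (q1 ε hε.1 l1 x) (norm_nonneg _) (by positivity)
      have n2 : ‖a x * (mol j ε (fun y => fderiv ℝ g y v) x - fderiv ℝ g x v)‖ ≤ B * η := by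
        rw [norm_mul]
        exact mul_le_mul (hB x) (q2 ε hε.1 l2 x) (norm_nonneg _) hB0
      have n3 := q3 ε hε.1 l3 x
      refine (norm_sub_le _ _).trans ((add_le_add_left (norm_add_le _ _) _).trans ?_)
      linarith
    · intro x hx
      have hxa : x ∉ tsupport a := fun h => hx (Metric.self_subset_cthickening _ h)
      have h0 : a =ᶠ[𝓝 x] fun _ => 0 := by
        filter_upwards [(isClosed_tsupport a).isOpen_compl.mem_nhds hxa] with z hz
        exact image_eq_zero_of_notMem_tsupport hz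
      have h1 : fderiv ℝ a x = 0 := by
        rw [h0.fderiv_eq]
        simp
      have h2 : ∀ y ∈ Metric.ball x ε, fderiv ℝ (fun y => a y * g y) y v = 0 := by
        intro y hy
        have hya : y ∉ tsupport a := fun h => hx
          (Metric.mem_cthickening_of_dist_le x y 1 _ h (by
            rw [dist_comm]
            exact (Metric.mem_ball.1 hy).le.trans l4))
        have h3 : (fun y => a y * g y) =ᶠ[𝓝 y] fun _ => 0 := by
          filter_upwards [(isClosed_tsupport a).isOpen_compl.mem_nhds hya] with z hz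
          rw [image_eq_zero_of_notMem_tsupport hz, zero_mul]
        rw [h3.fderiv_eq]
        simp
      rw [e1, h1, h0.self_of_nhds, mol_eq_zero hj hε.1 h2,
        h2 x (Metric.mem_ball_self hε.1)]
      simp

/-- The Friedrichs lemma for `∂/∂z_k`. -/
theorem fried_dz {j : Cn n → ℝ} (hj : IsMoll j) {a u : Cn n → ℂ} (ha : ContDiff ℝ ∞ a)
    (hc : HasCompactSupport a) (hu : MemLp u 2 volume) (k : Fin n) :
    Tendsto (fun ε => eLpNorm (dz k (cm j a u ε)) 2 volume) (𝓝[>] 0) (𝓝 0) := by
  have := haar_vol n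
  have h3 := (fried hj ha hc hu (eR k)).add (fried hj ha hc hu (eI k))
  rw [add_zero] at h3
  refine tendsto_of_tendsto_of_tendsto_of_le_of_le' tendsto_const_nhds h3
    (Eventually.of_forall fun _ => zero_le) ?_
  filter_upwards [self_mem_nhdsWithin] with ε hε
  have hcm : ContDiff ℝ ∞ (cm j a u ε) :=
    (ha.mul (mol_contDiff hj hε (loc_of_memLp hu))).sub
      (mol_contDiff hj hε (loc_of_memLp (memLp_mul ha.continuous hc hu)))
  have m : ∀ v, AEStronglyMeasurable (fun x => fderiv ℝ (cm j a u ε) x v) volume := fun v =>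
    ((hcm.continuous_fderiv (by simp)).clm_apply continuous_const).aestronglyMeasurable
  refine le_trans ?_ ((eLpNorm_add_le (p := 2) (m (eR k)).norm (m (eI k)).norm
    (by norm_num)).trans (by rw [eLpNorm_norm, eLpNorm_norm]))
  refine eLpNorm_mono_real fun x => ?_
  simp only [dz, Pi.add_apply, norm_div, Complex.norm_ofNat]
  have h := norm_sub_le (fderiv ℝ (cm j a u ε) x (eR k))
    (Complex.I * fderiv ℝ (cm j a u ε) x (eI k))
  rw [norm_mul, Complex.norm_I, one_mul] at h
  have h4 := norm_nonneg (fderiv ℝ (cm j a u ε) x (eR k) -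
    Complex.I * fderiv ℝ (cm j a u ε) x (eI k))
  linarith

/-- The Friedrichs lemma for `∂/∂zbar_k`. -/
theorem fried_dzb {j : Cn n → ℝ} (hj : IsMoll j) {a u : Cn n → ℂ} (ha : ContDiff ℝ ∞ a)
    (hc : HasCompactSupport a) (hu : MemLp u 2 volume) (k : Fin n) :
    Tendsto (fun ε => eLpNorm (dzb k (cm j a u ε)) 2 volume) (𝓝[>] 0) (𝓝 0) := by
  have := haar_vol n
  have h3 := (fried hj ha hc hu (eR k)).add (fried hj ha hc hu (eI k))
  rw [add_zero] at h3
  refine tendsto_of_tendsto_of_tendsto_of_le_of_le' tendsto_const_nhds h3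
    (Eventually.of_forall fun _ => zero_le) ?_
  filter_upwards [self_mem_nhdsWithin] with ε hε
  have hcm : ContDiff ℝ ∞ (cm j a u ε) :=
    (ha.mul (mol_contDiff hj hε (loc_of_memLp hu))).sub
      (mol_contDiff hj hε (loc_of_memLp (memLp_mul ha.continuous hc hu)))
  have m : ∀ v, AEStronglyMeasurable (fun x => fderiv ℝ (cm j a u ε) x v) volume := fun v =>
    ((hcm.continuous_fderiv (by simp)).clm_apply continuous_const).aestronglyMeasurable
  refine le_trans ?_ ((eLpNorm_add_le (p := 2) (m (eR k)).norm (m (eI k)).norm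
    (by norm_num)).trans (by rw [eLpNorm_norm, eLpNorm_norm]))
  refine eLpNorm_mono_real fun x => ?_
  simp only [dzb, Pi.add_apply, norm_div, Complex.norm_ofNat]
  have h := norm_add_le (fderiv ℝ (cm j a u ε) x (eR k))
    (Complex.I * fderiv ℝ (cm j a u ε) x (eI k))
  rw [norm_mul, Complex.norm_I, one_mul] at h
  have h4 := norm_nonneg (fderiv ℝ (cm j a u ε) x (eR k) +
    Complex.I * fderiv ℝ (cm j a u ε) x (eI k))
  linarith

/-- Mollification is symmetric. -/
theorem integral_mol_mul {j : Cn n → ℝ} (hj : IsMoll j) {ε : ℝ} (hε : 0 < ε) {u f : Cn n → ℂ}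
    (hu : Integrable u volume) (hf : Continuous f) (hc : HasCompactSupport f) :
    ∫ x, mol j ε u x * f x = ∫ x, u x * mol j ε f x := by
  have := haar_vol n
  have := neg_vol n
  obtain ⟨B, hB⟩ := hf.bounded_above_of_compact_support hc
  have hs : Integrable (scl j ε) volume :=
    (scl_smooth hj ε).continuous.integrable_of_hasCompactSupport (scl_compact hj hε)
  have h1 := hu.convolution_integrand
    (ContinuousLinearMap.lsmul ℝ ℝ : ℝ →L[ℝ] ℂ →L[ℝ] ℂ).flip hs
  simp only [ContinuousLinearMap.flip_apply, ContinuousLinearMap.lsmul_apply,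
    Complex.real_smul] at h1
  have h2 : Integrable (Function.uncurry fun x y : Cn n => (scl j ε (x - y) : ℂ) * u y * f x)
      (volume.prod volume) :=
    h1.mul_bdd (c := B) (hf.comp continuous_fst).aestronglyMeasurable
      (Eventually.of_forall fun p => hB p.1)
  calc ∫ x, mol j ε u x * f x = ∫ x, ∫ y, (scl j ε (x - y) : ℂ) * u y * f x := by
        refine integral_congr_ae (Eventually.of_forall fun x => ?_)
        simp only [mol]
        rw [integral_mul_const]
    _ = ∫ y, ∫ x, (scl j ε (x - y) : ℂ) * u y * f x := integral_integral_swap h2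
    _ = ∫ y, u y * mol j ε f y := by
        refine integral_congr_ae (Eventually.of_forall fun y => ?_)
        simp only [mol]
        rw [← integral_const_mul]
        refine integral_congr_ae (Eventually.of_forall fun x => ?_)
        simp only
        rw [← scl_even hj ε (x - y), neg_sub]
        ring

end Pool.Agent.KRFQ

end

section

/-!
# Mollifications of weak solutions of a divergence equation in a chart
-/

open scoped ContDiff Topology
open Set MeasureTheory Filter Pool.Agent.ToricKRF Pool.Agent.ToricKRF.G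

namespace Pool.Agent.KRFQ

variable {n : ℕ}



/-- The weak operator applied to the conjugate. -/
theorem conj_op {U : Set (Cn n)} (hU : IsOpen U) {a b : Fin n → Fin n → Cn n → ℂ}
    (ha : ∀ j k, ContDiffOn ℝ ∞ (a j k) U) (hb : ∀ j k, ContDiff ℝ ∞ (b j k)) {K : Set (Cn n)}
    (hKU : K ⊆ U) (hab : ∀ j k, ∀ x ∈ K, b j k =ᶠ[𝓝 x] fun y => (starRingEnd ℂ) (a j k y))
    {f : Cn n → ℂ} (hf : ContDiff ℝ ∞ f) (hs : tsupport f ⊆ K) (x : Cn n) :
    (starRingEnd ℂ) (∑ j, dz j (fun y => ∑ k, a j k y * dzb k f y) x) =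
      ∑ j, ∑ k, (dzb j (b j k) x * dz k (fun y => (starRingEnd ℂ) (f y)) x +
        b j k x * dzb j (dz k (fun y => (starRingEnd ℂ) (f y))) x) := by
  set f' : Cn n → ℂ := fun y => (starRingEnd ℂ) (f y) with hf'
  have hf's : ContDiff ℝ ∞ f' := Complex.conjCLE.contDiff.comp hf
  have hts : tsupport f' ⊆ tsupport f := by
    refine closure_mono fun y hy => ?_
    intro h0
    exact hy (by simp [hf', h0])
  rw [map_sum]
  refine Finset.sum_congr rfl fun j _ => ?_
  by_cases hx : x ∈ tsupport f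
  · have hxK := hs hx
    have hxU := hKU hxK
    have hd1 : ∀ k, DifferentiableAt ℝ (a j k) x := fun k =>
      ((ha j k).differentiableOn (by simp)).differentiableAt (hU.mem_nhds hxU)
    have hd2 : ∀ k, DifferentiableAt ℝ (dzb k f) x := fun k =>
      ((contDiff_dzb hf k).differentiable (by simp)) x
    have hd3 : ∀ k, DifferentiableAt ℝ (b j k) x := fun k => ((hb j k).differentiable (by simp)) x
    have hd4 : ∀ k, DifferentiableAt ℝ (dz k f') x := fun k =>
      ((contDiff_dz hf's k).differentiable (by simp)) x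
    have hd5 : DifferentiableAt ℝ (fun y => ∑ k, a j k y * dzb k f y) x :=
      DifferentiableAt.fun_sum fun k _ => (hd1 k).mul (hd2 k)
    rw [← dzb_conj hd5]
    have h1 : (fun y => (starRingEnd ℂ) (∑ k, a j k y * dzb k f y)) =ᶠ[𝓝 x]
        fun y => ∑ k, b j k y * dz k f' y := by
      filter_upwards [eventually_all.2 fun k => hab j k x hxK] with y hy
      rw [map_sum]
      refine Finset.sum_congr rfl fun k _ => ?_
      rw [map_mul, hy k, hf', dz_conj ((hf.differentiable (by simp)) y)]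
    rw [dzb_congr h1, dzb_sum Finset.univ (f := fun k y => b j k y * dz k f' y)
      fun k _ => (hd3 k).mul (hd4 k)]
    refine Finset.sum_congr rfl fun k _ => ?_
    rw [dzb_mul (hd3 k) (hd4 k)]
  · have h1 : (fun y => ∑ k, a j k y * dzb k f y) =ᶠ[𝓝 x] fun _ => 0 := by
      have h2 : ∀ k, dzb k f =ᶠ[𝓝 x] fun _ => 0 := fun k => by
        have := dzb_congr' (notMem_tsupport_iff_eventuallyEq.1 hx) k
        refine this.trans (Eventually.of_forall fun y => ?_)
        exact dzb_const k 0 y
      filter_upwards [eventually_all.2 h2] with y hy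
      simp [hy]
    rw [dz_congr h1, dz_const, map_zero]
    have hx' : x ∉ tsupport f' := fun h => hx (hts h)
    refine (Finset.sum_eq_zero fun k _ => ?_).symm
    rw [dz_of_notMem hx', dzb_of_notMem fun h => hx' (tsupport_dz_subset k f' h)]
    simp

/-- Integration by parts. -/
theorem integral_mul_dzb {C G : Cn n → ℂ} (hC : ContDiff ℝ ∞ C) (hG : ContDiff ℝ ∞ G)
    (hs : HasCompactSupport G) (k : Fin n) :
    ∫ x, C x * dzb k G x = -∫ x, dzb k C x * G x := by
  have h0 : HasCompactSupport (fun x => C x * G x) := hs.mul_left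
  have h1 := integral_dzb_eq_zero ((hC.mul hG).of_le (by simp)) h0 k
  have h2 : ∀ x, dzb k (fun x => C x * G x) x = dzb k C x * G x + C x * dzb k G x := fun x =>
    dzb_mul ((hC.differentiable (by simp)) x) ((hG.differentiable (by simp)) x) k
  have hs' : HasCompactSupport (dzb k G) :=
    hs.mono' ((subset_tsupport _).trans (tsupport_dzb_subset k G))
  have i1 : Integrable (fun x => dzb k C x * G x) :=
    ((contDiff_dzb hC k).continuous.mul hG.continuous).integrable_of_hasCompactSupport hs.mul_left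
  have i2 : Integrable (fun x => C x * dzb k G x) :=
    (hC.continuous.mul (contDiff_dzb hG k).continuous).integrable_of_hasCompactSupport
      hs'.mul_left
  simp only [h2] at h1
  rw [integral_add i1 i2] at h1
  linear_combination h1

/-- Cauchy-Schwarz. -/
theorem norm_integral_mul_le {A G : Cn n → ℂ} (hA : Continuous A) (hG : Continuous G)
    (hs : HasCompactSupport G) {η : ℝ} (hη : 0 ≤ η) (h : eLpNorm A 2 volume ≤ ENNReal.ofReal η) :
    ‖∫ x, A x * G x‖ ≤ η * √(∫ x, ‖G x‖ ^ 2) := by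
  have := haarCn (n := n)
  have h1 : ‖∫ x, A x * G x‖ₑ ≤ eLpNorm A 2 volume * eLpNorm G 2 volume := by
    refine (enorm_integral_le_lintegral_enorm _).trans ?_
    have h2 := eLpNorm_smul_le_mul_eLpNorm (p := 2) (q := 2) (r := 1) (μ := (volume : Measure (Cn n)))
      hG.aestronglyMeasurable hA.aestronglyMeasurable
    rw [eLpNorm_one_eq_lintegral_enorm] at h2
    simpa [smul_eq_mul] using h2
  have hG2 : MemLp G 2 volume := hG.memLp_of_hasCompactSupport hs
  have h3 : eLpNorm G 2 volume = ENNReal.ofReal √(∫ x, ‖G x‖ ^ 2) := by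
    rw [hG2.eLpNorm_eq_integral_rpow_norm (by simp) (by simp), Real.sqrt_eq_rpow]
    congr 2
    · refine integral_congr_ae (Eventually.of_forall fun x => ?_)
      simp
    · simp
  have h4 : ‖∫ x, A x * G x‖ₑ ≤ ENNReal.ofReal (η * √(∫ x, ‖G x‖ ^ 2)) := by
    rw [ENNReal.ofReal_mul hη, ← h3]
    exact h1.trans (mul_le_mul_left h _)
  rw [← ofReal_norm] at h4
  exact (ENNReal.ofReal_le_ofReal_iff (by positivity)).1 h4


/-- The mollifier is symmetric. -/
theorem integral_mol_mul' {j : Cn n → ℝ} (hj : IsMoll j) {ε : ℝ} (hε : 0 < ε) {u f : Cn n → ℂ}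
    (hu : LocallyIntegrable u volume) (hf : Continuous f) (hc : HasCompactSupport f) :
    ∫ x, mol j ε u x * f x = ∫ x, u x * mol j ε f x := by
  have := haarCn (n := n)
  set B : Set (Cn n) := Metric.cthickening ε (tsupport f) with hB
  have hBc : IsCompact B := hc.isCompact.cthickening
  have hBm : MeasurableSet B := hBc.isClosed.measurableSet
  have hmem : ∀ x ∈ tsupport f, ∀ y, dist y x < ε → y ∈ B := fun x hx y hy =>
    Metric.mem_cthickening_of_dist_le y x ε _ hx hy.le
  have h1 : Integrable (B.indicator u) := by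
    rw [integrable_indicator_iff hBm]
    exact hu.integrableOn_isCompact hBc
  have h2 := integral_mol_mul hj hε h1 hf hc
  have h3 : ∀ x, mol j ε (B.indicator u) x * f x = mol j ε u x * f x := by
    intro x
    by_cases hx : x ∈ tsupport f
    · rw [mol_congr hj hε fun y hy => indicator_of_mem (hmem x hx y (Metric.mem_ball.1 hy)) u]
    · rw [image_eq_zero_of_notMem_tsupport hx, mul_zero, mul_zero]
  have h4 : ∀ x, B.indicator u x * mol j ε f x = u x * mol j ε f x := by
    intro x
    by_cases hx : x ∈ B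
    · rw [indicator_of_mem hx]
    · have h5 : mol j ε f x = 0 := by
        refine mol_eq_zero hj hε fun y hy => image_eq_zero_of_notMem_tsupport fun hyt => hx ?_
        rw [Metric.mem_ball, dist_comm] at hy
        exact hmem y hyt x hy
      rw [h5, mul_zero, mul_zero]
  simpa only [h3, h4] using h2

/-- Moving the mollifier. -/
theorem mol_comm_eq {j : Cn n → ℝ} (hj : IsMoll j) {ε : ℝ} (hε : 0 < ε) {u c G : Cn n → ℂ}
    (hu : LocallyIntegrable u) (hc : ContDiff ℝ ∞ c) (hG : Continuous G)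
    (hs : HasCompactSupport G) :
    ∫ x, mol j ε u x * (c x * G x) =
      (∫ x, u x * (c x * mol j ε G x)) + ∫ x, cm j c u ε x * G x := by
  have := haarCn (n := n)
  have hcu : LocallyIntegrable (fun y => c y * u y) := by
    have h := hu.continuous_smul (g := c) hc.continuous
    simpa [smul_eq_mul] using h
  have h1 : ∫ x, u x * (c x * mol j ε G x) = ∫ x, mol j ε (fun y => c y * u y) x * G x := by
    rw [integral_mol_mul' hj hε hcu hG hs]
    refine integral_congr_ae (Eventually.of_forall fun x => ?_)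
    ring
  have i1 : Integrable (fun x => cm j c u ε x * G x) := by
    refine Continuous.integrable_of_hasCompactSupport ?_ hs.mul_left
    refine Continuous.mul ?_ hG
    exact (hc.continuous.mul (mol_contDiff hj hε hu).continuous).sub
      (mol_contDiff hj hε hcu).continuous
  have i2 : Integrable (fun x => mol j ε (fun y => c y * u y) x * G x) :=
    Continuous.integrable_of_hasCompactSupport
      ((mol_contDiff hj hε hcu).continuous.mul hG) hs.mul_left
  rw [h1, ← integral_add i2 i1]
  refine integral_congr_ae (Eventually.of_forall fun x => ?_)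
  simp only [cm]
  ring

theorem int_sum_sum {A B : Fin n → Fin n → Cn n → ℂ} (hA : ∀ j k, Integrable (A j k))
    (hB : ∀ j k, Integrable (B j k)) :
    ∫ x, ∑ j, ∑ k, (A j k x + B j k x) = ∑ j, ∑ k, ((∫ x, A j k x) + ∫ x, B j k x) := by
  have h : ∀ j k, Integrable (fun x => A j k x + B j k x) := fun j k => (hA j k).add (hB j k)
  rw [integral_finsetSum _ fun j _ => integrable_finsetSum _ fun k _ => h j k]
  refine Finset.sum_congr rfl fun j _ => ?_
  rw [integral_finsetSum _ fun k _ => h j k]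
  exact Finset.sum_congr rfl fun k _ => integral_add (hA j k) (hB j k)

/-- The support of a mollification. -/
theorem tsupport_mol_subset {j : Cn n → ℝ} (hj : IsMoll j) {ε r : ℝ} (hε : 0 < ε) (hr : ε ≤ r)
    {f : Cn n → ℂ} {K : Set (Cn n)} (hs : tsupport f ⊆ K) :
    tsupport (mol j ε f) ⊆ Metric.cthickening r K := by
  refine closure_minimal (fun x hx => ?_) Metric.isClosed_cthickening
  by_contra h
  refine hx (mol_eq_zero hj hε fun y hy => ?_)
  by_contra h2
  refine h ?_
  refine Metric.mem_cthickening_of_dist_le x y r K (hs (subset_tsupport f h2)) ?_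
  rw [dist_comm]
  exact (Metric.mem_ball.1 hy).le.trans hr

/-- **A weak solution has almost weakly harmonic mollifications** -/
theorem chart_reg {U : Set (Cn n)} (hU : IsOpen U) {a : Fin n → Fin n → Cn n → ℂ}
    (ha : ∀ j k, ContDiffOn ℝ ∞ (a j k) U) {K K' : Set (Cn n)} (hK : IsCompact K)
    (hK' : IsCompact K') (hKK : K ⊆ interior K') (hKU : K' ⊆ U) {u : Cn n → ℂ}
    (hu2 : MemLp u 2 volume)
    (hu : ∀ f : Cn n → ℂ, ContDiff ℝ ∞ f → tsupport f ⊆ K' →
      ∫ x, u x * (starRingEnd ℂ) (∑ j, dz j (fun y => ∑ k, a j k y * dzb k f y) x) = 0)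
    {ρ : Cn n → ℝ} (hρ : IsMoll ρ) {δ : ℝ} (hδ : 0 < δ) :
    ∃ ε₀ > 0, ∀ ε ∈ Ioo (0 : ℝ) ε₀, ∀ f : Cn n → ℂ, ContDiff ℝ ∞ f → tsupport f ⊆ K →
      ‖∫ x, mol ρ ε u x * (starRingEnd ℂ) (∑ j, dz j (fun y => ∑ k, a j k y * dzb k f y) x)‖ ≤
        δ * √(∑ k, ∫ x, ‖dzb k f x‖ ^ 2) := by
  have := haarCn (n := n)
  have hul : LocallyIntegrable u := hu2.locallyIntegrable (by norm_num)
  -- the cut-off
  obtain ⟨K₂, hK₂, hK₂a, hK₂U⟩ := exists_compact_between hK' hU hKU
  obtain ⟨χ, hχ1, hχ2, hχ3, hχ4⟩ : ∃ χ : Cn n → ℝ, ContDiff ℝ ∞ χ ∧ HasCompactSupport χ ∧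
      tsupport χ ⊆ U ∧ ∀ x ∈ K', χ =ᶠ[𝓝 x] fun _ => 1 := by
    obtain ⟨χ, h1, h2, -⟩ := exists_contMDiffMap_one_nhds_of_subset_interior (n := (⊤ : ℕ∞))
      (modelWithCornersSelf ℝ (Cn n)) hK'.isClosed hK₂a
    have h3 : tsupport χ ⊆ K₂ := by
      refine closure_minimal (fun x hx => ?_) hK₂.isClosed
      by_contra h
      exact hx (h2 x h)
    exact ⟨χ, χ.contMDiff.contDiff, hK₂.of_isClosed_subset (isClosed_tsupport _) h3,
      h3.trans hK₂U, fun x hx => (Filter.mem_of_superset (nhds_le_nhdsSet hx h1) fun y hy => hy)⟩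
  have hχc : ContDiff ℝ ∞ (fun x => (χ x : ℂ)) := Complex.ofRealCLM.contDiff.comp hχ1
  have hχcs : tsupport (fun x => (χ x : ℂ)) ⊆ tsupport χ := by
    refine closure_mono fun y hy => ?_
    intro h0
    exact hy (by simp [h0])
  have hχcc : HasCompactSupport (fun x => (χ x : ℂ)) :=
    hχ2.of_isClosed_subset (isClosed_tsupport _) hχcs
  let b : Fin n → Fin n → Cn n → ℂ := fun j k y => (χ y : ℂ) * (starRingEnd ℂ) (a j k y)
  have hb : ∀ j k, ContDiff ℝ ∞ (b j k) := fun j k =>
    contDiff_of_support hU (hχc.contDiffOn.mul (Complex.conjCLE.contDiff.comp_contDiffOn (ha j k)))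
      ((tsupport_mul_subset_left (f := fun x => (χ x : ℂ))).trans (hχcs.trans hχ3))
  have hbc : ∀ j k, HasCompactSupport (b j k) := fun j k => hχcc.mul_right
  have hbd : ∀ j k, HasCompactSupport (dzb j (b j k)) := fun j k =>
    (hbc j k).mono' ((subset_tsupport _).trans (tsupport_dzb_subset j _))
  have hab : ∀ j k, ∀ x ∈ K', b j k =ᶠ[𝓝 x] fun y => (starRingEnd ℂ) (a j k y) := by
    intro j k x hx
    filter_upwards [hχ4 x hx] with y hy
    simp [b, hy]
  -- the number ε₀
  set η : ℝ := δ / (2 * (n : ℝ) ^ 2 + 1) with hη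
  have hη0 : 0 < η := by positivity
  have hη1 : 2 * (n : ℝ) ^ 2 * η ≤ δ := by
    rw [hη, mul_div_assoc', div_le_iff₀ (by positivity)]
    nlinarith
  have e1 : ∀ᶠ ε in 𝓝[>] (0 : ℝ), ∀ j k,
      eLpNorm (cm ρ (dzb j (b j k)) u ε) 2 volume ≤ ENNReal.ofReal η ∧
      eLpNorm (dzb j (cm ρ (b j k) u ε)) 2 volume ≤ ENNReal.ofReal η := by
    refine eventually_all.2 fun j => eventually_all.2 fun k => ?_
    have h1 := tendsto_cm hρ (contDiff_dzb (hb j k) j).continuous (hbd j k) hu2
    have h2 := fried_dzb hρ (hb j k) (hbc j k) hu2 j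
    exact (h1.eventually (Iic_mem_nhds (ENNReal.ofReal_pos.2 hη0))).and
      (h2.eventually (Iic_mem_nhds (ENNReal.ofReal_pos.2 hη0)))
  obtain ⟨r, hr, hrK⟩ := hK.exists_cthickening_subset_open isOpen_interior hKK
  have e2 : ∀ᶠ ε in 𝓝[>] (0 : ℝ), ε < r := by
    filter_upwards [Ioo_mem_nhdsGT hr] with ε hε using hε.2
  obtain ⟨ε₀, hε₀, hε₁⟩ := mem_nhdsGT_iff_exists_Ioo_subset.1 (e1.and e2)
  refine ⟨ε₀, hε₀, fun ε hε f hf hfs => ?_⟩
  obtain ⟨hc, hεr⟩ := hε₁ hε
  have hε' : 0 < ε := hε.1
  have hKK' : K ⊆ K' := hKK.trans interior_subset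
  have hfc : HasCompactSupport f := hK.of_isClosed_subset (isClosed_tsupport f) hfs
  set g : Cn n → ℂ := fun y => (starRingEnd ℂ) (f y) with hg
  have hgs : ContDiff ℝ ∞ g := Complex.conjCLE.contDiff.comp hf
  have hgt : tsupport g ⊆ tsupport f := by
    refine closure_mono fun y hy => ?_
    intro h0
    exact hy (by simp [hg, h0])
  have hgc : HasCompactSupport g := hfc.of_isClosed_subset (isClosed_tsupport g) hgt
  have hdz : ∀ k, HasCompactSupport (dz k g) := fun k =>
    hgc.mono' ((subset_tsupport _).trans (tsupport_dz_subset k _))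
  have hddz : ∀ j k, HasCompactSupport (dzb j (dz k g)) := fun j k =>
    (hdz k).mono' ((subset_tsupport _).trans (tsupport_dzb_subset j _))
  have hdzs : ∀ k, ContDiff ℝ ∞ (dz k g) := fun k => contDiff_dz hgs k
  -- the mollified test function
  have hm := mol_contDiff hρ hε' (hgs.continuous.locallyIntegrable (μ := volume))
  set h : Cn n → ℂ := fun y => (starRingEnd ℂ) (mol ρ ε g y) with hh
  have hhs : ContDiff ℝ ∞ h := Complex.conjCLE.contDiff.comp hm
  have hht : tsupport h ⊆ K' := by
    have h1 : tsupport h ⊆ tsupport (mol ρ ε g) := by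
      refine closure_mono fun y hy => ?_
      intro h0
      exact hy (by simp [hh, h0])
    refine h1.trans ?_
    exact (tsupport_mol_subset hρ hε' hεr.le (hgt.trans hfs)).trans (hrK.trans interior_subset)
  have hconj : (fun y => (starRingEnd ℂ) (h y)) = mol ρ ε g := by
    funext y
    simp [hh]
  have hz := hu h hhs hht
  have hmd : ∀ k, dz k (mol ρ ε g) = mol ρ ε (dz k g) := fun k =>
    funext fun x => dz_mol hρ hε' (hgs.of_le (by simp)) hgc k x
  have hmdd : ∀ j k, dzb j (mol ρ ε (dz k g)) = mol ρ ε (dzb j (dz k g)) := fun j k =>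
    funext fun x => dzb_mol hρ hε' ((hdzs k).of_le (by simp)) (hdz k) j x
  simp only [conj_op hU ha hb hKU hab hhs hht, hconj, hmd, hmdd] at hz
  simp only [conj_op hU ha hb hKU hab hf (hfs.trans hKK')]
  change ‖∫ x, mol ρ ε u x * ∑ j, ∑ k, (dzb j (b j k) x * dz k g x +
    b j k x * dzb j (dz k g) x)‖ ≤ _
  have hcb : ∀ j k, LocallyIntegrable (fun y => b j k y * u y) := fun j k => by
    have h := hul.continuous_smul (g := b j k) (hb j k).continuous
    simpa [smul_eq_mul] using h
  have hmu : Continuous (mol ρ ε u) := (mol_contDiff hρ hε' hul).continuous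
  -- integrability
  have i1 : ∀ (j k : Fin n), Integrable (fun x => mol ρ ε u x * (dzb j (b j k) x * dz k g x)) :=
    fun j k => Continuous.integrable_of_hasCompactSupport
      (hmu.mul ((contDiff_dzb (hb j k) j).continuous.mul (hdzs k).continuous))
      (hdz k).mul_left.mul_left
  have i2 : ∀ (j k : Fin n), Integrable (fun x => mol ρ ε u x * (b j k x * dzb j (dz k g) x)) :=
    fun j k => Continuous.integrable_of_hasCompactSupport
      (hmu.mul ((hb j k).continuous.mul (contDiff_dzb (hdzs k) j).continuous))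
      (hddz j k).mul_left.mul_left
  have hint : ∀ {A : Cn n → ℂ}, Continuous A → HasCompactSupport A →
      Integrable (fun x => u x * A x) := by
    intro A hA hAc
    have h := hul.integrable_smul_left_of_hasCompactSupport hA hAc
    refine h.congr (Eventually.of_forall fun x => ?_)
    simp only [smul_eq_mul]
    ring
  have i3 : ∀ (j k : Fin n), Integrable (fun x => u x * (dzb j (b j k) x * mol ρ ε (dz k g) x)) :=
    fun j k => hint ((contDiff_dzb (hb j k) j).continuous.mul (mol_contDiff hρ hε'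
      ((hdzs k).continuous.locallyIntegrable (μ := volume))).continuous) (hbd j k).mul_right
  have i4 : ∀ (j k : Fin n),
      Integrable (fun x => u x * (b j k x * mol ρ ε (dzb j (dz k g)) x)) :=
    fun j k => hint ((hb j k).continuous.mul (mol_contDiff hρ hε'
      ((contDiff_dzb (hdzs k) j).continuous.locallyIntegrable (μ := volume))).continuous)
      (hbc j k).mul_right
  have s1 : ∫ x, mol ρ ε u x * ∑ j, ∑ k, (dzb j (b j k) x * dz k g x +
      b j k x * dzb j (dz k g) x) = ∑ j, ∑ k, ((∫ x, mol ρ ε u x * (dzb j (b j k) x * dz k g x)) +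
        ∫ x, mol ρ ε u x * (b j k x * dzb j (dz k g) x)) := by
    simp only [Finset.mul_sum, mul_add]
    exact int_sum_sum i1 i2
  have s2 : ∑ j, ∑ k, ((∫ x, u x * (dzb j (b j k) x * mol ρ ε (dz k g) x)) +
        ∫ x, u x * (b j k x * mol ρ ε (dzb j (dz k g)) x)) = 0 := by
    rw [← hz]
    simp only [Finset.mul_sum, mul_add]
    exact (int_sum_sum i3 i4).symm
  have s3 : ∀ j k, (∫ x, mol ρ ε u x * (dzb j (b j k) x * dz k g x)) +
        ∫ x, mol ρ ε u x * (b j k x * dzb j (dz k g) x) =
      ((∫ x, u x * (dzb j (b j k) x * mol ρ ε (dz k g) x)) +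
        ∫ x, u x * (b j k x * mol ρ ε (dzb j (dz k g)) x)) +
      ((∫ x, cm ρ (dzb j (b j k)) u ε x * dz k g x) -
        ∫ x, dzb j (cm ρ (b j k) u ε) x * dz k g x) := by
    intro j k
    have hcs : ContDiff ℝ ∞ (cm ρ (b j k) u ε) :=
      ((hb j k).mul (mol_contDiff hρ hε' hul)).sub (mol_contDiff hρ hε' (hcb j k))
    rw [mol_comm_eq hρ hε' hul (contDiff_dzb (hb j k) j) (hdzs k).continuous (hdz k),
      mol_comm_eq hρ hε' hul (hb j k) (contDiff_dzb (hdzs k) j).continuous (hddz j k),
      integral_mul_dzb hcs (hdzs k) (hdz k)]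
    ring
  rw [s1, Finset.sum_congr rfl fun j _ => Finset.sum_congr rfl fun k _ => s3 j k]
  simp only [Finset.sum_add_distrib] at s2 ⊢
  rw [s2, zero_add]
  -- the estimate
  have hk : ∀ k, ∫ x, ‖dz k g x‖ ^ 2 = ∫ x, ‖dzb k f x‖ ^ 2 := by
    intro k
    refine integral_congr_ae (Eventually.of_forall fun x => ?_)
    simp only [hg, dz_conj ((hf.differentiable (by simp)) x), RCLike.norm_conj]
  set S : ℝ := √(∑ k, ∫ x, ‖dzb k f x‖ ^ 2) with hS
  have hkS : ∀ k, √(∫ x, ‖dz k g x‖ ^ 2) ≤ S := by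
    intro k
    rw [hk, hS]
    refine Real.sqrt_le_sqrt ?_
    exact Finset.single_le_sum (f := fun k => ∫ x, ‖dzb k f x‖ ^ 2)
      (fun i _ => integral_nonneg fun x => by positivity) (Finset.mem_univ k)
  have hcm : ∀ {c : Cn n → ℂ}, ContDiff ℝ ∞ c → ContDiff ℝ ∞ (cm ρ c u ε) := by
    intro c hc
    have hcu : LocallyIntegrable (fun y => c y * u y) := by
      have h := hul.continuous_smul (g := c) hc.continuous
      simpa [smul_eq_mul] using h
    exact (hc.mul (mol_contDiff hρ hε' hul)).sub (mol_contDiff hρ hε' hcu)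
  have b1 : ∀ j k, ‖(∫ x, cm ρ (dzb j (b j k)) u ε x * dz k g x) -
      ∫ x, dzb j (cm ρ (b j k) u ε) x * dz k g x‖ ≤ 2 * η * S := by
    intro j k
    refine (norm_sub_le _ _).trans ?_
    have h1 := norm_integral_mul_le (hcm (contDiff_dzb (hb j k) j)).continuous
      (hdzs k).continuous (hdz k) hη0.le (hc j k).1
    have h2 := norm_integral_mul_le (contDiff_dzb (hcm (hb j k)) j).continuous
      (hdzs k).continuous (hdz k) hη0.le (hc j k).2
    have h3 := mul_le_mul_of_nonneg_left (hkS k) hη0.le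
    linarith
  calc _ ≤ ∑ j : Fin n, ∑ k : Fin n, 2 * η * S :=
        norm_sum_le_of_le _ fun j _ => norm_sum_le_of_le _ fun k _ => b1 j k
    _ = 2 * (n : ℝ) ^ 2 * η * S := by
        simp only [Finset.sum_const, Finset.card_univ, Fintype.card_fin, nsmul_eq_mul]
        ring
    _ ≤ δ * S := mul_le_mul_of_nonneg_right hη1 (Real.sqrt_nonneg _)

end Pool.Agent.KRFQ

end
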