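import Pool.Agent.Work.MP_a2bf38_gt.Fu.Q.GlobalB
import Pool.Agent.Work.MP_a2bf38_gt.Fu.Q.Mol
import Pool.Agent.Work.MP_a2bf38_gt.Fu.Q.Wirt

section

/-!
# Local approximation of weakly harmonic functions (helper86)
-/

open scoped ContDiff Topology ComplexOrder Matrix
open Set MeasureTheory Filter Pool.Agent.ToricKRF Pool.Agent.ToricKRF.G Pool.Agent.KRFS

namespace Pool.Agent.KRFQ

variable {M : Type} [TopologicalSpace M] {n : ℕ} {κ : Type}
  {e : κ → OpenPartialHomeomorph M (Cn n)} {V : Set M} {w g : κ → Cn n → ℝ}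

/-- the extension by zero of a function in the chart `c` -/
noncomputable def extz (e : κ → OpenPartialHomeomorph M (Cn n)) (c : κ) (f : Cn n → ℂ) (p : M) : ℂ :=
  open Classical in if p ∈ (e c).source then f (e c p) else 0

theorem extz_of_mem {c : κ} (f : Cn n → ℂ) {p : M} (hp : p ∈ (e c).source) :
    extz e c f p = f (e c p) := by
  simp only [extz, hp, if_true]

theorem extz_of_notMem {c : κ} (f : Cn n → ℂ) {p : M} (hp : p ∉ (e c).source) :
    extz e c f p = 0 := by
  simp only [extz, hp, if_false]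

theorem pb_extz {c : κ} (f : Cn n → ℂ) {z : Cn n} (hz : z ∈ (e c).target) :
    pb e c (extz e c f) z = f z := by
  rw [pb, extz_of_mem f ((e c).map_target hz), (e c).right_inv hz]

theorem extz_zero {c : κ} {f : Cn n → ℂ} {C : Set (Cn n)} (h0 : ∀ z ∉ C, f z = 0) :
    ∀ p ∉ (e c).symm '' C, extz e c f p = 0 := by
  intro p hp
  by_cases hs : p ∈ (e c).source
  · rw [extz_of_mem f hs]
    refine h0 _ fun hC => hp ⟨e c p, hC, (e c).left_inv hs⟩
  · exact extz_of_notMem f hs

/-- the image of a compact set of the target -/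
theorem isCompact_symm_image {c : κ} {C : Set (Cn n)} (hC : IsCompact C) (hCt : C ⊆ (e c).target) :
    IsCompact ((e c).symm '' C) :=
  hC.image_of_continuousOn ((e c).continuousOn_symm.mono hCt)

theorem symm_image_sub {c : κ} {C : Set (Cn n)} (hCt : C ⊆ (e c).target) :
    (e c).symm '' C ⊆ (e c).source := by
  rintro _ ⟨z, hz, rfl⟩
  exact (e c).map_target (hCt hz)

theorem Sm_extz [T2Space M] (he : ∀ c c', HolOn (tr e c c') (dom e c c')) {c : κ} {f : Cn n → ℂ}
    (hf : ContDiff ℝ ∞ f) {C : Set (Cn n)} (hC : IsCompact C) (hCt : C ⊆ (e c).target)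
    (h0 : ∀ z ∉ C, f z = 0) : Sm e (extz e c f) := by
  refine smooth_of_chart he (isCompact_symm_image hC hCt) (symm_image_sub hCt) ?_ (extz_zero h0)
  exact hf.contDiffOn.congr fun z hz => pb_extz f hz

/-! ### The coefficients of the Laplacian -/

/-- the coefficients -/
noncomputable def cof (w g : κ → Cn n → ℝ) (c : κ) (j k : Fin n) (z : Cn n) : ℂ :=
  (w c z : ℂ) * ((Hm (g c) z)ᵀ)⁻¹ j k

/-- the operator `w Δ` -/
noncomputable def opc (w g : κ → Cn n → ℝ) (c : κ) (f : Cn n → ℂ) (z : Cn n) : ℂ :=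
  ∑ j, dz j (fun y => ∑ k, cof w g c j k y * dzb k f y) z

theorem opc_eq (w g : κ → Cn n → ℝ) (c : κ) (f : Cn n → ℂ) {z : Cn n} (hw : w c z ≠ 0) :
    opc w g c f z = (w c z : ℂ) * lapc (w c) (g c) f z := by
  have h1 : (w c z : ℂ) ≠ 0 := by exact_mod_cast hw
  rw [lapc, dv, mul_div_cancel₀ _ h1, opc]
  refine Finset.sum_congr rfl fun j _ => ?_
  congr 1
  funext y
  rw [gradv, Finset.mul_sum]
  exact Finset.sum_congr rfl fun k _ => by rw [cof]; ring

theorem opc_notMem (w g : κ → Cn n → ℝ) (c : κ) {f : Cn n → ℂ} {z : Cn n}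
    (hz : z ∉ tsupport f) : opc w g c f z = 0 := by
  rw [opc]
  refine Finset.sum_eq_zero fun j _ => ?_
  have h1 : (fun y => ∑ k, cof w g c j k y * dzb k f y) =ᶠ[𝓝 z] fun _ => 0 := by
    filter_upwards [(isClosed_tsupport f).isOpen_compl.mem_nhds hz] with y hy
    exact Finset.sum_eq_zero fun k _ => by rw [dzb_of_notMem hy, mul_zero]
  rw [dz_congr h1, dz_const]

theorem L2D.cof_smooth (h : L2D e V w g) (c : κ) (j k : Fin n) :
    ContDiffOn ℝ ∞ (cof w g c j k) (e c).target := by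
  refine (contDiffOn_ofReal (h.w_smooth c)).mul ?_
  refine contDiffOn_inv (fun i l => ?_) (fun x hx => ?_) j k
  · exact contDiffOn_Hm (e c).open_target (h.g_smooth c) l i
  · rw [Matrix.det_transpose]
    exact h.det_ne c hx

/-! ### Integrals in a chart -/

section

variable [MeasurableSpace M] [BorelSpace M] {μ : Measure M}

theorem IsDens.aesm_pb (hμ : IsDens e w μ) (h : L2D e V w g) {c : κ} {u : M → ℂ}
    (hu : AEStronglyMeasurable u μ) :
    AEStronglyMeasurable (pb e c u) (volume.restrict (e c).target) := by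
  have h1 : AEStronglyMeasurable u (μ.restrict (e c).source) := hu.restrict
  rw [hμ.eq c] at h1
  have h2 := h1.comp_aemeasurable (aemeasurable_symm c _)
  refine h2.mono_ac ?_
  refine withDensity_absolutelyContinuous' ?_ ?_
  · exact ((h.w_smooth c).continuousOn.aemeasurable
      (e c).open_target.measurableSet).ennreal_ofReal
  · refine (ae_restrict_iff' (e c).open_target.measurableSet).2 (Eventually.of_forall fun z hz => ?_)
    simpa using h.w_pos c z hz

theorem IsDens.setIntegral_chart (hμ : IsDens e w μ) (h : L2D e V w g) {c : κ} {F : M → ℂ}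
    (hF : AEStronglyMeasurable F μ) {K : Set M} (hK : MeasurableSet K) (hKs : K ⊆ (e c).source) :
    ∫ p in K, F p ∂μ = ∫ z in (e c).target ∩ (e c).symm ⁻¹' K, (w c z : ℂ) * pb e c F z := by
  have h1 : ∫ p in K, F p ∂μ = ∫ p in (e c).source, K.indicator F p ∂μ := by
    rw [setIntegral_indicator hK, inter_eq_self_of_subset_right hKs]
  rw [h1, hμ.integral_chart h (hF.indicator hK).restrict]
  have h2 : ∀ z, (w c z : ℂ) * pb e c (K.indicator F) z =
      ((e c).symm ⁻¹' K).indicator (fun z => (w c z : ℂ) * pb e c F z) z := by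
    intro z
    by_cases hz : (e c).symm z ∈ K
    · rw [indicator_of_mem (show z ∈ (e c).symm ⁻¹' K from hz), pb, indicator_of_mem hz, pb]
    · rw [indicator_of_notMem (show z ∉ (e c).symm ⁻¹' K from hz), pb, indicator_of_notMem hz,
        mul_zero]
  simp only [h2]
  have hm : MeasurableSet ((e c).target ∩ (e c).symm ⁻¹' K) := by
    have := measurableSet_symm_preimage (e := e) c hK
    rwa [inter_comm] at this
  rw [← integral_indicator (e c).open_target.measurableSet, ← integral_indicator hm]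
  refine integral_congr_ae (Eventually.of_forall fun z => ?_)
  simp only [indicator, mem_inter_iff]
  by_cases h3 : z ∈ (e c).target <;> by_cases h4 : z ∈ (e c).symm ⁻¹' K <;> simp [h3, h4]

omit [MeasurableSpace M] [BorelSpace M] in
theorem target_inter_preimage {c : κ} {C : Set (Cn n)} (hCt : C ⊆ (e c).target) :
    (e c).target ∩ (e c).symm ⁻¹' ((e c).symm '' C) = C := by
  ext z
  constructor
  · rintro ⟨hz, y, hy, hyz⟩
    have : y = z := (e c).symm.injOn (hCt hy) hz hyz
    rwa [← this]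
  · exact fun hz => ⟨hCt hz, z, hz, rfl⟩

theorem IsDens.setIntegral_image [T2Space M] (hμ : IsDens e w μ) (h : L2D e V w g) {c : κ}
    {F : M → ℂ} (hF : AEStronglyMeasurable F μ) {C : Set (Cn n)} (hC : IsCompact C)
    (hCt : C ⊆ (e c).target) :
    ∫ p in (e c).symm '' C, F p ∂μ = ∫ z in C, (w c z : ℂ) * pb e c F z := by
  rw [hμ.setIntegral_chart h hF (isCompact_symm_image hC hCt).isClosed.measurableSet
    (symm_image_sub hCt), target_inter_preimage hCt]

theorem IsDens.setIntegral_image_real [T2Space M] (hμ : IsDens e w μ) (h : L2D e V w g) {c : κ}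
    {F : M → ℝ} (hF : AEStronglyMeasurable F μ) {C : Set (Cn n)} (hC : IsCompact C)
    (hCt : C ⊆ (e c).target) :
    ∫ p in (e c).symm '' C, F p ∂μ = ∫ z in C, w c z * F ((e c).symm z) := by
  have hF' : AEStronglyMeasurable (fun p => (F p : ℂ)) μ :=
    Complex.continuous_ofReal.comp_aestronglyMeasurable hF
  have h1 := hμ.setIntegral_image h hF' hC hCt
  rw [integral_complex_ofReal] at h1
  have h2 : ∀ z, (w c z : ℂ) * pb e c (fun p => (F p : ℂ)) z =
      ((w c z * F ((e c).symm z) : ℝ) : ℂ) := by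
    intro z
    rw [pb]
    push_cast
    rfl
  simp only [h2] at h1
  rw [integral_complex_ofReal] at h1
  exact_mod_cast h1

omit [MeasurableSpace M] [BorelSpace M] in
theorem image_symm_image {c : κ} {K : Set M} (hKs : K ⊆ (e c).source) :
    (e c).symm '' (e c '' K) = K := by
  rw [image_image]
  ext p
  constructor
  · rintro ⟨q, hq, rfl⟩
    simp only
    rwa [(e c).left_inv (hKs hq)]
  · exact fun hp => ⟨p, hp, (e c).left_inv (hKs hp)⟩

/-- `u` in a compact part of a chart -/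
theorem IsDens.memLp_loc (hμ : IsDens e w μ) (h : L2D e V w g) {c : κ} {u : M → ℂ}
    (hu : MemLp u 2 μ) {C : Set (Cn n)} (hC : IsCompact C) (hCt : C ⊆ (e c).target) :
    MemLp (C.indicator (pb e c u)) 2 volume := by
  have hCm : MeasurableSet C := hC.isClosed.measurableSet
  have h1 : AEStronglyMeasurable (pb e c u) (volume.restrict C) :=
    (hμ.aesm_pb h hu.1).mono_measure (Measure.restrict_mono hCt le_rfl)
  have h2 : AEStronglyMeasurable (C.indicator (pb e c u)) volume :=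
    (aestronglyMeasurable_indicator_iff hCm).2 h1
  rw [memLp_two_iff_integrable_sq_norm h2]
  have h3 : Integrable (fun p => ‖u p‖ ^ 2) μ := (memLp_two_iff_integrable_sq_norm hu.1).1 hu
  have h4 : Integrable (fun p => ((‖u p‖ ^ 2 : ℝ) : ℂ)) μ := h3.ofReal
  have h5 := (hμ.integrableOn_chart h (c := c) h4.1.restrict).1 h4.integrableOn
  have h6 : IntegrableOn (fun z => (w c z : ℂ) * ((‖pb e c u z‖ ^ 2 : ℝ) : ℂ)) C :=
    IntegrableOn.mono_set h5 hCt
  obtain ⟨m, hm, hmw⟩ : ∃ m : ℝ, 0 < m ∧ ∀ z ∈ C, m ≤ w c z := by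
    rcases C.eq_empty_or_nonempty with he | hne
    · exact ⟨1, one_pos, fun z hz => by simp [he] at hz⟩
    · obtain ⟨z, hz, hmin⟩ := hC.exists_isMinOn hne ((h.w_smooth c).continuousOn.mono hCt)
      exact ⟨w c z, h.w_pos c z (hCt hz), fun y hy => hmin hy⟩
  have h7 : Integrable (C.indicator fun z => m⁻¹ * (w c z * ‖pb e c u z‖ ^ 2)) := by
    rw [integrable_indicator_iff hCm]
    have h8 := h6.norm
    refine (Integrable.const_mul h8 m⁻¹).congr ?_
    refine (ae_restrict_iff' hCm).2 (Eventually.of_forall fun z hz => ?_)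
    simp only [norm_mul, Complex.norm_real, norm_pow, norm_norm]
    rw [Real.norm_eq_abs, abs_of_pos (h.w_pos c z (hCt hz))]
  refine h7.mono' (h2.norm.pow 2) (Eventually.of_forall fun z => ?_)
  by_cases hz : z ∈ C
  · rw [indicator_of_mem hz, indicator_of_mem hz, Real.norm_eq_abs, abs_of_nonneg (by positivity),
      ← mul_assoc]
    have h9 : 1 ≤ m⁻¹ * w c z := by
      rw [inv_mul_eq_div, one_le_div hm]
      exact hmw z hz
    nlinarith [sq_nonneg ‖pb e c u z‖]
  · rw [indicator_of_notMem hz, indicator_of_notMem hz]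
    simp

/-- the weak equation in a chart -/
theorem IsDens.weak_loc [T2Space M] (hμ : IsDens e w μ) (h : L2D e V w g) {c : κ} {u : M → ℂ}
    (hu : AEStronglyMeasurable u μ)
    (hweak : ∀ f, Sm e f → (∃ K, IsCompact K ∧ K ⊆ V ∧ ∀ p ∉ K, f p = 0) →
      ∫ p, u p * (starRingEnd ℂ) (Lap e w g f p) ∂μ = 0)
    {C : Set (Cn n)} (hC : IsCompact C) (hCt : C ⊆ (e c).target) {f : Cn n → ℂ}
    (hf : ContDiff ℝ ∞ f) (hfs : tsupport f ⊆ C) :
    ∫ z, C.indicator (pb e c u) z * (starRingEnd ℂ) (opc w g c f z) = 0 := by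
  have h0 : ∀ z ∉ C, f z = 0 := fun z hz =>
    image_eq_zero_of_notMem_tsupport fun h => hz (hfs h)
  set K : Set M := (e c).symm '' C with hKdef
  have hK : IsCompact K := isCompact_symm_image hC hCt
  have hKs : K ⊆ (e c).source := symm_image_sub hCt
  have hKV : K ⊆ V := hKs.trans (h.sub c)
  have hS : Sm e (extz e c f) := Sm_extz h.holo hf hC hCt h0
  have hz0 : ∀ p ∉ K, extz e c f p = 0 := extz_zero h0
  have hL0 := h.Lap_zero hS hK hz0
  have h1 := hweak _ hS ⟨K, hK, hKV, hz0⟩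
  have hLc : Continuous (Lap e w g (extz e c f)) :=
    (h.Sm_Lap hS).continuous h.cover ((tsupport_sub_of_compact hK hL0).trans hKV)
  have hm : AEStronglyMeasurable
      (fun p => u p * (starRingEnd ℂ) (Lap e w g (extz e c f) p)) μ :=
    hu.mul (Complex.continuous_conj.comp hLc).aestronglyMeasurable
  have h2 : ∫ p in K, u p * (starRingEnd ℂ) (Lap e w g (extz e c f) p) ∂μ = 0 := by
    rw [setIntegral_eq_integral_of_forall_compl_eq_zero fun p hp => by rw [hL0 p hp]; simp]
    exact h1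
  rw [hKdef, hμ.setIntegral_image h hm hC hCt] at h2
  have h3 : ∫ z in C, (w c z : ℂ) * pb e c
      (fun p => u p * (starRingEnd ℂ) (Lap e w g (extz e c f) p)) z =
      -∫ z in C, pb e c u z * (starRingEnd ℂ) (opc w g c f z) := by
    rw [← integral_neg]
    refine setIntegral_congr_fun hC.isClosed.measurableSet fun z hz => ?_
    have hzt := hCt hz
    have e1 : Lap e w g (extz e c f) ((e c).symm z) = -lapc (w c) (g c) f z := by
      have e2 := h.pb_Lap hS hzt
      rw [pb] at e2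
      rw [e2]
      congr 1
      refine lapc_congr ?_
      filter_upwards [(e c).open_target.mem_nhds hzt] with y hy
      exact pb_extz f hy
    simp only [pb]
    rw [e1, opc_eq w g c f (h.w_pos c z hzt).ne']
    simp only [map_neg, map_mul, Complex.conj_ofReal]
    ring
  rw [h3, neg_eq_zero, ← integral_indicator hC.isClosed.measurableSet] at h2
  rw [← h2]
  refine integral_congr_ae (Eventually.of_forall fun z => ?_)
  simp only [indicator]
  split_ifs <;> simp

omit [MeasurableSpace M] [BorelSpace M] [TopologicalSpace M] in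
theorem integral_sq_le {F : Cn n → ℂ} (hF : AEStronglyMeasurable F volume) {η : ℝ}
    (h : eLpNorm F 2 volume ≤ ENNReal.ofReal η) : ∫ x, ‖F x‖ ^ 2 ≤ η ^ 2 := by
  have h1 : ∫⁻ x, ‖F x‖ₑ ^ 2 ≤ ENNReal.ofReal (η ^ 2) := by
    rw [eLpNorm_two] at h
    have h2 := ENNReal.rpow_le_rpow h (z := (2 : ℝ)) (by norm_num)
    rw [← ENNReal.rpow_mul] at h2
    norm_num at h2
    refine h2.trans ?_
    rcases le_total 0 η with hη | hη
    · rw [← ENNReal.ofReal_pow hη]
    · rw [ENNReal.ofReal_of_nonpos hη]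
      simp
  have hm : AEStronglyMeasurable (fun x => ‖F x‖ ^ 2) volume := hF.norm.pow 2
  rw [integral_eq_lintegral_of_nonneg_ae (Eventually.of_forall fun x => sq_nonneg _) hm]
  have h3 : ∀ x, ENNReal.ofReal (‖F x‖ ^ 2) = ‖F x‖ₑ ^ 2 := by
    intro x
    rw [ENNReal.ofReal_pow (norm_nonneg _), ofReal_norm]
  simp only [h3]
  exact ENNReal.toReal_le_of_le_ofReal (sq_nonneg η) h1

theorem aesm_extz {c : κ} {v : Cn n → ℂ} (hv : Continuous v) :
    AEStronglyMeasurable (extz e c v) μ := by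
  have h1 : extz e c v = (e c).source.indicator fun p => v (e c p) := by
    funext p
    by_cases hp : p ∈ (e c).source
    · rw [extz_of_mem v hp, indicator_of_mem hp]
    · rw [extz_of_notMem v hp, indicator_of_notMem hp]
  rw [h1, aestronglyMeasurable_indicator_iff (e c).open_source.measurableSet]
  exact (hv.comp_continuousOn (e c).continuousOn).aestronglyMeasurable
    (e c).open_source.measurableSet

/-- **Local approximation.** -/
theorem IsDens.lemL [T2Space M] (hμ : IsDens e w μ) (h : L2D e V w g) {u : M → ℂ}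
    (hu : MemLp u 2 μ)
    (hweak : ∀ f, Sm e f → (∃ K, IsCompact K ∧ K ⊆ V ∧ ∀ p ∉ K, f p = 0) →
      ∫ p, u p * (starRingEnd ℂ) (Lap e w g f p) ∂μ = 0)
    {c : κ} {K : Set M} (hK : IsCompact K) (hKs : K ⊆ (e c).source) {δ : ℝ} (hδ : 0 < δ) :
    ∃ v : Cn n → ℂ, ContDiff ℝ ∞ v ∧ ∫ p in K, ‖extz e c v p - u p‖ ^ 2 ∂μ ≤ δ ^ 2 ∧
      ∀ f, Sm e f → (∀ p ∉ K, f p = 0) →
        ‖∫ p, extz e c v p * (starRingEnd ℂ) (Lap e w g f p) ∂μ‖ ≤
          δ * √(∫ p, (gam e g f f p).re ∂μ) := by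
  set C₀ : Set (Cn n) := e c '' K with hC₀def
  have hC₀ : IsCompact C₀ := hK.image_of_continuousOn ((e c).continuousOn.mono hKs)
  have hC₀t : C₀ ⊆ (e c).target := by
    rintro _ ⟨p, hp, rfl⟩
    exact (e c).map_source (hKs hp)
  have hC₀K : (e c).symm '' C₀ = K := image_symm_image hKs
  have hKV : K ⊆ V := hKs.trans (h.sub c)
  obtain ⟨C, hC, hC₀C, hCt⟩ := exists_compact_between hC₀ (e c).open_target hC₀t
  have hC₀C' : C₀ ⊆ C := hC₀C.trans interior_subset
  have hũ := hμ.memLp_loc h hu hC hCt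
  set ũ := C.indicator (pb e c u) with hũdef
  obtain ⟨ρ, hρ⟩ := exists_moll n
  -- bounds on `C₀`
  have hwc : ContinuousOn (w c) C₀ := (h.w_smooth c).continuousOn.mono hC₀t
  obtain ⟨W, hW⟩ := hC₀.exists_bound_of_continuousOn hwc
  obtain ⟨m, hm, hmw⟩ : ∃ m : ℝ, 0 < m ∧ ∀ z ∈ C₀, m ≤ w c z := by
    rcases C₀.eq_empty_or_nonempty with he | hne
    · exact ⟨1, one_pos, fun z hz => by simp [he] at hz⟩
    · obtain ⟨z, hz, hmin⟩ := hC₀.exists_isMinOn hne hwc
      exact ⟨w c z, h.w_pos c z (hC₀t hz), fun y hy => hmin hy⟩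
  have htc : ContinuousOn (fun z => ∑ k, (Hm (g c) z k k).re) C₀ := by
    refine continuousOn_finsetSum _ fun k _ => ?_
    exact Complex.continuous_re.comp_continuousOn
      ((contDiffOn_Hm (e c).open_target (h.g_smooth c) k k).continuousOn.mono hC₀t)
  obtain ⟨T, hT⟩ := hC₀.exists_bound_of_continuousOn htc
  set B : ℝ := |T| / m with hB
  have hB0 : 0 ≤ B := by positivity
  -- the regularization
  have hδ' : 0 < δ / (√B + 1) := by positivity
  obtain ⟨ε₀, hε₀, hreg⟩ := chart_reg (e c).open_target (h.cof_smooth c) hC₀ hC hC₀C hCt hũ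
    (fun f hf hfs => hμ.weak_loc h hu.1 hweak hC hCt hf hfs) hρ hδ'
  have hη : 0 < δ / (√|W| + 1) := by positivity
  have hev : ∀ᶠ ε in 𝓝[>] (0 : ℝ), eLpNorm (fun x => mol ρ ε ũ x - ũ x) 2 volume ≤
      ENNReal.ofReal (δ / (√|W| + 1)) := by
    have h1 := tendsto_mol hρ hũ
    exact (h1.eventually (gt_mem_nhds (ENNReal.ofReal_pos.2 hη))).mono fun ε hε => hε.le
  obtain ⟨ε, hε1, hε2⟩ : ∃ ε ∈ Ioo 0 ε₀, eLpNorm (fun x => mol ρ ε ũ x - ũ x) 2 volume ≤
      ENNReal.ofReal (δ / (√|W| + 1)) := by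
    have h1 : ∀ᶠ ε in 𝓝[>] (0 : ℝ), ε ∈ Ioo 0 ε₀ := Ioo_mem_nhdsGT hε₀
    exact (h1.and hev).exists
  have hloc : LocallyIntegrable ũ volume := loc_of_memLp hũ
  have hvs : ContDiff ℝ ∞ (mol ρ ε ũ) := mol_contDiff hρ hε1.1 hloc
  refine ⟨mol ρ ε ũ, hvs, ?_, fun f hf h0 => ?_⟩
  · -- the distance to `u`
    have hm1 : AEStronglyMeasurable (fun p => ‖extz e c (mol ρ ε ũ) p - u p‖ ^ 2) μ :=
      ((aesm_extz hvs.continuous).sub hu.1).norm.pow 2
    have h1 := hμ.setIntegral_image_real h hm1 hC₀ hC₀t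
    rw [hC₀K] at h1
    rw [h1]
    have hsm : AEStronglyMeasurable (fun x => mol ρ ε ũ x - ũ x) volume :=
      hvs.continuous.aestronglyMeasurable.sub hũ.1
    have h2 := integral_sq_le hsm hε2
    have hint : Integrable (fun x => ‖mol ρ ε ũ x - ũ x‖ ^ 2) volume := by
      have h3 : MemLp (fun x => mol ρ ε ũ x - ũ x) 2 volume :=
        ⟨hsm, hε2.trans_lt ENNReal.ofReal_lt_top⟩
      exact (memLp_two_iff_integrable_sq_norm hsm).1 h3
    have h3 : ∫ z in C₀, w c z * ‖extz e c (mol ρ ε ũ) ((e c).symm z) - u ((e c).symm z)‖ ^ 2 ≤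
        ∫ z in C₀, |W| * ‖mol ρ ε ũ z - ũ z‖ ^ 2 := by
      refine integral_mono_of_nonneg ?_ (hint.const_mul _).integrableOn ?_
      · refine (ae_restrict_iff' hC₀.isClosed.measurableSet).2 (Eventually.of_forall fun z hz => ?_)
        have := (h.w_pos c z (hC₀t hz)).le
        simp only [Pi.zero_apply]
        positivity
      · refine (ae_restrict_iff' hC₀.isClosed.measurableSet).2 (Eventually.of_forall fun z hz => ?_)
        have e1 : extz e c (mol ρ ε ũ) ((e c).symm z) = mol ρ ε ũ z := pb_extz _ (hC₀t hz)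
        have e2 : u ((e c).symm z) = ũ z := by
          rw [hũdef, indicator_of_mem (hC₀C' hz), pb]
        simp only
        rw [e1, e2]
        have e3 : w c z ≤ |W| := by
          have := hW z hz
          rw [Real.norm_eq_abs] at this
          exact ((le_abs_self _).trans this).trans (le_abs_self W)
        exact mul_le_mul_of_nonneg_right e3 (by positivity)
    have h4 : ∫ z in C₀, |W| * ‖mol ρ ε ũ z - ũ z‖ ^ 2 ≤ |W| * (δ / (√|W| + 1)) ^ 2 := by
      rw [integral_const_mul]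
      refine mul_le_mul_of_nonneg_left ?_ (abs_nonneg W)
      exact (setIntegral_le_integral hint (Eventually.of_forall fun z => by positivity)).trans h2
    have h5 : |W| * (δ / (√|W| + 1)) ^ 2 ≤ δ ^ 2 := by
      have e1 : |W| = √|W| ^ 2 := (Real.sq_sqrt (abs_nonneg W)).symm
      have e2 : 0 ≤ √|W| := Real.sqrt_nonneg _
      have e3 : |W| * (δ / (√|W| + 1)) ^ 2 = (√|W| / (√|W| + 1)) ^ 2 * δ ^ 2 := by
        conv_lhs => rw [e1]
        rw [Real.sqrt_sq e2]
        field_simp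
      rw [e3]
      have e4 : √|W| / (√|W| + 1) ≤ 1 := by
        rw [div_le_one (by positivity)]
        linarith
      have e5 : (√|W| / (√|W| + 1)) ^ 2 ≤ 1 := pow_le_one₀ (by positivity) e4
      nlinarith [sq_nonneg δ]
    linarith
  · -- the weak equation
    obtain ⟨η, hηs, hηc, hηt, hηK, hη1, hη2⟩ := exists_ext hf hK hKs h0
    have hL0 := h.Lap_zero hf hK h0
    have hLc : Continuous (Lap e w g f) :=
      (h.Sm_Lap hf).continuous h.cover ((tsupport_sub_of_compact hK hL0).trans hKV)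
    have hm1 : AEStronglyMeasurable
        (fun p => extz e c (mol ρ ε ũ) p * (starRingEnd ℂ) (Lap e w g f p)) μ :=
      (aesm_extz hvs.continuous).mul (Complex.continuous_conj.comp hLc).aestronglyMeasurable
    have h1 : ∫ p, extz e c (mol ρ ε ũ) p * (starRingEnd ℂ) (Lap e w g f p) ∂μ =
        -∫ z, mol ρ ε ũ z * (starRingEnd ℂ) (opc w g c η z) := by
      rw [← setIntegral_eq_integral_of_forall_compl_eq_zero (s := K)
        fun p hp => by rw [hL0 p hp]; simp]
      have h2 := hμ.setIntegral_image h hm1 hC₀ hC₀t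
      rw [hC₀K] at h2
      have h3 : ∫ z in C₀, -(mol ρ ε ũ z * (starRingEnd ℂ) (opc w g c η z)) =
          ∫ z, -(mol ρ ε ũ z * (starRingEnd ℂ) (opc w g c η z)) :=
        setIntegral_eq_integral_of_forall_compl_eq_zero fun z hz => by
          rw [opc_notMem w g c fun hh => hz (hηK hh)]; simp
      rw [h2, ← integral_neg, ← h3]
      refine setIntegral_congr_fun hC₀.isClosed.measurableSet fun z hz => ?_
      have hzt := hC₀t hz
      have e1 : Lap e w g f ((e c).symm z) = -lapc (w c) (g c) η z := by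
        have e2 := h.pb_Lap hf hzt
        rw [pb] at e2
        rw [e2]
        congr 1
        refine lapc_congr ?_
        filter_upwards [(e c).open_target.mem_nhds hzt] with y hy
        exact (hη1 y hy).symm
      have e2 : extz e c (mol ρ ε ũ) ((e c).symm z) = mol ρ ε ũ z := pb_extz _ hzt
      simp only [pb]
      rw [e1, e2, opc_eq w g c η (h.w_pos c z hzt).ne']
      simp only [map_neg, map_mul, Complex.conj_ofReal]
      ring
    have h2 := hreg ε hε1 η hηs hηK
    -- the energy of `η`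
    have hgc : Continuous fun p => (gam e g f f p).re := by
      have h3 := h.gam_zero hf hf hK (Or.inl h0)
      exact Complex.continuous_re.comp ((h.Sm_gam hf hf).continuous h.cover
        ((tsupport_sub_of_compact hK h3).trans hKV))
    have h3 : ∫ p, (gam e g f f p).re ∂μ = ∫ z in C₀, w c z * (gamc (g c) η η z).re := by
      have h4 := hμ.setIntegral_image_real h hgc.aestronglyMeasurable (μ := μ) hC₀ hC₀t
      rw [hC₀K, setIntegral_eq_integral_of_forall_compl_eq_zero fun p hp => by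
        rw [h.gam_zero hf hf hK (Or.inl h0) p hp, Complex.zero_re]] at h4
      rw [h4]
      refine setIntegral_congr_fun hC₀.isClosed.measurableSet fun z hz => ?_
      have e1 := h.pb_gam hf hf (hC₀t hz)
      rw [pb] at e1
      rw [e1]
      congr 2
      have e2 : pb e c f =ᶠ[𝓝 z] η := by
        filter_upwards [(e c).open_target.mem_nhds (hC₀t hz)] with y hy
        exact (hη1 y hy).symm
      exact gamc_congr e2 e2
    have hdz : ∀ k, Integrable (fun x => ‖dzb k η x‖ ^ 2) := by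
      intro k
      have h4 : HasCompactSupport (dzb k η) :=
        hηc.mono' ((subset_tsupport _).trans (tsupport_dzb_subset k η))
      have h5 : HasCompactSupport fun x => ‖dzb k η x‖ ^ 2 := by
        refine HasCompactSupport.intro h4 fun x hx => ?_
        rw [image_eq_zero_of_notMem_tsupport hx, norm_zero]
        norm_num
      exact ((contDiff_dzb hηs k).continuous.norm.pow 2).integrable_of_hasCompactSupport h5
    have hgi : IntegrableOn (fun z => w c z * (gamc (g c) η η z).re) C₀ := by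
      refine ContinuousOn.integrableOn_compact hC₀ ?_
      have e0 : ContDiffOn ℝ ∞ (gamc (g c) η η) (e c).target := by
        unfold gamc
        refine ContDiffOn.sum fun j _ => ContDiffOn.mul ?_ (contDiffOn_conj
          (contDiff_dzb hηs j).contDiffOn)
        exact contDiffOn_gradv (e c).open_target (h.g_smooth c) (fun x hx => h.det_ne c hx)
          hηs.contDiffOn j
      exact hwc.mul (Complex.continuous_re.comp_continuousOn (e0.continuousOn.mono hC₀t))
    have h4 : ∑ k, ∫ x, ‖dzb k η x‖ ^ 2 ≤ B * ∫ p, (gam e g f f p).re ∂μ := by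
      rw [← integral_finsetSum _ fun k _ => hdz k, h3, ← integral_const_mul,
        ← setIntegral_eq_integral_of_forall_compl_eq_zero (s := C₀) fun z hz =>
          Finset.sum_eq_zero fun k _ => by
            rw [dzb_of_notMem fun hh => hz (hηK hh)]; simp]
      refine setIntegral_mono_on (integrable_finsetSum _ fun k _ => hdz k).integrableOn
        (hgi.const_mul B) hC₀.isClosed.measurableSet fun z hz => ?_
      have e1 := sum_dzb_le (h.posDef c (hC₀t hz)) η
      have e2 : 0 ≤ (gamc (g c) η η z).re := gamc_self_nonneg (h.posDef c (hC₀t hz)) η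
      have e3 : ∑ k, (Hm (g c) z k k).re ≤ |T| := by
        have := hT z hz
        rw [Real.norm_eq_abs] at this
        exact ((le_abs_self _).trans this).trans (le_abs_self T)
      have e4 : (1 : ℝ) ≤ w c z / m := by
        rw [le_div_iff₀ hm, one_mul]
        exact hmw z hz
      calc ∑ k, ‖dzb k η z‖ ^ 2 ≤ (∑ k, (Hm (g c) z k k).re) * (gamc (g c) η η z).re := e1
        _ ≤ |T| * (gamc (g c) η η z).re := mul_le_mul_of_nonneg_right e3 e2
        _ ≤ |T| * (gamc (g c) η η z).re * (w c z / m) := by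
            have : 0 ≤ |T| * (gamc (g c) η η z).re := mul_nonneg (abs_nonneg T) e2
            nlinarith
        _ = B * (w c z * (gamc (g c) η η z).re) := by
            rw [hB]
            ring
    have hG0 : 0 ≤ ∫ p, (gam e g f f p).re ∂μ := integral_nonneg fun p => h.gam_nonneg hf p
    rw [h1, norm_neg]
    calc ‖∫ z, mol ρ ε ũ z * (starRingEnd ℂ) (opc w g c η z)‖
        ≤ δ / (√B + 1) * √(∑ k, ∫ x, ‖dzb k η x‖ ^ 2) := h2
      _ ≤ δ / (√B + 1) * (√B * √(∫ p, (gam e g f f p).re ∂μ)) := by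
          refine mul_le_mul_of_nonneg_left ?_ hδ'.le
          rw [← Real.sqrt_mul hB0]
          exact Real.sqrt_le_sqrt h4
      _ = δ * (√B / (√B + 1)) * √(∫ p, (gam e g f f p).re ∂μ) := by ring
      _ ≤ δ * 1 * √(∫ p, (gam e g f f p).re ∂μ) := by
          have e1 : √B / (√B + 1) ≤ 1 := by
            rw [div_le_one (by positivity)]
            linarith
          gcongr
      _ = _ := by rw [mul_one]

end

end Pool.Agent.KRFQ

end

section

/-!
# `∂` and `∂bar` of a function with compact support (helper39)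
-/

open scoped ContDiff Topology ComplexOrder Matrix
open Set MeasureTheory Filter Pool.Agent.ToricKRF Pool.Agent.ToricKRF.G Pool.Agent.KRFS

namespace Pool.Agent.KRFQ

/-! ### The chart -/

section

variable {n : ℕ}

/-- The entries of the inverse matrix. -/
noncomputable def ubd (g : Cn n → ℝ) (z : Cn n) : ℝ := ∑ j, ∑ k, ‖((Hm g z)ᵀ)⁻¹ j k‖

theorem gamc_re_le (g : Cn n → ℝ) (f : Cn n → ℂ) (z : Cn n) :
    (gamc g f f z).re ≤ ubd g z * ∑ k, ‖dzb k f z‖ ^ 2 := by
  set S : ℝ := ∑ k, ‖dzb k f z‖ ^ 2 with hS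
  have hle : ∀ k, ‖dzb k f z‖ ^ 2 ≤ S := fun k =>
    Finset.single_le_sum (f := fun k => ‖dzb k f z‖ ^ 2) (fun i _ => sq_nonneg _)
      (Finset.mem_univ k)
  have hprod : ∀ j k, ‖dzb k f z‖ * ‖dzb j f z‖ ≤ S := by
    intro j k
    have h1 := hle j
    have h2 := hle k
    nlinarith [sq_nonneg (‖dzb k f z‖ - ‖dzb j f z‖)]
  calc (gamc g f f z).re ≤ ‖gamc g f f z‖ := Complex.re_le_norm _
    _ ≤ ∑ j, ‖gradv g f z j * (starRingEnd ℂ) (dzb j f z)‖ := norm_sum_le _ _
    _ ≤ ∑ j, ∑ k, ‖((Hm g z)ᵀ)⁻¹ j k‖ * S := by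
        refine Finset.sum_le_sum fun j _ => ?_
        rw [norm_mul, RCLike.norm_conj, gradv]
        refine (mul_le_mul_of_nonneg_right (norm_sum_le _ _) (norm_nonneg _)).trans ?_
        rw [Finset.sum_mul]
        refine Finset.sum_le_sum fun k _ => ?_
        rw [norm_mul, mul_assoc]
        exact mul_le_mul_of_nonneg_left (hprod j k) (norm_nonneg _)
    _ = ubd g z * S := by
        rw [ubd, Finset.sum_mul]
        exact Finset.sum_congr rfl fun j _ => by rw [Finset.sum_mul]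

theorem ubd_nonneg (g : Cn n → ℝ) (z : Cn n) : 0 ≤ ubd g z :=
  Finset.sum_nonneg fun _ _ => Finset.sum_nonneg fun _ _ => norm_nonneg _

theorem continuousOn_ubd {g : Cn n → ℝ} {U : Set (Cn n)} (hU : IsOpen U)
    (hg : ContDiffOn ℝ ∞ g U) (hd : ∀ x ∈ U, (Hm g x).det ≠ 0) : ContinuousOn (ubd g) U := by
  unfold ubd
  refine continuousOn_finsetSum _ fun j _ => continuousOn_finsetSum _ fun k _ => ?_
  refine ContinuousOn.norm (ContDiffOn.continuousOn (𝕜 := ℝ) (n := ∞) ?_)
  refine contDiffOn_inv (A := fun x => (Hm g x)ᵀ) (fun i l => ?_) (fun x hx => ?_) j k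
  · exact contDiffOn_Hm hU hg l i
  · rw [Matrix.det_transpose]
    exact hd x hx

/-- The trace of the metric. -/
noncomputable def trm (g : Cn n → ℝ) (z : Cn n) : ℝ := ∑ k, (Hm g z k k).re

theorem continuousOn_trm {g : Cn n → ℝ} {U : Set (Cn n)} (hU : IsOpen U)
    (hg : ContDiffOn ℝ ∞ g U) : ContinuousOn (trm g) U := by
  unfold trm
  refine continuousOn_finsetSum _ fun k _ => ?_
  exact Complex.continuous_re.comp_continuousOn (contDiffOn_Hm hU hg k k).continuousOn

end

/-! ### The manifold -/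

section

variable {M : Type} [TopologicalSpace M] {n : ℕ} {κ : Type}
  {e : κ → OpenPartialHomeomorph M (Cn n)} {V : Set M} {w g : κ → Cn n → ℝ}

theorem L2D.gam_add_re_le (h : L2D e V w g) {f f' : M → ℂ} (hf : Sm e f) (hf' : Sm e f') (p : M) :
    (gam e g (fun q => f q + f' q) (fun q => f q + f' q) p).re ≤
      2 * (gam e g f f p).re + 2 * (gam e g f' f' p).re := by
  have h1 : gam e g (fun q => f q + f' q) (fun q => f q + f' q) p =
      gam e g f f p + gam e g f f' p + (gam e g f' f p + gam e g f' f' p) := by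
    rw [h.gam_add_left hf hf' (hf.add hf'), h.gam_add_right hf hf hf', h.gam_add_right hf' hf hf']
  have h2 : ‖gam e g f f' p‖ ≤ ((gam e g f f p).re + (gam e g f' f' p).re) / 2 := by
    have h3 := h.norm_gam_sq_le hf hf' p
    have h4 := h.gam_nonneg hf p
    have h5 := h.gam_nonneg hf' p
    refine abs_le_of_sq_le_sq' ?_ (by positivity) |>.2
    nlinarith [sq_nonneg ((gam e g f f p).re - (gam e g f' f' p).re)]
  have h3 : (gam e g f f' p).re ≤ ‖gam e g f f' p‖ := Complex.re_le_norm _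
  have h4 : (gam e g f' f p).re = (gam e g f f' p).re := by
    rw [← h.gam_conj hf hf' p, Complex.conj_re]
  rw [h1]
  simp only [Complex.add_re]
  rw [h4]
  linarith

theorem L2D.gam_mul_re_le (h : L2D e V w g) {χ f : M → ℂ} (hχ : Sm e χ) (hf : Sm e f) (p : M) :
    (gam e g (fun q => χ q * f q) (fun q => χ q * f q) p).re ≤
      2 * ‖χ p‖ ^ 2 * (gam e g f f p).re + 2 * ‖f p‖ ^ 2 * (gam e g χ χ p).re := by
  have hm : Sm e (fun q => χ q * f q) := hχ.mul hf
  have h1 : gam e g (fun q => χ q * f q) (fun q => χ q * f q) p =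
      (χ p * (starRingEnd ℂ) (χ p)) * gam e g f f p +
      (χ p * (starRingEnd ℂ) (f p) * gam e g f χ p +
        f p * (starRingEnd ℂ) (χ p) * gam e g χ f p) +
      (f p * (starRingEnd ℂ) (f p)) * gam e g χ χ p := by
    rw [h.gam_mul_left hχ hf hm, h.gam_mul_right hχ hf hf, h.gam_mul_right hχ hχ hf]
    ring
  have e1 : ((χ p * (starRingEnd ℂ) (χ p)) * gam e g f f p).re = ‖χ p‖ ^ 2 * (gam e g f f p).re := by
    rw [Complex.mul_conj, Complex.re_ofReal_mul, Complex.normSq_eq_norm_sq]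
  have e2 : ((f p * (starRingEnd ℂ) (f p)) * gam e g χ χ p).re = ‖f p‖ ^ 2 * (gam e g χ χ p).re := by
    rw [Complex.mul_conj, Complex.re_ofReal_mul, Complex.normSq_eq_norm_sq]
  have e3 : (χ p * (starRingEnd ℂ) (f p) * gam e g f χ p +
      f p * (starRingEnd ℂ) (χ p) * gam e g χ f p).re ≤
      2 * (‖χ p‖ * ‖f p‖ * ‖gam e g f χ p‖) := by
    have h4 : gam e g χ f p = (starRingEnd ℂ) (gam e g f χ p) := (h.gam_conj hf hχ p).symm
    refine (Complex.re_le_norm _).trans ((norm_add_le _ _).trans ?_)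
    rw [h4, norm_mul, norm_mul, norm_mul, norm_mul, RCLike.norm_conj, RCLike.norm_conj,
      RCLike.norm_conj]
    linarith [mul_comm ‖f p‖ ‖χ p‖]
  have h3 := h.norm_gam_sq_le hf hχ p
  have h4 := h.gam_nonneg hf p
  have h5 := h.gam_nonneg hχ p
  have h6 : 2 * (‖χ p‖ * ‖f p‖ * ‖gam e g f χ p‖) ≤
      ‖χ p‖ ^ 2 * (gam e g f f p).re + ‖f p‖ ^ 2 * (gam e g χ χ p).re := by
    have h7 : (‖χ p‖ * ‖f p‖ * ‖gam e g f χ p‖) ^ 2 ≤
        (‖χ p‖ ^ 2 * (gam e g f f p).re) * (‖f p‖ ^ 2 * (gam e g χ χ p).re) := by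
      calc (‖χ p‖ * ‖f p‖ * ‖gam e g f χ p‖) ^ 2 =
          (‖χ p‖ ^ 2 * ‖f p‖ ^ 2) * ‖gam e g f χ p‖ ^ 2 := by ring
        _ ≤ (‖χ p‖ ^ 2 * ‖f p‖ ^ 2) * ((gam e g f f p).re * (gam e g χ χ p).re) :=
            mul_le_mul_of_nonneg_left h3 (by positivity)
        _ = _ := by ring
    set a := ‖χ p‖ ^ 2 * (gam e g f f p).re with ha
    set b := ‖f p‖ ^ 2 * (gam e g χ χ p).re with hb
    have ha0 : 0 ≤ a := by positivity
    have hb0 : 0 ≤ b := by positivity
    refine abs_le_of_sq_le_sq' ?_ (by positivity) |>.2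
    nlinarith [sq_nonneg (a - b)]
  rw [h1, Complex.add_re, Complex.add_re, e1, e2]
  linarith

theorem L2D.gam_sum_re_le (h : L2D e V w g) {ι : Type*} (s : Finset ι) {F : ι → M → ℂ}
    (hF : ∀ i, Sm e (F i)) (p : M) :
    (gam e g (fun q => ∑ i ∈ s, F i q) (fun q => ∑ i ∈ s, F i q) p).re ≤
      2 ^ s.card * ∑ i ∈ s, (gam e g (F i) (F i) p).re := by
  classical
  induction s using Finset.induction_on with
  | empty =>
      have hc0 : Sm e (fun _ : M => (0 : ℂ)) := Sm.const 0
      have h1 := h.gam_mul_left hc0 hc0 hc0 p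
      simp only [mul_zero, zero_mul, add_zero] at h1
      simp [h1]
  | insert i s hi ih =>
      have hs : Sm e (fun q => ∑ i ∈ s, F i q) := Sm.sum fun i _ => hF i
      have h1 := h.gam_add_re_le (hF i) hs p
      simp only [Finset.sum_insert hi, Finset.card_insert_of_notMem hi]
      have h2 : 0 ≤ (gam e g (F i) (F i) p).re := h.gam_nonneg (hF i) p
      have h3 : (1 : ℝ) ≤ 2 ^ s.card := one_le_pow₀ (by norm_num)
      calc (gam e g (fun q => F i q + ∑ i ∈ s, F i q) (fun q => F i q + ∑ i ∈ s, F i q) p).re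
          ≤ 2 * (gam e g (F i) (F i) p).re +
            2 * (gam e g (fun q => ∑ i ∈ s, F i q) (fun q => ∑ i ∈ s, F i q) p).re := h1
        _ ≤ 2 * (gam e g (F i) (F i) p).re +
            2 * (2 ^ s.card * ∑ i ∈ s, (gam e g (F i) (F i) p).re) := by linarith
        _ ≤ 2 ^ (s.card + 1) * ((gam e g (F i) (F i) p).re +
            ∑ i ∈ s, (gam e g (F i) (F i) p).re) := by
            rw [pow_succ]
            nlinarith

section

variable [MeasurableSpace M] [BorelSpace M] {μ : Measure M}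

theorem IsDens.integrable_Sm [T2Space M] (hμ : IsDens e w μ) (h : L2D e V w g) {F : M → ℂ}
    (hF : Sm e F) {K : Set M} (hK : IsCompact K) (hKV : K ⊆ V) (h0 : ∀ p ∉ K, F p = 0) :
    Integrable F μ :=
  hμ.integrable h hK hKV (Sm.continuous (V := V) h.cover hF
    ((tsupport_sub_of_compact hK h0).trans hKV)) h0

theorem IsDens.integrable_gam_re [T2Space M] (hμ : IsDens e w μ) (h : L2D e V w g) {f : M → ℂ}
    (hf : Sm e f) {K : Set M} (hK : IsCompact K) (hKV : K ⊆ V) (h0 : ∀ p ∉ K, f p = 0) :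
    Integrable (fun p => (gam e g f f p).re) μ :=
  (hμ.integrable_Sm h (h.Sm_gam hf hf) hK hKV (h.gam_zero hf hf hK (Or.inl h0))).re

theorem IsDens.integrable_norm_sq [T2Space M] (hμ : IsDens e w μ) (h : L2D e V w g) {f : M → ℂ}
    (hf : Sm e f) {K : Set M} (hK : IsCompact K) (hKV : K ⊆ V) (h0 : ∀ p ∉ K, f p = 0) :
    Integrable (fun p => ‖f p‖ ^ 2) μ := by
  have h1 := (hμ.integrable_Sm h (hf.mul hf.conj) hK hKV
    (fun p hp => by rw [h0 p hp, zero_mul])).re
  refine h1.congr (Eventually.of_forall fun p => ?_)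
  change (f p * (starRingEnd ℂ) (f p)).re = ‖f p‖ ^ 2
  rw [Complex.mul_conj, Complex.ofReal_re, Complex.normSq_eq_norm_sq]

/-- The integral of the gradient form in a chart. -/
theorem IsDens.integral_gam_chart [T2Space M] (hμ : IsDens e w μ) (h : L2D e V w g) {c : κ}
    {K : Set M} (hK : IsCompact K) (hKs : K ⊆ (e c).source) {F : M → ℂ} (hF : Sm e F)
    (h0 : ∀ p ∉ K, F p = 0) :
    ∫ p, (gam e g F F p).re ∂μ =
      ∫ z in (e c).target, w c z * (gamc (g c) (pb e c F) (pb e c F) z).re := by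
  have hKV : K ⊆ V := hKs.trans (h.sub c)
  have hg0 := h.gam_zero hF hF hK (Or.inl h0)
  have hc : Continuous (gam e g F F) := Sm.continuous (V := V) h.cover (h.Sm_gam hF hF)
    ((tsupport_sub_of_compact hK hg0).trans hKV)
  have hi : Integrable (gam e g F F) μ := hμ.integrable h hK hKV hc hg0
  have e1 : ∫ p, (gam e g F F p).re ∂μ = (∫ p, gam e g F F p ∂μ).re := by
    have := integral_re hi
    simpa only [RCLike.re_to_complex] using this
  have hcs : ∀ p ∉ (e c).source, gam e g F F p = 0 := fun p hp => hg0 p fun hm => hp (hKs hm)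
  have hi2 : IntegrableOn (fun z => (w c z : ℂ) * pb e c (gam e g F F) z) (e c).target :=
    (hμ.integrableOn_chart h hc.aestronglyMeasurable).1 hi.integrableOn
  rw [e1, hμ.integral_eq h hc hcs]
  have e2 := integral_re hi2
  simp only [RCLike.re_to_complex] at e2
  rw [← e2]
  refine setIntegral_congr_fun (e c).open_target.measurableSet fun z hz => ?_
  simp only [Complex.re_ofReal_mul]
  rw [h.pb_gam hF hF hz]

/-- The estimate in a chart. -/
theorem IsDens.chart_N [T2Space M] (hμ : IsDens e w μ) (h : L2D e V w g) {c : κ}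
    {K : Set M} (hK : IsCompact K) (hKs : K ⊆ (e c).source) :
    ∃ C, 0 ≤ C ∧ ∀ F : M → ℂ, Sm e F → (∀ p ∉ K, F p = 0) →
      ∫ p, (gam e g (fun q => (starRingEnd ℂ) (F q)) (fun q => (starRingEnd ℂ) (F q)) p).re ∂μ ≤
        C * ∫ p, (gam e g F F p).re ∂μ := by
  set L : Set (Cn n) := e c '' K with hL
  have hLc : IsCompact L := hK.image_of_continuousOn ((e c).continuousOn.mono hKs)
  have hLt : L ⊆ (e c).target := by
    rintro z ⟨p, hp, rfl⟩
    exact (e c).map_source (hKs hp)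
  have hdet : ∀ x ∈ (e c).target, (Hm (g c) x).det ≠ 0 := fun x hx => h.det_ne c hx
  -- the upper bound
  have hc1 : ContinuousOn (fun z => w c z * ubd (g c) z) L :=
    ((h.w_smooth c).continuousOn.mul
      (continuousOn_ubd (e c).open_target (h.g_smooth c) hdet)).mono hLt
  obtain ⟨A, hA⟩ := hLc.exists_bound_of_continuousOn hc1
  have hc2 : ContinuousOn (fun z => trm (g c) z / w c z) L :=
    ((continuousOn_trm (e c).open_target (h.g_smooth c)).div (h.w_smooth c).continuousOn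
      fun z hz => (h.w_pos c z hz).ne').mono hLt
  obtain ⟨B, hB⟩ := hLc.exists_bound_of_continuousOn hc2
  refine ⟨|A| * |B|, by positivity, fun F hF h0 => ?_⟩
  obtain ⟨η, hη, hηc, hηt, hηL, hη1, hη2⟩ := exists_ext hF hK hKs h0
  have hFc : Sm e (fun q => (starRingEnd ℂ) (F q)) := hF.conj
  have h0c : ∀ p ∉ K, (starRingEnd ℂ) (F p) = 0 := fun p hp => by rw [h0 p hp, map_zero]
  rw [hμ.integral_gam_chart h hK hKs hFc h0c, hμ.integral_gam_chart h hK hKs hF h0]
  -- the derivatives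
  have hnear : ∀ z ∈ (e c).target, pb e c F =ᶠ[𝓝 z] η := fun z hz => by
    filter_upwards [(e c).open_target.mem_nhds hz] with x hx using (hη1 x hx).symm
  have hdb : ∀ z ∈ (e c).target, ∀ k, dzb k (pb e c F) z = dzb k η z := fun z hz k =>
    dzb_congr (hnear z hz) k
  have hdbc : ∀ z ∈ (e c).target, ∀ k,
      ‖dzb k (pb e c fun q => (starRingEnd ℂ) (F q)) z‖ = ‖dz k η z‖ := by
    intro z hz k
    have h1 : dzb k (fun x => (starRingEnd ℂ) (pb e c F x)) z =
        (starRingEnd ℂ) (dz k (pb e c F) z) :=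
      dzb_conj (diffAtC (e c).open_target (hF c) hz) k
    have h2 : dz k (pb e c F) z = dz k η z := dz_congr (hnear z hz) k
    change ‖dzb k (fun x => (starRingEnd ℂ) (pb e c F x)) z‖ = _
    rw [h1, RCLike.norm_conj, h2]
  have hmt : MeasurableSet (e c).target := (e c).open_target.measurableSet
  -- integrability in the chart
  have idz : ∀ k, Integrable (fun x => ‖dz k η x‖ ^ 2) := by
    intro k
    have hs : HasCompactSupport (dz k η) :=
      hηc.mono' ((subset_tsupport _).trans (tsupport_dz_subset k η))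
    have hs2 : HasCompactSupport (fun x => ‖dz k η x‖ ^ 2) :=
      hs.comp_left (g := fun y : ℂ => ‖y‖ ^ 2) (by simp)
    have hcn : Continuous (fun x => ‖dz k η x‖ ^ 2) := (contDiff_dz hη k).continuous.norm.pow 2
    exact hcn.integrable_of_hasCompactSupport hs2
  have idzb : ∀ k, Integrable (fun x => ‖dzb k η x‖ ^ 2) := by
    intro k
    have hs : HasCompactSupport (dzb k η) :=
      hηc.mono' ((subset_tsupport _).trans (tsupport_dzb_subset k η))
    have hs2 : HasCompactSupport (fun x => ‖dzb k η x‖ ^ 2) :=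
      hs.comp_left (g := fun y : ℂ => ‖y‖ ^ 2) (by simp)
    have hcn : Continuous (fun x => ‖dzb k η x‖ ^ 2) := (contDiff_dzb hη k).continuous.norm.pow 2
    exact hcn.integrable_of_hasCompactSupport hs2
  have hKV : K ⊆ V := hKs.trans (h.sub c)
  have igam : IntegrableOn (fun z => w c z * (gamc (g c) (pb e c F) (pb e c F) z).re)
      (e c).target := by
    have hg0 := h.gam_zero hF hF hK (Or.inl h0)
    have hc : Continuous (gam e g F F) := Sm.continuous (V := V) h.cover (h.Sm_gam hF hF)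
      ((tsupport_sub_of_compact hK hg0).trans hKV)
    have hi : Integrable (gam e g F F) μ := hμ.integrable h hK hKV hc hg0
    have hi2 : IntegrableOn (fun z => (w c z : ℂ) * pb e c (gam e g F F) z) (e c).target :=
      (hμ.integrableOn_chart h hc.aestronglyMeasurable).1 hi.integrableOn
    refine (IntegrableOn.congr_fun hi2.re (fun z hz => ?_) hmt)
    simp only [RCLike.re_to_complex, Complex.re_ofReal_mul]
    rw [h.pb_gam hF hF hz]
  -- first step
  have s1 : ∫ z in (e c).target, w c z * (gamc (g c) (pb e c fun q => (starRingEnd ℂ) (F q))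
      (pb e c fun q => (starRingEnd ℂ) (F q)) z).re ≤ ∫ z, |A| * ∑ k, ‖dz k η z‖ ^ 2 := by
    have i1 : Integrable (fun z => |A| * ∑ k, ‖dz k η z‖ ^ 2) :=
      (integrable_finsetSum _ fun k _ => idz k).const_mul _
    have p1 : ∀ z ∈ (e c).target, w c z * (gamc (g c) (pb e c fun q => (starRingEnd ℂ) (F q))
        (pb e c fun q => (starRingEnd ℂ) (F q)) z).re ≤ |A| * ∑ k, ‖dz k η z‖ ^ 2 := by
      intro z hz
      have h1 := gamc_re_le (g c) (pb e c fun q => (starRingEnd ℂ) (F q)) z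
      simp only [hdbc z hz] at h1
      by_cases hzL : z ∈ L
      · have h2 := hA z hzL
        rw [Real.norm_eq_abs] at h2
        have h3 : w c z * ubd (g c) z ≤ |A| :=
          (le_abs_self _).trans (h2.trans (le_abs_self _))
        have hS : 0 ≤ ∑ k, ‖dz k η z‖ ^ 2 := Finset.sum_nonneg fun _ _ => sq_nonneg _
        calc _ ≤ w c z * (ubd (g c) z * ∑ k, ‖dz k η z‖ ^ 2) :=
              mul_le_mul_of_nonneg_left h1 (h.w_pos c z hz).le
          _ = (w c z * ubd (g c) z) * ∑ k, ‖dz k η z‖ ^ 2 := by ring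
          _ ≤ _ := mul_le_mul_of_nonneg_right h3 hS
      · have h2 : ∀ k, dz k η z = 0 := fun k => dz_of_notMem (fun hm => hzL (hηL hm)) k
        simp only [h2] at h1 ⊢
        simp only [norm_zero, ne_eq, OfNat.ofNat_ne_zero, not_false_eq_true, zero_pow,
          Finset.sum_const_zero, mul_zero] at h1 ⊢
        exact mul_nonpos_of_nonneg_of_nonpos (h.w_pos c z hz).le h1
    have n1 : ∀ z ∈ (e c).target, 0 ≤ w c z * (gamc (g c) (pb e c fun q => (starRingEnd ℂ) (F q))
        (pb e c fun q => (starRingEnd ℂ) (F q)) z).re := fun z hz =>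
      mul_nonneg (h.w_pos c z hz).le (gamc_self_nonneg (h.posDef c hz) _)
    calc _ ≤ ∫ z in (e c).target, |A| * ∑ k, ‖dz k η z‖ ^ 2 := by
          refine integral_mono_of_nonneg ?_ i1.integrableOn ?_
          · exact (ae_restrict_iff' hmt).2 (Eventually.of_forall n1)
          · exact (ae_restrict_iff' hmt).2 (Eventually.of_forall p1)
      _ ≤ _ := setIntegral_le_integral i1 (Eventually.of_forall fun z =>
          mul_nonneg (abs_nonneg _) (Finset.sum_nonneg fun _ _ => sq_nonneg _))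
  -- second step
  have s2 : ∫ z, |A| * ∑ k, ‖dz k η z‖ ^ 2 = |A| * ∑ k, ∫ z, ‖dzb k η z‖ ^ 2 := by
    rw [integral_const_mul, integral_finsetSum _ fun k _ => idz k]
    congr 1
    exact Finset.sum_congr rfl fun k _ => integral_norm_dz_sq hη hηc k
  have s3 : ∑ k, ∫ z, ‖dzb k η z‖ ^ 2 ≤
      |B| * ∫ z in (e c).target, w c z * (gamc (g c) (pb e c F) (pb e c F) z).re := by
    rw [← integral_finsetSum _ fun k _ => idzb k, ← integral_const_mul]
    rw [← setIntegral_eq_integral_of_forall_compl_eq_zero (s := (e c).target)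
      (f := fun z => ∑ k, ‖dzb k η z‖ ^ 2) (fun z hz => by
        refine Finset.sum_eq_zero fun k _ => ?_
        rw [dzb_of_notMem (fun hm => hz (hηt hm)), norm_zero]
        norm_num)]
    refine setIntegral_mono_on (integrable_finsetSum _ fun k _ => idzb k).integrableOn
      (igam.const_mul _) hmt fun z hz => ?_
    have h1 := sum_dzb_le (h.posDef c hz) (pb e c F)
    simp only [hdb z hz] at h1
    by_cases hzL : z ∈ L
    · have h2 := hB z hzL
      rw [Real.norm_eq_abs] at h2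
      have hw := h.w_pos c z hz
      have h3 : trm (g c) z ≤ |B| * w c z := by
        have h4 : trm (g c) z / w c z ≤ |B| := (le_abs_self _).trans (h2.trans (le_abs_self _))
        rwa [div_le_iff₀ hw] at h4
      have h5 := gamc_self_nonneg (h.posDef c hz) (pb e c F)
      calc _ ≤ trm (g c) z * (gamc (g c) (pb e c F) (pb e c F) z).re := h1
        _ ≤ (|B| * w c z) * (gamc (g c) (pb e c F) (pb e c F) z).re :=
            mul_le_mul_of_nonneg_right h3 h5
        _ = _ := by ring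
    · have h2 : ∀ k, dzb k η z = 0 := fun k => dzb_of_notMem (fun hm => hzL (hηL hm)) k
      have h5 := gamc_self_nonneg (h.posDef c hz) (pb e c F)
      have hw := (h.w_pos c z hz).le
      simp only [h2, norm_zero, ne_eq, OfNat.ofNat_ne_zero, not_false_eq_true, zero_pow,
        Finset.sum_const_zero]
      exact mul_nonneg (abs_nonneg _) (mul_nonneg hw h5)
  calc _ ≤ _ := s1
    _ = _ := s2
    _ ≤ |A| * (|B| * ∫ z in (e c).target, w c z * (gamc (g c) (pb e c F) (pb e c F) z).re) :=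
        mul_le_mul_of_nonneg_left s3 (abs_nonneg _)
    _ = _ := by ring

/-- **Lemma N** -/
theorem IsDens.lemN [T2Space M] (hμ : IsDens e w μ) (h : L2D e V w g) {K : Set M}
    (hK : IsCompact K) (hKV : K ⊆ V) :
    ∃ C, 0 ≤ C ∧ ∀ f : M → ℂ, Sm e f → (∀ p ∉ K, f p = 0) →
      ∫ p, (gam e g (fun q => (starRingEnd ℂ) (f q)) (fun q => (starRingEnd ℂ) (f q)) p).re ∂μ ≤
        C * (∫ p, ‖f p‖ ^ 2 ∂μ + ∫ p, (gam e g f f p).re ∂μ) := by
  classical
  obtain ⟨s, c, ζ, O, hO, hKO, hζ, hsum⟩ := exists_partition h.holo hK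
    (fun p hp => h.cover p (hKV hp))
  set Z : K → M → ℂ := fun i p => (ζ i p : ℂ) with hZ
  have hZs : ∀ i, Sm e (Z i) := fun i c' => contDiffOn_ofReal ((hζ i).1 c')
  choose K' hK' hK's hz using fun i => (hζ i).2.2
  have hZ0 : ∀ i, ∀ p ∉ K' i, Z i p = 0 := fun i p hp => by
    simp only [hZ, hz i p hp, Complex.ofReal_zero]
  choose C hC0 hC using fun i => hμ.chart_N h (hK' i) (hK's i)
  -- bounds for the cut-offs
  have hK'V : ∀ i, K' i ⊆ V := fun i => (hK's i).trans (h.sub _)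
  have hZc : ∀ i, Continuous (Z i) := fun i => Sm.continuous (V := V) h.cover (hZs i)
    ((tsupport_sub_of_compact (hK' i) (hZ0 i)).trans (hK'V i))
  have hG0 : ∀ i, ∀ p ∉ K' i, gam e g (Z i) (Z i) p = 0 := fun i =>
    h.gam_zero (hZs i) (hZs i) (hK' i) (Or.inl (hZ0 i))
  have hGc : ∀ i, Continuous (gam e g (Z i) (Z i)) := fun i => Sm.continuous (V := V) h.cover
    (h.Sm_gam (hZs i) (hZs i)) ((tsupport_sub_of_compact (hK' i) (hG0 i)).trans (hK'V i))
  have hb : ∀ i, ∃ B : ℝ, 0 ≤ B ∧ (∀ p, ‖Z i p‖ ^ 2 ≤ B) ∧ ∀ p, (gam e g (Z i) (Z i) p).re ≤ B := by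
    intro i
    obtain ⟨B₁, h1⟩ := (hK' i).exists_bound_of_continuousOn ((hZc i).norm.pow 2).continuousOn
    obtain ⟨B₂, h2⟩ := (hK' i).exists_bound_of_continuousOn (hGc i).continuousOn
    refine ⟨|B₁| + |B₂|, by positivity, fun p => ?_, fun p => ?_⟩
    · by_cases hp : p ∈ K' i
      · have h3 := h1 p hp
        rw [Real.norm_eq_abs] at h3
        have h4 := (le_abs_self (‖Z i p‖ ^ 2)).trans (h3.trans (le_abs_self B₁))
        have h5 := abs_nonneg B₂
        linarith
      · have h3 : (0 : ℝ) ^ 2 = 0 := by norm_num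
        rw [hZ0 i p hp, norm_zero, h3]
        positivity
    · by_cases hp : p ∈ K' i
      · have h3 := (Complex.re_le_norm _).trans ((h2 p hp).trans (le_abs_self B₂))
        have h5 := abs_nonneg B₁
        linarith
      · rw [hG0 i p hp, Complex.zero_re]
        positivity
  choose B hB0 hB1 hB2 using hb
  refine ⟨2 ^ s.card * ∑ i ∈ s, C i * (2 * B i), by
    exact mul_nonneg (by positivity) (Finset.sum_nonneg fun i _ => mul_nonneg (hC0 i)
      (mul_nonneg (by norm_num) (hB0 i))), fun f hf h0 => ?_⟩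
  -- the pieces
  set F : K → M → ℂ := fun i p => Z i p * f p with hFdef
  have hFs : ∀ i, Sm e (F i) := fun i => (hZs i).mul hf
  have hF0 : ∀ i, ∀ p ∉ K' i, F i p = 0 := fun i p hp => by
    simp only [hFdef, hZ0 i p hp, zero_mul]
  have hF0' : ∀ i, ∀ p ∉ K, F i p = 0 := fun i p hp => by
    simp only [hFdef, h0 p hp, mul_zero]
  set G : K → M → ℂ := fun i p => (starRingEnd ℂ) (F i p) with hGdef
  have hGs : ∀ i, Sm e (G i) := fun i => (hFs i).conj
  have hG0' : ∀ i, ∀ p ∉ K, G i p = 0 := fun i p hp => by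
    simp only [hGdef, hF0' i p hp, map_zero]
  have hfc : (fun q => (starRingEnd ℂ) (f q)) = fun q => ∑ i ∈ s, G i q := by
    funext q
    by_cases hq : q ∈ K
    · simp only [hGdef, hFdef]
      rw [← map_sum, ← Finset.sum_mul]
      have h1 : ∑ i ∈ s, Z i q = 1 := by
        simp only [hZ]
        rw [← Complex.ofReal_sum, hsum q (hKO hq), Complex.ofReal_one]
      rw [h1, one_mul]
    · rw [h0 q hq, map_zero]
      exact (Finset.sum_eq_zero fun i _ => hG0' i q hq).symm
  have iG : ∀ i, Integrable (fun p => (gam e g (G i) (G i) p).re) μ := fun i =>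
    hμ.integrable_gam_re h (hGs i) hK hKV (hG0' i)
  have iF : ∀ i, Integrable (fun p => (gam e g (F i) (F i) p).re) μ := fun i =>
    hμ.integrable_gam_re h (hFs i) hK hKV (hF0' i)
  have i1 := hμ.integrable_norm_sq h hf hK hKV h0
  have i2 := hμ.integrable_gam_re h hf hK hKV h0
  have hS : Sm e (fun q => ∑ i ∈ s, G i q) := Sm.sum fun i _ => hGs i
  have step1 : ∫ p, (gam e g (fun q => (starRingEnd ℂ) (f q))
      (fun q => (starRingEnd ℂ) (f q)) p).re ∂μ ≤
      2 ^ s.card * ∑ i ∈ s, ∫ p, (gam e g (G i) (G i) p).re ∂μ := by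
    rw [hfc, ← integral_finsetSum _ fun i _ => iG i, ← integral_const_mul]
    refine integral_mono (hμ.integrable_gam_re h hS hK hKV fun p hp =>
      Finset.sum_eq_zero fun i _ => hG0' i p hp)
      ((integrable_finsetSum _ fun i _ => iG i).const_mul _) fun p => ?_
    exact h.gam_sum_re_le s hGs p
  have step2 : ∀ i, ∫ p, (gam e g (G i) (G i) p).re ∂μ ≤
      C i * ∫ p, (gam e g (F i) (F i) p).re ∂μ := fun i => hC i (F i) (hFs i) (hF0 i)
  have step3 : ∀ i, ∫ p, (gam e g (F i) (F i) p).re ∂μ ≤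
      2 * B i * (∫ p, ‖f p‖ ^ 2 ∂μ + ∫ p, (gam e g f f p).re ∂μ) := by
    intro i
    rw [← integral_add i1 i2, ← integral_const_mul]
    refine integral_mono (iF i) ((i1.add i2).const_mul _) fun p => ?_
    have h1 := h.gam_mul_re_le (hZs i) hf p
    have h2 := h.gam_nonneg hf p
    have h3 := hB1 i p
    have h4 := hB2 i p
    have h5 : ‖Z i p‖ ^ 2 * (gam e g f f p).re ≤ B i * (gam e g f f p).re :=
      mul_le_mul_of_nonneg_right h3 h2
    have h6 : ‖f p‖ ^ 2 * (gam e g (Z i) (Z i) p).re ≤ ‖f p‖ ^ 2 * B i :=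
      mul_le_mul_of_nonneg_left h4 (sq_nonneg _)
    change (gam e g (fun q => Z i q * f q) (fun q => Z i q * f q) p).re ≤
      2 * B i * (‖f p‖ ^ 2 + (gam e g f f p).re)
    nlinarith
  have hE : 0 ≤ ∫ p, ‖f p‖ ^ 2 ∂μ + ∫ p, (gam e g f f p).re ∂μ :=
    add_nonneg (integral_nonneg fun p => sq_nonneg _) (integral_nonneg fun p => h.gam_nonneg hf p)
  calc _ ≤ _ := step1
    _ ≤ 2 ^ s.card * ∑ i ∈ s, C i * (2 * B i * (∫ p, ‖f p‖ ^ 2 ∂μ +
        ∫ p, (gam e g f f p).re ∂μ)) := by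
        refine mul_le_mul_of_nonneg_left (Finset.sum_le_sum fun i _ => ?_) (by positivity)
        exact (step2 i).trans (mul_le_mul_of_nonneg_left (step3 i) (hC0 i))
    _ = _ := by
        rw [mul_assoc, Finset.sum_mul]
        congr 1
        exact Finset.sum_congr rfl fun i _ => by ring

end

end

end Pool.Agent.KRFQ

end

section

/-!
# Smooth approximation of weakly harmonic functions (helper86)
-/

open scoped ContDiff Topology ComplexOrder Matrix
open Set MeasureTheory Filter Pool.Agent.ToricKRF Pool.Agent.ToricKRF.G Pool.Agent.KRFS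

namespace Pool.Agent.KRFQ

/-- the Cauchy-Schwarz inequality for integrals -/
theorem norm_integral_conj_le {α : Type*} [MeasurableSpace α] {μ : Measure α} {A B : α → ℂ}
    (hA : MemLp A 2 μ) (hB : MemLp B 2 μ) :
    ‖∫ x, A x * (starRingEnd ℂ) (B x) ∂μ‖ ≤ √(∫ x, ‖A x‖ ^ 2 ∂μ) * √(∫ x, ‖B x‖ ^ 2 ∂μ) := by
  have h2 : ENNReal.ofReal 2 = 2 := by norm_num
  have h1 := integral_mul_norm_le_Lp_mul_Lq (μ := μ) (f := A) (g := B) (p := 2) (q := 2)
    ⟨by norm_num, by norm_num, by norm_num⟩ (by rwa [h2]) (by rwa [h2])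
  have h3 : ∀ F : α → ℂ, (∫ x, ‖F x‖ ^ (2 : ℝ) ∂μ) ^ (1 / (2 : ℝ)) = √(∫ x, ‖F x‖ ^ 2 ∂μ) := by
    intro F
    rw [Real.sqrt_eq_rpow]
    congr 1
    refine integral_congr_ae (Eventually.of_forall fun x => ?_)
    simp
  rw [h3, h3] at h1
  refine (norm_integral_le_integral_norm _).trans (le_trans (le_of_eq ?_) h1)
  refine integral_congr_ae (Eventually.of_forall fun x => ?_)
  simp only [norm_mul, RCLike.norm_conj]

theorem integral_lin2 {α : Type*} [MeasurableSpace α] {μ : Measure α} {F G : α → ℝ}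
    (hF : Integrable F μ) (hG : Integrable G μ) (a b : ℝ) :
    ∫ x, (a * F x + b * G x) ∂μ = a * ∫ x, F x ∂μ + b * ∫ x, G x ∂μ := by
  rw [integral_add (hF.const_mul a) (hG.const_mul b), integral_const_mul, integral_const_mul]

theorem integral_lin3 {α : Type*} [MeasurableSpace α] {μ : Measure α} {F G H : α → ℝ}
    (hF : Integrable F μ) (hG : Integrable G μ) (hH : Integrable H μ) (a b c : ℝ) :
    ∫ x, (a * F x + b * G x + c * H x) ∂μ =
      a * ∫ x, F x ∂μ + b * ∫ x, G x ∂μ + c * ∫ x, H x ∂μ := by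
  have h1 : Integrable (fun x => a * F x + b * G x) μ := (hF.const_mul a).add (hG.const_mul b)
  rw [integral_add h1 (hH.const_mul c), integral_lin2 hF hG, integral_const_mul]

variable {M : Type} [TopologicalSpace M] {n : ℕ} {κ : Type}
  {e : κ → OpenPartialHomeomorph M (Cn n)} {V : Set M} {w g : κ → Cn n → ℝ}

theorem Sm.continuousOn' {f : M → ℂ} (hf : Sm e f) (hc : ∀ p ∈ V, ∃ c, p ∈ (e c).source)
    {K : Set M} (hKV : K ⊆ V) : ContinuousOn f K := by
  intro p hp
  obtain ⟨c, hcp⟩ := hc p (hKV hp)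
  exact (hf.continuousAt hcp).continuousWithinAt

/-- the commutator of the Laplacian with a cutoff -/
noncomputable def cmt (e : κ → OpenPartialHomeomorph M (Cn n)) (w g : κ → Cn n → ℝ)
    (χ f : M → ℂ) (p : M) : ℂ :=
  Lap e w g (fun q => χ q * f q) p - χ p * Lap e w g f p

theorem L2D.cmt_eq (h : L2D e V w g) {χ f : M → ℂ} (hχ : Sm e χ)
    (hr : ∀ p, (starRingEnd ℂ) (χ p) = χ p) (hf : Sm e f) (p : M) :
    cmt e w g χ f p = f p * Lap e w g χ p - gam e g f χ p -
      gam e g χ (fun q => (starRingEnd ℂ) (f q)) p := by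
  have h1 : (fun q => (starRingEnd ℂ) (χ q)) = χ := funext hr
  rw [cmt, h.Lap_mul hχ hf, h1]
  ring

theorem L2D.Sm_cmt (h : L2D e V w g) {χ f : M → ℂ} (hχ : Sm e χ) (hf : Sm e f) :
    Sm e (cmt e w g χ f) := (h.Sm_Lap (hχ.mul hf)).sub (hχ.mul (h.Sm_Lap hf))

theorem L2D.cmt_zero [T2Space M] (h : L2D e V w g) {χ f : M → ℂ} (hχ : Sm e χ) (hf : Sm e f)
    {K : Set M} (hK : IsCompact K) (h0 : ∀ p ∉ K, f p = 0) :
    ∀ p ∉ K, cmt e w g χ f p = 0 := by
  intro p hp
  rw [cmt, h.Lap_zero (hχ.mul hf) hK (fun q hq => by rw [h0 q hq, mul_zero]) p hp,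
    h.Lap_zero hf hK h0 p hp, mul_zero, sub_zero]

theorem L2D.cmt_zero' [T2Space M] (h : L2D e V w g) {χ f : M → ℂ} (hχ : Sm e χ) (hf : Sm e f)
    {K : Set M} (hK : IsCompact K) (h0 : ∀ p ∉ K, χ p = 0) :
    ∀ p ∉ K, cmt e w g χ f p = 0 := by
  intro p hp
  rw [cmt, h.Lap_zero (hχ.mul hf) hK (fun q hq => by rw [h0 q hq, zero_mul]) p hp,
    h0 p hp, zero_mul, sub_zero]

theorem L2D.norm_gam_self (h : L2D e V w g) {f : M → ℂ} (hf : Sm e f) (p : M) :
    ‖gam e g f f p‖ = (gam e g f f p).re := by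
  conv_lhs => rw [h.gam_self hf p]
  rw [Complex.norm_real, Real.norm_eq_abs, abs_of_nonneg (h.gam_nonneg hf p)]

/-- the gradient form of a product -/
theorem L2D.gam_mul_self_le (h : L2D e V w g) {χ f : M → ℂ} (hχ : Sm e χ) (hf : Sm e f) (p : M) :
    (gam e g (fun q => χ q * f q) (fun q => χ q * f q) p).re ≤
      2 * (‖χ p‖ ^ 2 * (gam e g f f p).re + ‖f p‖ ^ 2 * (gam e g χ χ p).re) := by
  have h1 : gam e g (fun q => χ q * f q) (fun q => χ q * f q) p =
      χ p * ((starRingEnd ℂ) (χ p) * gam e g f f p + (starRingEnd ℂ) (f p) * gam e g f χ p) +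
      f p * ((starRingEnd ℂ) (χ p) * gam e g χ f p + (starRingEnd ℂ) (f p) * gam e g χ χ p) := by
    rw [h.gam_mul_left hχ hf (hχ.mul hf), h.gam_mul_right hχ hf hf, h.gam_mul_right hχ hχ hf]
  set a := √(gam e g f f p).re with ha
  set b := √(gam e g χ χ p).re with hb
  have ha0 : 0 ≤ a := Real.sqrt_nonneg _
  have hb0 : 0 ≤ b := Real.sqrt_nonneg _
  have ha2 : (gam e g f f p).re = a ^ 2 := (Real.sq_sqrt (h.gam_nonneg hf p)).symm
  have hb2 : (gam e g χ χ p).re = b ^ 2 := (Real.sq_sqrt (h.gam_nonneg hχ p)).symm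
  have n1 : ‖gam e g f f p‖ = a ^ 2 := by rw [h.norm_gam_self hf, ha2]
  have n2 : ‖gam e g χ χ p‖ = b ^ 2 := by rw [h.norm_gam_self hχ, hb2]
  have n3 : ‖gam e g f χ p‖ ≤ a * b := h.norm_gam_le hf hχ p
  have n4 : ‖gam e g χ f p‖ ≤ b * a := h.norm_gam_le hχ hf p
  have hx : 0 ≤ ‖χ p‖ := norm_nonneg _
  have hy : 0 ≤ ‖f p‖ := norm_nonneg _
  have h2 : ‖gam e g (fun q => χ q * f q) (fun q => χ q * f q) p‖ ≤
      ‖χ p‖ * (‖χ p‖ * a ^ 2 + ‖f p‖ * (a * b)) + ‖f p‖ * (‖χ p‖ * (b * a) + ‖f p‖ * b ^ 2) := by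
    rw [h1]
    refine (norm_add_le _ _).trans ?_
    rw [norm_mul, norm_mul]
    refine add_le_add (mul_le_mul_of_nonneg_left ((norm_add_le _ _).trans ?_) hx)
      (mul_le_mul_of_nonneg_left ((norm_add_le _ _).trans ?_) hy)
    · rw [norm_mul, norm_mul, RCLike.norm_conj, RCLike.norm_conj, n1]
      gcongr
    · rw [norm_mul, norm_mul, RCLike.norm_conj, RCLike.norm_conj, n2]
      gcongr
  refine (Complex.re_le_norm _).trans (h2.trans ?_)
  rw [ha2, hb2]
  nlinarith [sq_nonneg (‖χ p‖ * a - ‖f p‖ * b)]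

section

variable [MeasurableSpace M] [BorelSpace M] {μ : Measure M}

theorem IsDens.int_gam [T2Space M] (hμ : IsDens e w μ) (h : L2D e V w g) {f f' : M → ℂ}
    (hf : Sm e f) (hf' : Sm e f') {K : Set M} (hK : IsCompact K) (hKV : K ⊆ V)
    (h0 : ∀ p ∉ K, f p = 0) : Integrable (fun p => (gam e g f f' p).re) μ := by
  have h3 := h.gam_zero hf hf' hK (Or.inl h0)
  have h4 : Integrable (gam e g f f') μ := hμ.integrable h hK hKV ((h.Sm_gam hf hf').continuous
    h.cover ((tsupport_sub_of_compact hK h3).trans hKV)) h3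
  exact h4.re

theorem IsDens.int_sq [T2Space M] (hμ : IsDens e w μ) (h : L2D e V w g) {f : M → ℂ}
    (hf : Sm e f) {K : Set M} (hK : IsCompact K) (hKV : K ⊆ V)
    (h0 : ∀ p ∉ K, f p = 0) : Integrable (fun p => ‖f p‖ ^ 2) μ := by
  have h1 : MemLp f 2 μ := hμ.memLp_test h ⟨hf, K, hK, hKV, h0⟩
  exact (memLp_two_iff_integrable_sq_norm h1.1).1 h1

theorem norm_sub_sub_sq_le (a b c : ℂ) :
    ‖a - b - c‖ ^ 2 ≤ 3 * (‖a‖ ^ 2 + ‖b‖ ^ 2 + ‖c‖ ^ 2) := by
  have h1 : ‖a - b - c‖ ≤ ‖a‖ + ‖b‖ + ‖c‖ :=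
    (norm_sub_le _ _).trans (by linarith [norm_sub_le a b])
  have h2 : ‖a - b - c‖ ^ 2 ≤ (‖a‖ + ‖b‖ + ‖c‖) ^ 2 := pow_le_pow_left₀ (norm_nonneg _) h1 2
  nlinarith [sq_nonneg (‖a‖ - ‖b‖), sq_nonneg (‖a‖ - ‖c‖), sq_nonneg (‖b‖ - ‖c‖)]

/-- The commutator is bounded by the energy. -/
theorem IsDens.cut_bound [T2Space M] (hμ : IsDens e w μ) (h : L2D e V w g) {K : Set M}
    (hK : IsCompact K) (hKV : K ⊆ V) {χ : M → ℂ} (hχ : Sm e χ)
    (hr : ∀ p, (starRingEnd ℂ) (χ p) = χ p) :
    ∃ D, 0 ≤ D ∧ ∀ f, Sm e f → (∀ p ∉ K, f p = 0) →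
      ∫ p, ‖cmt e w g χ f p‖ ^ 2 ∂μ ≤
        D ^ 2 * (∫ p, ‖f p‖ ^ 2 ∂μ + ∫ p, (gam e g f f p).re ∂μ) ∧
      ∫ p, (gam e g (fun q => χ q * f q) (fun q => χ q * f q) p).re ∂μ ≤
        D ^ 2 * (∫ p, ‖f p‖ ^ 2 ∂μ + ∫ p, (gam e g f f p).re ∂μ) := by
  obtain ⟨A, hA⟩ := hK.exists_bound_of_continuousOn ((h.Sm_Lap hχ).continuousOn' h.cover hKV)
  obtain ⟨B', hB'⟩ := hK.exists_bound_of_continuousOn
    ((h.Sm_gam hχ hχ).continuousOn' h.cover hKV)
  obtain ⟨X, hX⟩ := hK.exists_bound_of_continuousOn (hχ.continuousOn' h.cover hKV)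
  obtain ⟨C, hC0, hC⟩ := hμ.lemN h hK hKV
  set B := |B'| with hBdef
  have hB0 : 0 ≤ B := abs_nonneg _
  have hB : ∀ p ∈ K, (gam e g χ χ p).re ≤ B := fun p hp =>
    (Complex.re_le_norm _).trans ((hB' p hp).trans (le_abs_self _))
  have hA2 : ∀ p ∈ K, ‖Lap e w g χ p‖ ^ 2 ≤ A ^ 2 := fun p hp =>
    pow_le_pow_left₀ (norm_nonneg _) (hA p hp) 2
  have hX2 : ∀ p ∈ K, ‖χ p‖ ^ 2 ≤ X ^ 2 := fun p hp =>
    pow_le_pow_left₀ (norm_nonneg _) (hX p hp) 2
  set P := 3 * (A ^ 2 + B + B * C) with hP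
  set Q := 2 * (X ^ 2 + B) with hQ
  have hP0 : 0 ≤ P := by positivity
  have hQ0 : 0 ≤ Q := by positivity
  refine ⟨√(P + Q), Real.sqrt_nonneg _, fun f hf h0 => ?_⟩
  rw [Real.sq_sqrt (add_nonneg hP0 hQ0)]
  have h0c : ∀ p ∉ K, (starRingEnd ℂ) (f p) = 0 := fun p hp => by rw [h0 p hp, map_zero]
  have i1 := hμ.int_sq h hf hK hKV h0
  have i2 := hμ.int_gam h hf hf hK hKV h0
  have i3 := hμ.int_gam h hf.conj hf.conj hK hKV h0c
  have hN := hC f hf h0
  set S1 := ∫ p, ‖f p‖ ^ 2 ∂μ with hS1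
  set S2 := ∫ p, (gam e g f f p).re ∂μ with hS2
  set S3 := ∫ p, (gam e g (fun p => (starRingEnd ℂ) (f p)) (fun p => (starRingEnd ℂ) (f p)) p).re ∂μ
    with hS3
  have s1 : 0 ≤ S1 := integral_nonneg fun p => sq_nonneg _
  have s2 : 0 ≤ S2 := integral_nonneg fun p => h.gam_nonneg hf p
  have s3 : 0 ≤ S3 := integral_nonneg fun p => h.gam_nonneg hf.conj p
  constructor
  · have hle : ∀ p, ‖cmt e w g χ f p‖ ^ 2 ≤ 3 * (A ^ 2 * ‖f p‖ ^ 2 + B * (gam e g f f p).re +
        B * (gam e g (fun p => (starRingEnd ℂ) (f p)) (fun p => (starRingEnd ℂ) (f p)) p).re) := by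
      intro p
      have g1 := h.gam_nonneg hf p
      have g2 := h.gam_nonneg hf.conj p
      by_cases hp : p ∈ K
      · rw [h.cmt_eq hχ hr hf]
        refine (norm_sub_sub_sq_le _ _ _).trans ?_
        have e1 : ‖f p * Lap e w g χ p‖ ^ 2 ≤ A ^ 2 * ‖f p‖ ^ 2 := by
          rw [norm_mul, mul_pow, mul_comm]
          exact mul_le_mul_of_nonneg_right (hA2 p hp) (sq_nonneg _)
        have e2 : ‖gam e g f χ p‖ ^ 2 ≤ B * (gam e g f f p).re := by
          refine (h.norm_gam_sq_le hf hχ p).trans ?_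
          rw [mul_comm]
          exact mul_le_mul_of_nonneg_right (hB p hp) g1
        have e3 : ‖gam e g χ (fun q => (starRingEnd ℂ) (f q)) p‖ ^ 2 ≤ B *
            (gam e g (fun p => (starRingEnd ℂ) (f p)) (fun p => (starRingEnd ℂ) (f p)) p).re :=
          (h.norm_gam_sq_le hχ hf.conj p).trans (mul_le_mul_of_nonneg_right (hB p hp) g2)
        linarith
      · rw [h.cmt_zero hχ hf hK h0 p hp, norm_zero, zero_pow two_ne_zero]
        positivity
    have h5 : ∫ p, ‖cmt e w g χ f p‖ ^ 2 ∂μ ≤ ∫ p, 3 * (A ^ 2 * ‖f p‖ ^ 2 +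
        B * (gam e g f f p).re +
        B * (gam e g (fun p => (starRingEnd ℂ) (f p)) (fun p => (starRingEnd ℂ) (f p)) p).re)
        ∂μ := by
      refine integral_mono_of_nonneg (Eventually.of_forall fun p => sq_nonneg _) ?_
        (Eventually.of_forall hle)
      exact (((i1.const_mul _).add (i2.const_mul _)).add (i3.const_mul _)).const_mul 3
    rw [integral_const_mul, integral_lin3 i1 i2 i3, ← hS1, ← hS2, ← hS3] at h5
    refine h5.trans ?_
    have e1 : B * S3 ≤ B * (C * (S1 + S2)) := mul_le_mul_of_nonneg_left hN hB0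
    have e2 : 0 ≤ Q * (S1 + S2) := mul_nonneg hQ0 (add_nonneg s1 s2)
    have e3 : 0 ≤ A ^ 2 * S2 := mul_nonneg (sq_nonneg _) s2
    have e4 : 0 ≤ B * S1 := mul_nonneg hB0 s1
    rw [hP]
    nlinarith
  · have hle : ∀ p, (gam e g (fun q => χ q * f q) (fun q => χ q * f q) p).re ≤
        2 * (X ^ 2 * (gam e g f f p).re + B * ‖f p‖ ^ 2) := by
      intro p
      have g1 := h.gam_nonneg hf p
      by_cases hp : p ∈ K
      · refine (h.gam_mul_self_le hχ hf p).trans ?_
        have e1 := mul_le_mul_of_nonneg_right (hX2 p hp) g1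
        have e2 := mul_le_mul_of_nonneg_right (hB p hp) (sq_nonneg ‖f p‖)
        linarith
      · rw [h.gam_zero (hχ.mul hf) (hχ.mul hf) hK
          (Or.inl fun q hq => by rw [h0 q hq, mul_zero]) p hp, Complex.zero_re]
        positivity
    have h5 : ∫ p, (gam e g (fun q => χ q * f q) (fun q => χ q * f q) p).re ∂μ ≤
        ∫ p, 2 * (X ^ 2 * (gam e g f f p).re + B * ‖f p‖ ^ 2) ∂μ := by
      refine integral_mono_of_nonneg (Eventually.of_forall fun p =>
        h.gam_nonneg (hχ.mul hf) p) ?_ (Eventually.of_forall hle)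
      exact ((i2.const_mul _).add (i1.const_mul _)).const_mul 2
    rw [integral_const_mul, integral_lin2 i2 i1, ← hS1, ← hS2] at h5
    refine h5.trans ?_
    have e2 : 0 ≤ P * (S1 + S2) := mul_nonneg hP0 (add_nonneg s1 s2)
    have e3 : 0 ≤ X ^ 2 * S1 := mul_nonneg (sq_nonneg _) s1
    have e4 : 0 ≤ B * S2 := mul_nonneg hB0 s2
    rw [hQ]
    nlinarith

/-- the local error -/
theorem IsDens.memLp_err [T2Space M] (hμ : IsDens e w μ) (h : L2D e V w g) {u : M → ℂ}
    (hu : MemLp u 2 μ) {c : κ} {K : Set M} (hK : IsCompact K) (hKs : K ⊆ (e c).source)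
    {v : Cn n → ℂ} (hv : Continuous v) :
    MemLp (K.indicator fun p => extz e c v p - u p) 2 μ := by
  rw [memLp_indicator_iff_restrict hK.isClosed.measurableSet]
  have hfin : IsFiniteMeasure (μ.restrict K) :=
    ⟨by rw [Measure.restrict_apply_univ]; exact hμ.measure_lt_top h hK (hKs.trans (h.sub c))⟩
  have hC : IsCompact (e c '' K) := hK.image_of_continuousOn ((e c).continuousOn.mono hKs)
  obtain ⟨B, hB⟩ := hC.exists_bound_of_continuousOn hv.continuousOn
  refine MemLp.sub ?_ (hu.restrict K)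
  refine MemLp.of_bound (aesm_extz hv).restrict B ?_
  refine (ae_restrict_iff' hK.isClosed.measurableSet).2 (Eventually.of_forall fun p hp => ?_)
  rw [extz_of_mem v (hKs hp)]
  exact hB _ ⟨p, hp, rfl⟩

omit [MeasurableSpace M] [BorelSpace M] in
theorem L2D.Lap_sum (h : L2D e V w g) {ι : Type*} (s : Finset ι) {F : ι → M → ℂ}
    (hF : ∀ i, Sm e (F i)) (p : M) :
    Lap e w g (fun q => ∑ i ∈ s, F i q) p = ∑ i ∈ s, Lap e w g (F i) p := by
  classical
  induction s using Finset.induction_on with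
  | empty =>
    have h1 := h.Lap_smul (Sm.const (e := e) 0) 0 p
    simpa using h1
  | insert a s ha ih =>
    rw [Finset.sum_insert ha, ← ih, ← h.Lap_add (hF a) (Sm.sum fun i _ => hF i)]
    congr 1
    funext q
    rw [Finset.sum_insert ha]

/-- **Lemma A**: a weakly harmonic function is approximated on compact sets by smooth functions
with small Laplacian in the weak sense. -/
theorem IsDens.lemA [T2Space M] (hμ : IsDens e w μ) (h : L2D e V w g) {u : M → ℂ}
    (hu : MemLp u 2 μ)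
    (hweak : ∀ f, Sm e f → (∃ K, IsCompact K ∧ K ⊆ V ∧ ∀ p ∉ K, f p = 0) →
      ∫ p, u p * (starRingEnd ℂ) (Lap e w g f p) ∂μ = 0)
    {K : Set M} (hK : IsCompact K) (hKV : K ⊆ V) {δ : ℝ} (hδ : 0 < δ) :
    ∃ U : M → ℂ, Sm e U ∧ (∃ K₁, IsCompact K₁ ∧ K₁ ⊆ V ∧ ∀ p ∉ K₁, U p = 0) ∧
      (∫ p in K, ‖U p - u p‖ ^ 2 ∂μ ≤ δ ^ 2) ∧
      ∀ f, Sm e f → (∀ p ∉ K, f p = 0) →
        ‖∫ p, U p * (starRingEnd ℂ) (Lap e w g f p) ∂μ‖ ≤
          δ * √(∫ p, ‖f p‖ ^ 2 ∂μ + ∫ p, (gam e g f f p).re ∂μ) := by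
  classical
  obtain ⟨s, c, ζ, O, hO, hKO, hζ, hsum⟩ :=
    exists_partition h.holo hK fun p hp => h.cover p (hKV hp)
  choose hζs hζn K' hK' hK's hK'0 using hζ
  set χ : K → M → ℂ := fun i p => (ζ i p : ℂ) with hχdef
  have hχ : ∀ i, Sm e (χ i) := fun i c' => contDiffOn_ofReal (hζs i c')
  have hr : ∀ i p, (starRingEnd ℂ) (χ i p) = χ i p := fun i p => Complex.conj_ofReal _
  have hχ0 : ∀ i, ∀ p ∉ K' i, χ i p = 0 := fun i p hp => by
    simp only [hχdef, hK'0 i p hp, Complex.ofReal_zero]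
  have hχsum : ∀ p ∈ K, ∑ i ∈ s, χ i p = 1 := fun p hp => by
    have := hsum p (hKO hp)
    simp only [hχdef]
    exact_mod_cast this
  have hχ1 : ∀ p ∈ K, ∀ i ∈ s, ‖χ i p‖ ≤ 1 := fun p hp i hi => by
    rw [hχdef]
    simp only [Complex.norm_real, Real.norm_eq_abs, abs_of_nonneg (hζn i p)]
    rw [← hsum p (hKO hp)]
    exact Finset.single_le_sum (f := fun i => ζ i p) (fun j _ => hζn j p) hi
  choose D hD0 hD using fun i => hμ.cut_bound h hK hKV (hχ i) (hr i)
  set G := ∑ i ∈ s, D i with hG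
  have hG0 : 0 ≤ G := Finset.sum_nonneg fun i _ => hD0 i
  set η := δ / (2 * G + s.card + 1) with hηdef
  have hη : 0 < η := by positivity
  choose v hvs hvd hvw using fun i => hμ.lemL h hu hweak (hK' i) (hK's i) hη
  set X : K → M → ℂ := fun i => extz e (c i) (v i) with hX
  set E : K → M → ℂ := fun i => (K' i).indicator fun p => X i p - u p with hE
  have hEm : ∀ i, MemLp (E i) 2 μ := fun i =>
    hμ.memLp_err h hu (hK' i) (hK's i) (hvs i).continuous
  have hEn : ∀ i, ∫ p, ‖E i p‖ ^ 2 ∂μ ≤ η ^ 2 := by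
    intro i
    refine le_trans (le_of_eq ?_) (hvd i)
    rw [← integral_indicator (hK' i).isClosed.measurableSet]
    refine integral_congr_ae (Eventually.of_forall fun p => ?_)
    simp only [hE, indicator]
    split_ifs
    · rfl
    · simp
  have hsm : ∀ i, Sm e fun p => χ i p * X i p := by
    intro i
    refine smooth_of_chart h.holo (hK' i) (hK's i) ?_ fun p hp => by rw [hχ0 i p hp, zero_mul]
    refine ((hχ i (c i)).mul (hvs i).contDiffOn).congr fun z hz => ?_
    have e1 := pb_extz (e := e) (v i) hz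
    simp only [pb] at e1 ⊢
    rw [← e1]
  have hK'V : ∀ i, K' i ⊆ V := fun i => (hK's i).trans (h.sub _)
  refine ⟨fun p => ∑ i ∈ s, χ i p * X i p, Sm.sum fun i _ => hsm i,
    ⟨⋃ i ∈ s, K' i, s.isCompact_biUnion fun i _ => hK' i, iUnion₂_subset fun i _ => hK'V i,
      fun p hp => Finset.sum_eq_zero fun i hi => ?_⟩, ?_, fun f hf h0 => ?_⟩
  · rw [hχ0 i p fun hh => hp (mem_iUnion₂.2 ⟨i, hi, hh⟩), zero_mul]
  · -- the distance
    have hle : ∀ p ∈ K, ‖∑ i ∈ s, χ i p * X i p - u p‖ ^ 2 ≤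
        s.card * ∑ i ∈ s, ‖E i p‖ ^ 2 := by
      intro p hp
      have e1 : ∑ i ∈ s, χ i p * X i p - u p = ∑ i ∈ s, χ i p * E i p := by
        have e2 : u p = ∑ i ∈ s, χ i p * u p := by rw [← Finset.sum_mul, hχsum p hp, one_mul]
        rw [e2, ← Finset.sum_sub_distrib]
        refine Finset.sum_congr rfl fun i _ => ?_
        by_cases hi : p ∈ K' i
        · simp only [hE, indicator_of_mem hi]
          ring
        · rw [hχ0 i p hi]
          ring
      rw [e1]
      have e3 : ‖∑ i ∈ s, χ i p * E i p‖ ≤ ∑ i ∈ s, ‖E i p‖ := by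
        refine (norm_sum_le _ _).trans (Finset.sum_le_sum fun i hi => ?_)
        rw [norm_mul]
        exact mul_le_of_le_one_left (norm_nonneg _) (hχ1 p hp i hi)
      refine (pow_le_pow_left₀ (norm_nonneg _) e3 2).trans ?_
      exact sq_sum_le_card_mul_sum_sq
    have hi : ∀ i, Integrable (fun p => ‖E i p‖ ^ 2) μ := fun i =>
      (memLp_two_iff_integrable_sq_norm (hEm i).1).1 (hEm i)
    have hI : Integrable (fun p => (s.card : ℝ) * ∑ i ∈ s, ‖E i p‖ ^ 2) μ :=
      (integrable_finsetSum _ fun i _ => hi i).const_mul _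
    have h1 : ∫ p in K, ‖∑ i ∈ s, χ i p * X i p - u p‖ ^ 2 ∂μ ≤
        ∫ p in K, (s.card : ℝ) * ∑ i ∈ s, ‖E i p‖ ^ 2 ∂μ := by
      refine integral_mono_of_nonneg (Eventually.of_forall fun p => sq_nonneg _)
        hI.integrableOn ?_
      exact (ae_restrict_iff' hK.isClosed.measurableSet).2 (Eventually.of_forall hle)
    have h2 : ∫ p in K, (s.card : ℝ) * ∑ i ∈ s, ‖E i p‖ ^ 2 ∂μ ≤
        ∫ p, (s.card : ℝ) * ∑ i ∈ s, ‖E i p‖ ^ 2 ∂μ :=
      setIntegral_le_integral hI (Eventually.of_forall fun p => by positivity)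
    have h3 : ∫ p, (s.card : ℝ) * ∑ i ∈ s, ‖E i p‖ ^ 2 ∂μ ≤ (s.card : ℝ) * (s.card * η ^ 2) := by
      rw [integral_const_mul, integral_finsetSum _ fun i _ => hi i]
      refine mul_le_mul_of_nonneg_left ?_ (Nat.cast_nonneg _)
      refine (Finset.sum_le_sum fun i _ => hEn i).trans (le_of_eq ?_)
      rw [Finset.sum_const, nsmul_eq_mul]
    have h4 : (s.card : ℝ) * (s.card * η ^ 2) ≤ δ ^ 2 := by
      have e1 : (s.card : ℝ) * η ≤ δ := by
        rw [hηdef, mul_div_assoc', div_le_iff₀ (by positivity)]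
        nlinarith [mul_nonneg hδ.le hG0]
      have e2 : (s.card : ℝ) * (s.card * η ^ 2) = (s.card * η) ^ 2 := by ring
      rw [e2]
      exact pow_le_pow_left₀ (by positivity) e1 2
    linarith
  · -- the weak equation
    have hfs : ∀ i, Sm e fun q => χ i q * f q := fun i => (hχ i).mul hf
    have hfz : ∀ i, ∀ p ∉ K' i, χ i p * f p = 0 := fun i p hp => by
      rw [hχ0 i p hp, zero_mul]
    have hLT : ∀ i, MemLp (Lap e w g fun q => χ i q * f q) 2 μ := fun i =>
      hμ.memLp_test h (h.Test_Lap ⟨hfs i, K' i, hK' i, hK'V i, hfz i⟩)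
    have hRT : ∀ i, MemLp (cmt e w g (χ i) f) 2 μ := fun i =>
      hμ.memLp_test h ⟨h.Sm_cmt (hχ i) hf, K, hK, hKV, h.cmt_zero (hχ i) hf hK h0⟩
    have hRs : ∀ p, ∑ i ∈ s, cmt e w g (χ i) f p = 0 := by
      intro p
      simp only [cmt]
      rw [Finset.sum_sub_distrib, ← h.Lap_sum s hfs, ← Finset.sum_mul]
      have e1 : (fun q => ∑ i ∈ s, χ i q * f q) = f := by
        funext q
        rw [← Finset.sum_mul]
        by_cases hq : q ∈ K
        · rw [hχsum q hq, one_mul]
        · rw [h0 q hq, mul_zero]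
      rw [e1]
      by_cases hp : p ∈ K
      · rw [hχsum p hp, one_mul, sub_self]
      · rw [h.Lap_zero hf hK h0 p hp, mul_zero, sub_zero]
    have hkey : ∀ i p, X i p * (starRingEnd ℂ) (cmt e w g (χ i) f p) =
        u p * (starRingEnd ℂ) (cmt e w g (χ i) f p) +
          E i p * (starRingEnd ℂ) (cmt e w g (χ i) f p) := by
      intro i p
      by_cases hp : p ∈ K' i
      · simp only [hE, indicator_of_mem hp]
        ring
      · rw [h.cmt_zero' (hχ i) hf (hK' i) (hχ0 i) p hp]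
        simp
    have hpt : ∀ p, (∑ i ∈ s, χ i p * X i p) * (starRingEnd ℂ) (Lap e w g f p) =
        ∑ i ∈ s, X i p * (starRingEnd ℂ) (Lap e w g (fun q => χ i q * f q) p) -
          ∑ i ∈ s, E i p * (starRingEnd ℂ) (cmt e w g (χ i) f p) := by
      intro p
      have e1 : ∑ i ∈ s, E i p * (starRingEnd ℂ) (cmt e w g (χ i) f p) =
          ∑ i ∈ s, X i p * (starRingEnd ℂ) (cmt e w g (χ i) f p) := by
        have e2 : ∑ i ∈ s, u p * (starRingEnd ℂ) (cmt e w g (χ i) f p) = 0 := by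
          rw [← Finset.mul_sum, ← map_sum, hRs p, map_zero, mul_zero]
        rw [← zero_add (∑ i ∈ s, E i p * (starRingEnd ℂ) (cmt e w g (χ i) f p)), ← e2,
          ← Finset.sum_add_distrib]
        exact Finset.sum_congr rfl fun i _ => (hkey i p).symm
      rw [e1, ← Finset.sum_sub_distrib, Finset.sum_mul]
      refine Finset.sum_congr rfl fun i _ => ?_
      rw [cmt, map_sub, map_mul, hr i p]
      ring
    have hXi : ∀ i, Integrable (fun p => X i p *
        (starRingEnd ℂ) (Lap e w g (fun q => χ i q * f q) p)) μ := by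
      intro i
      have e1 : (fun p => X i p * (starRingEnd ℂ) (Lap e w g (fun q => χ i q * f q) p)) =
          fun p => u p * (starRingEnd ℂ) (Lap e w g (fun q => χ i q * f q) p) +
            E i p * (starRingEnd ℂ) (Lap e w g (fun q => χ i q * f q) p) := by
        funext p
        by_cases hp : p ∈ K' i
        · simp only [hE, indicator_of_mem hp]
          ring
        · rw [h.Lap_zero (hfs i) (hK' i) (hfz i) p hp]
          simp
      rw [e1]
      exact (hu.integrable_mul (hLT i).star).add ((hEm i).integrable_mul (hLT i).star)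
    have hEi : ∀ i, Integrable (fun p => E i p * (starRingEnd ℂ) (cmt e w g (χ i) f p)) μ :=
      fun i => (hEm i).integrable_mul (hRT i).star
    set S := ∫ p, ‖f p‖ ^ 2 ∂μ + ∫ p, (gam e g f f p).re ∂μ with hS
    have hS0 : 0 ≤ S := add_nonneg (integral_nonneg fun p => sq_nonneg _)
      (integral_nonneg fun p => h.gam_nonneg hf p)
    have hDS : ∀ i, √(D i ^ 2 * S) = D i * √S := fun i => by
      rw [Real.sqrt_mul (sq_nonneg _), Real.sqrt_sq (hD0 i)]
    have hb1 : ∀ i, ‖∫ p, X i p * (starRingEnd ℂ) (Lap e w g (fun q => χ i q * f q) p) ∂μ‖ ≤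
        η * (D i * √S) := by
      intro i
      refine (hvw i _ (hfs i) (hfz i)).trans ?_
      rw [← hDS]
      exact mul_le_mul_of_nonneg_left (Real.sqrt_le_sqrt (hD i f hf h0).2) hη.le
    have hb2 : ∀ i, ‖∫ p, E i p * (starRingEnd ℂ) (cmt e w g (χ i) f p) ∂μ‖ ≤
        η * (D i * √S) := by
      intro i
      refine (norm_integral_conj_le (hEm i) (hRT i)).trans ?_
      rw [← hDS]
      refine mul_le_mul ?_ (Real.sqrt_le_sqrt (hD i f hf h0).1) (Real.sqrt_nonneg _) hη.le
      rw [Real.sqrt_le_left hη.le]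
      exact hEn i
    simp only [hpt]
    rw [integral_sub (integrable_finsetSum _ fun i _ => hXi i)
      (integrable_finsetSum _ fun i _ => hEi i), integral_finsetSum _ fun i _ => hXi i,
      integral_finsetSum _ fun i _ => hEi i]
    have h1 : ‖∑ i ∈ s, ∫ p, X i p *
        (starRingEnd ℂ) (Lap e w g (fun q => χ i q * f q) p) ∂μ‖ ≤ η * (G * √S) := by
      refine (norm_sum_le _ _).trans ((Finset.sum_le_sum fun i _ => hb1 i).trans (le_of_eq ?_))
      rw [← Finset.mul_sum, ← Finset.sum_mul]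
    have h2 : ‖∑ i ∈ s, ∫ p, E i p *
        (starRingEnd ℂ) (cmt e w g (χ i) f p) ∂μ‖ ≤ η * (G * √S) := by
      refine (norm_sum_le _ _).trans ((Finset.sum_le_sum fun i _ => hb2 i).trans (le_of_eq ?_))
      rw [← Finset.mul_sum, ← Finset.sum_mul]
    refine (norm_sub_le _ _).trans ((add_le_add h1 h2).trans ?_)
    have h3 : η * (G * √S) + η * (G * √S) = (η * (2 * G)) * √S := by ring
    rw [h3]
    refine mul_le_mul_of_nonneg_right ?_ (Real.sqrt_nonneg _)
    rw [hηdef, div_mul_eq_mul_div, div_le_iff₀ (by positivity)]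
    have : 0 ≤ δ * s.card := by positivity
    nlinarith

end

end Pool.Agent.KRFQ

end
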