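import Pool.Agent.Work.MP_a2bf38_gt.Fu.Q.Wirt
import Pool.Agent.Work.MP_a2bf38_gt.H.Defs

/-!
# Weyl's lemma for the operators `∂/∂ zbar_k`: a locally integrable function whose weak derivatives
`∂/∂ zbar_k` vanish is almost everywhere equal to a holomorphic function
-/

open scoped ContDiff Topology
open Set MeasureTheory Filter Pool.Agent.ToricKRF Pool.Agent.ToricKRF.G Pool.Agent.KRFS

namespace Pool.Agent.KRFQ

variable {n : ℕ}

/-! ### Rotations -/

/-- `J` as a linear map -/
noncomputable def JL : Cn n →L[ℝ] Cn n :=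
  (-(ContinuousLinearMap.snd ℝ (Fin n → ℝ) (Fin n → ℝ))).prod
    (ContinuousLinearMap.fst ℝ (Fin n → ℝ) (Fin n → ℝ))

theorem JL_apply (z : Cn n) : JL z = J z := rfl

theorem clm_eq_sum (L : Cn n →L[ℝ] ℂ) (z : Cn n) :
    L z = ∑ k, ((z.1 k : ℂ) * L (eR k) + (z.2 k : ℂ) * L (eI k)) := by
  have h1 : z = ∑ k, (z.1 k • eR k + z.2 k • eI k) := by
    ext j
    · simp [eR, eI, Prod.fst_sum, Finset.sum_apply, Pi.single_apply]
    · simp [eR, eI, Prod.snd_sum, Finset.sum_apply, Pi.single_apply]
  conv_lhs => rw [h1]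
  rw [map_sum]
  refine Finset.sum_congr rfl fun k _ => ?_
  rw [map_add, map_smul, map_smul]
  simp

/-- `Df(ζ) + i Df(J ζ) = 2 ∑ conj(ζ_k) ∂f/∂ zbar_k` -/
theorem fderiv_add_J (f : Cn n → ℂ) (x z : Cn n) :
    fderiv ℝ f x z + Complex.I * fderiv ℝ f x (J z) =
      2 * ∑ k, ((z.1 k : ℂ) - Complex.I * (z.2 k : ℂ)) * dzb k f x := by
  rw [clm_eq_sum (fderiv ℝ f x) z, clm_eq_sum (fderiv ℝ f x) (J z), Finset.mul_sum,
    Finset.mul_sum, ← Finset.sum_add_distrib]
  refine Finset.sum_congr rfl fun k _ => ?_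
  have h1 : (J z).1 k = -(z.2 k) := rfl
  have h2 : (J z).2 k = z.1 k := rfl
  rw [h1, h2]
  simp only [dzb]
  push_cast
  linear_combination ((z.2 k : ℂ) * fderiv ℝ f x (eI k)) * Complex.I_sq

/-- The integral of the derivative along the rotations vanishes. -/
theorem integral_rot_eq_zero {f : Cn n → ℂ} (hf : ContDiff ℝ 1 f) (hs : HasCompactSupport f) :
    ∫ z, fderiv ℝ f z (J z) = 0 := by
  have := haarCn (n := n)
  -- the coordinates
  let a : Fin n → Cn n →L[ℝ] ℂ := fun k =>
    Complex.ofRealCLM ∘L (ContinuousLinearMap.proj (R := ℝ) (φ := fun _ : Fin n => ℝ) k) ∘L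
      ContinuousLinearMap.fst ℝ (Fin n → ℝ) (Fin n → ℝ)
  let b : Fin n → Cn n →L[ℝ] ℂ := fun k =>
    Complex.ofRealCLM ∘L (ContinuousLinearMap.proj (R := ℝ) (φ := fun _ : Fin n => ℝ) k) ∘L
      ContinuousLinearMap.snd ℝ (Fin n → ℝ) (Fin n → ℝ)
  have ha : ∀ k z, a k z = (z.1 k : ℂ) := fun k z => rfl
  have hb : ∀ k z, b k z = (z.2 k : ℂ) := fun k z => rfl
  have haI : ∀ k, a k (eI k) = 0 := fun k => by rw [ha]; simp [eI]
  have hbR : ∀ k, b k (eR k) = 0 := fun k => by rw [hb]; simp [eR]
  have hfd : Differentiable ℝ f := hf.differentiable (by simp)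
  have key : ∀ z, fderiv ℝ f z (J z) = ∑ k, (fderiv ℝ (fun y => a k y * f y) z (eI k) -
      fderiv ℝ (fun y => b k y * f y) z (eR k)) := by
    intro z
    rw [clm_eq_sum (fderiv ℝ f z) (J z)]
    refine Finset.sum_congr rfl fun k _ => ?_
    have h1 : (J z).1 k = -(z.2 k) := rfl
    have h2 : (J z).2 k = z.1 k := rfl
    rw [h1, h2, fderiv_fun_mul (a k).differentiableAt (hfd z),
      fderiv_fun_mul (b k).differentiableAt (hfd z)]
    simp only [add_apply, smul_apply, smul_eq_mul, ContinuousLinearMap.fderiv, haI, hbR]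
    rw [ha, hb]
    push_cast
    ring
  have h1 : ∀ (c : Cn n →L[ℝ] ℂ), ContDiff ℝ 1 (fun y => c y * f y) := fun c =>
    c.contDiff.mul hf
  have h2 : ∀ (c : Cn n →L[ℝ] ℂ), HasCompactSupport (fun y => c y * f y) := fun c =>
    hs.mul_left
  have h3 : ∀ (c : Cn n →L[ℝ] ℂ) (u : Cn n),
      Integrable (fun x => fderiv ℝ (fun y => c y * f y) x u) := by
    intro c u
    have h4 : Continuous (fun x => fderiv ℝ (fun y => c y * f y) x u) :=
      ((h1 c).continuous_fderiv (by simp)).clm_apply continuous_const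
    exact h4.integrable_of_hasCompactSupport ((h2 c).fderiv_apply (𝕜 := ℝ) u)
  simp only [key]
  rw [integral_finsetSum Finset.univ (f := fun k z =>
    (fderiv ℝ (fun y => a k y * f y) z (eI k) - fderiv ℝ (fun y => b k y * f y) z (eR k)))
    (fun k _ => (h3 _ _).sub (h3 _ _))]
  refine Finset.sum_eq_zero fun k _ => ?_
  rw [integral_sub (h3 _ _) (h3 _ _), integral_fderiv_eq_zero (h1 _) (h2 _),
    integral_fderiv_eq_zero (h1 _) (h2 _), sub_zero]

/-! ### Mollifiers -/

/-- The square of the euclidean norm. -/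
noncomputable def nq (z : Cn n) : ℝ := ∑ k, (z.1 k ^ 2 + z.2 k ^ 2)

theorem contDiff_nq : ContDiff ℝ ∞ (nq (n := n)) := by
  unfold nq
  fun_prop

theorem norm_sq_le_nq (z : Cn n) : ‖z‖ ^ 2 ≤ nq z := by
  have h0 : 0 ≤ nq z := Finset.sum_nonneg fun k _ => by positivity
  have h1 : ∀ k, |z.1 k| ≤ Real.sqrt (nq z) := fun k => by
    apply Real.abs_le_sqrt
    have h2 : z.1 k ^ 2 + z.2 k ^ 2 ≤ nq z :=
      Finset.single_le_sum (f := fun k => z.1 k ^ 2 + z.2 k ^ 2) (fun k _ => by positivity)
        (Finset.mem_univ k)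
    nlinarith [sq_nonneg (z.2 k)]
  have h3 : ∀ k, |z.2 k| ≤ Real.sqrt (nq z) := fun k => by
    apply Real.abs_le_sqrt
    have h2 : z.1 k ^ 2 + z.2 k ^ 2 ≤ nq z :=
      Finset.single_le_sum (f := fun k => z.1 k ^ 2 + z.2 k ^ 2) (fun k _ => by positivity)
        (Finset.mem_univ k)
    nlinarith [sq_nonneg (z.1 k)]
  have h4 : ‖z‖ ≤ Real.sqrt (nq z) := by
    rw [Prod.norm_def]
    refine max_le ?_ ?_
    · exact (pi_norm_le_iff_of_nonneg (Real.sqrt_nonneg _)).2 fun k => by
        rw [Real.norm_eq_abs]; exact h1 k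
    · exact (pi_norm_le_iff_of_nonneg (Real.sqrt_nonneg _)).2 fun k => by
        rw [Real.norm_eq_abs]; exact h3 k
  calc ‖z‖ ^ 2 ≤ Real.sqrt (nq z) ^ 2 := by gcongr
    _ = nq z := Real.sq_sqrt h0

theorem fderiv_nq_J (z : Cn n) : fderiv ℝ (nq (n := n)) z (J z) = 0 := by
  let a : Fin n → Cn n →L[ℝ] ℝ := fun k =>
    (ContinuousLinearMap.proj (R := ℝ) (φ := fun _ : Fin n => ℝ) k) ∘L
      ContinuousLinearMap.fst ℝ (Fin n → ℝ) (Fin n → ℝ)
  let b : Fin n → Cn n →L[ℝ] ℝ := fun k =>
    (ContinuousLinearMap.proj (R := ℝ) (φ := fun _ : Fin n => ℝ) k) ∘L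
      ContinuousLinearMap.snd ℝ (Fin n → ℝ) (Fin n → ℝ)
  have h1 : HasFDerivAt (nq (n := n)) (∑ k, ((2 * (z.1 k)) • a k + (2 * (z.2 k)) • b k)) z := by
    have h2 : ∀ k ∈ (Finset.univ : Finset (Fin n)),
        HasFDerivAt (fun z : Cn n => z.1 k ^ 2 + z.2 k ^ 2)
          ((2 * (z.1 k)) • a k + (2 * (z.2 k)) • b k) z := by
      intro k _
      have h3 := ((a k).hasFDerivAt (x := z)).pow 2
      have h4 := ((b k).hasFDerivAt (x := z)).pow 2
      have h5 := h3.add h4
      refine (h5.congr_fderiv ?_).congr_of_eventuallyEq (Eventually.of_forall fun y => rfl)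
      ext u <;> simp [a, b]
    exact HasFDerivAt.fun_sum h2
  rw [h1.fderiv]
  simp only [sum_apply, add_apply, smul_apply]
  refine Finset.sum_eq_zero fun k _ => ?_
  have h6 : a k (J z) = -(z.2 k) := rfl
  have h7 : b k (J z) = z.1 k := rfl
  rw [h6, h7]
  simp only [smul_eq_mul]
  ring

/-- A rotation invariant mollifier with support in the closed ball of radius `ε`. -/
structure Moll (n : ℕ) (ε : ℝ) where
  /-- the function -/
  ρ : Cn n → ℂ
  smooth : ContDiff ℝ ∞ ρ
  supp : tsupport ρ ⊆ Metric.closedBall 0 ε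
  int : ∫ z, ρ z = 1
  rot : ∀ z, fderiv ℝ ρ z (J z) = 0

theorem Moll.hasCompactSupport {ε : ℝ} (m : Moll n ε) : HasCompactSupport m.ρ :=
  HasCompactSupport.of_support_subset_isCompact (isCompact_closedBall 0 ε)
    ((subset_tsupport _).trans m.supp)

theorem exists_rotMoll (n : ℕ) {ε : ℝ} (hε : 0 < ε) : Nonempty (Moll n ε) := by
  have := haarCn (n := n)
  let f : Cn n → ℝ := fun z => Real.smoothTransition (1 - nq z / ε ^ 2)
  have hf : ContDiff ℝ ∞ f :=
    Real.smoothTransition.contDiff.comp (contDiff_const.sub (contDiff_nq.div_const _))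
  have hs : Function.support f ⊆ Metric.closedBall 0 ε := by
    intro z hz
    rw [mem_closedBall_zero_iff]
    by_contra h
    push Not at h
    apply hz
    apply Real.smoothTransition.zero_of_nonpos
    have h1 := norm_sq_le_nq z
    have h2 : ε ^ 2 ≤ nq z := le_trans (by gcongr) h1
    rw [sub_nonpos, le_div_iff₀ (by positivity)]
    linarith
  have hts : tsupport f ⊆ Metric.closedBall 0 ε := closure_minimal hs Metric.isClosed_closedBall
  have hc : HasCompactSupport f :=
    HasCompactSupport.of_support_subset_isCompact (isCompact_closedBall 0 ε) hs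
  have hpos : 0 < ∫ z, f z := by
    refine hf.continuous.integral_pos_of_hasCompactSupport_nonneg_nonzero hc
      (fun z => Real.smoothTransition.nonneg _) (x := 0) ?_
    have : nq (0 : Cn n) = 0 := by simp [nq]
    simp only [f, this, zero_div, sub_zero, Real.smoothTransition.one]
    exact one_ne_zero
  set c : ℝ := ∫ z, f z with hcdef
  have hfJ : ∀ z, fderiv ℝ f z (J z) = 0 := by
    intro z
    have h1 : HasFDerivAt (fun y : Cn n => 1 - nq y / ε ^ 2)
        (-((ε ^ 2)⁻¹ • fderiv ℝ (nq (n := n)) z)) z := by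
      have h2 := ((contDiff_nq.differentiable (by simp)) z).hasFDerivAt.mul_const ((ε ^ 2)⁻¹)
      exact (h2.const_sub 1).congr_of_eventuallyEq (Eventually.of_forall fun y => by
        simp [div_eq_mul_inv])
    have h3 : DifferentiableAt ℝ Real.smoothTransition (1 - nq z / ε ^ 2) :=
      (Real.smoothTransition.contDiff (n := 1)).differentiable (by simp) _
    have h4 := h3.hasFDerivAt.comp z h1
    change fderiv ℝ (Real.smoothTransition ∘ fun y : Cn n => 1 - nq y / ε ^ 2) z (J z) = 0
    rw [h4.fderiv]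
    simp [fderiv_nq_J]
  refine ⟨⟨fun z => ((f z / c : ℝ) : ℂ), ?_, ?_, ?_, ?_⟩⟩
  · exact Complex.ofRealCLM.contDiff.comp (hf.div_const c)
  · refine closure_minimal (fun z hz => hs ?_) Metric.isClosed_closedBall
    intro h0
    exact hz (by simp [h0])
  · rw [integral_complex_ofReal, integral_div, ← hcdef, div_self hpos.ne']
    simp
  · intro z
    have h1 := ((hf.differentiable (by simp)) z).hasFDerivAt.mul_const (c⁻¹)
    have h2 := (Complex.ofRealCLM.hasFDerivAt (x := f z * c⁻¹)).comp z h1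
    have h3 : (fun z => ((f z / c : ℝ) : ℂ)) = (Complex.ofRealCLM ∘ fun y => f y * c⁻¹) := by
      funext y
      simp [div_eq_mul_inv]
    rw [h3, h2.fderiv]
    simp [hfJ]

/-! ### The mean value property -/

theorem Moll.integral_mul_fderiv {ε : ℝ} (m : Moll n ε) {H : Cn n → ℂ} (hH : ContDiff ℝ ∞ H) :
    ∫ z, m.ρ z * fderiv ℝ H z (J z) = 0 := by
  have h1 : ContDiff ℝ 1 (fun z => m.ρ z * H z) :=
    (m.smooth.mul hH).of_le (by exact_mod_cast le_top)
  have h2 : HasCompactSupport (fun z => m.ρ z * H z) := m.hasCompactSupport.mul_right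
  have h3 := integral_rot_eq_zero h1 h2
  rw [← h3]
  refine integral_congr_ae (Eventually.of_forall fun z => ?_)
  change m.ρ z * fderiv ℝ H z (J z) = fderiv ℝ (fun z => m.ρ z * H z) z (J z)
  rw [fderiv_fun_mul (m.smooth.differentiable (by simp) z) (hH.differentiable (by simp) z)]
  simp [m.rot]

theorem Moll.integral_mul_fderiv_smul {ε : ℝ} (m : Moll n ε) {G : Cn n → ℂ}
    (hG : ContDiff ℝ ∞ G) (r : ℝ) : ∫ z, m.ρ z * fderiv ℝ G (r • z) (J z) = 0 := by
  by_cases hr : r = 0
  · subst hr
    have h1 := m.integral_mul_fderiv (H := fun z => fderiv ℝ G 0 z) (fderiv ℝ G 0).contDiff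
    simpa using h1
  · have h1 : ContDiff ℝ ∞ (fun z : Cn n => G (r • z)) :=
      hG.comp (contDiff_const_smul r)
    have h2 := m.integral_mul_fderiv h1
    have h3 : ∀ z : Cn n, fderiv ℝ (fun z : Cn n => G (r • z)) z (J z) =
        (r : ℂ) * fderiv ℝ G (r • z) (J z) := by
      intro z
      have h4 : HasFDerivAt (fun z : Cn n => r • z) (r • ContinuousLinearMap.id ℝ (Cn n)) z :=
        (hasFDerivAt_id z).const_smul r
      have h5 := ((hG.differentiable (by simp)) (r • z)).hasFDerivAt.comp z h4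
      have h6 : (fun z : Cn n => G (r • z)) = G ∘ fun z : Cn n => r • z := rfl
      rw [h6, h5.fderiv]
      simp
    have h7 : (r : ℂ) * ∫ z, m.ρ z * fderiv ℝ G (r • z) (J z) = 0 := by
      rw [← integral_const_mul, ← h2]
      refine integral_congr_ae (Eventually.of_forall fun z => ?_)
      change (r : ℂ) * (m.ρ z * fderiv ℝ G (r • z) (J z)) =
        m.ρ z * fderiv ℝ (fun z : Cn n => G (r • z)) z (J z)
      rw [h3]
      ring
    exact (mul_eq_zero.1 h7).resolve_left (by exact_mod_cast hr)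

theorem Moll.hasDerivAt_integral {ε : ℝ} (m : Moll n ε) {G : Cn n → ℂ}
    (hG : ContDiff ℝ ∞ G) (r : ℝ) :
    HasDerivAt (fun r : ℝ => ∫ z, m.ρ z * G (r • z))
      (∫ z, m.ρ z * fderiv ℝ G (r • z) z) r := by
  have := haarCn (n := n)
  have hGf : Continuous (fderiv ℝ G) := hG.continuous_fderiv (by simp)
  obtain ⟨C, hC⟩ := (isCompact_closedBall (0 : Cn n) ((|r| + 1) * ε)).exists_bound_of_continuousOn
    hGf.continuousOn
  have hρc : Continuous m.ρ := m.smooth.continuous
  refine (hasDerivAt_integral_of_dominated_loc_of_deriv_le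
    (bound := fun z => ‖m.ρ z‖ * (C * ‖z‖)) (s := Metric.ball r 1)
    (F := fun (r : ℝ) z => m.ρ z * G (r • z))
    (F' := fun (r : ℝ) z => m.ρ z * fderiv ℝ G (r • z) z)
    (Metric.ball_mem_nhds r one_pos) ?_ ?_ ?_ ?_ ?_ ?_).2
  · refine Eventually.of_forall fun x => Continuous.aestronglyMeasurable ?_
    exact hρc.mul (hG.continuous.comp (continuous_const_smul x))
  · refine Continuous.integrable_of_hasCompactSupport ?_ m.hasCompactSupport.mul_right
    exact hρc.mul (hG.continuous.comp (continuous_const_smul r))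
  · refine Continuous.aestronglyMeasurable ?_
    exact hρc.mul ((hGf.comp (continuous_const_smul r)).clm_apply continuous_id)
  · refine Eventually.of_forall fun z x hx => ?_
    rw [norm_mul]
    by_cases hz : m.ρ z = 0
    · simp [hz]
    · have hz2 : z ∈ Metric.closedBall (0 : Cn n) ε := m.supp (subset_tsupport _ hz)
      rw [mem_closedBall_zero_iff] at hz2
      have hx2 : |x| ≤ |r| + 1 := by
        have h1 : |x - r| < 1 := by simpa [Real.dist_eq] using hx
        have h2 := abs_sub_abs_le_abs_sub x r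
        linarith
      have h3 : ‖fderiv ℝ G (x • z)‖ ≤ C := by
        apply hC
        rw [mem_closedBall_zero_iff, norm_smul, Real.norm_eq_abs]
        exact mul_le_mul hx2 hz2 (norm_nonneg _) (by positivity)
      gcongr
      exact (ContinuousLinearMap.le_opNorm _ _).trans (by gcongr)
  · refine Continuous.integrable_of_hasCompactSupport ?_ ?_
    · exact hρc.norm.mul (continuous_const.mul continuous_norm)
    · exact m.hasCompactSupport.norm.mul_right
  · refine Eventually.of_forall fun z x _ => ?_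
    have h1 : HasDerivAt (fun x : ℝ => x • z) ((1 : ℝ) • z) x := (hasDerivAt_id x).smul_const z
    rw [one_smul] at h1
    exact (((hG.differentiable (by simp)) (x • z)).hasFDerivAt.comp_hasDerivAt x h1).const_mul _

/-- The mean value property. -/
theorem Moll.mean_value {ε : ℝ} (m : Moll n ε) {G : Cn n → ℂ} (hG : ContDiff ℝ ∞ G)
    (hd : ∀ k, ∀ z ∈ Metric.closedBall (0 : Cn n) ε, dzb k G z = 0) :
    ∫ z, m.ρ z * G z = G 0 := by
  have h1 : ∀ r ∈ Icc (0 : ℝ) 1, ∫ z, m.ρ z * fderiv ℝ G (r • z) z = 0 := by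
    intro r hr
    have h2 : ∀ z, m.ρ z * fderiv ℝ G (r • z) z =
        -Complex.I * (m.ρ z * fderiv ℝ G (r • z) (J z)) := by
      intro z
      by_cases hz : m.ρ z = 0
      · simp [hz]
      · have hz2 : z ∈ Metric.closedBall (0 : Cn n) ε := m.supp (subset_tsupport _ hz)
        rw [mem_closedBall_zero_iff] at hz2
        have h3 := fderiv_add_J G (r • z) z
        have h4 : ∀ k, dzb k G (r • z) = 0 := fun k => by
          apply hd
          rw [mem_closedBall_zero_iff, norm_smul, Real.norm_eq_abs, abs_of_nonneg hr.1]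
          nlinarith [norm_nonneg z, hr.1, hr.2]
        simp only [h4, mul_zero, Finset.sum_const_zero] at h3
        linear_combination m.ρ z * h3
    simp only [h2]
    rw [integral_const_mul, m.integral_mul_fderiv_smul hG, mul_zero]
  have h2 : ∀ r ∈ Icc (0 : ℝ) 1, (∫ z, m.ρ z * G (r • z)) = ∫ z, m.ρ z * G ((0 : ℝ) • z) := by
    refine constant_of_has_deriv_right_zero (fun r _ =>
      (m.hasDerivAt_integral hG r).continuousAt.continuousWithinAt) (fun r hr => ?_)
    have h3 := m.hasDerivAt_integral hG r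
    rw [h1 r ⟨hr.1, hr.2.le⟩] at h3
    exact h3.hasDerivWithinAt
  have h3 := h2 1 ⟨zero_le_one, le_rfl⟩
  simp only [one_smul, zero_smul] at h3
  rw [h3, integral_mul_const, m.int, one_mul]

/-! ### Convolutions -/

/-- The convolution of `v` and `φ`. -/
noncomputable def cv (v φ : Cn n → ℂ) (x : Cn n) : ℂ := ∫ t, v t * φ (x - t)

theorem cv_eq (v φ : Cn n → ℂ) :
    cv v φ = convolution v φ (ContinuousLinearMap.mul ℝ ℂ) volume := by
  funext x
  rfl

theorem contDiff_cv {v φ : Cn n → ℂ} (hv : LocallyIntegrable v) (hφ : ContDiff ℝ ∞ φ)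
    (hc : HasCompactSupport φ) : ContDiff ℝ ∞ (cv v φ) := by
  rw [cv_eq]
  exact HasCompactSupport.contDiff_convolution_right _ hc hv hφ

theorem integrable_cv {v φ : Cn n → ℂ} (hv : LocallyIntegrable v) (hφ : Continuous φ)
    (hc : HasCompactSupport φ) (x : Cn n) : Integrable (fun t => v t * φ (x - t)) := by
  have := haarCn (n := n)
  exact hc.convolutionExists_right (L := ContinuousLinearMap.mul ℝ ℂ) hv hφ x

theorem fderiv_cv {v φ : Cn n → ℂ} (hv : LocallyIntegrable v) (hφ : ContDiff ℝ ∞ φ)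
    (hc : HasCompactSupport φ) (x u : Cn n) :
    fderiv ℝ (cv v φ) x u = cv v (fun y => fderiv ℝ φ y u) x := by
  have := haarCn (n := n)
  rw [cv_eq, cv_eq]
  have h1 := HasCompactSupport.hasFDerivAt_convolution_right (ContinuousLinearMap.mul ℝ ℂ) hc hv
    (hφ.of_le (by exact_mod_cast le_top)) x
  rw [h1.fderiv]
  exact convolution_precompR_apply _ hv (hc.fderiv (𝕜 := ℝ)) (hφ.continuous_fderiv (by simp)) x u

theorem dzb_cv {v φ : Cn n → ℂ} (hv : LocallyIntegrable v) (hφ : ContDiff ℝ ∞ φ)
    (hc : HasCompactSupport φ) (k : Fin n) (x : Cn n) :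
    dzb k (cv v φ) x = ∫ t, v t * dzb k φ (x - t) := by
  have h1 : ∀ u : Cn n, Integrable (fun t => v t * fderiv ℝ φ (x - t) u) := fun u =>
    integrable_cv hv ((hφ.continuous_fderiv (by simp)).clm_apply continuous_const)
      (hc.fderiv_apply (𝕜 := ℝ) u) x
  have h2 : (fun t => v t * dzb k φ (x - t)) = fun t =>
      (v t * fderiv ℝ φ (x - t) (eR k) + Complex.I * (v t * fderiv ℝ φ (x - t) (eI k))) / 2 := by
    funext t
    simp only [dzb]
    ring
  rw [h2, integral_div, integral_add (h1 _) ((h1 _).const_mul _), integral_const_mul]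
  simp only [dzb]
  rw [fderiv_cv hv hφ hc, fderiv_cv hv hφ hc]
  rfl

theorem isNegInvariant_of_haar {E : Type*} [NormedAddCommGroup E] [NormedSpace ℝ E]
    [FiniteDimensional ℝ E] [MeasurableSpace E] [BorelSpace E] (μ : Measure E)
    [μ.IsAddHaarMeasure] : μ.IsNegInvariant := by
  infer_instance

theorem negInvCn : (volume : Measure (Cn n)).IsNegInvariant := by
  have := haarCn (n := n)
  exact isNegInvariant_of_haar _

theorem integral_neg_Cn (f : Cn n → ℂ) : ∫ x, f (-x) = ∫ x, f x := by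
  have h1 := negInvCn (n := n)
  exact integral_neg_eq_self f volume

theorem fderiv_comp_sub_left {φ : Cn n → ℂ} (hφ : ContDiff ℝ ∞ φ) (x t u : Cn n) :
    fderiv ℝ (fun t => φ (x - t)) t u = -fderiv ℝ φ (x - t) u := by
  have h1 : HasFDerivAt (fun t : Cn n => x - t) (-ContinuousLinearMap.id ℝ (Cn n)) t :=
    (hasFDerivAt_id t).const_sub x
  have h2 := ((hφ.differentiable (by simp)) (x - t)).hasFDerivAt.comp t h1
  have h3 : (fun t => φ (x - t)) = φ ∘ fun t => x - t := rfl
  rw [h3, h2.fderiv]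
  simp

theorem dzb_comp_sub_left {φ : Cn n → ℂ} (hφ : ContDiff ℝ ∞ φ) (k : Fin n) (x t : Cn n) :
    dzb k (fun t => φ (x - t)) t = -dzb k φ (x - t) := by
  simp only [dzb, fderiv_comp_sub_left hφ]
  ring

theorem fderiv_comp_add_right' {φ : Cn n → ℂ} (hφ : ContDiff ℝ ∞ φ) (x t u : Cn n) :
    fderiv ℝ (fun t => φ (t + x)) t u = fderiv ℝ φ (t + x) u := by
  have h1 : HasFDerivAt (fun t : Cn n => t + x) (ContinuousLinearMap.id ℝ (Cn n)) t :=
    (hasFDerivAt_id t).add_const x
  have h2 := ((hφ.differentiable (by simp)) (t + x)).hasFDerivAt.comp t h1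
  have h3 : (fun t => φ (t + x)) = φ ∘ fun t => t + x := rfl
  rw [h3, h2.fderiv]
  simp

theorem dzb_comp_add_right {φ : Cn n → ℂ} (hφ : ContDiff ℝ ∞ φ) (k : Fin n) (x t : Cn n) :
    dzb k (fun t => φ (t + x)) t = dzb k φ (t + x) := by
  simp only [dzb, fderiv_comp_add_right' hφ]

/-- If `v` is weakly holomorphic on the ball of radius `3 R`, then it is equal to its mollification
on the ball of radius `2 R`, tested against smooth functions. -/
theorem weyl_test {z0 : Cn n} {R : ℝ} {v : Cn n → ℂ} (hv : Integrable v)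
    (hw : ∀ k, ∀ f : Cn n → ℂ, ContDiff ℝ ∞ f → HasCompactSupport f →
      tsupport f ⊆ Metric.closedBall z0 (3 * R) → ∫ z, v z * dzb k f z = 0)
    (m : Moll n R) {φ : Cn n → ℂ} (hφ : ContDiff ℝ ∞ φ) (hc : HasCompactSupport φ)
    (hs : tsupport φ ⊆ Metric.ball z0 (2 * R)) :
    ∫ x, φ x * cv v m.ρ x = ∫ x, φ x * v x := by
  have := haarCn (n := n)
  have := negInvCn (n := n)
  -- the holomorphic function `G`
  set v' : Cn n → ℂ := fun t => v (-t) with hv'
  have hvi' : Integrable v' := hv.comp_neg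
  have hG : ∀ z, cv v' φ z = ∫ w, v w * φ (w + z) := by
    intro z
    change ∫ t, v (-t) * φ (z - t) = _
    rw [← integral_neg_Cn (fun w => v w * φ (w + z))]
    refine integral_congr_ae (Eventually.of_forall fun t => ?_)
    change v (-t) * φ (z - t) = v (-t) * φ (-t + z)
    rw [sub_eq_neg_add]
  have hGs : ContDiff ℝ ∞ (cv v' φ) := contDiff_cv hvi'.locallyIntegrable hφ hc
  have hGd : ∀ k, ∀ z ∈ Metric.closedBall (0 : Cn n) R, dzb k (cv v' φ) z = 0 := by
    intro k z hz
    rw [dzb_cv hvi'.locallyIntegrable hφ hc]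
    have h1 : ∫ t, v' t * dzb k φ (z - t) = ∫ w, v w * dzb k (fun w => φ (w + z)) w := by
      rw [← integral_neg_Cn (fun w => v w * dzb k (fun w => φ (w + z)) w)]
      refine integral_congr_ae (Eventually.of_forall fun t => ?_)
      change v (-t) * dzb k φ (z - t) = v (-t) * dzb k (fun w => φ (w + z)) (-t)
      rw [dzb_comp_add_right hφ, sub_eq_neg_add]
    rw [h1]
    have h2 : (fun w => φ (w + z)) = φ ∘ (Homeomorph.addRight z) := rfl
    refine hw k _ ?_ ?_ ?_
    · exact hφ.comp (contDiff_id.add contDiff_const)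
    · rw [h2]
      exact hc.comp_homeomorph _
    · have h3 : tsupport (fun w => φ (w + z)) = (Homeomorph.addRight z) ⁻¹' (tsupport φ) := by
        rw [h2]
        exact tsupport_comp_eq_preimage φ (Homeomorph.addRight z)
      rw [h3]
      intro w hw1
      have h4 : w + z ∈ Metric.ball z0 (2 * R) := hs hw1
      rw [mem_ball_iff_norm] at h4
      rw [mem_closedBall_iff_norm]
      rw [mem_closedBall_zero_iff] at hz
      calc ‖w - z0‖ = ‖(w + z - z0) - z‖ := by congr 1; abel
        _ ≤ ‖w + z - z0‖ + ‖z‖ := norm_sub_le _ _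
        _ ≤ 3 * R := by linarith
  have hmv := m.mean_value hGs hGd
  rw [hG 0] at hmv
  simp only [hG, add_zero] at hmv
  -- the bounds
  obtain ⟨C, hC⟩ := hc.exists_bound_of_continuous hφ.continuous
  obtain ⟨C', hC'⟩ := m.hasCompactSupport.exists_bound_of_continuous m.smooth.continuous
  have hρi : Integrable m.ρ := m.smooth.continuous.integrable_of_hasCompactSupport
    m.hasCompactSupport
  have hφi : Integrable φ := hφ.continuous.integrable_of_hasCompactSupport hc
  calc ∫ x, φ x * cv v m.ρ x = ∫ x, ∫ w, φ x * (v w * m.ρ (x - w)) := by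
        refine integral_congr_ae (Eventually.of_forall fun x => ?_)
        change φ x * ∫ w, v w * m.ρ (x - w) = _
        rw [← integral_const_mul]
    _ = ∫ w, ∫ x, φ x * (v w * m.ρ (x - w)) := by
        refine integral_integral_swap ?_
        have h1 : Integrable (fun p : Cn n × Cn n => φ p.1 * v p.2) (volume.prod volume) :=
          hφi.mul_prod hv
        have h2 := h1.mul_bdd (c := C') (g := fun p : Cn n × Cn n => m.ρ (p.1 - p.2))
          ((m.smooth.continuous.comp (continuous_fst.sub continuous_snd)).aestronglyMeasurable)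
          (Eventually.of_forall fun p => hC' _)
        refine h2.congr (Eventually.of_forall fun p => ?_)
        simp only [Function.uncurry]
        ring
    _ = ∫ w, ∫ z, m.ρ z * (v w * φ (w + z)) := by
        refine integral_congr_ae (Eventually.of_forall fun w => ?_)
        change ∫ x, φ x * (v w * m.ρ (x - w)) = ∫ z, m.ρ z * (v w * φ (w + z))
        rw [← integral_sub_right_eq_self (fun z => m.ρ z * (v w * φ (w + z))) w]
        refine integral_congr_ae (Eventually.of_forall fun x => ?_)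
        change φ x * (v w * m.ρ (x - w)) = m.ρ (x - w) * (v w * φ (w + (x - w)))
        rw [add_sub_cancel]
        ring
    _ = ∫ z, ∫ w, m.ρ z * (v w * φ (w + z)) := by
        refine integral_integral_swap ?_
        have h1 : Integrable (fun p : Cn n × Cn n => v p.1 * m.ρ p.2) (volume.prod volume) :=
          hv.mul_prod hρi
        have h2 := h1.mul_bdd (c := C) (g := fun p : Cn n × Cn n => φ (p.1 + p.2))
          ((hφ.continuous.comp (continuous_fst.add continuous_snd)).aestronglyMeasurable)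
          (Eventually.of_forall fun p => hC _)
        refine h2.congr (Eventually.of_forall fun p => ?_)
        simp only [Function.uncurry]
        ring
    _ = ∫ z, m.ρ z * ∫ w, v w * φ (w + z) := by
        refine integral_congr_ae (Eventually.of_forall fun z => ?_)
        change ∫ w, m.ρ z * (v w * φ (w + z)) = _
        rw [integral_const_mul]
    _ = ∫ x, φ x * v x := by
        rw [hmv]
        refine integral_congr_ae (Eventually.of_forall fun z => ?_)
        exact mul_comm _ _

/-- Weyl's lemma near a point. -/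
theorem weyl_loc {U : Set (Cn n)} {u : Cn n → ℂ} (hu : LocallyIntegrableOn u U volume)
    (hw : ∀ k, ∀ f : Cn n → ℂ, ContDiff ℝ ∞ f → HasCompactSupport f → tsupport f ⊆ U →
      ∫ z, u z * dzb k f z = 0) {z0 : Cn n} {R : ℝ} (hR : 0 < R)
    (hball : Metric.closedBall z0 (3 * R) ⊆ U) :
    ∃ h : Cn n → ℂ, ContDiff ℝ ∞ h ∧ (∀ k, ∀ z ∈ Metric.ball z0 (2 * R), dzb k h z = 0) ∧
      ∀ᵐ z, z ∈ Metric.ball z0 (2 * R) → u z = h z := by
  have := haarCn (n := n)
  set B : Set (Cn n) := Metric.closedBall z0 (3 * R) with hB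
  have hBm : MeasurableSet B := Metric.isClosed_closedBall.measurableSet
  set v : Cn n → ℂ := B.indicator u with hv
  have hvi : Integrable v := by
    rw [hv, integrable_indicator_iff hBm]
    exact hu.integrableOn_compact_subset hball (isCompact_closedBall z0 (3 * R))
  have hvu : ∀ z ∈ B, v z = u z := fun z hz => indicator_of_mem hz u
  have hvw : ∀ k, ∀ f : Cn n → ℂ, ContDiff ℝ ∞ f → HasCompactSupport f →
      tsupport f ⊆ Metric.closedBall z0 (3 * R) → ∫ z, v z * dzb k f z = 0 := by
    intro k f hf hc hs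
    rw [← hw k f hf hc (hs.trans hball)]
    refine integral_congr_ae (Eventually.of_forall fun z => ?_)
    change v z * dzb k f z = u z * dzb k f z
    by_cases hz : z ∈ tsupport f
    · rw [hvu z (hs hz)]
    · rw [dzb_of_notMem hz, mul_zero, mul_zero]
  obtain ⟨m⟩ := exists_rotMoll n hR
  have hhs : ContDiff ℝ ∞ (cv v m.ρ) :=
    contDiff_cv hvi.locallyIntegrable m.smooth m.hasCompactSupport
  refine ⟨cv v m.ρ, hhs, ?_, ?_⟩
  · intro k x hx
    rw [dzb_cv hvi.locallyIntegrable m.smooth m.hasCompactSupport]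
    have h1 : ∫ t, v t * dzb k m.ρ (x - t) = -∫ t, v t * dzb k (fun t => m.ρ (x - t)) t := by
      rw [← integral_neg]
      refine integral_congr_ae (Eventually.of_forall fun t => ?_)
      change v t * dzb k m.ρ (x - t) = -(v t * dzb k (fun t => m.ρ (x - t)) t)
      rw [dzb_comp_sub_left m.smooth]
      ring
    rw [h1, neg_eq_zero]
    have h2 : (fun t => m.ρ (x - t)) = m.ρ ∘ (Homeomorph.subLeft x) := rfl
    refine hvw k _ ?_ ?_ ?_
    · exact m.smooth.comp (contDiff_const.sub contDiff_id)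
    · rw [h2]
      exact m.hasCompactSupport.comp_homeomorph _
    · have h3 : tsupport (fun t => m.ρ (x - t)) = (Homeomorph.subLeft x) ⁻¹' (tsupport m.ρ) := by
        rw [h2]
        exact tsupport_comp_eq_preimage m.ρ (Homeomorph.subLeft x)
      rw [h3]
      intro w hw1
      have h4 : x - w ∈ Metric.closedBall (0 : Cn n) R := m.supp hw1
      rw [mem_closedBall_zero_iff] at h4
      rw [mem_closedBall_iff_norm]
      rw [mem_ball_iff_norm] at hx
      calc ‖w - z0‖ = ‖(x - z0) - (x - w)‖ := by congr 1; abel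
        _ ≤ ‖x - z0‖ + ‖x - w‖ := norm_sub_le _ _
        _ ≤ 3 * R := by linarith
  · have hli : LocallyIntegrableOn (fun x => v x - cv v m.ρ x) (Metric.ball z0 (2 * R)) volume :=
      (hvi.locallyIntegrable.sub hhs.continuous.locallyIntegrable).locallyIntegrableOn _
    have h1 := IsOpen.ae_eq_zero_of_integral_contDiff_smul_eq_zero Metric.isOpen_ball hli ?_
    · filter_upwards [h1] with z hz hz2
      have h2 := hz hz2
      have h3 : z ∈ B := by
        rw [mem_ball_iff_norm] at hz2
        rw [hB, mem_closedBall_iff_norm]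
        linarith
      rw [← hvu z h3]
      exact sub_eq_zero.1 h2
    · intro g hg hgc hgs
      have hφ : ContDiff ℝ ∞ (fun x => (g x : ℂ)) := Complex.ofRealCLM.contDiff.comp hg
      have hφc : HasCompactSupport (fun x => (g x : ℂ)) :=
        hgc.comp_left (g := fun r : ℝ => (r : ℂ)) Complex.ofReal_zero
      have hφs : tsupport (fun x => (g x : ℂ)) ⊆ Metric.ball z0 (2 * R) := by
        refine (closure_mono ?_).trans hgs
        intro x hx h0
        exact hx (by simp [h0])
      have h2 := weyl_test hvi hvw m hφ hφc hφs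
      have h3 : Integrable (fun x => (g x : ℂ) * v x) := by
        obtain ⟨C, hC⟩ := hφc.exists_bound_of_continuous hφ.continuous
        exact hvi.bdd_mul hφ.continuous.aestronglyMeasurable (Eventually.of_forall hC)
      have h4 : Integrable (fun x => (g x : ℂ) * cv v m.ρ x) :=
        (hφ.continuous.mul hhs.continuous).integrable_of_hasCompactSupport hφc.mul_right
      have h5 : ∀ x, g x • (v x - cv v m.ρ x) = (g x : ℂ) * v x - (g x : ℂ) * cv v m.ρ x := by
        intro x
        rw [Complex.real_smul]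
        ring
      simp only [h5]
      rw [integral_sub h3 h4, h2, sub_self]

/-- **Weyl's lemma**: a locally integrable function on an open set `U` of `ℂ^n` whose weak
derivatives `∂/∂ zbar_k` vanish is almost everywhere equal to a smooth function `h` with
`∂h/∂ zbar_k = 0`. -/
theorem weyl {U : Set (Cn n)} (hU : IsOpen U) {u : Cn n → ℂ}
    (hu : LocallyIntegrableOn u U volume)
    (hw : ∀ k, ∀ f : Cn n → ℂ, ContDiff ℝ ∞ f → HasCompactSupport f → tsupport f ⊆ U →
      ∫ z, u z * dzb k f z = 0) :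
    ∃ h : Cn n → ℂ, ContDiffOn ℝ ∞ h U ∧ (∀ k, ∀ z ∈ U, dzb k h z = 0) ∧
      u =ᵐ[volume.restrict U] h := by
  have := haarCn (n := n)
  have h1 : ∀ z : Cn n, z ∈ U → ∃ R : ℝ, 0 < R ∧ Metric.closedBall z (3 * R) ⊆ U := by
    intro z hz
    obtain ⟨ε, hε, h⟩ := Metric.nhds_basis_closedBall.mem_iff.1 (hU.mem_nhds hz)
    exact ⟨ε / 3, by positivity, by rwa [mul_div_cancel₀ ε (by norm_num : (3 : ℝ) ≠ 0)]⟩
  choose! R hR hball using h1
  have h2 : ∀ z : Cn n, z ∈ U → ∃ h : Cn n → ℂ, ContDiff ℝ ∞ h ∧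
      (∀ k, ∀ x ∈ Metric.ball z (2 * R z), dzb k h x = 0) ∧
      ∀ᵐ x, x ∈ Metric.ball z (2 * R z) → u x = h x := fun z hz =>
    weyl_loc hu hw (hR z hz) (hball z hz)
  choose! H hHs hHd hHe using h2
  have hsub : ∀ z ∈ U, Metric.ball z (2 * R z) ⊆ U := fun z hz x hx => by
    apply hball z hz
    have h3 := hR z hz
    rw [mem_ball_iff_norm] at hx
    rw [mem_closedBall_iff_norm]
    linarith
  have hself : ∀ z ∈ U, z ∈ Metric.ball z (2 * R z) := fun z hz =>
    Metric.mem_ball_self (by linarith [hR z hz])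
  -- the local solutions agree
  have key : ∀ z ∈ U, ∀ x ∈ Metric.ball z (2 * R z), H x x = H z x := by
    intro z hz x hx
    have hxU := hsub z hz hx
    set W : Set (Cn n) := Metric.ball z (2 * R z) ∩ Metric.ball x (2 * R x) with hW
    have hWo : IsOpen W := Metric.isOpen_ball.inter Metric.isOpen_ball
    have h3 : H x =ᵐ[volume.restrict W] H z := by
      rw [EventuallyEq, ae_restrict_iff' hWo.measurableSet]
      filter_upwards [hHe x hxU, hHe z hz] with y hy1 hy2 hy
      rw [← hy1 hy.2, ← hy2 hy.1]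
    exact Measure.eqOn_open_of_ae_eq h3 hWo (hHs x hxU).continuous.continuousOn
      (hHs z hz).continuous.continuousOn ⟨hx, hself x hxU⟩
  have hev : ∀ z ∈ U, (fun x => H x x) =ᶠ[𝓝 z] H z := fun z hz => by
    filter_upwards [Metric.isOpen_ball.mem_nhds (hself z hz)] with x hx using key z hz x hx
  refine ⟨fun x => H x x, ?_, ?_, ?_⟩
  · intro z hz
    exact ((hHs z hz).contDiffAt.congr_of_eventuallyEq (hev z hz)).contDiffWithinAt
  · intro k z hz
    rw [dzb_congr (hev z hz)]
    exact hHd z hz k z (hself z hz)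
  · rw [EventuallyEq, ae_restrict_iff' hU.measurableSet, ae_iff]
    refine measure_null_of_locally_null _ fun z hz => ?_
    have hzU : z ∈ U := by
      by_contra h
      exact hz fun h' => absurd h' h
    refine ⟨{x | ¬(x ∈ U → u x = H x x)} ∩ Metric.ball z (2 * R z), ?_, ?_⟩
    · exact inter_mem self_mem_nhdsWithin
        (mem_nhdsWithin_of_mem_nhds (Metric.isOpen_ball.mem_nhds (hself z hzU)))
    · refine measure_mono_null ?_ (ae_iff.1 (hHe z hzU))
      rintro x ⟨hx1, hx2⟩
      intro h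
      apply hx1
      intro _
      rw [h hx2, key z hzU x hx2]

/-- A function with `∂h/∂ zbar_k = 0` is complex differentiable. -/
theorem fderiv_J_of_dzb {h : Cn n → ℂ} {z : Cn n} (hd : ∀ k, dzb k h z = 0) (u : Cn n) :
    fderiv ℝ h z (J u) = Complex.I * fderiv ℝ h z u := by
  have h1 := fderiv_add_J h z u
  simp only [hd, mul_zero, Finset.sum_const_zero] at h1
  linear_combination (-Complex.I) * h1 + fderiv ℝ h z (J u) * Complex.I_sq

theorem dzb_of_fderiv_J {h : Cn n → ℂ} {z : Cn n}
    (hJ : ∀ u, fderiv ℝ h z (J u) = Complex.I * fderiv ℝ h z u) (k : Fin n) : dzb k h z = 0 := by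
  have h1 := hJ (eR k)
  rw [J_eR] at h1
  simp only [dzb, h1]
  linear_combination (fderiv ℝ h z (eR k) / 2) * Complex.I_sq

/-- A complex number as an element of `ℂ^1`. -/
noncomputable def toC1 : ℂ →L[ℝ] Cn 1 :=
  (ContinuousLinearMap.pi fun _ => Complex.reCLM).prod
    (ContinuousLinearMap.pi fun _ => Complex.imCLM)

theorem toC1_apply (w : ℂ) : toC1 w = ((fun _ => w.re, fun _ => w.im) : Cn 1) := rfl

theorem toC1_I_mul (w : ℂ) : toC1 (Complex.I * w) = J (toC1 w) := by
  ext j <;> simp [toC1_apply, J]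

/-- The holomorphic functions, in the form `HolOn`. -/
theorem holOn_toC1 {h : Cn n → ℂ} {U : Set (Cn n)} (hU : IsOpen U) (hs : ContDiffOn ℝ ∞ h U)
    (hd : ∀ k, ∀ z ∈ U, dzb k h z = 0) : HolOn (fun z => toC1 (h z)) U := by
  refine ⟨toC1.contDiff.comp_contDiffOn hs, fun z hz u => ?_⟩
  have h1 : DifferentiableAt ℝ h z := (hs.differentiableOn (by simp)).differentiableAt
    (hU.mem_nhds hz)
  have h2 : fderiv ℝ (fun z => toC1 (h z)) z = toC1 ∘L fderiv ℝ h z := by
    have h3 := (toC1.hasFDerivAt (x := h z)).comp z h1.hasFDerivAt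
    exact h3.fderiv
  rw [h2]
  change toC1 (fderiv ℝ h z (J u)) = J (toC1 (fderiv ℝ h z u))
  rw [fderiv_J_of_dzb (fun k => hd k z hz), toC1_I_mul]

end Pool.Agent.KRFQ
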