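import Pool.Agent.Work.MP_a2bf38_gt.Fu.Q.Wirt
import Pool.Agent.Work.MP_a2bf38_gt.Fu.Q.Weyl
import Pool.Agent.Work.MP_a2bf38_gt.Fu.Q.GlobalB
import Pool.Agent.Work.MP_a2bf38_gt.Fu.Q.RegN
import Pool.Agent.Work.MP_a2bf38_gt.Fu.Q.Exh

section

/-!
# Gluing: a square integrable function which is weakly holomorphic in all charts is almost
everywhere equal to a function which is holomorphic in all charts
-/

open scoped ContDiff Topology ComplexOrder Matrix
open Set MeasureTheory Filter Pool.Agent.ToricKRF Pool.Agent.ToricKRF.G Pool.Agent.KRFS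

namespace Pool.Agent.KRFQ

section

variable {M : Type} [TopologicalSpace M] {n : ℕ} {κ : Type}
  {e : κ → OpenPartialHomeomorph M (Cn n)} {V : Set M} {w g : κ → Cn n → ℝ}

/-- The change of charts is differentiable. -/
theorem differentiableOn_tr (h : L2D e V w g) (c c' : κ) :
    DifferentiableOn ℝ (tr e c c') (dom e c c') :=
  (h.holo c c').1.differentiableOn (by simp)

/-- The change of charts maps null sets to null sets: preimages of null sets are null sets. -/
theorem null_preimage_tr (h : L2D e V w g) (c c' : κ) {N : Set (Cn n)} (hN : volume N = 0) :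
    volume (dom e c c' ∩ tr e c c' ⁻¹' N) = 0 := by
  have := haarCn (n := n)
  have h1 : volume (tr e c' c '' (N ∩ dom e c' c)) = 0 :=
    addHaar_image_eq_zero_of_differentiableOn_of_addHaar_eq_zero volume
      ((differentiableOn_tr h c' c).mono inter_subset_right)
      (measure_mono_null inter_subset_left hN)
  refine measure_mono_null ?_ h1
  rintro z ⟨hz, hzN⟩
  exact ⟨tr e c c' z, ⟨hzN, tr_mem_dom hz⟩, tr_tr hz⟩

section

variable [MeasurableSpace M] [BorelSpace M] {μ : Measure M}

theorem aestronglyMeasurable_pb {a : M → ℂ} (ha : StronglyMeasurable a) (c : κ) :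
    AEStronglyMeasurable (pb e c a) (volume.restrict (e c).target) := by
  have h1 : AEMeasurable (e c).symm (volume.restrict (e c).target) :=
    (e c).symm.continuousOn.aemeasurable (e c).open_target.measurableSet
  exact (ha.measurable.comp_aemeasurable h1).aestronglyMeasurable

/-- A square integrable function is locally integrable in the charts. -/
theorem IsDens.locallyIntegrableOn_pb (hμ : IsDens e w μ) (h : L2D e V w g) {a : M → ℂ}
    (ham : StronglyMeasurable a) (ha : MemLp a 2 μ) (c : κ) :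
    LocallyIntegrableOn (pb e c a) (e c).target volume := by
  have := haarCn (n := n)
  rw [locallyIntegrableOn_iff (e c).open_target.isLocallyClosed]
  intro K hK hKc
  have h2 : Integrable (fun p => ‖a p‖ ^ 2) μ := (memLp_two_iff_integrable_sq_norm ha.1).1 ha
  have h3 : IntegrableOn (fun p => ((‖a p‖ ^ 2 : ℝ) : ℂ)) (e c).source μ :=
    h2.ofReal.integrableOn
  have h3m : AEStronglyMeasurable (fun p => ((‖a p‖ ^ 2 : ℝ) : ℂ)) (μ.restrict (e c).source) :=
    h3.1
  rw [hμ.integrableOn_chart h h3m] at h3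
  have h4 : IntegrableOn (fun z => w c z * ‖pb e c a z‖ ^ 2) K := by
    have h5 := (h3.mono_set hK).norm
    refine h5.congr ?_
    refine (ae_restrict_iff' hKc.isClosed.measurableSet).2 (Eventually.of_forall fun z hz => ?_)
    have h6 := h.w_pos c z (hK hz)
    simp only [pb, norm_mul, Complex.norm_real, Real.norm_eq_abs, abs_of_pos h6, abs_pow,
      abs_norm]
  obtain ⟨m, hm, hmK⟩ : ∃ m : ℝ, 0 < m ∧ ∀ z ∈ K, m ≤ w c z := by
    rcases K.eq_empty_or_nonempty with rfl | hne
    · exact ⟨1, one_pos, fun z hz => absurd hz (notMem_empty z)⟩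
    · obtain ⟨z0, hz0, hmin⟩ := hKc.exists_isMinOn hne ((h.w_smooth c).continuousOn.mono hK)
      exact ⟨w c z0, h.w_pos c z0 (hK hz0), fun z hz => hmin hz⟩
  have hfin : volume K < ⊤ := hKc.measure_lt_top
  have h7 : IntegrableOn (fun z => 1 + m⁻¹ * (w c z * ‖pb e c a z‖ ^ 2)) K :=
    (integrableOn_const hfin.ne).add (h4.const_mul _)
  refine Integrable.mono' h7 ?_ ?_
  · exact (aestronglyMeasurable_pb ham c).mono_measure (Measure.restrict_mono hK le_rfl)
  · refine (ae_restrict_iff' hKc.isClosed.measurableSet).2 (Eventually.of_forall fun z hz => ?_)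
    have h8 := hmK z hz
    have h9 : ‖pb e c a z‖ ^ 2 ≤ m⁻¹ * (w c z * ‖pb e c a z‖ ^ 2) := by
      rw [← mul_assoc]
      refine le_mul_of_one_le_left (by positivity) ?_
      rw [inv_mul_eq_div, one_le_div hm]
      exact h8
    nlinarith [sq_nonneg (‖pb e c a z‖ - 1)]

/-- The preimage in `M` of a null set in a chart is a null set. -/
theorem IsDens.null_of_null (hμ : IsDens e w μ) {c : κ} {A : Set M}
    (hA : volume ((e c).target ∩ (e c).symm ⁻¹' A) = 0) : μ ((e c).source ∩ A) = 0 := by
  obtain ⟨T, hT, hTm, hT0⟩ := exists_measurable_superset_of_null hA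
  -- the measurable set `T'`
  set T' : Set M := (e c).source ∩ e c ⁻¹' T with hT'
  have hT'm : MeasurableSet T' := by
    have h1 : Measurable fun p : (e c).source => e c p :=
      (continuousOn_iff_continuous_domRestrict.1 (e c).continuousOn).measurable
    have h2 : T' = Subtype.val '' ((fun p : (e c).source => e c p) ⁻¹' T) := by
      ext p
      constructor
      · rintro ⟨hp, hpT⟩
        exact ⟨⟨p, hp⟩, hpT, rfl⟩
      · rintro ⟨⟨q, hq⟩, hqT, rfl⟩
        exact ⟨hq, hqT⟩
    rw [h2]
    exact MeasurableSet.subtype_image (e c).open_source.measurableSet (h1 hTm)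
  have hsub : (e c).source ∩ A ⊆ T' := by
    rintro p ⟨hp, hpA⟩
    refine ⟨hp, hT ⟨(e c).map_source hp, ?_⟩⟩
    change (e c).symm (e c p) ∈ A
    rwa [(e c).left_inv hp]
  refine measure_mono_null hsub ?_
  have h1 : μ T' = μ.restrict (e c).source T' := by
    rw [Measure.restrict_apply hT'm]
    congr 1
    exact (inter_eq_left.2 inter_subset_left).symm
  rw [h1, hμ.eq c, Measure.map_apply_of_aemeasurable (aemeasurable_symm c _) hT'm]
  refine withDensity_absolutelyContinuous _ _ ?_
  refine measure_mono_null (t := T ∪ ((e c).target)ᶜ) ?_ ?_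
  · intro z hz
    by_cases hzt : z ∈ (e c).target
    · left
      have h2 : e c ((e c).symm z) ∈ T := hz.2
      rwa [(e c).right_inv hzt] at h2
    · exact Or.inr hzt
  · refine measure_union_null ?_ ?_
    · exact Measure.absolutelyContinuous_of_le Measure.restrict_le_self hT0
    · rw [Measure.restrict_apply (e c).open_target.measurableSet.compl]
      simp

/-- **Gluing.** A square integrable function which is weakly holomorphic in the charts is almost
everywhere equal to a function which is holomorphic in the charts. -/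
theorem IsDens.exists_rep [T2Space M] (hμ : IsDens e w μ) (h : L2D e V w g) (hV : μ Vᶜ = 0)
    (s : ℕ → κ) (hs : V ⊆ ⋃ i, (e (s i)).source) {a : M → ℂ} (ham : StronglyMeasurable a)
    (ha : MemLp a 2 μ)
    (hw : ∀ c k, ∀ φ : Cn n → ℂ, ContDiff ℝ ∞ φ → HasCompactSupport φ →
      tsupport φ ⊆ (e c).target → ∫ z in (e c).target, pb e c a z * dzb k φ z = 0) :
    ∃ b : M → ℂ, (∀ c, ContDiffOn ℝ ∞ (pb e c b) (e c).target ∧
      ∀ k, ∀ z ∈ (e c).target, dzb k (pb e c b) z = 0) ∧ a =ᵐ[μ] b := by
  have := haarCn (n := n)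
  have h1 : ∀ c, ∃ H : Cn n → ℂ, ContDiffOn ℝ ∞ H (e c).target ∧
      (∀ k, ∀ z ∈ (e c).target, dzb k H z = 0) ∧
      pb e c a =ᵐ[volume.restrict (e c).target] H := fun c => by
    refine weyl (e c).open_target (hμ.locallyIntegrableOn_pb h ham ha c) fun k f hf hc hft => ?_
    rw [← hw c k f hf hc hft]
    refine (setIntegral_eq_integral_of_forall_compl_eq_zero fun z hz => ?_).symm
    rw [dzb_of_notMem fun hm => hz (hft hm), mul_zero]
  choose H hHs hHd hHe using h1
  have hN : ∀ c, volume {z | z ∈ (e c).target ∧ pb e c a z ≠ H c z} = 0 := by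
    intro c
    have h2 := (ae_restrict_iff' (e c).open_target.measurableSet).1 (hHe c)
    rw [ae_iff] at h2
    refine measure_mono_null ?_ h2
    rintro z ⟨hz, hne⟩ hcon
    exact hne (hcon hz)
  have hcomp : ∀ c c', ∀ z ∈ dom e c c', H c' (tr e c c' z) = H c z := by
    intro c c'
    have hO : IsOpen (dom e c c') := isOpen_dom c c'
    have h2 : (fun z => H c' (tr e c c' z)) =ᵐ[volume.restrict (dom e c c')] H c := by
      rw [EventuallyEq, ae_restrict_iff' hO.measurableSet, ae_iff]
      refine measure_mono_null (t := (dom e c c' ∩ tr e c c' ⁻¹'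
        {z | z ∈ (e c').target ∧ pb e c' a z ≠ H c' z}) ∪
        {z | z ∈ (e c).target ∧ pb e c a z ≠ H c z}) ?_
        (measure_union_null (null_preimage_tr h c c' (hN c')) (hN c))
      intro z hz
      by_contra hcon
      apply hz
      intro hzd
      rw [mem_union, not_or] at hcon
      have h3 : pb e c' a (tr e c c' z) = H c' (tr e c c' z) := by
        by_contra hne
        exact hcon.1 ⟨hzd, tr_mem_target hzd, hne⟩
      have h4 : pb e c a z = H c z := by
        by_contra hne
        exact hcon.2 ⟨dom_sub c c' hzd, hne⟩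
      rw [← h3, ← h4, pb_tr a hzd]
    intro z hz
    refine Measure.eqOn_open_of_ae_eq h2 hO ?_ ?_ hz
    · exact (hHs c').continuousOn.comp (h.holo c c').1.continuousOn fun x hx => tr_mem_target hx
    · exact (hHs c).continuousOn.mono (dom_sub c c')
  refine ⟨glob e H, fun c => ⟨Sm_glob hcomp hHs c, fun k z hz => ?_⟩, ?_⟩
  · have h2 : pb e c (glob e H) =ᶠ[𝓝 z] H c := by
      filter_upwards [(e c).open_target.mem_nhds hz] with x hx using pb_glob hcomp hx
    rw [dzb_congr h2]
    exact hHd c k z hz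
  · rw [EventuallyEq, ae_iff]
    refine measure_mono_null (t := Vᶜ ∪ ⋃ i, ((e (s i)).source ∩ {p | ¬a p = glob e H p})) ?_ ?_
    · intro p hp
      by_cases hpV : p ∈ V
      · right
        obtain ⟨i, hi⟩ := mem_iUnion.1 (hs hpV)
        exact mem_iUnion.2 ⟨i, hi, hp⟩
      · exact Or.inl hpV
    · refine measure_union_null hV (measure_iUnion_null fun i => hμ.null_of_null ?_)
      refine measure_mono_null ?_ (hN (s i))
      rintro z ⟨hz, hne⟩
      refine ⟨hz, fun heq => hne ?_⟩
      have h3 : glob e H ((e (s i)).symm z) = H (s i) z := pb_glob hcomp hz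
      rw [h3, ← heq]
      rfl

end

end

end Pool.Agent.KRFQ

end

section

/-!
# Theorem G: Hörmander's estimate for the ∂bar-equation on functions
-/

open scoped ContDiff Topology
open Set MeasureTheory Pool.Agent.ToricKRF Pool.Agent.ToricKRF.G Pool.Agent.KRFS Pool.Agent.KRFF

namespace Pool.Agent.KRFQ

/-- **Theorem G.** `μ` is the measure with the densities `w c = e^{-φ} Ω` and `k` is a semipositive
form with `c₀ k ≤ i ∂ ∂bar (-log w)`.  A smooth function `χ` with `|∂bar χ|^2_k ≤ B` is at distance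
at most `c₀⁻¹ ∫ B` from a holomorphic function. -/
theorem IsDens.hormander {M : Type} [TopologicalSpace M] {n : ℕ} {κ : Type}
    {e : κ → OpenPartialHomeomorph M (Cn n)} {V : Set M} {w g : κ → Cn n → ℝ}
    [MeasurableSpace M] [BorelSpace M] [T2Space M] {μ : Measure M}
    (hμ : IsDens e w μ) (h : L2D e V w g) {ψ : M → ℝ} (hψ : IsExh e V g ψ)
    (s : ℕ → κ) (hs : V ⊆ ⋃ i, (e (s i)).source) (hV : μ Vᶜ = 0)
    {k : κ → Cn n → ℝ} {c₀ : ℝ} (hc₀ : 0 < c₀)
    (hk0 : ∀ c, ∀ z ∈ (e c).target, ∀ u, 0 ≤ levz (k c) u z)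
    (curv : ∀ c, ∀ z ∈ (e c).target, ∀ u,
      c₀ * levz (k c) u z ≤ levz (fun x => -Real.log (w c x)) u z)
    {χ : M → ℂ} (hχ : Sm e χ) (hχ2 : MemLp χ 2 μ) {B : M → ℝ} (hB0 : ∀ p, 0 ≤ B p)
    (hBi : Integrable B μ)
    (hB : ∀ c, ∀ z ∈ (e c).target, ∀ u : Cn n,
      ‖∑ j, dzb j (pb e c χ) z * (starRingEnd ℂ) (cc u j)‖ ^ 2 ≤
        B ((e c).symm z) * levz (k c) u z) :
    ∃ b : M → ℂ, (∀ c, ContDiffOn ℝ ∞ (pb e c b) (e c).target ∧
        ∀ k, ∀ z ∈ (e c).target, dzb k (pb e c b) z = 0) ∧ MemLp b 2 μ ∧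
      ∫ p, ‖χ p - b p‖ ^ 2 ∂μ ≤ c₀⁻¹ * ∫ p, B p ∂μ :=
  hμ.hormander_of h
    (fun _ hu hweak => hμ.weak_holo_of h hψ hu fun hK hKV _ hd =>
      hμ.lemA h hu (fun f hf hf' => hweak f ⟨hf, hf'⟩) hK hKV hd)
    (fun _ ham ha hw => hμ.exists_rep h hV s hs ham ha hw)
    hc₀ hk0 curv hχ hχ2 hB0 hBi hB

end Pool.Agent.KRFQ

end
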